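import Pool.Agent.L5helper86.UL.Buni4

/-! Project UL (helper86): fixed polynomials in short intervals. -/

set_option autoImplicit false

namespace Pool.Agent.L5helper86.UL

open Finset Polynomial MeasureTheory ProbabilityTheory Filter Topology
open Pool.Agent.L5helper2.BH (pr mem_pr)
open Pool.Agent.L5helper2.RS (Vp Vp_eq Vp_pos Vp_le Vp_mertens bc poly_size)

lemma sum_logs2 (u : ℕ) {H : ℕ} (hH : 1 ≤ H) :
    ∑ m ∈ Ioc u (u + H), (Real.log ((u : ℝ) + H) - Real.log m) ≤ H := by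
  have h1 := sum_logs H hH
  have h2 : ∑ m ∈ Ioc u (u + H), (Real.log ((u : ℝ) + H) - Real.log m) =
      ∑ j ∈ Ico 1 (H + 1), (Real.log ((u : ℝ) + H) - Real.log ((u + j : ℕ) : ℝ)) := by
    refine sum_nbij' (fun m => m - u) (fun j => u + j) ?_ ?_ ?_ ?_ ?_
    · intro m hm
      rw [mem_Ioc] at hm
      rw [mem_Ico]
      omega
    · intro j hj
      rw [mem_Ico] at hj
      rw [mem_Ioc]
      omega
    · intro m hm
      rw [mem_Ioc] at hm
      show u + (m - u) = m
      omega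
    · intro j hj
      show u + j - u = j
      omega
    · intro m hm
      rw [mem_Ioc] at hm
      have e : u + (m - u) = m := by omega
      simp only [e]
  rw [h2]
  have hH0 : (0 : ℝ) < H := by exact_mod_cast hH
  calc _ ≤ ∑ j ∈ Ico 1 (H + 1), (Real.log H - Real.log j) := by
        refine sum_le_sum fun j hj => ?_
        rw [mem_Ico] at hj
        have hj0 : (0 : ℝ) < j := by exact_mod_cast hj.1
        have hjH : (j : ℝ) ≤ H := by exact_mod_cast (by omega : j ≤ H)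
        have hu0 : (0 : ℝ) ≤ u := by positivity
        have h3 : Real.log (((u : ℝ) + H) * j) ≤ Real.log (H * ((u : ℝ) + j)) := by
          refine Real.log_le_log (by positivity) ?_
          nlinarith
        rw [Real.log_mul (by positivity) (by positivity), Real.log_mul (by positivity) (by positivity)] at h3
        push_cast
        linarith
    _ = ∑ j ∈ Ico 1 H, (Real.log H - Real.log j) := by
        rw [sum_Ico_succ_top hH, sub_self, add_zero]
    _ ≤ H := h1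

lemma small_sqrt (B : ℕ) {K ε : ℝ} (hε : 0 < ε) : ∀ᶠ H : ℕ in atTop,
    K * ((B : ℝ) + 2) * Real.log H * (H : ℝ) ^ ((3 : ℝ) / 4) ≤ ε * H := by
  obtain ⟨K', hK', hKK⟩ : ∃ K' : ℝ, 0 < K' ∧ K ≤ K' := ⟨|K| + 1, by positivity, by linarith [le_abs_self K]⟩
  have h3 := (isLittleO_log_rpow_atTop (show (0 : ℝ) < 1 / 4 by norm_num)).bound
    (show 0 < ε / (K' * ((B : ℝ) + 2)) by positivity)
  have h4 := tendsto_natCast_atTop_atTop.eventually h3
  filter_upwards [h4, eventually_ge_atTop 1] with H h5 hH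
  have hH1 : (1 : ℝ) ≤ H := by exact_mod_cast hH
  have hH0 : (0 : ℝ) < H := by linarith
  have hl := Real.log_nonneg hH1
  rw [Real.norm_eq_abs, abs_of_nonneg hl, Real.norm_eq_abs, abs_of_nonneg (by positivity)] at h5
  have h6 : K' * ((B : ℝ) + 2) * Real.log H ≤ ε * (H : ℝ) ^ ((1 : ℝ) / 4) := by
    rw [div_mul_eq_mul_div, le_div_iff₀ (by positivity)] at h5
    linarith
  have h7 : K * ((B : ℝ) + 2) * Real.log H ≤ K' * ((B : ℝ) + 2) * Real.log H :=
    mul_le_mul_of_nonneg_right (mul_le_mul_of_nonneg_right hKK (by positivity)) hl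
  calc K * ((B : ℝ) + 2) * Real.log H * (H : ℝ) ^ ((3 : ℝ) / 4) ≤
        (ε * (H : ℝ) ^ ((1 : ℝ) / 4)) * (H : ℝ) ^ ((3 : ℝ) / 4) :=
        mul_le_mul_of_nonneg_right (h7.trans h6) (by positivity)
    _ = ε * H := by
        rw [mul_assoc, ← Real.rpow_add hH0]
        norm_num

lemma log_up {u H B : ℕ} (hH : 2 ≤ H) (hu : u ≤ H ^ B) : Real.log ((u : ℝ) + H) ≤ ((B : ℝ) + 2) * Real.log H := by
  have hH2 : (2 : ℝ) ≤ H := by exact_mod_cast hH
  have hH0 : (0 : ℝ) < H := by linarith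
  have h1 : (u : ℝ) + H ≤ (H : ℝ) ^ (B + 2) := by
    have h2 : (u : ℝ) ≤ (H : ℝ) ^ B := by exact_mod_cast hu
    have h3 : (1 : ℝ) ≤ (H : ℝ) ^ B := one_le_pow₀ (by linarith)
    have e : (H : ℝ) ^ (B + 2) = (H : ℝ) ^ B * H * H := by ring
    rw [e]
    have h4 : (H : ℝ) ≤ (H : ℝ) ^ B * H := le_mul_of_one_le_left hH0.le h3
    have h5 : (H : ℝ) ^ B * 2 ≤ (H : ℝ) ^ B * H := mul_le_mul_of_nonneg_left hH2 (by positivity)
    nlinarith
  have h2 := Real.log_le_log (by positivity) h1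
  rw [Real.log_pow] at h2
  push_cast at h2
  exact h2

lemma sum_dev {F : ℕ → ℝ} (h0 : ∀ m, 0 ≤ F m) (h1 : ∀ m, F m ≤ 1) {κ : ℝ} (hκ : 0 ≤ κ)
    (hF : Tendsto (fun m : ℕ => F m * Real.log m) atTop (𝓝 κ)) (B : ℕ) {ε : ℝ} (hε : 0 < ε) :
    ∀ᶠ H : ℕ in atTop, ∀ u : ℕ, u ≤ H ^ B →
      |∑ m ∈ Ioc u (u + H), F m - κ * (H / Real.log ((u : ℝ) + H))| ≤ ε * (H / Real.log ((u : ℝ) + H)) := by
  obtain ⟨K, hK⟩ : ∃ K : ℝ, K = 2 * (B : ℝ) + 4 := ⟨_, rfl⟩
  have hK0 : 0 < K := by rw [hK]; positivity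
  obtain ⟨η, hη⟩ : ∃ η : ℝ, η = ε / (3 * K) := ⟨_, rfl⟩
  have hη0 : 0 < η := by rw [hη]; positivity
  obtain ⟨m0, hm0⟩ := eventually_atTop.1 (Metric.tendsto_nhds.1 hF η hη0)
  filter_upwards [eventually_ge_atTop ((m0 + 2) ^ 2), logT.eventually_ge_atTop (max 1 (3 * (κ * K) / ε)),
    small_sqrt B (K := 1 + κ) (show 0 < ε / 3 by positivity)] with H hH hlog hsm u hu
  have hH2 : 2 ≤ H := by
    have h2 : 2 ^ 2 ≤ (m0 + 2) ^ 2 := Nat.pow_le_pow_left (by omega) 2
    omega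
  have hH1r : (1 : ℝ) ≤ H := by exact_mod_cast (by omega : 1 ≤ H)
  have hH0 : (0 : ℝ) < H := by linarith
  have hl1 : 1 ≤ Real.log H := (le_max_left _ _).trans hlog
  obtain ⟨L, hL⟩ : ∃ L, L = Real.log ((u : ℝ) + H) := ⟨_, rfl⟩
  have hu0 : (0 : ℝ) ≤ u := by positivity
  have hLH : Real.log H ≤ L := by
    rw [hL]
    exact Real.log_le_log hH0 (by linarith)
  have hL1 : 1 ≤ L := hl1.trans hLH
  have hL0 : 0 < L := by linarith
  have hL2 : 3 * (κ * K) / ε ≤ L := ((le_max_right _ _).trans hlog).trans hLH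
  have hLu := log_up hH2 hu
  rw [← hL] at hLu ⊢
  have hterm : ∀ m ∈ Ioc u (u + H), |F m - κ / L| ≤
      (η * K / L + κ * K / L ^ 2 * (L - Real.log m)) + (if m ≤ Nat.sqrt H then (1 + κ) else 0) := by
    intro m hm
    rw [mem_Ioc] at hm
    have hm1 : (1 : ℝ) ≤ m := by exact_mod_cast (by omega : 1 ≤ m)
    have hmL : Real.log m ≤ L := by
      rw [hL]
      refine Real.log_le_log (by linarith) ?_
      exact_mod_cast hm.2
    have hpos : 0 ≤ η * K / L + κ * K / L ^ 2 * (L - Real.log m) := by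
      have : 0 ≤ L - Real.log m := by linarith
      positivity
    split_ifs with hs
    · have h2 : κ / L ≤ κ := div_le_self hκ hL1
      have h3 : 0 ≤ κ / L := by positivity
      have h4 := h0 m
      have h5 := h1 m
      rw [abs_le]
      constructor <;> linarith
    · have hms : Nat.sqrt H < m := not_le.1 hs
      have hHm : H < m ^ 2 := Nat.sqrt_lt'.1 hms
      have hm0m : m0 + 2 ≤ m := by
        by_contra hcon
        have h2 : m ≤ m0 + 2 := by omega
        have h3 : m ^ 2 ≤ (m0 + 2) ^ 2 := Nat.pow_le_pow_left h2 2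
        omega
      have hm2 : (1 : ℝ) < m := by exact_mod_cast (by omega : 1 < m)
      have hlm : 0 < Real.log m := Real.log_pos hm2
      have hlH : Real.log H ≤ 2 * Real.log m := by
        have h2 : (H : ℝ) ≤ (m : ℝ) ^ 2 := by exact_mod_cast hHm.le
        have h3 := Real.log_le_log hH0 h2
        rwa [Real.log_pow, Nat.cast_ofNat] at h3
      have hLm : L ≤ K * Real.log m := by
        calc L ≤ ((B : ℝ) + 2) * Real.log H := hLu
          _ ≤ ((B : ℝ) + 2) * (2 * Real.log m) := mul_le_mul_of_nonneg_left hlH (by positivity)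
          _ = K * Real.log m := by rw [hK]; ring
      have hinv : 1 / Real.log m ≤ K / L := by
        rw [div_le_div_iff₀ hlm hL0]
        linarith
      have h2 := hm0 m (by omega)
      rw [Real.dist_eq] at h2
      have e1 : F m - κ / L = (F m * Real.log m - κ) * (1 / Real.log m) +
          κ / L * (L - Real.log m) * (1 / Real.log m) := by
        field_simp
        ring
      rw [e1, add_zero]
      refine (abs_add_le _ _).trans (add_le_add ?_ ?_)
      · rw [abs_mul, abs_of_pos (by positivity : 0 < 1 / Real.log m), mul_div_assoc]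
        exact mul_le_mul h2.le hinv (by positivity) hη0.le
      · have h3 : 0 ≤ κ / L * (L - Real.log m) := mul_nonneg (by positivity) (by linarith)
        rw [abs_of_nonneg (mul_nonneg h3 (by positivity))]
        calc κ / L * (L - Real.log m) * (1 / Real.log m) ≤ κ / L * (L - Real.log m) * (K / L) :=
              mul_le_mul_of_nonneg_left hinv h3
          _ = _ := by
              field_simp
  have hsum : |∑ m ∈ Ioc u (u + H), F m - κ * (H / L)| ≤
      H * (η * K / L) + κ * K / L ^ 2 * H + Nat.sqrt H * (1 + κ) := by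
    have e : κ * (H / L) = ∑ _m ∈ Ioc u (u + H), κ / L := by
      rw [sum_const, Nat.card_Ioc, nsmul_eq_mul]
      have e2 : u + H - u = H := by omega
      rw [e2]
      ring
    rw [e, ← sum_sub_distrib]
    refine (abs_sum_le_sum_abs _ _).trans ((sum_le_sum hterm).trans ?_)
    rw [sum_add_distrib, sum_add_distrib, ← mul_sum, sum_const, Nat.card_Ioc, nsmul_eq_mul]
    have e2 : u + H - u = H := by omega
    rw [e2]
    refine add_le_add (add_le_add le_rfl ?_) ?_
    · have h2 := sum_logs2 u (H := H) (by omega)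
      rw [← hL] at h2
      exact mul_le_mul_of_nonneg_left h2 (by positivity)
    · rw [← sum_filter, sum_const, nsmul_eq_mul]
      refine mul_le_mul_of_nonneg_right ?_ (by linarith)
      have h2 : #((Ioc u (u + H)).filter fun m => m ≤ Nat.sqrt H) ≤ #(Ioc 0 (Nat.sqrt H)) := by
        refine card_le_card fun m hm => ?_
        rw [mem_filter, mem_Ioc] at hm
        rw [mem_Ioc]
        omega
      rw [Nat.card_Ioc, Nat.sub_zero] at h2
      exact_mod_cast h2
  refine hsum.trans ?_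
  have t1 : (H : ℝ) * (η * K / L) = ε / 3 * (H / L) := by
    rw [hη]
    field_simp
  have t2 : κ * K / L ^ 2 * H ≤ ε / 3 * (H / L) := by
    have h2 : κ * K / L ≤ ε / 3 := by
      rw [div_le_iff₀ hL0]
      rw [div_le_iff₀ hε] at hL2
      linarith
    calc κ * K / L ^ 2 * H = κ * K / L * (H / L) := by
          field_simp
      _ ≤ ε / 3 * (H / L) := mul_le_mul_of_nonneg_right h2 (by positivity)
  have t3 : (Nat.sqrt H : ℝ) * (1 + κ) ≤ ε / 3 * (H / L) := by
    have h2 : (Nat.sqrt H : ℝ) ≤ (H : ℝ) ^ ((3 : ℝ) / 4) := by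
      have h3 : (Nat.sqrt H : ℝ) ≤ Real.sqrt H := by
        apply Real.le_sqrt_of_sq_le
        exact_mod_cast Nat.sqrt_le' H
      refine h3.trans ?_
      rw [Real.sqrt_eq_rpow]
      exact Real.rpow_le_rpow_of_exponent_le hH1r (by norm_num)
    rw [mul_div_assoc', le_div_iff₀ hL0]
    calc (Nat.sqrt H : ℝ) * (1 + κ) * L ≤ (H : ℝ) ^ ((3 : ℝ) / 4) * (1 + κ) * (((B : ℝ) + 2) * Real.log H) := by
          refine mul_le_mul (mul_le_mul_of_nonneg_right h2 (by linarith)) hLu hL0.le (by positivity)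
      _ = (1 + κ) * ((B : ℝ) + 2) * Real.log H * (H : ℝ) ^ ((3 : ℝ) / 4) := by ring
      _ ≤ ε / 3 * H := hsm
  linarith

/-- the law for fixed polynomials, in all intervals -/
theorem fixed_law {Ω : Type} [MeasurableSpace Ω] {P : Measure Ω} {X : ℕ → Ω → ℕ} (h : Sys P X) {θ : ℝ} (hθ : 0 < θ)
    {w : ℕ → ℝ} (hwm : Monotone w) (hw1 : ∀ᶠ v : ℕ in atTop, (Real.log v) ^ 5 ≤ w v)
    (hw : ∀ ε : ℝ, 0 < ε → ∀ᶠ n : ℕ in atTop, w n ≤ Real.exp (ε * Real.log n / Real.log (Real.log n))) :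
    ∀ᵐ ω ∂P, ∀ f : ℤ[X], 1 ≤ f.natDegree → ∀ C : ℝ, Tendsto (BH f) atTop (𝓝 C) → ∀ B : ℕ, ∀ ε : ℝ, 0 < ε →
      ∀ᶠ H : ℕ in atTop, ∀ u : ℕ, u ≤ H ^ B →
      |BC w θ (fun p => X p ω) f u H -
        C * (Real.exp (-Real.eulerMascheroniConstant) / θ) / f.natDegree * (H / Real.log ((u : ℝ) + H))| ≤
        ε * (H / Real.log ((u : ℝ) + H)) := by
  classical
  have hwT : Tendsto w atTop atTop := by
    refine tendsto_atTop_mono' _ hw1 ?_
    exact (tendsto_pow_atTop (by norm_num)).comp logT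
  filter_upwards [buni_law h hθ hwm hw1 hw] with ω h1 f hf C hC B ε hε
  have hMD := MD_lim hθ hwT (hw_pow hθ hw) hf hC
  obtain ⟨κ, hκ⟩ : ∃ κ, κ = C * (Real.exp (-Real.eulerMascheroniConstant) / θ) / f.natDegree := ⟨_, rfl⟩
  rw [← hκ] at hMD ⊢
  obtain ⟨F, hF⟩ : ∃ F : ℕ → ℝ, F = fun m : ℕ => MD f ⌊w (f.eval (m : ℤ)).natAbs⌋₊
    ⌊((f.eval (m : ℤ)).natAbs : ℝ) ^ θ⌋₊ := ⟨_, rfl⟩
  have hF0 : ∀ m, 0 ≤ F m := fun m => by rw [hF]; exact MD_nonneg _ _ _
  have hF1 : ∀ m, F m ≤ 1 := fun m => by rw [hF]; exact MD_le _ _ _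
  have hFl : Tendsto (fun m : ℕ => F m * Real.log m) atTop (𝓝 κ) := by rw [hF]; exact hMD
  have hκ0 : 0 ≤ κ := by
    refine ge_of_tendsto hFl ?_
    filter_upwards [eventually_ge_atTop 1] with m hm
    exact mul_nonneg (hF0 m) (Real.log_nonneg (by exact_mod_cast hm))
  obtain ⟨ε', hε'⟩ : ∃ ε' : ℝ, ε' = min (min (ε / (3 * (κ + 1))) (1 / 4)) (ε / 3) := ⟨_, rfl⟩
  have hε'0 : 0 < ε' := by rw [hε']; positivity
  have hε'1 : ε' ≤ ε / (3 * (κ + 1)) := by rw [hε']; exact (min_le_left _ _).trans (min_le_left _ _)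
  have hε'2 : ε' ≤ 1 / 4 := by rw [hε']; exact (min_le_left _ _).trans (min_le_right _ _)
  have hε'3 : ε' ≤ ε / 3 := by rw [hε']; exact min_le_right _ _
  have hs := sum_dev hF0 hF1 hκ0 hFl B hε'0
  -- the coefficients
  obtain ⟨c0, hc0⟩ : ∃ c0 : ℕ, ∀ j, |f.coeff j| ≤ c0 := by
    refine ⟨∑ j ∈ f.support, (f.coeff j).natAbs, fun j => ?_⟩
    by_cases hj : j ∈ f.support
    · have h2 : (f.coeff j).natAbs ≤ ∑ j ∈ f.support, (f.coeff j).natAbs :=
        single_le_sum (f := fun j => (f.coeff j).natAbs) (fun _ _ => Nat.zero_le _) hj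
      rw [Int.abs_eq_natAbs]
      exact_mod_cast h2
    · rw [notMem_support_iff.1 hj, abs_zero]
      positivity
  have hNC : ∀ p : ℕ, p.Prime → f.leadingCoeff.natAbs < p → NC (cs f) p := by
    intro p hp hlt i c hcon
    have h2 := congrArg (fun g : (ZMod p)[X] => g.coeff f.natDegree) hcon
    simp only [rd, cs, coeff_map, coeff_C] at h2
    rw [if_neg (by omega)] at h2
    have h3 : (p : ℤ) ∣ f.coeff f.natDegree := by
      rw [← ZMod.intCast_zmod_eq_zero_iff_dvd]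
      simpa using h2
    have h4 : f.leadingCoeff ≠ 0 := by
      rw [Ne, leadingCoeff_eq_zero]
      rintro rfl
      simp at hf
    have h5 := Int.natAbs_le_of_dvd_ne_zero h3 h4
    simp only [Int.natAbs_natCast] at h5
    have h6 : f.leadingCoeff.natAbs = (f.coeff f.natDegree).natAbs := rfl
    omega
  filter_upwards [h1 f.natDegree (max B 1) ε' hε'0, hs, WW_tendsto.eventually_ge_atTop f.leadingCoeff.natAbs,
    eventually_ge_atTop (max c0 2), small_sqrt B (K := 1) (show 0 < ε / 3 by positivity),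
    logT.eventually_ge_atTop 1] with H h2 h3 h4 h5 h6 h7 u hu
  have hH2 : 2 ≤ H := (le_max_right _ _).trans h5
  have hH1r : (1 : ℝ) ≤ H := by exact_mod_cast (by omega : 1 ≤ H)
  have hH0 : (0 : ℝ) < H := by linarith
  have hH1z : (1 : ℤ) ≤ H := by exact_mod_cast (by omega : 1 ≤ H)
  have h8 := h2 u (by
    rw [abs_of_nonneg (by positivity)]
    have h9 : (u : ℤ) ≤ (H : ℤ) ^ B := by exact_mod_cast hu
    exact h9.trans (pow_le_pow_right₀ hH1z (le_max_left _ _))) f le_rfl (fun j => by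
    have h9 : (c0 : ℤ) ≤ H := by exact_mod_cast (le_max_left _ _).trans h5
    refine ((hc0 j).trans h9).trans ?_
    exact le_self_pow₀ hH1z (by have := le_max_right B 1; omega)) (fun p hp hlt => hNC p hp (by omega))
  have h9 := h3 u hu
  have hBM : BM w θ f u H = ∑ m ∈ Ioc u (u + H), F m := by
    unfold BM
    rw [hF]
    exact sum_int u H fun m : ℤ => MD f ⌊w (f.eval m).natAbs⌋₊ ⌊((f.eval m).natAbs : ℝ) ^ θ⌋₊
  rw [← hBM] at h9
  obtain ⟨L, hL⟩ : ∃ L, L = Real.log ((u : ℝ) + H) := ⟨_, rfl⟩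
  have hu0 : (0 : ℝ) ≤ u := by positivity
  have hLH : Real.log H ≤ L := by
    rw [hL]
    exact Real.log_le_log hH0 (by linarith)
  have hL0 : 0 < L := by linarith
  have hLu := log_up hH2 hu
  rw [← hL] at hLu h9 ⊢
  obtain ⟨T, hT⟩ : ∃ T : ℝ, T = H / L := ⟨_, rfl⟩
  have hT0 : 0 < T := by rw [hT]; positivity
  rw [← hT] at h9 ⊢
  have h10 : (H : ℝ) ^ (1 / 2 + ε') ≤ ε / 3 * T := by
    have h11 : (H : ℝ) ^ (1 / 2 + ε') ≤ (H : ℝ) ^ ((3 : ℝ) / 4) :=
      Real.rpow_le_rpow_of_exponent_le hH1r (by linarith)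
    refine h11.trans ?_
    rw [hT, mul_div_assoc', le_div_iff₀ hL0]
    calc (H : ℝ) ^ ((3 : ℝ) / 4) * L ≤ (H : ℝ) ^ ((3 : ℝ) / 4) * (((B : ℝ) + 2) * Real.log H) :=
          mul_le_mul_of_nonneg_left hLu (by positivity)
      _ = 1 * ((B : ℝ) + 2) * Real.log H * (H : ℝ) ^ ((3 : ℝ) / 4) := by ring
      _ ≤ ε / 3 * H := h6
  have h11 : ε' * BM w θ f u H ≤ ε / 3 * T := by
    have h12 : BM w θ f u H ≤ (κ + 1) * T := by
      have := (abs_le.1 h9).2
      nlinarith
    calc ε' * BM w θ f u H ≤ ε / (3 * (κ + 1)) * ((κ + 1) * T) :=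
          mul_le_mul hε'1 h12 (BM_nonneg _ _ _ _ _) (by positivity)
      _ = ε / 3 * T := by
          field_simp
  have h12 : ε' * T ≤ ε / 3 * T := mul_le_mul_of_nonneg_right hε'3 hT0.le
  have h13 := abs_sub_le (BC w θ (fun p => X p ω) f u H) (BM w θ f u H) (κ * T)
  linarith

end Pool.Agent.L5helper86.UL
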