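import Pool.Agent.L5helper86.UL.Gold5

/-! Project UL (helper86): the density of the random set; the statements over the natural numbers. -/

set_option autoImplicit false

namespace Pool.Agent.L5helper86.UL

open Finset Polynomial MeasureTheory ProbabilityTheory Filter Topology
open Pool.Agent.L5helper2.BH (pr mem_pr)
open Pool.Agent.L5helper2.RS (Vp Vp_eq Vp_pos Vp_le Vp_mertens bc)

/-- one polynomial -/
noncomputable def sg : Fin 1 → ℤ[X] := fun _ => Polynomial.X

lemma sg_eval (i : Fin 1) (m : ℤ) : (sg i).eval m = m := by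
  unfold sg
  rw [eval_X]

lemma US_one {a : ℕ → ℕ} {α : Finset (Fin 1) × Finset (Fin 1)} (hα : α.2 ⊆ α.1) {p : ℕ} (hp : p.Prime) :
    US sg (fun _ => 0) a α p = #α.1 := by
  classical
  have hp0 := hp.pos
  unfold US
  simp only [sg_eval]
  by_cases h1 : (0 : Fin 1) ∈ α.1
  · have hα1 : α.1 = {0} := by
      ext i
      have : i = 0 := Subsingleton.elim _ _
      subst this
      simpa using h1
    rw [hα1, card_singleton]
    by_cases h2 : (0 : Fin 1) ∈ α.2
    · have h3 := one_class hp0 0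
      refine Eq.trans (congrArg card (filter_congr fun t _ => ?_)) h3
      constructor
      · rintro (⟨i, hi, _⟩ | ⟨i, _, h⟩)
        · exfalso
          have : i = 0 := Subsingleton.elim _ _
          subst this
          exact (Finset.mem_sdiff.1 hi).2 h2
        · exact h
      · intro h
        exact Or.inr ⟨0, h2, h⟩
    · have h3 := one_class hp0 (a p)
      refine Eq.trans (congrArg card (filter_congr fun t _ => ?_)) h3
      constructor
      · rintro (⟨i, _, h⟩ | ⟨i, hi, _⟩)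
        · exact h
        · exfalso
          have : i = 0 := Subsingleton.elim _ _
          subst this
          exact h2 hi
      · intro h
        exact Or.inl ⟨0, Finset.mem_sdiff.2 ⟨mem_singleton_self _, h2⟩, h⟩
  · have hα1 : α.1 = ∅ := by
      ext i
      have : i = 0 := Subsingleton.elim _ _
      subst this
      simpa using h1
    have hα2 : α.2 = ∅ := by
      rw [← subset_empty, ← hα1]
      exact hα
    rw [hα1, hα2, card_empty]
    simp

/-- the density for one polynomial -/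
lemma dens_one {θ : ℝ} {w : ℕ → ℝ} (a : ℕ → ℕ) {m : ℕ} (hm : w m ≤ (m : ℝ) ^ θ) :
    densS w (fun v : ℕ => (v : ℝ) ^ θ) sg (fun _ => 0) a m = VV θ m := by
  classical
  obtain ⟨M, hM⟩ : ∃ M : ℕ, M = ⌈(m : ℝ) ^ θ⌉₊ := ⟨_, rfl⟩
  have hMm : (m : ℝ) ^ θ ≤ M := by rw [hM]; exact Nat.le_ceil _
  have hv : ∀ i, ((sg i).eval (m : ℤ)).natAbs = m := fun i => by rw [sg_eval]; simp
  rw [densS_eq (M := M) (fun i => by rw [hv]; exact hMm) fun i => by rw [hv]; exact hm.trans hMm]
  have h10 := prod_al (k := 1) (M := M) (ℓ := fun _ => ⌊(m : ℝ) ^ θ⌋₊) (fun i => Nat.floor_le_of_le hMm)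
  rw [Fin.prod_univ_one] at h10
  unfold VV
  rw [← h10]
  refine prod_congr rfl fun p hp => ?_
  have hpp := (mem_pr.1 hp).2
  have hp2 : (2 : ℝ) ≤ p := by exact_mod_cast hpp.two_le
  have hlab1 : ((PT w (fun v : ℕ => (v : ℝ) ^ θ) sg).lab p (m : ℤ)).1 = al (fun _ => ⌊(m : ℝ) ^ θ⌋₊) p := by
    show univ.filter (fun i => (p : ℝ) ≤ (((((sg i).eval (m : ℤ)).natAbs : ℕ)) : ℝ) ^ θ) = _
    unfold al
    refine filter_congr fun i _ => ?_
    rw [hv, Nat.le_floor_iff' hpp.ne_zero]
  have hsub : ((PT w (fun v : ℕ => (v : ℝ) ^ θ) sg).lab p (m : ℤ)).2 ⊆ ((PT w (fun v : ℕ => (v : ℝ) ^ θ) sg).lab p (m : ℤ)).1 := by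
    show univ.filter (fun i => (p : ℝ) ≤ w ((sg i).eval (m : ℤ)).natAbs) ⊆
      univ.filter (fun i => (p : ℝ) ≤ (((((sg i).eval (m : ℤ)).natAbs : ℕ)) : ℝ) ^ θ)
    intro i hi
    rw [mem_filter, hv] at hi ⊢
    exact ⟨hi.1, hi.2.trans hm⟩
  rw [US_one hsub hpp, hlab1]
  have hc : #(al (fun _ : Fin 1 => ⌊(m : ℝ) ^ θ⌋₊) p) ≤ 1 := (card_le_univ _).trans (by rw [Fintype.card_fin])
  interval_cases hcard : #(al (fun _ : Fin 1 => ⌊(m : ℝ) ^ θ⌋₊) p)
  · simp
  · simp

open Classical in
/-- the number of the elements of the random set -/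
noncomputable def CC (w : ℕ → ℝ) (θ : ℝ) (a : ℕ → ℕ) (n : ℕ) : ℝ :=
  #((Ioc (0 : ℤ) (0 + (n : ℤ))).filter fun m => ∀ i : Fin 1, SR w (fun v : ℕ => (v : ℝ) ^ θ) (fun _ => 0) a ((sg i).eval m))

/-- the density of the random set -/
theorem set_density {Ω : Type} [MeasurableSpace Ω] {P : Measure Ω} {X : ℕ → Ω → ℕ} (h : Sys P X) {θ : ℝ} (hθ : 0 < θ)
    {w : ℕ → ℝ} (hwm : Monotone w)
    (hw : ∀ ε : ℝ, 0 < ε → ∀ᶠ n : ℕ in atTop, w n ≤ Real.exp (ε * Real.log n / Real.log (Real.log n))) :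
    ∀ᵐ ω ∂P, Tendsto (fun n : ℕ => CC w θ (fun p => X p ω) n * (Real.log n / n)) atTop
        (𝓝 (Real.exp (-Real.eulerMascheroniConstant) / θ)) := by
  classical
  obtain ⟨c, hc⟩ : ∃ c, c = Real.exp (-Real.eulerMascheroniConstant) / θ := ⟨_, rfl⟩
  have hc0 : 0 < c := by rw [hc]; exact div_pos (Real.exp_pos _) hθ
  obtain ⟨v1, hv1⟩ := eventually_atTop.1 (hw_pow hθ hw)
  filter_upwards [semi_law h hwm (z_mono hθ) (z_bound hθ) hw] with ω h1
  have hdev := mean_dev hθ
  rw [← hc] at hdev ⊢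
  have hln : Tendsto (fun n : ℕ => Real.log n / n) atTop (𝓝 0) :=
    (Real.isLittleO_log_id_atTop.tendsto_div_nhds_zero).comp tendsto_natCast_atTop_atTop
  obtain ⟨Dn, hDn⟩ : ∃ Dn : ℕ → ℝ, Dn = fun n : ℕ => ∑ m ∈ Ioc (0 : ℤ) (0 + (n : ℤ)),
    densS w (fun v : ℕ => (v : ℝ) ^ θ) sg (fun _ => 0) (fun p => X p ω) m := ⟨_, rfl⟩
  -- the main term
  have hmain : Tendsto (fun n : ℕ => Dn n * (Real.log n / n)) atTop (𝓝 c) := by
    have hkey : ∀ᶠ n : ℕ in atTop, |Dn n * (Real.log n / n) - c| ≤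
        ((n : ℝ))⁻¹ * ∑ m ∈ Ico 1 n, |Real.log n * VV θ m - c| + ((v1 : ℝ) + 2) * (Real.log n / n) + c * ((n : ℝ))⁻¹ := by
      filter_upwards [eventually_ge_atTop 1] with n hn
      have hn0 : (0 : ℝ) < n := by exact_mod_cast hn
      have hlog0 : 0 ≤ Real.log n := Real.log_nonneg (by exact_mod_cast hn)
      have e1 : Dn n = ∑ m ∈ Ioc 0 n, densS w (fun v : ℕ => (v : ℝ) ^ θ) sg (fun _ => 0) (fun p => X p ω) ((m : ℕ) : ℤ) := by
        rw [hDn]
        have := sum_int 0 n (densS w (fun v : ℕ => (v : ℝ) ^ θ) sg (fun _ => 0) (fun p => X p ω))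
        simpa using this
      have e2 : |Dn n - ∑ m ∈ Ico 1 n, VV θ m| ≤ (v1 : ℝ) + 2 := by
        have e3 : Ioc 0 n = insert n (Ico 1 n) := by
          ext m
          rw [mem_Ioc, mem_insert, mem_Ico]
          omega
        rw [e1, e3, sum_insert (by rw [mem_Ico]; omega), add_sub_assoc, ← sum_sub_distrib]
        have b1 := densS_01' w (fun v : ℕ => (v : ℝ) ^ θ) sg (fun _ => 0) (fun p => X p ω) (n : ℤ)
        have b2 : |∑ m ∈ Ico 1 n, (densS w (fun v : ℕ => (v : ℝ) ^ θ) sg (fun _ => 0) (fun p => X p ω) ((m : ℕ) : ℤ) - VV θ m)| ≤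
            (v1 : ℝ) := by
          refine (abs_sum_le_sum_abs _ _).trans ?_
          calc ∑ m ∈ Ico 1 n, |densS w (fun v : ℕ => (v : ℝ) ^ θ) sg (fun _ => 0) (fun p => X p ω) ((m : ℕ) : ℤ) - VV θ m| ≤
                ∑ m ∈ Ico 1 n, (if m < v1 then (1 : ℝ) else 0) := by
                refine sum_le_sum fun m _ => ?_
                split_ifs with hcase
                · have b3 := densS_01' w (fun v : ℕ => (v : ℝ) ^ θ) sg (fun _ => 0) (fun p => X p ω) (m : ℤ)
                  have b4 := VV_pos θ m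
                  have b5 := VV_le θ m
                  rw [abs_le]
                  constructor <;> linarith [b3.1, b3.2]
                · rw [dens_one _ (hv1 m (not_lt.1 hcase)), sub_self, abs_zero]
            _ = #((Ico 1 n).filter fun m => m < v1) := by rw [← sum_filter]; simp
            _ ≤ v1 := by
                have : #((Ico 1 n).filter fun m => m < v1) ≤ v1 := by
                  calc #((Ico 1 n).filter fun m => m < v1) ≤ #(range v1) :=
                        card_le_card fun m hm => mem_range.2 (mem_filter.1 hm).2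
                    _ = v1 := card_range v1
                exact_mod_cast this
        rw [abs_le] at b2 ⊢
        constructor <;> linarith [b1.1, b1.2, b2.1, b2.2]
      have e4 : Dn n * (Real.log n / n) - c = (Dn n - ∑ m ∈ Ico 1 n, VV θ m) * (Real.log n / n) +
          (((n : ℝ))⁻¹ * ∑ m ∈ Ico 1 n, (Real.log n * VV θ m - c) - c * ((n : ℝ))⁻¹) := by
        rw [sum_sub_distrib, ← mul_sum, sum_const, Nat.card_Ico, nsmul_eq_mul, Nat.cast_sub hn, Nat.cast_one]
        field_simp
        ring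
      rw [e4]
      have hx : 0 ≤ Real.log n / n := by positivity
      have a1 : |(Dn n - ∑ m ∈ Ico 1 n, VV θ m) * (Real.log n / n)| ≤ ((v1 : ℝ) + 2) * (Real.log n / n) := by
        rw [abs_mul, abs_of_nonneg hx]
        exact mul_le_mul_of_nonneg_right e2 hx
      have a2 : |((n : ℝ))⁻¹ * ∑ m ∈ Ico 1 n, (Real.log n * VV θ m - c)| ≤
          ((n : ℝ))⁻¹ * ∑ m ∈ Ico 1 n, |Real.log n * VV θ m - c| := by
        rw [abs_mul, abs_of_nonneg (by positivity : 0 ≤ ((n : ℝ))⁻¹)]
        exact mul_le_mul_of_nonneg_left (abs_sum_le_sum_abs _ _) (by positivity)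
      have a3 : 0 ≤ c * ((n : ℝ))⁻¹ := by positivity
      rw [abs_le] at a1 a2 ⊢
      constructor <;> linarith [a1.1, a1.2, a2.1, a2.2]
    rw [tendsto_iff_norm_sub_tendsto_zero]
    refine squeeze_zero' (Eventually.of_forall fun n => norm_nonneg _) hkey ?_
    have h1n : Tendsto (fun n : ℕ => (n : ℝ)⁻¹) atTop (𝓝 0) := tendsto_inv_atTop_nhds_zero_nat
    have := (hdev.add (hln.const_mul ((v1 : ℝ) + 2))).add (h1n.const_mul c)
    simpa using this
  -- the error
  have herr : Tendsto (fun n : ℕ => (CC w θ (fun p => X p ω) n - Dn n) * (Real.log n / n)) atTop (𝓝 0) := by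
    have hb : ∀ᶠ n : ℕ in atTop, |(CC w θ (fun p => X p ω) n - Dn n) * (Real.log n / n)| ≤
        (Dn n * (Real.log n / n)) * (Real.log n)⁻¹ + Real.log n * (n : ℝ) ^ (-(1 / 4 : ℝ)) := by
      filter_upwards [h1 1 1 1 1 (1 / 4) (by norm_num), eventually_ge_atTop 2] with n h2 hn
      have hn1 : (1 : ℝ) < n := by exact_mod_cast (by omega : 1 < n)
      have hn0 : (0 : ℝ) < n := by linarith
      have hlog0 : 0 < Real.log n := Real.log_pos hn1
      have hn1z : (1 : ℤ) ≤ n := by exact_mod_cast (by omega : 1 ≤ n)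
      have h3 := h2 0 (by rw [abs_zero]; positivity) sg (fun i => by unfold sg; rw [natDegree_X]) (fun i j => by
        unfold sg
        rw [coeff_X]
        split_ifs
        · rw [abs_one, pow_one]
          exact hn1z
        · rw [abs_zero]
          positivity) (fun _ => 0)
      have h4 := h3.2
      have e0 : Dn n = ∑ m ∈ Ioc (0 : ℤ) (0 + (n : ℤ)),
        densS w (fun v : ℕ => (v : ℝ) ^ θ) sg (fun _ => 0) (fun p => X p ω) m := by rw [hDn]
      rw [← e0, pow_one] at h4
      have hx : 0 ≤ Real.log n / n := by positivity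
      rw [abs_mul, abs_of_nonneg hx]
      have h5 : |CC w θ (fun p => X p ω) n - Dn n| ≤ Dn n / Real.log n + (n : ℝ) ^ ((1 : ℝ) / 2 + 1 / 4) := h4
      refine (mul_le_mul_of_nonneg_right h5 hx).trans (le_of_eq ?_)
      have e5 : (n : ℝ) ^ ((1 : ℝ) / 2 + 1 / 4) * (Real.log n / n) = Real.log n * (n : ℝ) ^ (-(1 / 4 : ℝ)) := by
        have e6 : (n : ℝ) ^ (-(1 / 4 : ℝ)) = (n : ℝ) ^ ((1 : ℝ) / 2 + 1 / 4) / n := by
          rw [eq_div_iff hn0.ne']
          nth_rewrite 2 [← Real.rpow_one (n : ℝ)]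
          rw [← Real.rpow_add hn0]
          norm_num
        rw [e6]
        ring
      rw [add_mul, e5]
      ring
    refine squeeze_zero_norm' hb ?_
    have h2 : Tendsto (fun n : ℕ => (Real.log n)⁻¹) atTop (𝓝 0) := logT.inv_tendsto_atTop
    have h3 : Tendsto (fun n : ℕ => Real.log n * (n : ℝ) ^ (-(1 / 4 : ℝ))) atTop (𝓝 0) := by
      have h4 := (isLittleO_log_rpow_atTop (show (0 : ℝ) < 1 / 4 by norm_num)).tendsto_div_nhds_zero
      have h5 := h4.comp tendsto_natCast_atTop_atTop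
      refine h5.congr' ?_
      filter_upwards [eventually_ge_atTop 1] with n hn
      have hn0 : (0 : ℝ) < n := by exact_mod_cast hn
      simp only [Function.comp_apply]
      rw [Real.rpow_neg hn0.le]
      rfl
    have := (hmain.mul h2).add h3
    simpa using this
  have := herr.add hmain
  refine (this.congr fun n => ?_).trans (by simp)
  ring

end Pool.Agent.L5helper86.UL
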