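import Pool.Agent.L5helper86.UL.Rec

/-! Project UL (helper86): sets given by order conditions on polynomial values are well distributed in residue classes. -/

set_option autoImplicit false

namespace Pool.Agent.L5helper86.UL

open Finset Polynomial

/-- one interval and one residue class -/
lemma card_modEq (u : ℤ) (N : ℕ) {d : ℕ} (hd : 0 < d) (r : ℤ) :
    |(#((Ioc u (u + N)).filter (fun m => m ≡ r [ZMOD d])) : ℝ) - (N : ℝ) / d| ≤ 1 := by
  have hdz : (0 : ℤ) < d := by exact_mod_cast hd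
  have hd0 : (0 : ℝ) < d := by exact_mod_cast hd
  have h := Int.Ioc_filter_modEq_card u (u + N) hdz r
  have e1 : ((((u + (N : ℤ) : ℤ) : ℚ) - r) / ((d : ℤ) : ℚ)) = ((u : ℚ) - r) / ((d : ℤ) : ℚ) + N / d := by
    push_cast
    ring
  have hle : ⌊((u : ℚ) - r) / ((d : ℤ) : ℚ)⌋ ≤ ⌊(((u + (N : ℤ) : ℤ) : ℚ) - r) / ((d : ℤ) : ℚ)⌋ := by
    apply Int.floor_le_floor
    rw [e1]
    have : (0 : ℚ) ≤ N / d := by positivity
    linarith
  rw [max_eq_left (by linarith)] at h
  have f1 := Int.floor_le (((u : ℚ) - r) / ((d : ℤ) : ℚ))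
  have f2 := Int.lt_floor_add_one (((u : ℚ) - r) / ((d : ℤ) : ℚ))
  have f3 := Int.floor_le ((((u + (N : ℤ) : ℤ) : ℚ) - r) / ((d : ℤ) : ℚ))
  have f4 := Int.lt_floor_add_one ((((u + (N : ℤ) : ℤ) : ℚ) - r) / ((d : ℤ) : ℚ))
  have h5 : |(((#((Ioc u (u + N)).filter (fun m => m ≡ r [ZMOD d])) : ℤ)) : ℚ) - (N : ℚ) / d| ≤ 1 := by
    rw [h]
    push_cast
    rw [e1] at f3 f4
    push_cast at f1 f2 f3 f4 e1
    rw [e1]
    rw [abs_le]
    constructor <;> linarith
  have h6 : ((|(((#((Ioc u (u + N)).filter (fun m => m ≡ r [ZMOD d])) : ℤ)) : ℚ) - (N : ℚ) / d| : ℚ) : ℝ) ≤ ((1 : ℚ) : ℝ) :=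
    by exact_mod_cast h5
  push_cast at h6
  exact h6

open Classical in
/-- the discrepancy is bounded by the number of the changes -/
lemma disc_changes (f : ℤ → Prop) (u : ℤ) (N : ℕ) {d : ℕ} (hd : 0 < d) (r : ℤ) {K : ℕ}
    (hK : #((Ioo u (u + N)).filter (fun m => ¬ (f m ↔ f (m + 1)))) ≤ K) :
    |(#(((Ioc u (u + N)).filter f).filter (fun m => m ≡ r [ZMOD d])) : ℝ) - (#((Ioc u (u + N)).filter f) : ℝ) / d| ≤
      1 + K := by
  obtain ⟨c, hc⟩ : ∃ c : ℕ → ℝ, c = (fun i : ℕ => if f (u + 1 + (i : ℤ)) then (1 : ℝ) else 0) := ⟨_, rfl⟩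
  obtain ⟨e, he⟩ : ∃ e : ℕ → ℝ, e = (fun i : ℕ => (if (u + 1 + (i : ℤ)) ≡ r [ZMOD d] then (1 : ℝ) else 0) - 1 / (d : ℝ)) := ⟨_, rfl⟩
  have hbij : ∀ (M : ℕ) (H : ℤ → ℝ), ∑ m ∈ Ioc u (u + M), H m = ∑ i ∈ range M, H (u + 1 + i) := by
    intro M H
    symm
    refine sum_bij (fun (i : ℕ) _ => u + 1 + (i : ℤ)) ?_ ?_ ?_ ?_
    · intro i hi
      rw [mem_range] at hi
      rw [mem_Ioc]
      constructor
      · omega
      · omega
    · intro i _ j _ hij
      omega
    · intro m hm
      rw [mem_Ioc] at hm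
      refine ⟨(m - u - 1).toNat, ?_, ?_⟩
      · rw [mem_range]
        omega
      · omega
    · intro i _
      rfl
  have hG : ∀ j : ℕ, |∑ i ∈ range j, e i| ≤ 1 := by
    intro j
    have h1 := card_modEq u j hd r
    have e2 : ∑ i ∈ range j, e i = (#((Ioc u (u + j)).filter (fun m => m ≡ r [ZMOD d])) : ℝ) - (j : ℝ) / d := by
      rw [he]
      simp only [sum_sub_distrib, sum_const, card_range, nsmul_eq_mul]
      rw [← hbij j (fun m => if m ≡ r [ZMOD d] then 1 else 0), ← sum_filter, sum_const, nsmul_eq_mul, mul_one]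
      ring
    rw [e2]
    exact h1
  have hmain : (#(((Ioc u (u + N)).filter f).filter (fun m => m ≡ r [ZMOD d])) : ℝ) - (#((Ioc u (u + N)).filter f) : ℝ) / d =
      ∑ i ∈ range N, c i * e i := by
    have e3 : ∑ i ∈ range N, c i * e i = ∑ m ∈ Ioc u (u + N), (if f m then 1 else 0) *
        ((if m ≡ r [ZMOD d] then 1 else 0) - 1 / (d : ℝ)) := by
      rw [hbij, hc, he]
    rw [e3]
    have e4 : ∀ m : ℤ, (if f m then (1 : ℝ) else 0) * ((if m ≡ r [ZMOD d] then 1 else 0) - 1 / (d : ℝ)) =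
        (if f m then (if m ≡ r [ZMOD d] then 1 else 0) else 0) - (1 / (d : ℝ)) * (if f m then 1 else 0) := by
      intro m
      by_cases hf : f m
      · simp [hf]
      · simp [hf]
    simp only [e4]
    rw [sum_sub_distrib, ← mul_sum, ← sum_filter, ← sum_filter, ← sum_filter, sum_const, sum_const, nsmul_eq_mul,
      nsmul_eq_mul]
    ring
  rw [hmain]
  have hab := sum_range_by_parts c e N
  simp only [smul_eq_mul] at hab
  rw [hab]
  have hc1 : ∀ i, |c i| ≤ 1 := by
    intro i
    rw [hc]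
    simp only
    split_ifs <;> simp
  refine (abs_sub _ _).trans (add_le_add ?_ ?_)
  · rw [abs_mul]
    exact mul_le_one₀ (hc1 _) (abs_nonneg _) (hG _)
  · refine (abs_sum_le_sum_abs _ _).trans ?_
    have h3 : ∀ i ∈ range (N - 1), |(c (i + 1) - c i) * ∑ j ∈ range (i + 1), e j| ≤
        if ¬ (f (u + 1 + i) ↔ f (u + 1 + i + 1)) then (1 : ℝ) else 0 := by
      intro i _
      rw [abs_mul]
      have e5 : c (i + 1) = if f (u + 1 + i + 1) then 1 else 0 := by
        rw [hc]
        simp only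
        have : u + 1 + ((i + 1 : ℕ) : ℤ) = u + 1 + i + 1 := by push_cast; ring
        rw [this]
      have e6 : c i = if f (u + 1 + i) then 1 else 0 := by rw [hc]
      have h4 := hG (i + 1)
      rw [e5, e6]
      by_cases h5 : f (u + 1 + i) <;> by_cases h6 : f (u + 1 + i + 1)
      · simp [h5, h6]
      · simp [h5, h6]
        exact h4
      · simp [h5, h6]
        exact h4
      · simp [h5, h6]
    refine (sum_le_sum h3).trans ?_
    rw [← sum_filter, sum_const, nsmul_eq_mul, mul_one]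
    have h7 : #((range (N - 1)).filter fun i : ℕ => ¬ (f (u + 1 + i) ↔ f (u + 1 + i + 1))) ≤
        #((Ioo u (u + N)).filter (fun m => ¬ (f m ↔ f (m + 1)))) := by
      apply card_le_card_of_injOn (fun i : ℕ => u + 1 + (i : ℤ))
      · intro i hi
        rw [mem_coe, mem_filter, mem_range] at hi
        rw [mem_coe, mem_filter, mem_Ioo]
        have h8 := hi.1
        refine ⟨⟨?_, ?_⟩, hi.2⟩
        · show u < u + 1 + (i : ℤ)
          omega
        · show u + 1 + (i : ℤ) < u + N
          omega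
      · intro i _ j _ hij
        simp only at hij
        omega
    exact_mod_cast h7.trans hK

/-- crossings of a level -/
lemma cross (g : ℤ[X]) (C : ℤ) (I : Finset ℤ) :
    #(I.filter (fun m : ℤ => ¬ (g.eval m ^ 2 ≤ C ↔ g.eval (m + 1) ^ 2 ≤ C))) ≤ 4 * g.natDegree := by
  classical
  by_cases hg : g.natDegree = 0
  · obtain ⟨a, rfl⟩ := natDegree_eq_zero.1 hg
    simp
  · obtain ⟨h, hh⟩ : ∃ h : ℝ[X], h = (g.map (Int.castRingHom ℝ)) ^ 2 - Polynomial.C (C : ℝ) := ⟨_, rfl⟩
    have hev : ∀ m : ℤ, h.eval (m : ℝ) = ((g.eval m ^ 2 - C : ℤ) : ℝ) := by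
      intro m
      rw [hh]
      simp only [eval_sub, eval_pow, eval_C]
      have := eval_intCast_map (Int.castRingHom ℝ) g m
      simp only [eq_intCast, Int.cast_id] at this
      rw [this]
      push_cast
      ring
    have hdeg : (g.map (Int.castRingHom ℝ)).natDegree = g.natDegree :=
      natDegree_map_eq_of_injective (Int.cast_injective) g
    have hd2 : h.natDegree = 2 * g.natDegree := by
      rw [hh, natDegree_sub_C, natDegree_pow, hdeg]
    have hne : h ≠ 0 := by
      intro h0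
      rw [h0, natDegree_zero] at hd2
      omega
    have hroot : ∀ m : ℤ, ¬ (g.eval m ^ 2 ≤ C ↔ g.eval (m + 1) ^ 2 ≤ C) →
        ∃ x : ℝ, (m : ℝ) ≤ x ∧ x ≤ m + 1 ∧ h.eval x = 0 := by
      intro m hm
      have hcont : ContinuousOn (fun x : ℝ => h.eval x) (Set.uIcc (m : ℝ) (m + 1)) := h.continuous.continuousOn
      have h1 := intermediate_value_uIcc hcont
      have e1 := hev m
      have e2 := hev (m + 1)
      push_cast at e2
      have h0 : (0 : ℝ) ∈ Set.uIcc (h.eval (m : ℝ)) (h.eval ((m : ℝ) + 1)) := by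
        rw [e1, e2]
        rw [Set.mem_uIcc]
        rcases le_or_gt (g.eval m ^ 2) C with h3 | h3
        · left
          have h4 : C < g.eval (m + 1) ^ 2 := by
            by_contra h5
            exact hm ⟨fun _ => not_lt.1 h5, fun _ => h3⟩
          constructor
          · have : ((g.eval m ^ 2 - C : ℤ) : ℝ) ≤ 0 := by exact_mod_cast (by linarith : g.eval m ^ 2 - C ≤ 0)
            exact this
          · have : (0 : ℝ) ≤ ((g.eval (m + 1) ^ 2 - C : ℤ) : ℝ) := by
              exact_mod_cast (by linarith : 0 ≤ g.eval (m + 1) ^ 2 - C)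
            push_cast at this
            linarith
        · right
          have h4 : g.eval (m + 1) ^ 2 ≤ C := by
            by_contra h5
            exact hm ⟨fun h => absurd h (not_le.2 h3), fun h => absurd h h5⟩
          constructor
          · have : ((g.eval (m + 1) ^ 2 - C : ℤ) : ℝ) ≤ 0 := by
              exact_mod_cast (by linarith : g.eval (m + 1) ^ 2 - C ≤ 0)
            push_cast at this
            linarith
          · have : (0 : ℝ) ≤ ((g.eval m ^ 2 - C : ℤ) : ℝ) := by exact_mod_cast (by linarith : 0 ≤ g.eval m ^ 2 - C)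
            exact this
      obtain ⟨x, hx, hx0⟩ := h1 h0
      rw [Set.uIcc_of_le (by linarith)] at hx
      exact ⟨x, hx.1, hx.2, hx0⟩
    obtain ⟨S, hS⟩ : ∃ S, S = I.filter (fun m : ℤ => ¬ (g.eval m ^ 2 ≤ C ↔ g.eval (m + 1) ^ 2 ≤ C)) := ⟨_, rfl⟩
    rw [← hS]
    have hmS : ∀ m ∈ S, ∃ x : ℝ, (m : ℝ) ≤ x ∧ x ≤ m + 1 ∧ h.eval x = 0 := by
      intro m hm
      rw [hS, mem_filter] at hm
      exact hroot m hm.2
    choose! ρ h1 h2 h3 using hmS
    have h4 : #S ≤ 2 * #(S.image ρ) := by
      refine card_le_mul_card_image S 2 ?_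
      intro x hx
      calc #(S.filter fun m => ρ m = x) ≤ #({⌊x⌋, ⌊x⌋ - 1} : Finset ℤ) := by
            refine card_le_card fun m hm => ?_
            rw [mem_filter] at hm
            have h5 := h1 m hm.1
            have h6 := h2 m hm.1
            rw [hm.2] at h5 h6
            rw [mem_insert, mem_singleton]
            have h7 : m ≤ ⌊x⌋ := Int.le_floor.2 h5
            have h8 : ⌊x⌋ ≤ m + 1 := by
              have := Int.floor_le_floor h6
              have h9 : ⌊(m : ℝ) + 1⌋ = m + 1 := by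
                have : (m : ℝ) + 1 = ((m + 1 : ℤ) : ℝ) := by push_cast; ring
                rw [this, Int.floor_intCast]
              rwa [h9] at this
            omega
        _ ≤ 2 := card_le_two
    have h5 : #(S.image ρ) ≤ #h.roots.toFinset := by
      refine card_le_card fun x hx => ?_
      rw [mem_image] at hx
      obtain ⟨m, hm, rfl⟩ := hx
      rw [Multiset.mem_toFinset, mem_roots hne]
      exact h3 m hm
    have h6 : #h.roots.toFinset ≤ 2 * g.natDegree := by
      refine (Multiset.toFinset_card_le _).trans ((card_roots' _).trans ?_)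
      rw [hd2]
    omega

open Classical in
/-- an order condition on the absolute value of a polynomial -/
lemma changes_one (g : ℤ[X]) {J : Set ℕ} (hJ : J.OrdConnected) (I : Finset ℤ) :
    #(I.filter (fun m : ℤ => ¬ ((g.eval m).natAbs ∈ J ↔ (g.eval (m + 1)).natAbs ∈ J))) ≤ 8 * g.natDegree := by
  obtain ⟨V, hV⟩ : ∃ V : Finset ℕ, V = ((I.image fun m => (g.eval m).natAbs) ∪
    (I.image fun m => (g.eval (m + 1)).natAbs)).filter (fun v => v ∈ J) := ⟨_, rfl⟩
  rcases V.eq_empty_or_nonempty with h0 | hne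
  · have : I.filter (fun m : ℤ => ¬ ((g.eval m).natAbs ∈ J ↔ (g.eval (m + 1)).natAbs ∈ J)) = ∅ := by
      rw [filter_eq_empty_iff]
      intro m hm
      rw [not_not]
      have h1 : (g.eval m).natAbs ∉ J := by
        intro h
        have : (g.eval m).natAbs ∈ V := by
          rw [hV, mem_filter, mem_union]
          exact ⟨Or.inl (mem_image_of_mem (fun m => (g.eval m).natAbs) hm), h⟩
        rw [h0] at this
        simp at this
      have h2 : (g.eval (m + 1)).natAbs ∉ J := by
        intro h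
        have : (g.eval (m + 1)).natAbs ∈ V := by
          rw [hV, mem_filter, mem_union]
          exact ⟨Or.inr (mem_image_of_mem (fun m => (g.eval (m + 1)).natAbs) hm), h⟩
        rw [h0] at this
        simp at this
      exact ⟨fun h => absurd h h1, fun h => absurd h h2⟩
    rw [this]
    simp
  · obtain ⟨a, ha⟩ : ∃ a, a = V.max' hne := ⟨_, rfl⟩
    obtain ⟨b, hb⟩ : ∃ b, b = V.min' hne := ⟨_, rfl⟩
    have haJ : a ∈ J := by
      have := V.max'_mem hne
      rw [← ha, hV, mem_filter] at this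
      exact this.2
    have hbJ : b ∈ J := by
      have := V.min'_mem hne
      rw [← hb, hV, mem_filter] at this
      exact this.2
    have hin : ∀ v, v ∈ ((I.image fun m => (g.eval m).natAbs) ∪ (I.image fun m => (g.eval (m + 1)).natAbs)) →
        (v ∈ J ↔ b ≤ v ∧ v ≤ a) := by
      intro v hv
      constructor
      · intro hvJ
        have : v ∈ V := by
          rw [hV, mem_filter]
          exact ⟨hv, hvJ⟩
        rw [ha, hb]
        exact ⟨V.min'_le v this, V.le_max' v this⟩
      · intro h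
        exact hJ.out hbJ haJ ⟨h.1, h.2⟩
    have hsq : ∀ (z : ℤ) (c : ℕ), z.natAbs ≤ c ↔ z ^ 2 ≤ (c : ℤ) ^ 2 := by
      intro z c
      rw [← Int.natAbs_sq z]
      constructor
      · intro h
        exact pow_le_pow_left₀ (by positivity) (by exact_mod_cast h) 2
      · intro h
        have h1 := (le_abs_self _).trans (abs_le_of_sq_le_sq h (by positivity))
        exact_mod_cast h1
    have hsub : I.filter (fun m : ℤ => ¬ ((g.eval m).natAbs ∈ J ↔ (g.eval (m + 1)).natAbs ∈ J)) ⊆
        I.filter (fun m : ℤ => ¬ (g.eval m ^ 2 ≤ (a : ℤ) ^ 2 ↔ g.eval (m + 1) ^ 2 ≤ (a : ℤ) ^ 2)) ∪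
        I.filter (fun m : ℤ => ¬ (g.eval m ^ 2 ≤ (b : ℤ) ^ 2 - 1 ↔ g.eval (m + 1) ^ 2 ≤ (b : ℤ) ^ 2 - 1)) := by
      intro m hm
      rw [mem_filter] at hm
      obtain ⟨hmI, hm2⟩ := hm
      have i1 := hin (g.eval m).natAbs (mem_union_left _ (mem_image_of_mem (fun m => (g.eval m).natAbs) hmI))
      have i2 := hin (g.eval (m + 1)).natAbs
        (mem_union_right _ (mem_image_of_mem (fun m => (g.eval (m + 1)).natAbs) hmI))
      rw [i1, i2] at hm2
      have e1 : ∀ z : ℤ, z.natAbs ≤ a ↔ z ^ 2 ≤ (a : ℤ) ^ 2 := fun z => hsq z a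
      have e2 : ∀ z : ℤ, b ≤ z.natAbs ↔ ¬ z ^ 2 ≤ (b : ℤ) ^ 2 - 1 := by
        intro z
        rw [not_le]
        have h3 : (z ^ 2 : ℤ) = ((z.natAbs : ℤ)) ^ 2 := (Int.natAbs_sq z).symm
        rw [h3]
        constructor
        · intro h
          have : ((b : ℤ)) ^ 2 ≤ ((z.natAbs : ℤ)) ^ 2 := pow_le_pow_left₀ (by positivity) (by exact_mod_cast h) 2
          linarith
        · intro h
          have h4 : ((b : ℤ)) ^ 2 ≤ ((z.natAbs : ℤ)) ^ 2 := by linarith
          have h5 := (le_abs_self _).trans (abs_le_of_sq_le_sq h4 (by positivity))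
          exact_mod_cast h5
      rw [e1, e1, e2, e2] at hm2
      rw [mem_union, mem_filter, mem_filter]
      tauto
    refine (card_le_card hsub).trans ((card_union_le _ _).trans ?_)
    have h1 := cross g ((a : ℤ) ^ 2) I
    have h2 := cross g ((b : ℤ) ^ 2 - 1) I
    omega

end Pool.Agent.L5helper86.UL
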