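import Pool.Agent.L5helper86.UL.Mom
import Pool.Agent.L5helper86.UL.Disc

/-! Project UL (helper86): the sieve given by polynomials. -/

set_option autoImplicit false

namespace Pool.Agent.L5helper86.UL

open Finset Polynomial

variable {k : ℕ}

open Classical in
/-- the sieve given by polynomials `g i` and levels `z` -/
noncomputable def PS (z : ℕ → ℝ) (g : Fin k → ℤ[X]) : Sieve (Finset (Fin k)) where
  lab p m := univ.filter (fun i => (p : ℝ) ≤ z ((g i).eval m).natAbs)
  κ p α ρ m := ∃ i ∈ α, (g i).eval m ≡ (ρ : ℤ) [ZMOD p]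
  per p α ρ m m' h := by
    have h1 : ∀ i, (g i).eval m ≡ (g i).eval m' [ZMOD p] := fun i =>
      (Int.modEq_iff_dvd.2 ((Int.modEq_iff_dvd.1 h).trans (sub_dvd_eval_sub m' m (g i))))
    constructor
    · rintro ⟨i, hi, h2⟩
      exact ⟨i, hi, (h1 i).symm.trans h2⟩
    · rintro ⟨i, hi, h2⟩
      exact ⟨i, hi, (h1 i).trans h2⟩

/-- the regular class -/
def PC (g : Fin k → ℤ[X]) : Set (Finset ℤ) :=
  {S | ∃ (u : ℤ) (N : ℕ) (J : Fin k → Set ℕ), (∀ i, (J i).OrdConnected) ∧
    ∀ m, m ∈ S ↔ m ∈ Ioc u (u + N) ∧ ∀ i, ((g i).eval m).natAbs ∈ J i}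

lemma PC_Ioc (g : Fin k → ℤ[X]) (u : ℤ) (N : ℕ) : Ioc u (u + N) ∈ PC g := by
  refine ⟨u, N, fun _ => Set.univ, fun _ => Set.ordConnected_univ, fun m => ?_⟩
  exact ⟨fun h => ⟨h, fun i => Set.mem_univ _⟩, fun h => h.1⟩

lemma PC_closed {z : ℕ → ℝ} (hz : Monotone z) (g : Fin k → ℤ[X]) {S : Finset ℤ} (hS : S ∈ PC g) (p : ℕ)
    (α : Finset (Fin k)) : Sl (PS z g) p S α ∈ PC g := by
  classical
  obtain ⟨u, N, J, hJ, hSm⟩ := hS
  have hup : ({v : ℕ | (p : ℝ) ≤ z v} : Set ℕ).OrdConnected := by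
    have : IsUpperSet ({v : ℕ | (p : ℝ) ≤ z v} : Set ℕ) := fun v w hvw hv => le_trans hv (hz hvw)
    exact this.ordConnected
  have hlo : ({v : ℕ | ¬ (p : ℝ) ≤ z v} : Set ℕ).OrdConnected := by
    have : IsLowerSet ({v : ℕ | ¬ (p : ℝ) ≤ z v} : Set ℕ) := fun v w hvw hv h => hv (le_trans h (hz hvw))
    exact this.ordConnected
  refine ⟨u, N, fun i => if i ∈ α then J i ∩ {v : ℕ | (p : ℝ) ≤ z v} else J i ∩ {v : ℕ | ¬ (p : ℝ) ≤ z v}, ?_, ?_⟩
  · intro i
    simp only
    split_ifs
    · exact (hJ i).inter hup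
    · exact (hJ i).inter hlo
  · intro m
    rw [mem_Sl, hSm, and_assoc]
    refine and_congr_right fun _ => ?_
    constructor
    · rintro ⟨h1, h2⟩ i
      have h3 : i ∈ α ↔ (p : ℝ) ≤ z ((g i).eval m).natAbs := by
        rw [← h2]
        show i ∈ univ.filter _ ↔ _
        simp
      by_cases hi : i ∈ α
      · simp only [if_pos hi]
        exact ⟨h1 i, h3.1 hi⟩
      · simp only [if_neg hi]
        exact ⟨h1 i, fun h => hi (h3.2 h)⟩
    · intro h
      constructor
      · intro i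
        have h4 := h i
        by_cases hi : i ∈ α
        · simp only [if_pos hi] at h4
          exact h4.1
        · simp only [if_neg hi] at h4
          exact h4.1
      · show univ.filter _ = α
        ext i
        have h4 := h i
        by_cases hi : i ∈ α
        · simp only [if_pos hi] at h4
          simp only [mem_filter, mem_univ, true_and, hi, iff_true]
          exact h4.2
        · simp only [if_neg hi] at h4
          simp only [mem_filter, mem_univ, true_and, hi, iff_false]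
          exact h4.2

lemma PC_disc (g : Fin k → ℤ[X]) {D : ℕ} (hD : ∀ i, (g i).natDegree ≤ D) {S : Finset ℤ} (hS : S ∈ PC g) {d : ℕ}
    (hd : 0 < d) (r : ℤ) : |(#(S.filter (fun m => m ≡ r [ZMOD d])) : ℝ) - #S / d| ≤ ((1 + 8 * k * D : ℕ) : ℝ) := by
  classical
  obtain ⟨u, N, J, hJ, hSm⟩ := hS
  obtain ⟨f, hf⟩ : ∃ f : ℤ → Prop, f = fun m => ∀ i, ((g i).eval m).natAbs ∈ J i := ⟨_, rfl⟩
  have hSf : S = (Ioc u (u + N)).filter f := by
    ext m
    rw [hSm, mem_filter, hf]
  have hKc : #((Ioo u (u + N)).filter (fun m => ¬ (f m ↔ f (m + 1)))) ≤ 8 * k * D := by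
    have hsub : (Ioo u (u + N)).filter (fun m => ¬ (f m ↔ f (m + 1))) ⊆
        univ.biUnion (fun i : Fin k => (Ioo u (u + N)).filter
          (fun m => ¬ (((g i).eval m).natAbs ∈ J i ↔ ((g i).eval (m + 1)).natAbs ∈ J i))) := by
      intro m hm
      rw [mem_filter] at hm
      rw [mem_biUnion]
      by_contra hcon
      refine hm.2 ?_
      rw [hf]
      refine forall_congr' fun i => ?_
      by_contra h1
      exact hcon ⟨i, mem_univ i, mem_filter.2 ⟨hm.1, h1⟩⟩
    refine (card_le_card hsub).trans (card_biUnion_le.trans ?_)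
    calc ∑ i : Fin k, #((Ioo u (u + N)).filter
          (fun m => ¬ (((g i).eval m).natAbs ∈ J i ↔ ((g i).eval (m + 1)).natAbs ∈ J i))) ≤ ∑ _i : Fin k, 8 * D := by
          refine sum_le_sum fun i _ => ?_
          exact (changes_one (g i) (hJ i) _).trans (Nat.mul_le_mul_left 8 (hD i))
      _ = 8 * k * D := by
          rw [sum_const, card_univ, Fintype.card_fin, smul_eq_mul]
          ring
  have h := disc_changes f u N hd r hKc
  rw [← hSf] at h
  push_cast at h ⊢
  exact h

/-- the reduction modulo `p` -/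
noncomputable def rd (g : Fin k → ℤ[X]) (p : ℕ) (i : Fin k) : (ZMod p)[X] := (g i).map (Int.castRingHom (ZMod p))

lemma rd_eval (g : Fin k → ℤ[X]) (p : ℕ) (i : Fin k) (m : ℤ) :
    (rd g p i).eval (m : ZMod p) = (((g i).eval m : ℤ) : ZMod p) := by
  unfold rd
  have h := eval_intCast_map (Int.castRingHom (ZMod p)) (g i) m
  simp only [eq_intCast, Int.cast_id] at h
  exact h

lemma kap_iff (z : ℕ → ℝ) (g : Fin k → ℤ[X]) (p : ℕ) (α : Finset (Fin k)) (ρ t : ℕ) :
    (PS z g).κ p α ρ (t : ℤ) ↔ ∃ i ∈ α, (rd g p i).eval (t : ZMod p) = (ρ : ZMod p) := by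
  show (∃ i ∈ α, (g i).eval (t : ℤ) ≡ (ρ : ℤ) [ZMOD p]) ↔ _
  refine exists_congr fun i => and_congr_right fun _ => ?_
  have h := rd_eval g p i t
  rw [Int.cast_natCast] at h
  rw [h, ← ZMod.intCast_eq_intCast_iff]
  simp

lemma rd_deg (g : Fin k → ℤ[X]) {D : ℕ} (hD : ∀ i, (g i).natDegree ≤ D) (p : ℕ) (i : Fin k) :
    (rd g p i).natDegree ≤ D := natDegree_map_le.trans (hD i)

/-- the number of the residues in an interval where a nonzero polynomial vanishes -/
lemma root_count {p : ℕ} [Fact p.Prime] {h : (ZMod p)[X]} (hh : h ≠ 0) {D : ℕ} (hD : h.natDegree ≤ D) :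
    #((range p).filter fun t : ℕ => h.eval (t : ZMod p) = 0) ≤ D := by
  classical
  have h1 : #((range p).filter fun t : ℕ => h.eval (t : ZMod p) = 0) ≤ #h.roots.toFinset := by
    apply card_le_card_of_injOn (fun a : ℕ => (a : ZMod p))
    · intro a ha
      rw [mem_coe, mem_filter] at ha
      rw [mem_coe, Multiset.mem_toFinset, mem_roots hh]
      exact ha.2
    · intro a ha b hb hab
      rw [mem_coe, mem_filter, mem_range] at ha hb
      simp only at hab
      have h2 := congrArg ZMod.val hab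
      rwa [ZMod.val_cast_of_lt ha.1, ZMod.val_cast_of_lt hb.1] at h2
  exact h1.trans ((Multiset.toFinset_card_le _).trans ((card_roots' _).trans hD))

/-- the constant of the local hypothesis -/
def BB (k D : ℕ) : ℕ := 1 + k + k * D + k * k * D + 8 * k * D

theorem PS_loc (z : ℕ → ℝ) (g : Fin k → ℤ[X]) {D : ℕ} (hD : ∀ i, (g i).natDegree ≤ D) {p : ℕ} (hp : p.Prime) :
    Loc (PS z g) (BB k D) p := by
  classical
  have : Fact p.Prime := ⟨hp⟩
  have hpp : 0 < p := hp.pos
  have hB1 : k ≤ BB k D := by unfold BB; nlinarith [Nat.zero_le (k * D), Nat.zero_le (k * k * D)]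
  have hB2 : k * D ≤ BB k D := by unfold BB; nlinarith [Nat.zero_le (k * D), Nat.zero_le (k * k * D)]
  have hB3 : k * k * D ≤ BB k D := by unfold BB; nlinarith [Nat.zero_le (k * D), Nat.zero_le (k * k * D)]
  have hval : ∀ (x : ZMod p), ((x.val : ℕ) : ZMod p) = x := fun x => ZMod.natCast_zmod_val x
  have hval2 : ∀ t ∈ range p, ((t : ZMod p)).val = t := fun t ht => ZMod.val_cast_of_lt (mem_range.1 ht)
  obtain ⟨Sp, hSp⟩ : ∃ Sp, Sp = (range p).filter (fun ρ : ℕ => ∃ i, rd g p i = C (ρ : ZMod p)) := ⟨_, rfl⟩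
  obtain ⟨Exc, hExc⟩ : ∃ Exc, Exc = (range p).filter (fun t : ℕ => ∃ i j, rd g p i ≠ rd g p j ∧
    (rd g p i).eval (t : ZMod p) = (rd g p j).eval (t : ZMod p)) := ⟨_, rfl⟩
  have hnorm : ∀ ρ ∈ range p, ∀ α : Finset (Fin k), (∀ i ∈ α, rd g p i ≠ C (ρ : ZMod p)) →
      #((range p).filter (fun t : ℕ => (PS z g).κ p α ρ (t : ℤ))) ≤ BB k D := by
    intro ρ _ α hα
    have hsub : (range p).filter (fun t : ℕ => (PS z g).κ p α ρ (t : ℤ)) ⊆
        α.biUnion fun i => (range p).filter fun t : ℕ => (rd g p i - C (ρ : ZMod p)).eval (t : ZMod p) = 0 := by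
      intro t ht
      rw [mem_filter, kap_iff] at ht
      obtain ⟨ht1, i, hi, h⟩ := ht
      rw [mem_biUnion]
      refine ⟨i, hi, ?_⟩
      rw [mem_filter, eval_sub, eval_C, h, sub_self]
      exact ⟨ht1, rfl⟩
    refine (card_le_card hsub).trans (card_biUnion_le.trans ?_)
    calc ∑ i ∈ α, #((range p).filter fun t : ℕ => (rd g p i - C (ρ : ZMod p)).eval (t : ZMod p) = 0) ≤ ∑ _i ∈ α, D := by
          refine sum_le_sum fun i hi => ?_
          refine root_count (sub_ne_zero.2 (hα i hi)) ?_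
          rw [natDegree_sub_C]
          exact rd_deg g hD p i
      _ = #α * D := by rw [sum_const, smul_eq_mul]
      _ ≤ k * D := Nat.mul_le_mul_right D ((card_le_univ α).trans (by rw [Fintype.card_fin]))
      _ ≤ _ := hB2
  have hcolsub : ∀ (α : Finset (Fin k)) (t : ℕ), (range p \ Sp).filter (fun ρ => (PS z g).κ p α ρ (t : ℤ)) ⊆
      α.image (fun i => ((rd g p i).eval (t : ZMod p)).val) := by
    intro α t ρ hρ
    rw [mem_filter, mem_sdiff, kap_iff] at hρ
    obtain ⟨⟨hρ1, _⟩, i, hi, h⟩ := hρ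
    rw [mem_image]
    exact ⟨i, hi, by rw [h, hval2 ρ hρ1]⟩
  refine ⟨Sp, Exc, fun α => #((α.image (rd g p)).filter fun h => ∀ c : ZMod p, h ≠ C c), ?_, ?_, ?_, ?_, ?_, ?_, ?_, ?_, ?_⟩
  · rw [hSp]
    exact filter_subset _ _
  · rw [hExc]
    exact filter_subset _ _
  · -- #Sp
    have hsub : Sp ⊆ univ.image (fun i => ((rd g p i).coeff 0).val) := by
      intro ρ hρ
      rw [hSp, mem_filter] at hρ
      obtain ⟨hρ1, i, hi⟩ := hρ
      rw [mem_image]
      refine ⟨i, mem_univ i, ?_⟩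
      rw [hi, coeff_C_zero, hval2 ρ hρ1]
    refine (card_le_card hsub).trans (card_image_le.trans ?_)
    rw [card_univ, Fintype.card_fin]
    exact hB1
  · -- #Exc
    have hsub : Exc ⊆ ((univ : Finset (Fin k × Fin k)).filter fun q => rd g p q.1 ≠ rd g p q.2).biUnion fun q =>
        (range p).filter fun t : ℕ => (rd g p q.1 - rd g p q.2).eval (t : ZMod p) = 0 := by
      intro t ht
      rw [hExc, mem_filter] at ht
      obtain ⟨ht1, i, j, hij, h⟩ := ht
      rw [mem_biUnion]
      refine ⟨(i, j), ?_, ?_⟩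
      · rw [mem_filter]
        exact ⟨mem_univ _, hij⟩
      · rw [mem_filter, eval_sub]
        exact ⟨ht1, sub_eq_zero.2 h⟩
    refine (card_le_card hsub).trans (card_biUnion_le.trans ?_)
    calc ∑ q ∈ (univ : Finset (Fin k × Fin k)).filter fun q => rd g p q.1 ≠ rd g p q.2,
          #((range p).filter fun t : ℕ => (rd g p q.1 - rd g p q.2).eval (t : ZMod p) = 0) ≤
          ∑ _q ∈ (univ : Finset (Fin k × Fin k)).filter fun q => rd g p q.1 ≠ rd g p q.2, D := by
          refine sum_le_sum fun q hq => ?_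
          rw [mem_filter] at hq
          refine root_count (sub_ne_zero.2 hq.2) ?_
          exact (natDegree_sub_le _ _).trans (max_le (rd_deg g hD p _) (rd_deg g hD p _))
      _ = #((univ : Finset (Fin k × Fin k)).filter fun q => rd g p q.1 ≠ rd g p q.2) * D := by
          rw [sum_const, smul_eq_mul]
      _ ≤ (k * k) * D := by
          refine Nat.mul_le_mul_right D ((card_filter_le _ _).trans ?_)
          rw [card_univ, Fintype.card_prod, Fintype.card_fin]
      _ ≤ _ := hB3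
  · intro ρ hρ α
    by_cases hα : ∃ i ∈ α, rd g p i = C (ρ : ZMod p)
    · left
      obtain ⟨i, hi, h⟩ := hα
      intro t _
      rw [kap_iff]
      exact ⟨i, hi, by rw [h, eval_C]⟩
    · right
      push Not at hα
      exact hnorm ρ hρ α hα
  · intro ρ hρ α
    rw [mem_sdiff] at hρ
    refine hnorm ρ hρ.1 α fun i _ h => hρ.2 ?_
    rw [hSp, mem_filter]
    exact ⟨hρ.1, i, h⟩
  · intro α t ht
    rw [mem_sdiff] at ht
    obtain ⟨ht1, ht2⟩ := ht
    have hne : ∀ i j, (rd g p i).eval (t : ZMod p) = (rd g p j).eval (t : ZMod p) → rd g p i = rd g p j := by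
      intro i j h
      by_contra hij
      apply ht2
      rw [hExc, mem_filter]
      exact ⟨ht1, i, j, hij, h⟩
    symm
    refine card_bij (fun h _ => (h.eval (t : ZMod p)).val) ?_ ?_ ?_
    · intro h hh
      rw [mem_filter, mem_image] at hh
      obtain ⟨⟨i, hi, rfl⟩, hc⟩ := hh
      rw [mem_filter, mem_sdiff, kap_iff]
      refine ⟨⟨mem_range.2 (ZMod.val_lt _), ?_⟩, i, hi, (hval _).symm⟩
      intro hS
      rw [hSp, mem_filter] at hS
      obtain ⟨_, j, hj⟩ := hS
      rw [hval] at hj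
      have h3 : (rd g p j).eval (t : ZMod p) = (rd g p i).eval (t : ZMod p) := by rw [hj, eval_C]
      exact hc _ ((hne j i h3).symm.trans hj)
    · intro h hh h' hh' heq
      rw [mem_filter, mem_image] at hh hh'
      obtain ⟨⟨i, hi, rfl⟩, _⟩ := hh
      obtain ⟨⟨j, hj, rfl⟩, _⟩ := hh'
      exact hne i j (ZMod.val_injective p heq)
    · intro ρ hρ
      rw [mem_filter, mem_sdiff, kap_iff] at hρ
      obtain ⟨⟨hρ1, hρ2⟩, i, hi, h⟩ := hρ
      refine ⟨rd g p i, ?_, by rw [h, hval2 ρ hρ1]⟩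
      rw [mem_filter]
      refine ⟨mem_image_of_mem _ hi, fun c hc => hρ2 ?_⟩
      rw [hc, eval_C] at h
      rw [hSp, mem_filter]
      exact ⟨hρ1, i, by rw [hc, h]⟩
  · intro α t _
    refine (card_le_card (hcolsub α t)).trans (card_image_le.trans ((card_le_univ α).trans ?_))
    rw [Fintype.card_fin]
    exact hB1
  · intro α
    refine (card_filter_le _ _).trans (card_image_le.trans ((card_le_univ α).trans ?_))
    rw [Fintype.card_fin]
    exact hB1

theorem PS_reg {z : ℕ → ℝ} (hz : Monotone z) (g : Fin k → ℤ[X]) {D : ℕ} (hD : ∀ i, (g i).natDegree ≤ D) :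
    Reg (PS z g) (PC g) (BB k D) where
  closed S hS p α := PC_closed hz g hS p α
  disc S hS d hd r := by
    refine (PC_disc g hD hS hd r).trans ?_
    have : 1 + 8 * k * D ≤ BB k D := by
      unfold BB
      nlinarith [Nat.zero_le (k * D), Nat.zero_le (k * k * D)]
    exact_mod_cast this

end Pool.Agent.L5helper86.UL
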