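import Pool.Agent.L5helper86.UL.Mom2
import Pool.Agent.L5helper86.UL.Poly
import Pool.Agent.L5helper2.BH.A5

/-! Project UL (helper86): the universal law, almost surely. -/

set_option autoImplicit false

namespace Pool.Agent.L5helper86.UL

open Finset Polynomial MeasureTheory ProbabilityTheory Filter Topology
open Pool.Agent.L5helper2.RS (bc)
open Pool.Agent.L5helper2.BH (pr mem_pr prod_small)

/-- one configuration -/
theorem one_config (k D E n : ℕ) : ∃ C : ℝ, 0 < C ∧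
    ∀ {Ω : Type} [MeasurableSpace Ω] {P : Measure Ω} {X : ℕ → Ω → ℕ}, Sys P X →
    ∀ z : ℕ → ℝ, Monotone z → ∀ g : Fin k → ℤ[X], (∀ i, (g i).natDegree ≤ D) → ∀ (u : ℤ) (N : ℕ), 1 ≤ N →
    ∀ δ : ℝ, 0 < δ → P.real {ω | δ ≤ |DD (PS z g) (pr (N ^ E)) (fun q => X q ω) 1 0 (Ioc u (u + N))|} ≤
      C * (N : ℝ) ^ (n + 2) / δ ^ (2 * n + 2) := by
  classical
  have hBB : 1 ≤ BB k D := by unfold BB; omega
  obtain ⟨C, hC, hmom⟩ := moment (Finset (Fin k)) n (BB k D) hBB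
  obtain ⟨K, hK⟩ := exists_nat_ge C
  obtain ⟨C2, hC2, hps⟩ := prod_small (K + 1) (θ := 1 / ((E : ℝ) + 1)) (by positivity)
  refine ⟨(BB k D : ℝ) ^ (2 * n + 2) * C2, by positivity, ?_⟩
  intro Ω _ P X h z hz g hD u N hN δ hδ
  have hP := h.prob
  have hN1 : (1 : ℝ) ≤ N := by exact_mod_cast hN
  have hN0 : (0 : ℝ) < N := by linarith
  have h1 := hmom h (PS z g) (PC g) (PS_reg hz g hD) (pr (N ^ E))
    (fun p hp => ⟨(mem_pr.1 hp).2, PS_loc z g hD (mem_pr.1 hp).2⟩) 1 one_pos (fun p _ => Nat.coprime_one_left p)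
    (Ioc u (u + N)) (PC_Ioc g u N) 0
  have hcard : (#(Ioc u (u + N)) : ℝ) = N := by
    rw [Int.card_Ioc]
    simp
  rw [hcard, Nat.cast_one, div_one, max_eq_right hN1] at h1
  have h2 : ∏ p ∈ pr (N ^ E), (1 + C / p) ≤ C2 * N := by
    calc ∏ p ∈ pr (N ^ E), (1 + C / p) ≤ ∏ p ∈ pr (N ^ E), (1 + ((K + 1 : ℕ) : ℝ) ^ 2 / p) := by
          refine prod_le_prod (fun p _ => by positivity) fun p _ => ?_
          have h3 : C ≤ ((K + 1 : ℕ) : ℝ) ^ 2 := by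
            have h4 : (0 : ℝ) ≤ K := by positivity
            push_cast
            nlinarith
          have h5 : C / (p : ℝ) ≤ ((K + 1 : ℕ) : ℝ) ^ 2 / p := div_le_div_of_nonneg_right h3 (by positivity)
          linarith
      _ ≤ C2 * (((N ^ E : ℕ)) : ℝ) ^ (1 / ((E : ℝ) + 1)) := hps (N ^ E) (Nat.one_le_pow _ _ hN)
      _ ≤ C2 * N := by
          refine mul_le_mul_of_nonneg_left ?_ hC2.le
          push_cast
          rw [← Real.rpow_natCast, ← Real.rpow_mul hN0.le]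
          calc (N : ℝ) ^ ((E : ℝ) * (1 / ((E : ℝ) + 1))) ≤ (N : ℝ) ^ (1 : ℝ) := by
                refine Real.rpow_le_rpow_of_exponent_le hN1 ?_
                rw [mul_one_div, div_le_one (by positivity)]
                linarith
            _ = N := Real.rpow_one _
  have h3 : ∫ ω, DD (PS z g) (pr (N ^ E)) (fun q => X q ω) 1 0 (Ioc u (u + N)) ^ (2 * n + 2) ∂P ≤
      (BB k D : ℝ) ^ (2 * n + 2) * C2 * (N : ℝ) ^ (n + 2) := by
    refine h1.trans ?_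
    calc (BB k D : ℝ) ^ (2 * n + 2) * (∏ p ∈ pr (N ^ E), (1 + C / p)) * (N : ℝ) ^ (n + 1) ≤
          (BB k D : ℝ) ^ (2 * n + 2) * (C2 * N) * (N : ℝ) ^ (n + 1) := by
          refine mul_le_mul_of_nonneg_right (mul_le_mul_of_nonneg_left h2 (by positivity)) (by positivity)
      _ = _ := by ring
  have hev : ∀ x : ℝ, x ^ (2 * n + 2) = |x| ^ (2 * n + 2) := by
    intro x
    rw [show 2 * n + 2 = 2 * (n + 1) by ring, pow_mul, pow_mul, sq_abs]
  have hmk := mul_meas_ge_le_integral_of_nonneg (μ := P)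
    (f := fun ω => DD (PS z g) (pr (N ^ E)) (fun q => X q ω) 1 0 (Ioc u (u + N)) ^ (2 * n + 2))
    (Eventually.of_forall fun ω => by
      show (0 : ℝ) ≤ DD (PS z g) (pr (N ^ E)) (fun q => X q ω) 1 0 (Ioc u (u + N)) ^ (2 * n + 2)
      rw [hev]
      positivity)
    (h.int_dep ((DD_dep (PS z g) (pr (N ^ E)) 1 0 (Ioc u (u + N))).pow (2 * n + 2))
      (M := (2 * #(Ioc u (u + N)) : ℝ) ^ (2 * n + 2)) fun a => by
        rw [abs_pow]
        exact pow_le_pow_left₀ (abs_nonneg _) (DD_abs2 (PS z g) _ a one_pos 0 _) _) (δ ^ (2 * n + 2))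
  rw [le_div_iff₀ (by positivity), mul_comm]
  refine le_trans ?_ (hmk.trans h3)
  refine mul_le_mul_of_nonneg_left ?_ (by positivity)
  refine measureReal_mono fun ω hω => ?_
  show δ ^ (2 * n + 2) ≤ DD (PS z g) (pr (N ^ E)) (fun q => X q ω) 1 0 (Ioc u (u + N)) ^ (2 * n + 2)
  exact (pow_le_pow_left₀ hδ.le hω _).trans_eq (hev _).symm

/-- the polynomials with given coefficients -/
noncomputable def pol {k D : ℕ} (c : Fin k × Fin (D + 1) → ℤ) (i : Fin k) : ℤ[X] :=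
  ∑ j : Fin (D + 1), C (c (i, j)) * X ^ (j : ℕ)

lemma pol_deg {k D : ℕ} (c : Fin k × Fin (D + 1) → ℤ) (i : Fin k) : (pol c i).natDegree ≤ D := by
  unfold pol
  refine natDegree_sum_le_of_forall_le _ _ fun j _ => ?_
  exact (natDegree_C_mul_X_pow_le _ _).trans (Nat.lt_succ_iff.1 j.2)

lemma pol_surj {k D : ℕ} {g : Fin k → ℤ[X]} (hD : ∀ i, (g i).natDegree ≤ D) :
    g = pol (fun q : Fin k × Fin (D + 1) => (g q.1).coeff q.2) := by
  funext i
  unfold pol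
  rw [Fin.sum_univ_eq_sum_range (fun j => C ((g i).coeff j) * X ^ j) (D + 1)]
  exact as_sum_range_C_mul_X_pow' (g i) (Nat.lt_succ_of_le (hD i))

/-- all configurations -/
theorem all_configs {Ω : Type} [MeasurableSpace Ω] {P : Measure Ω} {X : ℕ → Ω → ℕ} (h : Sys P X)
    {z : ℕ → ℝ} (hz : Monotone z) (k D B E : ℕ) {ε : ℝ} (hε : 0 < ε) :
    ∀ᵐ ω ∂P, ∀ᶠ N : ℕ in atTop, ∀ u : ℤ, |u| ≤ (N : ℤ) ^ B → ∀ g : Fin k → ℤ[X], (∀ i, (g i).natDegree ≤ D) →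
      (∀ i j, |(g i).coeff j| ≤ (N : ℤ) ^ B) →
      |DD (PS z g) (pr (N ^ E)) (fun q => X q ω) 1 0 (Ioc u (u + N))| ≤ (N : ℝ) ^ (1 / 2 + ε) := by
  classical
  have hP := h.prob
  obtain ⟨F, hF⟩ : ∃ F : ℕ, F = (B + 2) * (1 + k * (D + 1)) := ⟨_, rfl⟩
  obtain ⟨n, hn⟩ := exists_nat_ge (((F : ℝ) + 3) / (2 * ε))
  obtain ⟨C, hC, hone⟩ := one_config k D E n
  obtain ⟨T, hT⟩ : ∃ T : ℕ → Finset (ℤ × (Fin k × Fin (D + 1) → ℤ)), T = fun N : ℕ =>
    (Icc (-(N : ℤ) ^ B) ((N : ℤ) ^ B)) ×ˢ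
      (Fintype.piFinset fun _ : Fin k × Fin (D + 1) => Icc (-(N : ℤ) ^ B) ((N : ℤ) ^ B)) := ⟨_, rfl⟩
  obtain ⟨G, hG⟩ : ∃ G : ℕ → Set Ω, G = fun N => ⋃ q ∈ T N,
    {ω | (N : ℝ) ^ (1 / 2 + ε) ≤ |DD (PS z (pol q.2)) (pr (N ^ E)) (fun p => X p ω) 1 0 (Ioc q.1 (q.1 + N))|} := ⟨_, rfl⟩
  have hbc : ∀ᵐ ω ∂P, ∀ᶠ N in atTop, ω ∉ G N := by
    refine bc (C := 4 * C) ?_
    filter_upwards [eventually_ge_atTop 3] with N hN
    have hN3 : (3 : ℝ) ≤ N := by exact_mod_cast hN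
    have hN0 : (0 : ℝ) < N := by linarith
    have hN1 : (1 : ℝ) ≤ N := by linarith
    have hcardI : (#(Icc (-(N : ℤ) ^ B) ((N : ℤ) ^ B)) : ℝ) ≤ (N : ℝ) ^ (B + 2) := by
      rw [Int.card_Icc]
      have h1 : (((N : ℤ) ^ B + 1 - (-(N : ℤ) ^ B)).toNat : ℤ) = 2 * (N : ℤ) ^ B + 1 := by
        have h0 : (0 : ℤ) ≤ (N : ℤ) ^ B := by positivity
        rw [Int.toNat_of_nonneg (by linarith)]
        ring
      have h2 : ((((N : ℤ) ^ B + 1 - (-(N : ℤ) ^ B)).toNat : ℕ) : ℝ) = 2 * (N : ℝ) ^ B + 1 := by exact_mod_cast h1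
      rw [h2]
      have h3 : (1 : ℝ) ≤ (N : ℝ) ^ B := one_le_pow₀ hN1
      calc 2 * (N : ℝ) ^ B + 1 ≤ 3 * (N : ℝ) ^ B := by linarith
        _ ≤ (N : ℝ) * (N : ℝ) ^ B := mul_le_mul_of_nonneg_right hN3 (by positivity)
        _ ≤ (N : ℝ) * ((N : ℝ) * (N : ℝ) ^ B) := by
            refine mul_le_mul_of_nonneg_left ?_ hN0.le
            exact le_mul_of_one_le_left (by positivity) hN1
        _ = _ := by ring
    have hcard : (#(T N) : ℝ) ≤ (N : ℝ) ^ F := by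
      rw [hT]
      simp only
      rw [card_product, Fintype.card_piFinset]
      push_cast
      rw [prod_const, card_univ, Fintype.card_prod, Fintype.card_fin, Fintype.card_fin]
      calc (#(Icc (-(N : ℤ) ^ B) ((N : ℤ) ^ B)) : ℝ) * (#(Icc (-(N : ℤ) ^ B) ((N : ℤ) ^ B)) : ℝ) ^ (k * (D + 1)) =
            (#(Icc (-(N : ℤ) ^ B) ((N : ℤ) ^ B)) : ℝ) ^ (1 + k * (D + 1)) := by rw [pow_add, pow_one]
        _ ≤ ((N : ℝ) ^ (B + 2)) ^ (1 + k * (D + 1)) := pow_le_pow_left₀ (by positivity) hcardI _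
        _ = (N : ℝ) ^ F := by rw [hF, pow_mul]
    have hδ : (0 : ℝ) < (N : ℝ) ^ (1 / 2 + ε) := by positivity
    rw [hG]
    refine (measureReal_biUnion_finset_le _ _).trans ?_
    calc ∑ q ∈ T N, P.real {ω | (N : ℝ) ^ (1 / 2 + ε) ≤
            |DD (PS z (pol q.2)) (pr (N ^ E)) (fun p => X p ω) 1 0 (Ioc q.1 (q.1 + N))|} ≤
          ∑ _q ∈ T N, C * (N : ℝ) ^ (n + 2) / ((N : ℝ) ^ (1 / 2 + ε)) ^ (2 * n + 2) :=
          sum_le_sum fun q _ => hone h z hz (pol q.2) (pol_deg q.2) q.1 N (by omega) _ hδ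
      _ = #(T N) * (C * (N : ℝ) ^ (n + 2) / ((N : ℝ) ^ (1 / 2 + ε)) ^ (2 * n + 2)) := by
          rw [sum_const, nsmul_eq_mul]
      _ ≤ (N : ℝ) ^ F * (C * (N : ℝ) ^ (n + 2) / ((N : ℝ) ^ (1 / 2 + ε)) ^ (2 * n + 2)) :=
          mul_le_mul_of_nonneg_right hcard (by positivity)
      _ ≤ C * (N : ℝ) ^ (-2 : ℝ) := by
          have e1 : ((N : ℝ) ^ (1 / 2 + ε)) ^ (2 * n + 2) = (N : ℝ) ^ ((1 / 2 + ε) * (2 * n + 2)) := by
            rw [← Real.rpow_natCast, ← Real.rpow_mul hN0.le]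
            push_cast
            rfl
          rw [e1, ← Real.rpow_natCast (N : ℝ) F, ← Real.rpow_natCast (N : ℝ) (n + 2), mul_div_assoc, ← Real.rpow_sub hN0,
            mul_left_comm, ← Real.rpow_add hN0]
          refine mul_le_mul_of_nonneg_left (Real.rpow_le_rpow_of_exponent_le hN1 ?_) hC.le
          push_cast
          rw [div_le_iff₀ (by positivity)] at hn
          nlinarith
      _ ≤ 4 * C / ((N : ℝ) + 1) ^ 2 := by
          rw [Real.rpow_neg hN0.le, Real.rpow_two, le_div_iff₀ (by positivity)]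
          have h5 : ((N : ℝ) + 1) ^ 2 ≤ 4 * (N : ℝ) ^ 2 := by nlinarith
          calc C * ((N : ℝ) ^ 2)⁻¹ * ((N : ℝ) + 1) ^ 2 ≤ C * ((N : ℝ) ^ 2)⁻¹ * (4 * (N : ℝ) ^ 2) :=
                mul_le_mul_of_nonneg_left h5 (by positivity)
            _ = 4 * C := by
                field_simp
  filter_upwards [hbc] with ω hω
  filter_upwards [hω] with N hN u hu g hD hg
  by_contra hcon
  apply hN
  rw [hG]
  simp only [Set.mem_iUnion]
  refine ⟨(u, fun q => (g q.1).coeff q.2), ?_, ?_⟩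
  · rw [hT]
    simp only
    rw [mem_product, Fintype.mem_piFinset]
    exact ⟨mem_Icc.2 (abs_le.1 hu), fun q => mem_Icc.2 (abs_le.1 (hg q.1 q.2))⟩
  · show (N : ℝ) ^ (1 / 2 + ε) ≤ |DD (PS z (pol fun q : Fin k × Fin (D + 1) => (g q.1).coeff q.2)) (pr (N ^ E))
      (fun p => X p ω) 1 0 (Ioc u (u + N))|
    rw [← pol_surj hD]
    exact (not_le.1 hcon).le

end Pool.Agent.L5helper86.UL
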