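import Pool.Agent.L5helper86.UL.Rec

/-! Project UL (helper86): the inequalities of Bonferroni, sums over progressions. -/

set_option autoImplicit false

namespace Pool.Agent.L5helper86.UL

open Finset

/-- the weighted elementary symmetric sums -/
noncomputable def es (c a : ℕ → ℝ) (j : ℕ) (T : Finset ℕ) : ℝ :=
  ∑ D ∈ powersetCard j T, (∏ p ∈ D, a p) * ∏ p ∈ T \ D, c p

lemma es_zero (c a : ℕ → ℝ) (T : Finset ℕ) : es c a 0 T = ∏ p ∈ T, c p := by
  unfold es
  rw [powersetCard_zero, sum_singleton, prod_empty, one_mul, sdiff_empty]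

lemma es_empty (c a : ℕ → ℝ) (j : ℕ) : es c a (j + 1) ∅ = 0 := by
  unfold es
  rw [powersetCard_eq_empty.2 (by simp), sum_empty]

lemma es_insert (c a : ℕ → ℝ) (j : ℕ) {T : Finset ℕ} {q : ℕ} (hq : q ∉ T) :
    es c a (j + 1) (insert q T) = c q * es c a (j + 1) T + a q * es c a j T := by
  unfold es
  rw [powersetCard_succ_insert hq, sum_union]
  · congr 1
    · rw [mul_sum]
      refine sum_congr rfl fun D hD => ?_
      rw [mem_powersetCard] at hD
      have hqD : q ∉ D := fun h => hq (hD.1 h)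
      rw [insert_sdiff_of_notMem _ hqD, prod_insert (fun h => hq (mem_sdiff.1 h).1)]
      ring
    · rw [sum_image, mul_sum]
      · refine sum_congr rfl fun D hD => ?_
        rw [mem_powersetCard] at hD
        have hqD : q ∉ D := fun h => hq (hD.1 h)
        have e : insert q T \ insert q D = T \ D := by
          ext x
          simp only [mem_sdiff, mem_insert]
          constructor
          · rintro ⟨h1 | h1, h2⟩
            · exact absurd (Or.inl h1) h2
            · exact ⟨h1, fun h => h2 (Or.inr h)⟩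
          · rintro ⟨h1, h2⟩
            refine ⟨Or.inr h1, ?_⟩
            rintro (h3 | h3)
            · exact hq (h3 ▸ h1)
            · exact h2 h3
        rw [prod_insert hqD, e]
        ring
      · intro D hD D' hD' h
        rw [mem_coe, mem_powersetCard] at hD hD'
        have h1 : q ∉ D := fun h => hq (hD.1 h)
        have h2 : q ∉ D' := fun h => hq (hD'.1 h)
        rw [← erase_insert h1, ← erase_insert h2]
        rw [h]
  · rw [disjoint_left]
    intro D h1 h2
    rw [mem_powersetCard] at h1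
    rw [mem_image] at h2
    obtain ⟨D', _, rfl⟩ := h2
    exact hq (h1.1 (mem_insert_self q D'))

lemma es_nonneg {c a : ℕ → ℝ} {T : Finset ℕ} (ha : ∀ p ∈ T, 0 ≤ a p) (hc : ∀ p ∈ T, 0 ≤ c p) (j : ℕ) :
    0 ≤ es c a j T := by
  unfold es
  refine sum_nonneg fun D hD => ?_
  rw [mem_powersetCard] at hD
  exact mul_nonneg (prod_nonneg fun p hp => ha p (hD.1 hp)) (prod_nonneg fun p hp => hc p (mem_sdiff.1 hp).1)

/-- the truncated alternating sums -/
noncomputable def fs (c a : ℕ → ℝ) (r : ℕ) (T : Finset ℕ) : ℝ := ∑ j ∈ range (r + 1), (-1) ^ j * es c a j T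

lemma fs_insert_zero (c a : ℕ → ℝ) {T : Finset ℕ} {q : ℕ} (hq : q ∉ T) :
    fs c a 0 (insert q T) = c q * fs c a 0 T := by
  unfold fs
  rw [sum_range_one, sum_range_one, es_zero, es_zero, prod_insert hq]
  ring

lemma fs_insert (c a : ℕ → ℝ) (r : ℕ) {T : Finset ℕ} {q : ℕ} (hq : q ∉ T) :
    fs c a (r + 1) (insert q T) = c q * fs c a (r + 1) T - a q * fs c a r T := by
  unfold fs
  rw [sum_range_succ', sum_range_succ' (fun j => (-1) ^ j * es c a j T) (r + 1), es_zero, es_zero, prod_insert hq]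
  have h : ∀ j ∈ range (r + 1), (-1 : ℝ) ^ (j + 1) * es c a (j + 1) (insert q T) =
      c q * ((-1) ^ (j + 1) * es c a (j + 1) T) - a q * ((-1) ^ j * es c a j T) := by
    intro j _
    rw [es_insert c a j hq]
    ring
  rw [sum_congr rfl h, sum_sub_distrib, ← mul_sum, ← mul_sum]
  ring

/-- the inequalities of Bonferroni -/
lemma bonf {c a : ℕ → ℝ} {T : Finset ℕ} (ha : ∀ p ∈ T, 0 ≤ a p) (hc : ∀ p ∈ T, a p ≤ c p) (r : ℕ) :
    0 ≤ (-1) ^ r * (fs c a r T - ∏ p ∈ T, (c p - a p)) ∧
      (-1) ^ r * (fs c a r T - ∏ p ∈ T, (c p - a p)) ≤ es c a (r + 1) T := by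
  induction T using Finset.induction_on generalizing r with
  | empty =>
    have h : fs c a r ∅ = 1 := by
      unfold fs
      rw [sum_range_succ', sum_eq_zero, es_zero]
      · simp
      · intro j _
        rw [es_empty, mul_zero]
    rw [h, es_empty]
    simp
  | insert q T hq ih =>
    have ha' : ∀ p ∈ T, 0 ≤ a p := fun p hp => ha p (mem_insert_of_mem hp)
    have hc' : ∀ p ∈ T, a p ≤ c p := fun p hp => hc p (mem_insert_of_mem hp)
    have haq := ha q (mem_insert_self q T)
    have hcq := hc q (mem_insert_self q T)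
    have hcq0 : 0 ≤ c q := haq.trans hcq
    have hP : 0 ≤ ∏ p ∈ T, (c p - a p) := prod_nonneg fun p hp => by linarith [hc' p hp]
    rw [prod_insert hq, es_insert c a r hq]
    rcases r with _ | r
    · have h1 := ih ha' hc' 0
      rw [fs_insert_zero c a hq, es_zero]
      rw [pow_zero, one_mul] at h1 ⊢
      have h2 : c q * fs c a 0 T - (c q - a q) * ∏ p ∈ T, (c p - a p) =
          c q * (fs c a 0 T - ∏ p ∈ T, (c p - a p)) + a q * ∏ p ∈ T, (c p - a p) := by ring
      rw [h2]
      have h3 : ∏ p ∈ T, (c p - a p) ≤ ∏ p ∈ T, c p :=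
        prod_le_prod (fun p hp => by linarith [hc' p hp]) fun p hp => by linarith [ha' p hp]
      have h4 := mul_nonneg hcq0 h1.1
      have h5 := mul_le_mul_of_nonneg_left h1.2 hcq0
      have h6 := mul_nonneg haq hP
      have h7 := mul_le_mul_of_nonneg_left h3 haq
      constructor <;> linarith
    · have h1 := ih ha' hc' (r + 1)
      have h2 := ih ha' hc' r
      rw [fs_insert c a r hq]
      have h3 : (-1 : ℝ) ^ (r + 1) * (c q * fs c a (r + 1) T - a q * fs c a r T -
          (c q - a q) * ∏ p ∈ T, (c p - a p)) =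
          c q * ((-1) ^ (r + 1) * (fs c a (r + 1) T - ∏ p ∈ T, (c p - a p))) +
          a q * ((-1) ^ r * (fs c a r T - ∏ p ∈ T, (c p - a p))) := by ring
      rw [h3]
      have h4 := mul_nonneg hcq0 h1.1
      have h5 := mul_le_mul_of_nonneg_left h1.2 hcq0
      have h6 := mul_nonneg haq h2.1
      have h7 := mul_le_mul_of_nonneg_left h2.2 haq
      constructor <;> linarith

lemma bonf_abs {c a : ℕ → ℝ} {T : Finset ℕ} (ha : ∀ p ∈ T, 0 ≤ a p) (hc : ∀ p ∈ T, a p ≤ c p) (r : ℕ) :
    |∏ p ∈ T, (c p - a p) - fs c a r T| ≤ es c a (r + 1) T := by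
  have h := bonf ha hc r
  rcases neg_one_pow_eq_or ℝ r with h1 | h1
  · rw [h1] at h
    rw [abs_le]
    constructor <;> linarith
  · rw [h1] at h
    rw [abs_le]
    constructor <;> linarith

/-- the generating function bound -/
lemma es_le {c a : ℕ → ℝ} {T : Finset ℕ} (ha : ∀ p ∈ T, 0 ≤ a p) (hc : ∀ p ∈ T, 0 ≤ c p) {t : ℝ} (ht : 0 ≤ t)
    (j : ℕ) : es c a j T * t ^ j ≤ ∏ p ∈ T, (c p + t * a p) := by
  induction T using Finset.induction_on generalizing j with
  | empty =>
    rcases j with _ | j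
    · rw [es_zero]
      simp
    · rw [es_empty]
      simp
  | insert q T hq ih =>
    have ha' : ∀ p ∈ T, 0 ≤ a p := fun p hp => ha p (mem_insert_of_mem hp)
    have hc' : ∀ p ∈ T, 0 ≤ c p := fun p hp => hc p (mem_insert_of_mem hp)
    have haq := ha q (mem_insert_self q T)
    have hcq := hc q (mem_insert_self q T)
    rw [prod_insert hq]
    have hP : 0 ≤ ∏ p ∈ T, (c p + t * a p) :=
      prod_nonneg fun p hp => add_nonneg (hc' p hp) (mul_nonneg ht (ha' p hp))
    rcases j with _ | j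
    · rw [es_zero, prod_insert hq, pow_zero, mul_one]
      refine mul_le_mul (by nlinarith) ?_ (prod_nonneg hc') (by nlinarith)
      exact prod_le_prod hc' fun p hp => by nlinarith [ha' p hp]
    · rw [es_insert c a j hq]
      have h1 := ih ha' hc' (j + 1)
      have h2 := ih ha' hc' j
      have h3 : (c q * es c a (j + 1) T + a q * es c a j T) * t ^ (j + 1) =
          c q * (es c a (j + 1) T * t ^ (j + 1)) + t * a q * (es c a j T * t ^ j) := by ring
      rw [h3, add_mul]
      exact add_le_add (mul_le_mul_of_nonneg_left h1 hcq) (mul_le_mul_of_nonneg_left h2 (mul_nonneg ht haq))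

variable {𝒜 : Type}

lemma fib1 {d p : ℕ} (hp : 0 < p) (hdp : Nat.Coprime d p) (S : Finset ℤ) (r : ℤ) (H : ℤ → ℝ) :
    ∑ m ∈ S.filter (fun m => m ≡ r [ZMOD d]), H m =
      ∑ t ∈ range p, ∑ m ∈ S.filter (fun m => m ≡ crt d p r t [ZMOD ((d * p : ℕ) : ℤ)]), H m := by
  classical
  have hpz : (0 : ℤ) < p := by exact_mod_cast hp
  rw [← sum_fiberwise_of_maps_to (s := S.filter fun m => m ≡ r [ZMOD d]) (t := range p)
    (g := fun m => (m % p).toNat)]
  · refine sum_congr rfl fun t ht => ?_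
    refine sum_congr ?_ fun _ _ => rfl
    ext m
    simp only [mem_filter, crt_iff hdp]
    have h : (m % p).toNat = t ↔ m ≡ t [ZMOD p] := by
      have h1 := Int.emod_nonneg m hpz.ne'
      have h2 : ((t : ℤ)) % p = t := Int.emod_eq_of_lt (by positivity) (by exact_mod_cast mem_range.1 ht)
      unfold Int.ModEq
      rw [h2]
      omega
    rw [h]
    tauto
  · intro m _
    rw [mem_range]
    have h1 := Int.emod_nonneg m hpz.ne'
    have h2 := Int.emod_lt_of_pos m hpz
    omega

open Classical in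
/-- the number of the residues with `Q` -/
noncomputable def kq (Q : ℕ → ℤ → Prop) (p : ℕ) : ℕ := #((range p).filter fun t : ℕ => Q p t)

open Classical in
/-- the sum over the progressions given by conditions modulo the primes in `D` -/
theorem prog (σ : Sieve 𝒜) (s : Finset ℕ) (a : ℕ → ℕ) (S : Finset ℤ) (Q : ℕ → ℤ → Prop)
    (hQ : ∀ (p : ℕ) (m m' : ℤ), m ≡ m' [ZMOD p] → (Q p m ↔ Q p m')) (δ : ℝ) (D : Finset ℕ) :
    (∀ p ∈ D, p.Prime) → ∀ d : ℕ, 0 < d → (∀ p ∈ D, Nat.Coprime d p) →
    (∀ r' : ℤ, |DD σ s a (d * ∏ p ∈ D, p) r' S| ≤ δ) → ∀ r : ℤ,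
    |∑ m ∈ S.filter (fun m => m ≡ r [ZMOD d]), h1 σ s a m * ∏ p ∈ D, (if Q p m then 1 else 0) -
      (∏ p ∈ D, ((kq Q p : ℝ) / p)) / d * ∑ m ∈ S, h2 σ s a m| ≤ (∏ p ∈ D, (kq Q p : ℝ)) * δ := by
  induction D using Finset.induction_on with
  | empty =>
    intro _ d hd _ hδ r
    have h := hδ r
    rw [prod_empty, mul_one] at h
    simp only [prod_empty, mul_one, one_mul]
    exact h
  | insert q D hq ih =>
    intro hD d hd hcop hδ r
    have hqp := hD q (mem_insert_self q D)
    have hq0 : (q : ℝ) ≠ 0 := by exact_mod_cast hqp.ne_zero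
    have hd0 : (d : ℝ) ≠ 0 := by exact_mod_cast hd.ne'
    have hdq := hcop q (mem_insert_self q D)
    have h1 : ∀ t : ℕ, |∑ m ∈ S.filter (fun m => m ≡ crt d q r t [ZMOD ((d * q : ℕ) : ℤ)]),
        h1 σ s a m * ∏ p ∈ D, (if Q p m then 1 else 0) -
        (∏ p ∈ D, ((kq Q p : ℝ) / p)) / ((d * q : ℕ) : ℝ) * ∑ m ∈ S, h2 σ s a m| ≤ (∏ p ∈ D, (kq Q p : ℝ)) * δ := by
      intro t
      refine ih (fun p hp => hD p (mem_insert_of_mem hp)) (d * q) (Nat.mul_pos hd hqp.pos) ?_ ?_ _
      · intro p hp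
        refine Nat.Coprime.mul_left (hcop p (mem_insert_of_mem hp)) ?_
        refine (Nat.coprime_primes hqp (hD p (mem_insert_of_mem hp))).2 ?_
        rintro rfl
        exact hq hp
      · intro r'
        have h := hδ r'
        rwa [prod_insert hq, ← mul_assoc] at h
    have h2 : ∑ m ∈ S.filter (fun m => m ≡ r [ZMOD d]), L5helper86.UL.h1 σ s a m *
        ∏ p ∈ insert q D, (if Q p m then (1 : ℝ) else 0) =
        ∑ t ∈ (range q).filter (fun t : ℕ => Q q t),
          ∑ m ∈ S.filter (fun m => m ≡ crt d q r t [ZMOD ((d * q : ℕ) : ℤ)]),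
            L5helper86.UL.h1 σ s a m * ∏ p ∈ D, (if Q p m then (1 : ℝ) else 0) := by
      rw [fib1 hqp.pos hdq, sum_filter]
      refine sum_congr rfl fun t _ => ?_
      have h3 : ∀ m ∈ S.filter (fun m => m ≡ crt d q r t [ZMOD ((d * q : ℕ) : ℤ)]),
          L5helper86.UL.h1 σ s a m * ∏ p ∈ insert q D, (if Q p m then (1 : ℝ) else 0) =
          if Q q t then L5helper86.UL.h1 σ s a m * ∏ p ∈ D, (if Q p m then (1 : ℝ) else 0) else 0 := by
        intro m hm
        rw [mem_filter, crt_iff hdq] at hm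
        rw [prod_insert hq]
        have h4 := hQ q m t hm.2.2
        by_cases h5 : Q q (t : ℤ)
        · rw [if_pos (h4.2 h5), if_pos h5, one_mul]
        · rw [if_neg (fun h => h5 (h4.1 h)), if_neg h5]
          simp
      rw [sum_congr rfl h3]
      by_cases h5 : Q q (t : ℤ)
      · simp only [if_pos h5]
      · simp only [if_neg h5, sum_const_zero]
    rw [h2]
    have h6 : (∏ p ∈ insert q D, ((kq Q p : ℝ) / p)) / d * ∑ m ∈ S, L5helper86.UL.h2 σ s a m =
        ∑ _t ∈ (range q).filter (fun t : ℕ => Q q t),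
          (∏ p ∈ D, ((kq Q p : ℝ) / p)) / ((d * q : ℕ) : ℝ) * ∑ m ∈ S, L5helper86.UL.h2 σ s a m := by
      rw [sum_const, nsmul_eq_mul, prod_insert hq]
      have h7 : (#((range q).filter (fun t : ℕ => Q q t)) : ℝ) = kq Q q := rfl
      rw [h7]
      push_cast
      field_simp
    rw [h6, ← sum_sub_distrib]
    refine (abs_sum_le_sum_abs _ _).trans ((sum_le_sum fun t _ => h1 t).trans ?_)
    rw [sum_const, nsmul_eq_mul, prod_insert hq]
    have h7 : (#((range q).filter (fun t : ℕ => Q q t)) : ℝ) = kq Q q := rfl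
    rw [h7, mul_assoc]

end Pool.Agent.L5helper86.UL
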