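import Pool.Agent.L5helper86.UL.Gold6

/-! Project UL (helper86): one polynomial in the semi-random model. -/

set_option autoImplicit false

namespace Pool.Agent.L5helper86.UL

open Finset Polynomial MeasureTheory ProbabilityTheory Filter Topology
open Pool.Agent.L5helper2.BH (pr mem_pr)
open Pool.Agent.L5helper2.RS (Vp Vp_eq Vp_pos Vp_le Vp_mertens bc)

/-- one polynomial -/
noncomputable def cs (f : ℤ[X]) : Fin 1 → ℤ[X] := fun _ => f

/-- the number of the zeros of `f` modulo `p` -/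
noncomputable def rf (f : ℤ[X]) (p : ℕ) : ℕ := #((range p).filter fun t : ℕ => (p : ℤ) ∣ f.eval (t : ℤ))

lemma fin1_eq (i : Fin 1) : i = 0 := Subsingleton.elim _ _

lemma US_cs (f : ℤ[X]) (a : ℕ → ℕ) (α : Finset (Fin 1) × Finset (Fin 1)) (p : ℕ) :
    US (cs f) (fun _ => 0) a α p = if (0 : Fin 1) ∈ α.2 then rf f p else rA (cs f) p α.1 (a p) := by
  classical
  unfold US rA rf cs
  split_ifs with h
  · refine congrArg card (filter_congr fun t _ => ?_)
    constructor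
    · rintro (⟨i, hi, _⟩ | ⟨i, _, h2⟩)
      · exfalso
        rw [fin1_eq i] at hi
        exact (Finset.mem_sdiff.1 hi).2 h
      · exact Int.modEq_zero_iff_dvd.1 h2
    · intro h2
      exact Or.inr ⟨0, h, Int.modEq_zero_iff_dvd.2 h2⟩
  · refine congrArg card (filter_congr fun t _ => ?_)
    constructor
    · rintro (⟨i, hi, h2⟩ | ⟨i, hi, _⟩)
      · exact ⟨i, (Finset.mem_sdiff.1 hi).1, h2⟩
      · exfalso
        rw [fin1_eq i] at hi
        exact h hi
    · rintro ⟨i, hi, h2⟩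
      refine Or.inl ⟨i, Finset.mem_sdiff.2 ⟨hi, fun h3 => ?_⟩, h2⟩
      rw [fin1_eq i] at h3
      exact h h3

lemma rf_le (f : ℤ[X]) (p : ℕ) : rf f p ≤ p := by
  unfold rf
  exact (card_filter_le _ _).trans (by simp)

/-- the main density: exact up to the level `x`, the mean from `x` to `y` -/
noncomputable def MD (f : ℤ[X]) (x y : ℕ) : ℝ :=
  (∏ p ∈ pr x, (1 - (rf f p : ℝ) / p)) * ∏ p ∈ (pr y).filter (fun p => x < p), (1 - 1 / (p : ℝ))

lemma MD_nonneg (f : ℤ[X]) (x y : ℕ) : 0 ≤ MD f x y := by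
  unfold MD
  refine mul_nonneg (prod_nonneg fun p _ => ?_) (prod_nonneg fun p hp => ?_)
  · have : (rf f p : ℝ) / p ≤ 1 := div_le_one_of_le₀ (by exact_mod_cast rf_le f p) (by positivity)
    linarith
  · have hp2 : (2 : ℝ) ≤ p := by exact_mod_cast (mem_pr.1 (mem_filter.1 hp).1).2.two_le
    have : 1 / (p : ℝ) ≤ 1 / 2 := one_div_le_one_div_of_le (by norm_num) hp2
    linarith

lemma MD_le (f : ℤ[X]) (x y : ℕ) : MD f x y ≤ 1 := by
  unfold MD
  have h1 : ∏ p ∈ pr x, (1 - (rf f p : ℝ) / p) ≤ 1 := by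
    refine prod_le_one (fun p _ => ?_) fun p _ => ?_
    · have : (rf f p : ℝ) / p ≤ 1 := div_le_one_of_le₀ (by exact_mod_cast rf_le f p) (by positivity)
      linarith
    · have : (0 : ℝ) ≤ (rf f p : ℝ) / p := by positivity
      linarith
  have h0 : 0 ≤ ∏ p ∈ pr x, (1 - (rf f p : ℝ) / p) := by
    refine prod_nonneg fun p _ => ?_
    have : (rf f p : ℝ) / p ≤ 1 := div_le_one_of_le₀ (by exact_mod_cast rf_le f p) (by positivity)
    linarith
  have h2 : ∏ p ∈ (pr y).filter (fun p => x < p), (1 - 1 / (p : ℝ)) ≤ 1 := by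
    refine prod_le_one (fun p hp => ?_) fun p hp => ?_
    · have hp2 : (2 : ℝ) ≤ p := by exact_mod_cast (mem_pr.1 (mem_filter.1 hp).1).2.two_le
      have : 1 / (p : ℝ) ≤ 1 / 2 := one_div_le_one_div_of_le (by norm_num) hp2
      linarith
    · have : (0 : ℝ) ≤ 1 / (p : ℝ) := by positivity
      linarith
  have h3 : 0 ≤ ∏ p ∈ (pr y).filter (fun p => x < p), (1 - 1 / (p : ℝ)) := by
    refine prod_nonneg fun p hp => ?_
    have hp2 : (2 : ℝ) ≤ p := by exact_mod_cast (mem_pr.1 (mem_filter.1 hp).1).2.two_le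
    have : 1 / (p : ℝ) ≤ 1 / 2 := one_div_le_one_div_of_le (by norm_num) hp2
    linarith
  nlinarith

/-- the labels beyond the level `x` -/
def be (x y : ℕ) (p : ℕ) : Finset (Fin 1) := if p ≤ x then ∅ else al (fun _ => y) p

lemma al_one (y p : ℕ) : al (fun _ : Fin 1 => y) p = if p ≤ y then {0} else ∅ := by
  unfold al
  split_ifs with h
  · ext i
    rw [fin1_eq i]
    simp [h]
  · ext i
    rw [fin1_eq i]
    simp [h]

/-- the exact density for one polynomial -/
lemma dens_cs {w z : ℕ → ℝ} (f : ℤ[X]) (a : ℕ → ℕ) {m : ℤ} {M x y : ℕ} (hx : x = ⌊w (f.eval m).natAbs⌋₊)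
    (hy : y = ⌊z (f.eval m).natAbs⌋₊) (hM : z (f.eval m).natAbs ≤ M) (hM2 : w (f.eval m).natAbs ≤ M) :
    densS w z (cs f) (fun _ => 0) a m = MD f x y * ∏ p ∈ pr M, tA (cs f) p (be x y p) (a p) := by
  classical
  have hev : ∀ i : Fin 1, ((cs f i).eval m).natAbs = (f.eval m).natAbs := fun i => rfl
  have hxM : x ≤ M := by rw [hx]; exact Nat.floor_le_of_le hM2
  have hyM : y ≤ M := by rw [hy]; exact Nat.floor_le_of_le hM
  rw [densS_eq (M := M) (fun i => by rw [hev]; exact hM) (fun i => by rw [hev]; exact hM2)]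
  unfold MD
  have e1 : ∏ p ∈ pr x, (1 - (rf f p : ℝ) / p) = ∏ p ∈ pr M, if p ≤ x then (1 - (rf f p : ℝ) / p) else 1 := by
    rw [← prod_filter]
    refine prod_congr ?_ fun _ _ => rfl
    ext p
    rw [mem_filter, mem_pr, mem_pr]
    constructor
    · rintro ⟨h1, h2⟩
      exact ⟨⟨h1.trans hxM, h2⟩, h1⟩
    · rintro ⟨⟨_, h2⟩, h3⟩
      exact ⟨h3, h2⟩
  have e2 : ∏ p ∈ (pr y).filter (fun p => x < p), (1 - 1 / (p : ℝ)) =
      ∏ p ∈ pr M, if p ≤ y ∧ x < p then (1 - 1 / (p : ℝ)) else 1 := by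
    rw [← prod_filter]
    refine prod_congr ?_ fun _ _ => rfl
    ext p
    rw [mem_filter, mem_filter, mem_pr, mem_pr]
    constructor
    · rintro ⟨⟨h1, h2⟩, h3⟩
      exact ⟨⟨h1.trans hyM, h2⟩, h1, h3⟩
    · rintro ⟨⟨_, h2⟩, h3, h4⟩
      exact ⟨⟨h3, h2⟩, h4⟩
  rw [e1, e2, ← prod_mul_distrib, ← prod_mul_distrib]
  refine prod_congr rfl fun p hp => ?_
  have hpp := (mem_pr.1 hp).2
  have hp2 : (2 : ℝ) ≤ p := by exact_mod_cast hpp.two_le
  have hp3 : 1 / (p : ℝ) ≤ 1 / 2 := one_div_le_one_div_of_le (by norm_num) hp2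
  have hlab1 : ((PT w z (cs f)).lab p m).1 = al (fun _ => y) p := by
    show univ.filter (fun i => (p : ℝ) ≤ z ((cs f i).eval m).natAbs) = _
    unfold al
    refine filter_congr fun i _ => ?_
    rw [hev, hy, Nat.le_floor_iff' hpp.ne_zero]
  have hlab2 : (0 : Fin 1) ∈ ((PT w z (cs f)).lab p m).2 ↔ p ≤ x := by
    show (0 : Fin 1) ∈ univ.filter (fun i => (p : ℝ) ≤ w ((cs f i).eval m).natAbs) ↔ _
    rw [mem_filter, hev, hx, Nat.le_floor_iff' hpp.ne_zero]
    simp
  rw [US_cs]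
  by_cases h1 : p ≤ x
  · rw [if_pos (hlab2.2 h1), if_pos h1, if_neg (fun h => by omega)]
    unfold be
    rw [if_pos h1, tA_empty]
    ring
  · rw [if_neg (fun h => h1 (hlab2.1 h)), if_neg h1, hlab1]
    unfold be
    rw [if_neg h1]
    unfold tA
    by_cases h2 : p ≤ y
    · rw [if_pos ⟨h2, by omega⟩]
      have h3 : #(al (fun _ : Fin 1 => y) p) = 1 := by
        rw [al_one, if_pos h2, card_singleton]
      rw [h3, pow_one]
      have h4 : 1 - 1 / (p : ℝ) ≠ 0 := by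
        have : 0 < 1 - 1 / (p : ℝ) := by linarith
        exact this.ne'
      rw [one_mul, mul_div_assoc', mul_div_cancel_left₀ _ h4]
    · rw [if_neg (fun h => h2 h.1)]
      have h3 : al (fun _ : Fin 1 => y) p = ∅ := by
        rw [al_one, if_neg h2]
      rw [h3, card_empty, pow_zero]
      simp

end Pool.Agent.L5helper86.UL
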