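import Pool.Agent.L5helper86.UL.Buni1

/-! Project UL (helper86): one polynomial in the semi-random model, the random factors. -/

set_option autoImplicit false

namespace Pool.Agent.L5helper86.UL

open Finset Polynomial MeasureTheory ProbabilityTheory Filter Topology
open Pool.Agent.L5helper2.BH (pr mem_pr)
open Pool.Agent.L5helper2.RS (Vp Vp_eq Vp_pos Vp_le Vp_mertens bc)

lemma rA_empty (g : Fin 1 → ℤ[X]) (p b : ℕ) : rA g p ∅ b = 0 := by
  classical
  unfold rA
  simp

lemma mA_empty (g : Fin 1 → ℤ[X]) (p : ℕ) : mA g p ∅ = 0 := by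
  unfold mA
  simp [rA_empty]

/-- the product of the random factors is close to one, almost surely, uniformly -/
theorem ratio_as {Ω : Type} [MeasurableSpace Ω] {P : Measure Ω} {X : ℕ → Ω → ℕ} (h : Sys P X) (D B E : ℕ)
    {ε : ℝ} (hε : 0 < ε) :
    ∀ᵐ ω ∂P, ∀ᶠ N : ℕ in atTop, ∀ f : ℤ[X], f.natDegree ≤ D → (∀ j, |f.coeff j| ≤ (N : ℤ) ^ B) →
      (∀ p : ℕ, p.Prime → WW N < p → NC (cs f) p) → ∀ x y M : ℕ, WW N ≤ x → x ≤ y → y ≤ M → M ≤ N ^ E →
      Real.exp (-(3 * ε)) ≤ ∏ p ∈ pr M, tA (cs f) p (be x y p) (X p ω) ∧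
      ∏ p ∈ pr M, tA (cs f) p (be x y p) (X p ω) ≤ Real.exp (3 * ε) := by
  classical
  have hdet := tail_det 1 D B hε
  filter_upwards [tail_as h 1 D B E hε] with ω hω
  filter_upwards [hω, hdet, WW_tendsto.eventually_ge_atTop (2 * (1 * D))] with N h1 h2 h3 f hD hf hNC x y M hx hxy hyM hME
  obtain ⟨S, hS⟩ : ∃ S : (ℕ → Finset (Fin 1)) → ℝ, S = fun α => ∑ p ∈ tl (cs f) (WW N) (N ^ E),
    ((rA (cs f) p (α p) (X p ω) : ℝ) - mA (cs f) p (α p)) / p := ⟨_, rfl⟩
  have h4 : |S (al (fun _ => x))| ≤ ε := by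
    rw [hS]
    exact h1 (cs f) (fun _ => hD) (fun _ => hf) (fun _ => x) (fun _ => (hxy.trans hyM).trans hME)
  have h5 : |S (al (fun _ => y))| ≤ ε := by
    rw [hS]
    exact h1 (cs f) (fun _ => hD) (fun _ => hf) (fun _ => y) (fun _ => hyM.trans hME)
  have h6 : S (be x y) = S (al (fun _ => y)) - S (al (fun _ => x)) := by
    rw [hS]
    simp only
    rw [← sum_sub_distrib]
    refine sum_congr rfl fun p _ => ?_
    unfold be
    split_ifs with hp
    · rw [al_one, al_one, if_pos hp, if_pos (hp.trans hxy), rA_empty, mA_empty]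
      simp
    · rw [al_one x, if_neg hp, rA_empty, mA_empty]
      simp
  have hinj : Function.Injective (cs f) := fun i j _ => Subsingleton.elim _ _
  have h7 := h2 (cs f) hinj (fun _ => hD) (fun _ => hf) hNC (be x y) (fun p => X p ω) (N ^ E)
  have hpos : ∀ p ∈ tl (cs f) (WW N) (N ^ E), 0 < tA (cs f) p (be x y p) (X p ω) := by
    intro p hp
    obtain ⟨⟨hp1, _⟩, hpp, hN⟩ := mem_tl.1 hp
    exact tA_pos (fun _ => hD) hpp hN (by omega) _ _
  have h8 : |∑ p ∈ tl (cs f) (WW N) (N ^ E), Real.log (tA (cs f) p (be x y p) (X p ω))| ≤ 3 * ε := by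
    have e : ∑ p ∈ tl (cs f) (WW N) (N ^ E), Real.log (tA (cs f) p (be x y p) (X p ω)) =
        ∑ p ∈ tl (cs f) (WW N) (N ^ E), (Real.log (tA (cs f) p (be x y p) (X p ω)) +
          ((rA (cs f) p (be x y p) (X p ω) : ℝ) - mA (cs f) p (be x y p)) / p) - S (be x y) := by
      rw [hS]
      simp only
      rw [← sum_sub_distrib]
      refine sum_congr rfl fun p _ => ?_
      ring
    rw [e, h6]
    have h9 := abs_le.1 h4
    have h10 := abs_le.1 h5
    have h11 := abs_le.1 h7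
    rw [abs_le]
    constructor <;> linarith [h9.1, h9.2, h10.1, h10.2, h11.1, h11.2]
  have h9 : ∏ p ∈ pr M, tA (cs f) p (be x y p) (X p ω) =
      ∏ p ∈ tl (cs f) (WW N) (N ^ E), tA (cs f) p (be x y p) (X p ω) := by
    rw [← prod_filter_mul_prod_filter_not (pr M) (fun p => x < p ∧ p ≤ y)]
    have e1 : ∏ p ∈ (pr M).filter (fun p => ¬ (x < p ∧ p ≤ y)), tA (cs f) p (be x y p) (X p ω) = 1 := by
      refine prod_eq_one fun p hp => ?_
      have hp2 := (mem_filter.1 hp).2
      have hb : be x y p = ∅ := by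
        unfold be
        split_ifs with hpx
        · rfl
        · rw [al_one, if_neg (fun h => hp2 ⟨by omega, h⟩)]
      rw [hb, tA_empty]
    rw [e1, mul_one]
    refine prod_subset ?_ ?_
    · intro p hp
      rw [mem_filter, mem_pr] at hp
      rw [mem_tl]
      have hW : WW N < p := by omega
      exact ⟨⟨hW, by omega⟩, hp.1.2, hNC p hp.1.2 hW⟩
    · intro p hp hnp
      obtain ⟨⟨hp1, hp2⟩, hpp, _⟩ := mem_tl.1 hp
      rw [mem_filter, mem_pr] at hnp
      have hb : be x y p = ∅ := by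
        unfold be
        split_ifs with hpx
        · rfl
        · rw [al_one, if_neg]
          intro hpy
          exact hnp ⟨⟨hpy.trans hyM, hpp⟩, by omega, hpy⟩
      rw [hb, tA_empty]
  rw [h9, ← Real.exp_log (prod_pos hpos), Real.log_prod (fun p hp => (hpos p hp).ne')]
  have h10 := abs_le.1 h8
  exact ⟨Real.exp_le_exp.2 h10.1, Real.exp_le_exp.2 h10.2⟩

end Pool.Agent.L5helper86.UL
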