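import Pool.Agent.L5helper86.UL.Buni2

/-! Project UL (helper86): the law for one polynomial in the semi-random model. -/

set_option autoImplicit false

namespace Pool.Agent.L5helper86.UL

open Finset Polynomial MeasureTheory ProbabilityTheory Filter Topology
open Pool.Agent.L5helper2.BH (pr mem_pr)
open Pool.Agent.L5helper2.RS (Vp Vp_eq Vp_pos Vp_le Vp_mertens bc)

lemma fib_card {f : ℤ[X]} (hf : 0 < f.natDegree) (S : Finset ℤ) (c : ℤ) :
    #(S.filter fun m => f.eval m = c) ≤ f.natDegree := by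
  have h0 : f - C c ≠ 0 := by
    intro h
    have h1 : f = C c := sub_eq_zero.1 h
    rw [h1, natDegree_C] at hf
    exact lt_irrefl _ hf
  calc _ ≤ #(f - C c).roots.toFinset := by
        refine card_le_card fun m hm => ?_
        rw [Multiset.mem_toFinset, mem_roots h0, IsRoot.def, eval_sub, eval_C, sub_eq_zero]
        exact (mem_filter.1 hm).2
    _ ≤ Multiset.card (f - C c).roots := Multiset.toFinset_card_le _
    _ ≤ (f - C c).natDegree := card_roots' _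
    _ = f.natDegree := natDegree_sub_C

/-- few arguments with small values -/
lemma small_values {f : ℤ[X]} (hf : 0 < f.natDegree) (S : Finset ℤ) (Y : ℕ) :
    #(S.filter fun m => (f.eval m).natAbs ≤ Y) ≤ (2 * Y + 1) * f.natDegree := by
  calc _ ≤ #((Icc (-(Y : ℤ)) Y).biUnion fun c => S.filter fun m => f.eval m = c) := by
        refine card_le_card fun m hm => ?_
        rw [mem_filter] at hm
        rw [mem_biUnion]
        refine ⟨f.eval m, ?_, ?_⟩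
        · rw [mem_Icc]
          omega
        · rw [mem_filter]
          exact ⟨hm.1, rfl⟩
    _ ≤ ∑ _c ∈ Icc (-(Y : ℤ)) Y, f.natDegree :=
        card_biUnion_le.trans (sum_le_sum fun c _ => fib_card hf S c)
    _ = (2 * Y + 1) * f.natDegree := by
        rw [sum_const, smul_eq_mul, Int.card_Icc]
        congr 1
        omega

lemma NC_deg {f : ℤ[X]} {W : ℕ} (h : ∀ p : ℕ, p.Prime → W < p → NC (cs f) p) : 0 < f.natDegree := by
  by_contra hcon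
  have h0 : f.natDegree = 0 := by omega
  obtain ⟨p, hp1, hp2⟩ := Nat.exists_infinite_primes (W + 1)
  have h1 := h p hp2 (by omega) 0 (f.coeff 0 : ZMod p)
  apply h1
  unfold rd cs
  rw [eq_C_of_natDegree_eq_zero h0]
  simp

open Classical in
/-- the count -/
noncomputable def BC (w : ℕ → ℝ) (θ : ℝ) (a : ℕ → ℕ) (f : ℤ[X]) (u : ℤ) (N : ℕ) : ℝ :=
  #((Ioc u (u + N)).filter fun m => SR w (fun v : ℕ => (v : ℝ) ^ θ) (fun _ => 0) a (f.eval m))

/-- the main term -/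
noncomputable def BM (w : ℕ → ℝ) (θ : ℝ) (f : ℤ[X]) (u : ℤ) (N : ℕ) : ℝ :=
  ∑ m ∈ Ioc u (u + N), MD f ⌊w (f.eval m).natAbs⌋₊ ⌊((f.eval m).natAbs : ℝ) ^ θ⌋₊

lemma BM_nonneg (w : ℕ → ℝ) (θ : ℝ) (f : ℤ[X]) (u : ℤ) (N : ℕ) : 0 ≤ BM w θ f u N :=
  sum_nonneg fun _ _ => MD_nonneg _ _ _

theorem buni_law {Ω : Type} [MeasurableSpace Ω] {P : Measure Ω} {X : ℕ → Ω → ℕ} (h : Sys P X) {θ : ℝ} (hθ : 0 < θ)
    {w : ℕ → ℝ} (hwm : Monotone w) (hw1 : ∀ᶠ v : ℕ in atTop, (Real.log v) ^ 5 ≤ w v)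
    (hw : ∀ ε : ℝ, 0 < ε → ∀ᶠ n : ℕ in atTop, w n ≤ Real.exp (ε * Real.log n / Real.log (Real.log n))) :
    ∀ᵐ ω ∂P, ∀ D B : ℕ, ∀ ε : ℝ, 0 < ε → ∀ᶠ N : ℕ in atTop, ∀ u : ℤ, |u| ≤ (N : ℤ) ^ B → ∀ f : ℤ[X],
      f.natDegree ≤ D → (∀ j, |f.coeff j| ≤ (N : ℤ) ^ B) → (∀ p : ℕ, p.Prime → WW N < p → NC (cs f) p) →
      |BC w θ (fun p => X p ω) f u N - BM w θ f u N| ≤ ε * BM w θ f u N + (N : ℝ) ^ (1 / 2 + ε) := by
  classical
  have h2 : ∀ᵐ ω ∂P, ∀ D B E j : ℕ, ∀ᶠ N : ℕ in atTop, ∀ f : ℤ[X], f.natDegree ≤ D →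
      (∀ j, |f.coeff j| ≤ (N : ℤ) ^ B) →
      (∀ p : ℕ, p.Prime → WW N < p → NC (cs f) p) → ∀ x y M : ℕ, WW N ≤ x → x ≤ y → y ≤ M → M ≤ N ^ E →
      Real.exp (-(3 * (1 / ((j : ℝ) + 1)))) ≤ ∏ p ∈ pr M, tA (cs f) p (be x y p) (X p ω) ∧
      ∏ p ∈ pr M, tA (cs f) p (be x y p) (X p ω) ≤ Real.exp (3 * (1 / ((j : ℝ) + 1))) := by
    rw [ae_all_iff]; intro D
    rw [ae_all_iff]; intro B
    rw [ae_all_iff]; intro E
    rw [ae_all_iff]; intro j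
    exact ratio_as h D B E (by positivity)
  filter_upwards [semi_law h hwm (z_mono hθ) (z_bound hθ) hw, h2] with ω h3 h4 D B ε hε
  obtain ⟨E, hE⟩ := level_bound (z_bound hθ) D B
  obtain ⟨δ, hδ⟩ : ∃ δ : ℝ, δ = min (ε / 4) 1 := ⟨_, rfl⟩
  have hδ0 : 0 < δ := by rw [hδ]; positivity
  have hδ1 : δ ≤ 1 := by rw [hδ]; exact min_le_right _ _
  have hδε : δ ≤ ε / 4 := by rw [hδ]; exact min_le_left _ _
  obtain ⟨j, hj⟩ := exists_nat_gt (6 / δ)
  have hj0 : (0 : ℝ) < (j : ℝ) + 1 := by positivity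
  have hjδ : 3 * (1 / ((j : ℝ) + 1)) ≤ δ / 2 := by
    rw [div_lt_iff₀ hδ0] at hj
    rw [mul_one_div, div_le_div_iff₀ hj0 (by norm_num)]
    linarith
  obtain ⟨v1, hv1⟩ := eventually_atTop.1 (hw_pow hθ hw)
  have hpw : ∀ᶠ N : ℕ in atTop, (6 * (D : ℝ) + 1) ≤ (N : ℝ) ^ (ε / 2) :=
    ((tendsto_rpow_atTop (by positivity)).comp tendsto_natCast_atTop_atTop).eventually_ge_atTop _
  have hpw2 : ∀ᶠ N : ℕ in atTop, (2 : ℝ) ≤ (N : ℝ) ^ (ε / 2) :=
    ((tendsto_rpow_atTop (by positivity)).comp tendsto_natCast_atTop_atTop).eventually_ge_atTop _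
  filter_upwards [h3 1 D B 1 (ε / 2) (by positivity), h4 D B E j, hE, low_level hw1,
    logT.eventually_ge_atTop (max 1 (4 / ε)), hpw, hpw2, eventually_ge_atTop ((v1 + 1) ^ 2)] with
    N h5 h6 h7 h8 h9 h10 h11 h12 u hu f hD hf hNC
  have hN0n : 1 ≤ N := le_trans (Nat.one_le_pow _ _ (by omega)) h12
  have hN1 : (1 : ℝ) ≤ N := by exact_mod_cast hN0n
  have hN0 : (0 : ℝ) < N := by linarith
  have hlog1 : 1 ≤ Real.log N := (le_max_left _ _).trans h9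
  have hlog2 : 4 / ε ≤ Real.log N := (le_max_right _ _).trans h9
  have hlog0 : 0 < Real.log N := by linarith
  have hdeg := NC_deg hNC
  obtain ⟨_, h13⟩ := h5 u hu (cs f) (fun _ => hD) (fun _ => hf) (fun _ => 0)
  rw [pow_one] at h13
  obtain ⟨d, hd⟩ : ∃ d : ℤ → ℝ, d = fun m => densS w (fun v : ℕ => (v : ℝ) ^ θ) (cs f) (fun _ => 0)
    (fun p => X p ω) m := ⟨_, rfl⟩
  have hcount : (#((Ioc u (u + N)).filter fun m => ∀ i, SR w (fun v : ℕ => (v : ℝ) ^ θ) (fun _ => 0)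
      (fun p => X p ω) ((cs f i).eval m)) : ℝ) = BC w θ (fun p => X p ω) f u N := by
    unfold BC
    have e : (Ioc u (u + N)).filter (fun m => ∀ i, SR w (fun v : ℕ => (v : ℝ) ^ θ) (fun _ => 0)
        (fun p => X p ω) ((cs f i).eval m)) =
        (Ioc u (u + N)).filter (fun m => SR w (fun v : ℕ => (v : ℝ) ^ θ) (fun _ => 0) (fun p => X p ω) (f.eval m)) := by
      refine filter_congr fun m _ => ?_
      constructor
      · intro h
        exact h 0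
      · intro h i
        exact h
    rw [e]
  rw [hcount] at h13
  -- one term
  obtain ⟨Q, hQ⟩ : ∃ Q : ℤ → ℝ, Q = fun m => MD f ⌊w (f.eval m).natAbs⌋₊ ⌊((f.eval m).natAbs : ℝ) ^ θ⌋₊ := ⟨_, rfl⟩
  have hBM : BM w θ f u N = ∑ m ∈ Ioc u (u + N), Q m := by
    rw [hQ]
    rfl
  have hQ01 : ∀ m, 0 ≤ Q m ∧ Q m ≤ 1 := by
    intro m
    rw [hQ]
    exact ⟨MD_nonneg _ _ _, MD_le _ _ _⟩
  have hd01 : ∀ m, 0 ≤ d m ∧ d m ≤ 1 := by
    intro m
    rw [hd]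
    exact densS_01' _ _ _ _ _ _
  have hterm : ∀ m ∈ Ioc u (u + N), |d m - Q m| ≤ δ * Q m + (if (f.eval m).natAbs ≤ Nat.sqrt N then 1 else 0) := by
    intro m hm
    split_ifs with hs
    · have h14 := hd01 m
      have h15 := hQ01 m
      have h16 : 0 ≤ δ * Q m := mul_nonneg hδ0.le h15.1
      rw [abs_le]
      constructor <;> linarith [h14.1, h14.2, h15.1, h15.2]
    · obtain ⟨v, hv⟩ : ∃ v, v = (f.eval m).natAbs := ⟨_, rfl⟩
      rw [← hv] at hs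
      have hNv : N ≤ v ^ 2 := by
        have h14 : Nat.sqrt N < v := not_le.1 hs
        have h15 := Nat.sqrt_lt'.1 h14
        exact h15.le
      have hvv : v1 ≤ v := by
        by_contra hcon
        have h14 : v ≤ v1 := by omega
        have h15 : v ^ 2 ≤ v1 ^ 2 := Nat.pow_le_pow_left h14 2
        nlinarith
      have h14 := h7 u hu f hD hf m hm
      rw [← hv] at h14
      have hWx : WW N ≤ ⌊w v⌋₊ := Nat.le_floor (h8 v hNv)
      have hwz : w v ≤ (v : ℝ) ^ θ := hv1 v hvv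
      have hxy : ⌊w v⌋₊ ≤ ⌊(v : ℝ) ^ θ⌋₊ := Nat.floor_le_floor hwz
      have hyM : ⌊(v : ℝ) ^ θ⌋₊ ≤ N ^ E := Nat.floor_le_of_le h14.2
      have h15 := h6 f hD hf hNC _ _ (N ^ E) hWx hxy hyM le_rfl
      have h16 : d m = Q m * ∏ p ∈ pr (N ^ E), tA (cs f) p (be ⌊w v⌋₊ ⌊(v : ℝ) ^ θ⌋₊ p) (X p ω) := by
        rw [hd, hQ]
        simp only
        rw [← hv]
        exact dens_cs (w := w) (z := fun v : ℕ => (v : ℝ) ^ θ) f (fun p => X p ω) (m := m) (M := N ^ E)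
          (x := ⌊w v⌋₊) (y := ⌊(v : ℝ) ^ θ⌋₊) (by rw [hv]) (by rw [hv]) (by rw [← hv]; exact h14.2)
          (by rw [← hv]; exact hwz.trans h14.2)
      obtain ⟨R, hR⟩ : ∃ R, R = ∏ p ∈ pr (N ^ E), tA (cs f) p (be ⌊w v⌋₊ ⌊(v : ℝ) ^ θ⌋₊ p) (X p ω) := ⟨_, rfl⟩
      rw [← hR] at h15 h16
      have h17 : |R - 1| ≤ δ := by
        have e1 : Real.exp (3 * (1 / ((j : ℝ) + 1))) ≤ 1 + δ := by
          have h18 : Real.exp (3 * (1 / ((j : ℝ) + 1))) ≤ Real.exp (δ / 2) := Real.exp_le_exp.2 hjδ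
          refine h18.trans ((exp_le_sq (x := δ / 2) (by rw [abs_of_pos (by positivity)]; linarith)).trans ?_)
          nlinarith
        have e2 : 1 - δ ≤ Real.exp (-(3 * (1 / ((j : ℝ) + 1)))) := by
          have h18 := Real.add_one_le_exp (-(3 * (1 / ((j : ℝ) + 1))))
          linarith
        rw [abs_le]
        constructor <;> linarith [h15.1, h15.2]
      have h18 := hQ01 m
      rw [h16, add_zero]
      have e3 : Q m * R - Q m = Q m * (R - 1) := by ring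
      rw [e3, abs_mul, abs_of_nonneg h18.1, mul_comm]
      exact mul_le_mul_of_nonneg_right h17 h18.1
  have hsumd : |∑ m ∈ Ioc u (u + N), d m - BM w θ f u N| ≤ δ * BM w θ f u N + (2 * Nat.sqrt N + 1) * D := by
    rw [hBM, ← sum_sub_distrib]
    refine (abs_sum_le_sum_abs _ _).trans ((sum_le_sum hterm).trans ?_)
    rw [sum_add_distrib, ← mul_sum]
    refine add_le_add le_rfl ?_
    rw [← sum_filter, sum_const, nsmul_eq_mul, mul_one]
    have h14 := small_values hdeg (Ioc u (u + N)) (Nat.sqrt N)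
    have h15 : (2 * Nat.sqrt N + 1) * f.natDegree ≤ (2 * Nat.sqrt N + 1) * D := Nat.mul_le_mul_left _ hD
    exact_mod_cast h14.trans h15
  have hd' : ∑ m ∈ Ioc u (u + N), densS w (fun v : ℕ => (v : ℝ) ^ θ) (cs f) (fun _ => 0) (fun p => X p ω) m =
      ∑ m ∈ Ioc u (u + N), d m := by rw [hd]
  rw [hd'] at h13
  have hM0 := BM_nonneg w θ f u N
  obtain ⟨M0, hM0d⟩ : ∃ M0, M0 = BM w θ f u N := ⟨_, rfl⟩
  obtain ⟨T, hT⟩ : ∃ T, T = ∑ m ∈ Ioc u (u + N), d m := ⟨_, rfl⟩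
  obtain ⟨K, hK⟩ : ∃ K : ℝ, K = (2 * Nat.sqrt N + 1) * D := ⟨_, rfl⟩
  have hK0 : 0 ≤ K := by rw [hK]; positivity
  have hT0 : 0 ≤ T := by rw [hT]; exact sum_nonneg fun m _ => (hd01 m).1
  rw [← hM0d, ← hT, ← hK] at hsumd
  rw [← hT] at h13
  rw [← hM0d] at hM0 ⊢
  have hsq : (Nat.sqrt N : ℝ) ≤ (N : ℝ) ^ (1 / 2 : ℝ) := by
    rw [← Real.sqrt_eq_rpow]
    apply Real.le_sqrt_of_sq_le
    exact_mod_cast Nat.sqrt_le' N
  have hhalf : 1 ≤ (N : ℝ) ^ (1 / 2 : ℝ) := Real.one_le_rpow hN1 (by norm_num)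
  have hKb : 2 * K ≤ 6 * D * (N : ℝ) ^ (1 / 2 : ℝ) := by
    rw [hK]
    have hD0 : (0 : ℝ) ≤ D := by positivity
    have h14 : 2 * (Nat.sqrt N : ℝ) + 1 ≤ 3 * (N : ℝ) ^ (1 / 2 : ℝ) := by linarith
    have h15 := mul_le_mul_of_nonneg_right h14 hD0
    linarith
  have hend : 2 * K + (N : ℝ) ^ (1 / 2 + ε / 2) ≤ (N : ℝ) ^ (1 / 2 + ε) := by
    have e1 : (N : ℝ) ^ (1 / 2 + ε / 2) = (N : ℝ) ^ (1 / 2 : ℝ) * (N : ℝ) ^ (ε / 2) := Real.rpow_add hN0 _ _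
    have e2 : (N : ℝ) ^ (1 / 2 + ε) = (N : ℝ) ^ (1 / 2 : ℝ) * (N : ℝ) ^ (ε / 2) * (N : ℝ) ^ (ε / 2) := by
      rw [← Real.rpow_add hN0, ← Real.rpow_add hN0]
      congr 1
      ring
    rw [e1, e2]
    obtain ⟨q, hq⟩ : ∃ q, q = (N : ℝ) ^ (ε / 2) := ⟨_, rfl⟩
    obtain ⟨s, hs⟩ : ∃ s, s = (N : ℝ) ^ (1 / 2 : ℝ) := ⟨_, rfl⟩
    rw [← hq] at h10 h11 ⊢
    rw [← hs] at hKb hhalf ⊢
    have h14 : 6 * (D : ℝ) * s ≤ q * s := mul_le_mul_of_nonneg_right (by linarith) (by linarith)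
    have h15 : 0 ≤ s * q := by
      apply mul_nonneg
      · linarith
      · linarith
    nlinarith
  have h14 : T / Real.log N ≤ ε / 4 * T := by
    rw [div_le_iff₀ hlog0]
    rw [div_le_iff₀ hε] at hlog2
    nlinarith
  have h15 : T ≤ (1 + δ) * M0 + K := by
    have := (abs_le.1 hsumd).2
    linarith
  have h16 : T / Real.log N ≤ ε / 4 * ((1 + δ) * M0) + K := by
    by_cases hε4 : ε / 4 ≤ 1
    · calc T / Real.log N ≤ ε / 4 * T := h14
        _ ≤ ε / 4 * ((1 + δ) * M0 + K) := mul_le_mul_of_nonneg_left h15 (by positivity)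
        _ ≤ ε / 4 * ((1 + δ) * M0) + K := by nlinarith
    · have h17 : T / Real.log N ≤ T := div_le_self hT0 hlog1
      have h18 : 0 ≤ (1 + δ) * M0 := by positivity
      nlinarith
  have h17 : |BC w θ (fun p => X p ω) f u N - M0| ≤ |BC w θ (fun p => X p ω) f u N - T| + |T - M0| :=
    abs_sub_le _ _ _
  have h18 : δ * M0 ≤ ε / 4 * M0 := mul_le_mul_of_nonneg_right hδε hM0
  have h19 : ε / 4 * ((1 + δ) * M0) ≤ ε / 4 * (2 * M0) := by
    refine mul_le_mul_of_nonneg_left ?_ (by positivity)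
    nlinarith
  have h20 : 0 ≤ ε * M0 := mul_nonneg hε.le hM0
  calc |BC w θ (fun p => X p ω) f u N - M0| ≤ (T / Real.log N + (N : ℝ) ^ (1 / 2 + ε / 2)) + (δ * M0 + K) :=
        h17.trans (add_le_add h13 hsumd)
    _ ≤ ε * M0 + (2 * K + (N : ℝ) ^ (1 / 2 + ε / 2)) := by linarith
    _ ≤ ε * M0 + (N : ℝ) ^ (1 / 2 + ε) := by linarith

end Pool.Agent.L5helper86.UL
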