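import Pool.Agent.L5helper86.UL.Buni3
import Pool.Agent.L5helper2.RS.S10
import Pool.Agent.Y781.JR.Dens

/-! Project UL (helper86): fixed polynomials, the true constants. -/

set_option autoImplicit false

namespace Pool.Agent.L5helper86.UL

open Finset Polynomial MeasureTheory ProbabilityTheory Filter Topology
open Pool.Agent.L5helper2.BH (pr mem_pr)
open Pool.Agent.L5helper2.RS (Vp Vp_eq Vp_pos Vp_le Vp_mertens bc poly_size)

/-- the partial products of the constant of Bateman and Horn -/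
noncomputable def BH (f : ℤ[X]) (y : ℕ) : ℝ := ∏ p ∈ pr y, (1 - (rf f p : ℝ) / p) / (1 - 1 / (p : ℝ))

lemma Vp_pr (y : ℕ) : Vp y = ∏ p ∈ pr y, (1 - 1 / (p : ℝ)) := by
  rw [Vp_eq]
  refine prod_congr ?_ fun _ _ => rfl
  ext p
  rw [mem_filter, mem_Icc, mem_pr]
  constructor
  · rintro ⟨⟨_, h2⟩, h3⟩
    exact ⟨h2, h3⟩
  · rintro ⟨h2, h3⟩
    exact ⟨⟨h3.one_lt.le, h2⟩, h3⟩

lemma MD_BH (f : ℤ[X]) {x y : ℕ} (hxy : x ≤ y) : MD f x y = BH f x * Vp y := by
  have h1 : ∏ p ∈ pr x, (1 - (rf f p : ℝ) / p) = BH f x * Vp x := by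
    unfold BH
    rw [Vp_pr, ← prod_mul_distrib]
    refine prod_congr rfl fun p hp => ?_
    have hp2 : (2 : ℝ) ≤ p := by exact_mod_cast (mem_pr.1 hp).2.two_le
    have h2 : 1 / (p : ℝ) ≤ 1 / 2 := one_div_le_one_div_of_le (by norm_num) hp2
    have h3 : 1 - 1 / (p : ℝ) ≠ 0 := by
      have : 0 < 1 - 1 / (p : ℝ) := by linarith
      exact this.ne'
    rw [div_mul_cancel₀ _ h3]
  have h2 : Vp x * ∏ p ∈ (pr y).filter (fun p => x < p), (1 - 1 / (p : ℝ)) = Vp y := by
    rw [Vp_pr x, Vp_pr y, ← prod_filter_mul_prod_filter_not (pr y) (fun p => p ≤ x)]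
    congr 1
    · refine prod_congr ?_ fun _ _ => rfl
      ext p
      rw [mem_filter, mem_pr, mem_pr]
      constructor
      · rintro ⟨h2, h3⟩
        exact ⟨⟨h2.trans hxy, h3⟩, h2⟩
      · rintro ⟨⟨_, h3⟩, h4⟩
        exact ⟨h4, h3⟩
    · refine prod_congr (filter_congr fun p _ => ?_) fun _ _ => rfl
      omega
  unfold MD
  rw [h1, mul_assoc, h2]

/-- the size of the values -/
lemma log_ratio (g : ℤ[X]) (hg : 1 ≤ g.natDegree) :
    Tendsto (fun n : ℕ => Real.log ((g.eval (n : ℤ)).natAbs : ℕ) / Real.log n) atTop (𝓝 g.natDegree) := by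
  obtain ⟨q, hq, hsz⟩ := poly_size g hg
  have hl : Tendsto (fun x : ℕ => Real.log x) atTop atTop := Real.tendsto_log_atTop.comp tendsto_natCast_atTop_atTop
  have hq0 : (1 : ℝ) ≤ q := by exact_mod_cast hq
  have hlq : 0 ≤ Real.log q := Real.log_nonneg hq0
  have hL : Tendsto (fun n : ℕ => (g.natDegree : ℝ) - 2 * Real.log q / Real.log n) atTop (𝓝 g.natDegree) := by
    have h1 := (tendsto_const_nhds (x := 2 * Real.log q)).div_atTop hl
    have h2 := h1.const_sub (g.natDegree : ℝ)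
    rwa [sub_zero] at h2
  have hU : Tendsto (fun n : ℕ => (g.natDegree : ℝ) + 2 * Real.log q / Real.log n) atTop (𝓝 g.natDegree) := by
    have h1 := (tendsto_const_nhds (x := 2 * Real.log q)).div_atTop hl
    have h2 := h1.const_add (g.natDegree : ℝ)
    rwa [add_zero] at h2
  have habs : ∀ n : ℕ, |((g.eval (n : ℤ) : ℤ) : ℝ)| = (((g.eval (n : ℤ)).natAbs : ℕ) : ℝ) := by
    intro n
    rw [Nat.cast_natAbs]
    push_cast
    rfl
  refine tendsto_of_tendsto_of_tendsto_of_le_of_le' hL hU ?_ ?_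
  · filter_upwards [hsz, hl.eventually_gt_atTop 0, eventually_gt_atTop 0] with n h1 h2 h4
    have hn0 : (0 : ℝ) < n := by exact_mod_cast h4
    rw [habs] at h1
    obtain ⟨v, hv⟩ : ∃ v : ℝ, v = (((g.eval (n : ℤ)).natAbs : ℕ) : ℝ) := ⟨_, rfl⟩
    rw [← hv] at h1 ⊢
    have hv0 : 0 < v := by
      have h5 : 0 < (n : ℝ) ^ g.natDegree := by positivity
      by_contra hc
      have : (q : ℝ) ^ 2 * v ≤ 0 := mul_nonpos_of_nonneg_of_nonpos (by positivity) (not_lt.1 hc)
      linarith [h1.1]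
    have h6 : g.natDegree * Real.log n ≤ 2 * Real.log q + Real.log v := by
      have := Real.log_le_log (by positivity) h1.1
      rw [Real.log_pow, Real.log_mul (by positivity) (by positivity), Real.log_pow] at this
      push_cast at this
      exact this
    rw [le_div_iff₀ h2, sub_mul, div_mul_cancel₀ _ h2.ne']
    linarith
  · filter_upwards [hsz, hl.eventually_gt_atTop 0, eventually_gt_atTop 0] with n h1 h2 h4
    have hn0 : (0 : ℝ) < n := by exact_mod_cast h4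
    rw [habs] at h1
    obtain ⟨v, hv⟩ : ∃ v : ℝ, v = (((g.eval (n : ℤ)).natAbs : ℕ) : ℝ) := ⟨_, rfl⟩
    rw [← hv] at h1 ⊢
    have hv0 : 0 < v := by
      have h5 : 0 < (n : ℝ) ^ g.natDegree := by positivity
      by_contra hc
      have : (q : ℝ) ^ 2 * v ≤ 0 := mul_nonpos_of_nonneg_of_nonpos (by positivity) (not_lt.1 hc)
      linarith [h1.1]
    have h7 : Real.log v ≤ 2 * Real.log q + g.natDegree * Real.log n := by
      have := Real.log_le_log hv0 h1.2
      rw [Real.log_mul (by positivity) (by positivity), Real.log_pow, Real.log_pow] at this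
      push_cast at this
      exact this
    rw [div_le_iff₀ h2, add_mul, div_mul_cancel₀ _ h2.ne']
    linarith

/-- the values tend to infinity -/
lemma natAbs_tendsto (g : ℤ[X]) (hg : 1 ≤ g.natDegree) :
    Tendsto (fun n : ℕ => (g.eval (n : ℤ)).natAbs) atTop atTop := by
  obtain ⟨q, hq, hsz⟩ := poly_size g hg
  have hq0 : (1 : ℝ) ≤ q := by exact_mod_cast hq
  have habs : ∀ n : ℕ, |((g.eval (n : ℤ) : ℤ) : ℝ)| = (((g.eval (n : ℤ)).natAbs : ℕ) : ℝ) := by
    intro n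
    rw [Nat.cast_natAbs]
    push_cast
    rfl
  have h1 : Tendsto (fun n : ℕ => (n : ℝ) / (q : ℝ) ^ 2) atTop atTop :=
    tendsto_natCast_atTop_atTop.atTop_div_const (by positivity)
  have h2 : Tendsto (fun n : ℕ => (((g.eval (n : ℤ)).natAbs : ℕ) : ℝ)) atTop atTop := by
    refine tendsto_atTop_mono' _ ?_ h1
    filter_upwards [hsz, eventually_ge_atTop 1] with n h3 h4
    rw [habs] at h3
    have hn1 : (1 : ℝ) ≤ n := by exact_mod_cast h4
    have hpow : (n : ℝ) ≤ (n : ℝ) ^ g.natDegree := le_self_pow₀ hn1 (by omega)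
    rw [div_le_iff₀ (by positivity)]
    linarith [h3.1]
  exact tendsto_natCast_atTop_iff.1 h2

/-- the main density for a fixed polynomial -/
theorem MD_lim {θ : ℝ} (hθ : 0 < θ) {w : ℕ → ℝ} (hwT : Tendsto w atTop atTop)
    (hw2 : ∀ᶠ v : ℕ in atTop, w v ≤ (v : ℝ) ^ θ) {f : ℤ[X]} (hf : 1 ≤ f.natDegree) {C : ℝ}
    (hC : Tendsto (BH f) atTop (𝓝 C)) :
    Tendsto (fun m : ℕ => MD f ⌊w (f.eval (m : ℤ)).natAbs⌋₊ ⌊((f.eval (m : ℤ)).natAbs : ℝ) ^ θ⌋₊ * Real.log m) atTop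
      (𝓝 (C * (Real.exp (-Real.eulerMascheroniConstant) / θ) / f.natDegree)) := by
  have hv := natAbs_tendsto f hf
  have h1 : Tendsto (fun m : ℕ => BH f ⌊w (f.eval (m : ℤ)).natAbs⌋₊) atTop (𝓝 C) :=
    hC.comp (tendsto_nat_floor_atTop.comp (hwT.comp hv))
  have h2 : Tendsto (fun m : ℕ => VV θ (f.eval (m : ℤ)).natAbs * Real.log ((f.eval (m : ℤ)).natAbs : ℕ)) atTop
      (𝓝 (Real.exp (-Real.eulerMascheroniConstant) / θ)) := (VV_lim hθ).comp hv
  have hd0 : (f.natDegree : ℝ) ≠ 0 := by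
    have : 0 < f.natDegree := by omega
    exact_mod_cast this.ne'
  have h3 := (log_ratio f hf).inv₀ hd0
  have h4 := (h1.mul h2).mul h3
  rw [← div_eq_mul_inv] at h4
  refine h4.congr' ?_
  have h5 : ∀ᶠ m : ℕ in atTop, 1 < (f.eval (m : ℤ)).natAbs := hv.eventually_gt_atTop 1
  filter_upwards [hv.eventually hw2, h5, eventually_gt_atTop 1] with m h6 h7 h8
  have hxy : ⌊w (f.eval (m : ℤ)).natAbs⌋₊ ≤ ⌊((f.eval (m : ℤ)).natAbs : ℝ) ^ θ⌋₊ := Nat.floor_le_floor h6
  rw [MD_BH f hxy]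
  have h9 : 0 < Real.log ((f.eval (m : ℤ)).natAbs : ℕ) := Real.log_pos (by exact_mod_cast h7)
  have h10 : 0 < Real.log m := Real.log_pos (by exact_mod_cast h8)
  unfold VV
  rw [inv_div]
  field_simp

end Pool.Agent.L5helper86.UL
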