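import Pool.Agent.L5helper86.UL.Buni5

/-! Project UL (helper86): the polynomials `X ^ 2 + k`, the true constants. -/

set_option autoImplicit false

namespace Pool.Agent.L5helper86.UL

open Finset Polynomial MeasureTheory ProbabilityTheory Filter Topology
open Pool.Agent.L5helper2.BH (pr mem_pr)
open Pool.Agent.L5helper2.RS (Vp Vp_eq Vp_pos Vp_le Vp_mertens bc poly_size)

lemma rf_quad (k : ℤ) (p : ℕ) : rf (X ^ 2 + C k) p =
    ((Finset.range p).filter (fun m : ℕ => (p : ℤ) ∣ (m : ℤ) ^ 2 + k)).card := by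
  unfold rf
  refine congrArg card (filter_congr fun t _ => ?_)
  rw [eval_add, eval_pow, eval_X, eval_C]

lemma BH_quad (k : ℤ) (y : ℕ) : BH (X ^ 2 + C k) y = Pool.Agent.Y781.JR.RR k (y + 1) := by
  have h1 := Pool.Agent.Y781.JR.dens_eq k ((y + 1 : ℕ) : ℝ)
  rw [Nat.ceil_natCast] at h1
  have hs : pr y = (range (y + 1)).filter Nat.Prime := by
    ext p
    rw [mem_pr, mem_filter, mem_range]
    constructor
    · rintro ⟨h2, h3⟩
      exact ⟨by omega, h3⟩
    · rintro ⟨h2, h3⟩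
      exact ⟨by omega, h3⟩
  have h2 : Pool.Agent.Y882.JR.dens k ((y + 1 : ℕ) : ℝ) = ∏ p ∈ pr y, (1 - (rf (X ^ 2 + C k) p : ℝ) / p) := by
    unfold Pool.Agent.Y882.JR.dens
    rw [Nat.ceil_natCast, hs]
    refine prod_congr rfl fun p _ => ?_
    rw [rf_quad]
  have h3 : Pool.Agent.Y781.JR.GG (y + 1) = ∏ p ∈ pr y, (1 - 1 / (p : ℝ)) := by
    unfold Pool.Agent.Y781.JR.GG
    rw [hs]
  unfold BH
  rw [prod_div_distrib, ← h2, ← h3, h1, mul_comm, mul_div_assoc, div_self (Pool.Agent.Y781.JR.GG_pos _).ne', mul_one]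

theorem quad_conv (k : ℤ) (hk : ¬ IsSquare (-k)) : ∃ C' : ℝ, 0 < C' ∧ Tendsto (BH (X ^ 2 + C k)) atTop (𝓝 C') := by
  obtain ⟨C', hC, h⟩ := Pool.Agent.Y781.JR.RR_conv k hk
  refine ⟨C', hC, ?_⟩
  have h2 := h.comp (tendsto_add_atTop_nat 1)
  refine h2.congr fun y => ?_
  rw [BH_quad]
  rfl

lemma quad_deg (k : ℤ) : (X ^ 2 + C k : ℤ[X]).natDegree = 2 := by
  rw [natDegree_X_pow_add_C]

/-- the partial products of the constant of the problem -/
lemma BH_one (y : ℕ) : BH (X ^ 2 + C 1) y =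
    ∏ p ∈ (Icc 3 y).filter Nat.Prime, (1 - (-1 : ℝ) ^ ((p - 1) / 2) / ((p : ℝ) - 1)) := by
  rw [BH_quad]
  unfold Pool.Agent.Y781.JR.RR
  have hs : (range (y + 1)).filter (fun p : ℕ => p.Prime ∧ p ≠ 2) = (Icc 3 y).filter Nat.Prime := by
    ext p
    rw [mem_filter, mem_filter, mem_Icc, mem_range]
    constructor
    · rintro ⟨h1, h2, h3⟩
      have := h2.two_le
      exact ⟨⟨by omega, by omega⟩, h2⟩
    · rintro ⟨⟨h1, h2⟩, h3⟩
      exact ⟨by omega, h3, by omega⟩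
  rw [hs]
  refine prod_congr rfl fun p hp => ?_
  rw [mem_filter, mem_Icc] at hp
  have hodd : Odd p := hp.2.odd_of_ne_two (by omega)
  have hmod : p % 2 = 1 := Nat.odd_iff.1 hodd
  rw [jacobiSym.at_neg_one hodd, ZMod.χ₄_eq_neg_one_pow hmod]
  have e : (p - 1) / 2 = p / 2 := by omega
  rw [e]
  push_cast
  rfl

/-- from the values `m ^ 2 + 1 ≤ n` to the arguments -/
lemma sqrt_scale : Tendsto (fun n : ℕ => (Real.log n / Real.sqrt n) *
    ((Nat.sqrt (n - 1) : ℕ) / Real.log (Nat.sqrt (n - 1) : ℕ))) atTop (𝓝 2) := by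
  have hH : Tendsto (fun n : ℕ => Nat.sqrt (n - 1)) atTop atTop := by
    rw [tendsto_atTop]
    intro b
    filter_upwards [eventually_ge_atTop (b ^ 2 + 1)] with n hn
    rw [Nat.le_sqrt']
    omega
  have hHr : Tendsto (fun n : ℕ => ((Nat.sqrt (n - 1) : ℕ) : ℝ)) atTop atTop :=
    tendsto_natCast_atTop_atTop.comp hH
  have hlH : Tendsto (fun n : ℕ => Real.log ((Nat.sqrt (n - 1) : ℕ) : ℝ)) atTop atTop :=
    Real.tendsto_log_atTop.comp hHr
  -- the ratio of the sizes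
  have h1 : Tendsto (fun n : ℕ => ((Nat.sqrt (n - 1) : ℕ) : ℝ) / Real.sqrt n) atTop (𝓝 1) := by
    have hlow : Tendsto (fun n : ℕ => 1 - 2 / Real.sqrt (n : ℝ)) atTop (𝓝 1) := by
      have h2 : Tendsto (fun n : ℕ => Real.sqrt (n : ℝ)) atTop atTop :=
        Real.tendsto_sqrt_atTop.comp tendsto_natCast_atTop_atTop
      have h3 := (tendsto_const_nhds (x := (2 : ℝ))).div_atTop h2
      have h4 := h3.const_sub 1
      rwa [sub_zero] at h4
    refine tendsto_of_tendsto_of_tendsto_of_le_of_le' hlow tendsto_const_nhds ?_ ?_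
    · filter_upwards [eventually_ge_atTop 1] with n hn
      have hn0 : (0 : ℝ) < n := by exact_mod_cast hn
      have hs0 : 0 < Real.sqrt n := Real.sqrt_pos.2 hn0
      rw [le_div_iff₀ hs0, sub_mul, div_mul_cancel₀ _ hs0.ne', one_mul]
      have h2 : n - 1 < (Nat.sqrt (n - 1) + 1) ^ 2 := Nat.lt_succ_sqrt' (n - 1)
      have h3 : n ≤ (Nat.sqrt (n - 1) + 1) ^ 2 := by omega
      have h4 : (n : ℝ) ≤ (((Nat.sqrt (n - 1) : ℕ) : ℝ) + 1) ^ 2 := by exact_mod_cast h3
      have h5 : Real.sqrt n ≤ ((Nat.sqrt (n - 1) : ℕ) : ℝ) + 1 := Real.sqrt_le_iff.2 ⟨by positivity, h4⟩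
      linarith
    · filter_upwards [eventually_ge_atTop 1] with n hn
      have hn0 : (0 : ℝ) < n := by exact_mod_cast hn
      have hs0 : 0 < Real.sqrt n := Real.sqrt_pos.2 hn0
      rw [div_le_one hs0]
      apply Real.le_sqrt_of_sq_le
      have h2 : Nat.sqrt (n - 1) ^ 2 ≤ n := (Nat.sqrt_le' (n - 1)).trans (by omega)
      exact_mod_cast h2
  have h2 : Tendsto (fun n : ℕ => Real.log n / Real.log ((Nat.sqrt (n - 1) : ℕ) : ℝ)) atTop (𝓝 2) := by
    have hup : Tendsto (fun n : ℕ => 2 + 2 * Real.log 2 / Real.log ((Nat.sqrt (n - 1) : ℕ) : ℝ)) atTop (𝓝 2) := by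
      have h3 := (tendsto_const_nhds (x := 2 * Real.log 2)).div_atTop hlH
      have h4 := h3.const_add 2
      rwa [add_zero] at h4
    refine tendsto_of_tendsto_of_tendsto_of_le_of_le' tendsto_const_nhds hup ?_ ?_
    · filter_upwards [eventually_ge_atTop 1, hlH.eventually_gt_atTop 0, hHr.eventually_gt_atTop 0] with n hn h3 h4
      rw [le_div_iff₀ h3]
      have h5 : Nat.sqrt (n - 1) ^ 2 ≤ n := (Nat.sqrt_le' (n - 1)).trans (by omega)
      have h6 : (((Nat.sqrt (n - 1) : ℕ) : ℝ)) ^ 2 ≤ n := by exact_mod_cast h5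
      have h7 := Real.log_le_log (by positivity) h6
      rwa [Real.log_pow, Nat.cast_ofNat] at h7
    · filter_upwards [eventually_ge_atTop 1, hlH.eventually_gt_atTop 0, hHr.eventually_ge_atTop 1] with n hn h3 h4
      have hn0 : (0 : ℝ) < n := by exact_mod_cast hn
      rw [div_le_iff₀ h3, add_mul, div_mul_cancel₀ _ h3.ne']
      have h5 : n - 1 < (Nat.sqrt (n - 1) + 1) ^ 2 := Nat.lt_succ_sqrt' (n - 1)
      have h6 : n ≤ (Nat.sqrt (n - 1) + 1) ^ 2 := by omega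
      have h7 : (n : ℝ) ≤ (((Nat.sqrt (n - 1) : ℕ) : ℝ) + 1) ^ 2 := by exact_mod_cast h6
      have h8 : (n : ℝ) ≤ (2 * ((Nat.sqrt (n - 1) : ℕ) : ℝ)) ^ 2 :=
        h7.trans (pow_le_pow_left₀ (by positivity) (by linarith) 2)
      have h9 := Real.log_le_log hn0 h8
      rw [Real.log_pow, Real.log_mul (by norm_num) (by linarith)] at h9
      push_cast at h9
      linarith
  have h3 := h1.mul h2
  rw [one_mul] at h3
  refine h3.congr fun n => ?_
  ring

end Pool.Agent.L5helper86.UL
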