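import Pool.Agent.L5helper86.UL.AS

/-! Project UL (helper86): the sieve with two levels, all progressions, almost surely. -/

set_option autoImplicit false

namespace Pool.Agent.L5helper86.UL

open Finset Polynomial MeasureTheory ProbabilityTheory Filter Topology
open Pool.Agent.L5helper2.RS (bc)
open Pool.Agent.L5helper2.BH (pr mem_pr prod_small)

variable {k : ℕ}

open Classical in
/-- the sieve given by polynomials `g i` and the levels `w < p ≤ z` -/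
noncomputable def PT (w z : ℕ → ℝ) (g : Fin k → ℤ[X]) : Sieve (Finset (Fin k) × Finset (Fin k)) where
  lab p m := (univ.filter (fun i => (p : ℝ) ≤ z ((g i).eval m).natAbs),
    univ.filter (fun i => (p : ℝ) ≤ w ((g i).eval m).natAbs))
  κ p α ρ m := ∃ i ∈ α.1 \ α.2, (g i).eval m ≡ (ρ : ℤ) [ZMOD p]
  per p α ρ m m' h := (PS z g).per p (α.1 \ α.2) ρ m m' h

lemma PT_loc (w z : ℕ → ℝ) (g : Fin k → ℤ[X]) {D : ℕ} (hD : ∀ i, (g i).natDegree ≤ D) {p : ℕ} (hp : p.Prime) :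
    Loc (PT w z g) (BB k D) p := by
  classical
  obtain ⟨Sp, Exc, kb, h1, h2, h3, h4, h5, h6, h7, h8, h9⟩ := PS_loc z g hD hp
  exact ⟨Sp, Exc, fun α => kb (α.1 \ α.2), h1, h2, h3, h4, fun r hr α => h5 r hr (α.1 \ α.2),
    fun r hr α => h6 r hr (α.1 \ α.2), fun α t ht => h7 (α.1 \ α.2) t ht, fun α t ht => h8 (α.1 \ α.2) t ht,
    fun α => h9 (α.1 \ α.2)⟩

lemma up_ord {z : ℕ → ℝ} (hz : Monotone z) (p : ℕ) : ({v : ℕ | (p : ℝ) ≤ z v} : Set ℕ).OrdConnected := by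
  have : IsUpperSet ({v : ℕ | (p : ℝ) ≤ z v} : Set ℕ) := fun v w hvw hv => le_trans hv (hz hvw)
  exact this.ordConnected

lemma lo_ord {z : ℕ → ℝ} (hz : Monotone z) (p : ℕ) : ({v : ℕ | ¬ (p : ℝ) ≤ z v} : Set ℕ).OrdConnected := by
  have : IsLowerSet ({v : ℕ | ¬ (p : ℝ) ≤ z v} : Set ℕ) := fun v w hvw hv h => hv (le_trans h (hz hvw))
  exact this.ordConnected

open Classical in
/-- the set given by a label -/
noncomputable def ls (z : ℕ → ℝ) (p : ℕ) (α : Finset (Fin k)) (i : Fin k) : Set ℕ :=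
  if i ∈ α then {v : ℕ | (p : ℝ) ≤ z v} else {v : ℕ | ¬ (p : ℝ) ≤ z v}

lemma ls_ord {z : ℕ → ℝ} (hz : Monotone z) (p : ℕ) (α : Finset (Fin k)) (i : Fin k) : (ls z p α i).OrdConnected := by
  unfold ls
  split_ifs
  · exact up_ord hz p
  · exact lo_ord hz p

lemma ls_iff (z : ℕ → ℝ) (g : Fin k → ℤ[X]) (p : ℕ) (α : Finset (Fin k)) (m : ℤ) :
    (∀ i, ((g i).eval m).natAbs ∈ ls z p α i) ↔ (PS z g).lab p m = α := by
  classical
  show _ ↔ univ.filter (fun i => (p : ℝ) ≤ z ((g i).eval m).natAbs) = α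
  constructor
  · intro h
    ext i
    have h4 := h i
    unfold ls at h4
    by_cases hi : i ∈ α
    · rw [if_pos hi] at h4
      simp only [mem_filter, mem_univ, true_and, hi, iff_true]
      exact h4
    · rw [if_neg hi] at h4
      simp only [mem_filter, mem_univ, true_and, hi, iff_false]
      exact h4
  · intro h i
    have h3 : i ∈ α ↔ (p : ℝ) ≤ z ((g i).eval m).natAbs := by
      rw [← h]
      simp
    unfold ls
    by_cases hi : i ∈ α
    · rw [if_pos hi]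
      exact h3.1 hi
    · rw [if_neg hi]
      exact fun h => hi (h3.2 h)

lemma PT_closed {w z : ℕ → ℝ} (hw : Monotone w) (hz : Monotone z) (g : Fin k → ℤ[X]) {S : Finset ℤ} (hS : S ∈ PC g)
    (p : ℕ) (α : Finset (Fin k) × Finset (Fin k)) : Sl (PT w z g) p S α ∈ PC g := by
  classical
  obtain ⟨u, N, J, hJ, hSm⟩ := hS
  refine ⟨u, N, fun i => J i ∩ (ls z p α.1 i ∩ ls w p α.2 i), fun i => ?_, fun m => ?_⟩
  · exact (hJ i).inter ((ls_ord hz p α.1 i).inter (ls_ord hw p α.2 i))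
  · rw [mem_Sl, hSm, and_assoc]
    refine and_congr_right fun _ => ?_
    have h1 := ls_iff z g p α.1 m
    have h2 := ls_iff w g p α.2 m
    have h3 : (PT w z g).lab p m = α ↔ (PS z g).lab p m = α.1 ∧ (PS w g).lab p m = α.2 := Prod.ext_iff
    rw [h3, ← h1, ← h2, ← forall_and, ← forall_and]
    rfl

theorem PT_reg {w z : ℕ → ℝ} (hw : Monotone w) (hz : Monotone z) (g : Fin k → ℤ[X]) {D : ℕ}
    (hD : ∀ i, (g i).natDegree ≤ D) : Reg (PT w z g) (PC g) (BB k D) where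
  closed S hS p α := PT_closed hw hz g hS p α
  disc := (PS_reg hz g hD).disc

open Classical in
/-- the cells -/
noncomputable def cell (w z : ℕ → ℝ) (g : Fin k → ℤ[X]) (W : ℕ) (x y : Fin k → ℕ) (u : ℤ) (N : ℕ) : Finset ℤ :=
  (Ioc u (u + N)).filter fun m => ∀ i, min ⌊z ((g i).eval m).natAbs⌋₊ W = x i ∧ min ⌊w ((g i).eval m).natAbs⌋₊ W = y i

lemma lvl_ord {f : ℕ → ℕ} (hf : Monotone f) (x : ℕ) : ({v : ℕ | f v = x} : Set ℕ).OrdConnected := by
  refine ⟨fun a ha b hb c hc => ?_⟩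
  have h1 := hf hc.1
  have h2 := hf hc.2
  show f c = x
  have ha' : f a = x := ha
  have hb' : f b = x := hb
  omega

lemma cell_mem {w z : ℕ → ℝ} (hw : Monotone w) (hz : Monotone z) (g : Fin k → ℤ[X]) (W : ℕ) (x y : Fin k → ℕ) (u : ℤ)
    (N : ℕ) : cell w z g W x y u N ∈ PC g := by
  classical
  refine ⟨u, N, fun i => {v : ℕ | min ⌊z v⌋₊ W = x i} ∩ {v : ℕ | min ⌊w v⌋₊ W = y i}, fun i => ?_, fun m => ?_⟩
  · refine (lvl_ord (f := fun v => min ⌊z v⌋₊ W) ?_ _).inter (lvl_ord (f := fun v => min ⌊w v⌋₊ W) ?_ _)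
    · exact fun a b hab => min_le_min_right W (Nat.floor_le_floor (hz hab))
    · exact fun a b hab => min_le_min_right W (Nat.floor_le_floor (hw hab))
  · unfold cell
    rw [mem_filter]
    rfl

/-- one configuration -/
theorem one_cfg (k D E n : ℕ) : ∃ C : ℝ, 0 < C ∧
    ∀ {Ω : Type} [MeasurableSpace Ω] {P : Measure Ω} {X : ℕ → Ω → ℕ}, Sys P X →
    ∀ w z : ℕ → ℝ, Monotone w → Monotone z → ∀ g : Fin k → ℤ[X], (∀ i, (g i).natDegree ≤ D) →
    ∀ N : ℕ, 1 ≤ N → ∀ S ∈ PC g, #S ≤ N → ∀ s ⊆ pr (N ^ E), ∀ d : ℕ, 0 < d → (∀ p ∈ s, Nat.Coprime d p) → ∀ r : ℤ,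
    ∀ δ : ℝ, 0 < δ → P.real {ω | δ ≤ |DD (PT w z g) s (fun q => X q ω) d r S|} ≤
      C * (N : ℝ) ^ (n + 2) / δ ^ (2 * n + 2) := by
  classical
  have hBB : 1 ≤ BB k D := by unfold BB; omega
  obtain ⟨C, hC, hmom⟩ := moment (Finset (Fin k) × Finset (Fin k)) n (BB k D) hBB
  obtain ⟨K, hK⟩ := exists_nat_ge C
  obtain ⟨C2, hC2, hps⟩ := prod_small (K + 1) (θ := 1 / ((E : ℝ) + 1)) (by positivity)
  refine ⟨(BB k D : ℝ) ^ (2 * n + 2) * C2, by positivity, ?_⟩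
  intro Ω _ P X h w z hw hz g hD N hN S hS hSN s hs d hd hcop r δ hδ
  have hP := h.prob
  have hN1 : (1 : ℝ) ≤ N := by exact_mod_cast hN
  have hN0 : (0 : ℝ) < N := by linarith
  have h1 := hmom h (PT w z g) (PC g) (PT_reg hw hz g hD) s
    (fun p hp => ⟨(mem_pr.1 (hs hp)).2, PT_loc w z g hD (mem_pr.1 (hs hp)).2⟩) d hd hcop S hS r
  have h2 : ∏ p ∈ s, (1 + C / p) ≤ C2 * N := by
    calc ∏ p ∈ s, (1 + C / p) ≤ ∏ p ∈ pr (N ^ E), (1 + C / p) := by
          rw [← prod_sdiff hs]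
          refine le_mul_of_one_le_left (prod_nonneg fun p _ => by positivity) ?_
          calc (1 : ℝ) = ∏ _p ∈ pr (N ^ E) \ s, (1 : ℝ) := by rw [prod_const_one]
            _ ≤ _ := by
                refine prod_le_prod (fun p _ => zero_le_one) fun p _ => ?_
                have : 0 ≤ C / (p : ℝ) := by positivity
                linarith
      _ ≤ ∏ p ∈ pr (N ^ E), (1 + ((K + 1 : ℕ) : ℝ) ^ 2 / p) := by
          refine prod_le_prod (fun p _ => by positivity) fun p _ => ?_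
          have h3 : C ≤ ((K + 1 : ℕ) : ℝ) ^ 2 := by
            have h4 : (0 : ℝ) ≤ K := by positivity
            push_cast
            nlinarith
          have h5 : C / (p : ℝ) ≤ ((K + 1 : ℕ) : ℝ) ^ 2 / p := div_le_div_of_nonneg_right h3 (by positivity)
          linarith
      _ ≤ C2 * (((N ^ E : ℕ)) : ℝ) ^ (1 / ((E : ℝ) + 1)) := hps (N ^ E) (Nat.one_le_pow _ _ hN)
      _ ≤ C2 * N := by
          refine mul_le_mul_of_nonneg_left ?_ hC2.le
          push_cast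
          rw [← Real.rpow_natCast, ← Real.rpow_mul hN0.le]
          calc (N : ℝ) ^ ((E : ℝ) * (1 / ((E : ℝ) + 1))) ≤ (N : ℝ) ^ (1 : ℝ) := by
                refine Real.rpow_le_rpow_of_exponent_le hN1 ?_
                rw [mul_one_div, div_le_one (by positivity)]
                linarith
            _ = N := Real.rpow_one _
  have hmax : max 1 ((#S : ℝ) / d) ≤ N := by
    refine max_le hN1 ?_
    refine (div_le_self (by positivity) (by exact_mod_cast hd)).trans ?_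
    exact_mod_cast hSN
  have h3 : ∫ ω, DD (PT w z g) s (fun q => X q ω) d r S ^ (2 * n + 2) ∂P ≤
      (BB k D : ℝ) ^ (2 * n + 2) * C2 * (N : ℝ) ^ (n + 2) := by
    refine h1.trans ?_
    calc (BB k D : ℝ) ^ (2 * n + 2) * (∏ p ∈ s, (1 + C / p)) * max 1 ((#S : ℝ) / d) ^ (n + 1) ≤
          (BB k D : ℝ) ^ (2 * n + 2) * (C2 * N) * (N : ℝ) ^ (n + 1) := by
          refine mul_le_mul (mul_le_mul_of_nonneg_left h2 (by positivity)) (pow_le_pow_left₀ (by positivity) hmax _)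
            (by positivity) (by positivity)
      _ = _ := by ring
  have hev : ∀ x : ℝ, x ^ (2 * n + 2) = |x| ^ (2 * n + 2) := by
    intro x
    rw [show 2 * n + 2 = 2 * (n + 1) by ring, pow_mul, pow_mul, sq_abs]
  have hmk := mul_meas_ge_le_integral_of_nonneg (μ := P)
    (f := fun ω => DD (PT w z g) s (fun q => X q ω) d r S ^ (2 * n + 2))
    (Eventually.of_forall fun ω => by
      show (0 : ℝ) ≤ DD (PT w z g) s (fun q => X q ω) d r S ^ (2 * n + 2)
      rw [hev]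
      positivity)
    (h.int_dep ((DD_dep (PT w z g) s d r S).pow (2 * n + 2))
      (M := (2 * #S : ℝ) ^ (2 * n + 2)) fun a => by
        rw [abs_pow]
        exact pow_le_pow_left₀ (abs_nonneg _) (DD_abs2 (PT w z g) _ a hd r _) _) (δ ^ (2 * n + 2))
  rw [le_div_iff₀ (by positivity), mul_comm]
  refine le_trans ?_ (hmk.trans h3)
  refine mul_le_mul_of_nonneg_left ?_ (by positivity)
  refine measureReal_mono fun ω hω => ?_
  show δ ^ (2 * n + 2) ≤ DD (PT w z g) s (fun q => X q ω) d r S ^ (2 * n + 2)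
  exact (pow_le_pow_left₀ hδ.le hω _).trans_eq (hev _).symm

/-- the primes up to `M` not dividing `d` -/
def prd (M d : ℕ) : Finset ℕ := (pr M).filter fun p => ¬ p ∣ d

lemma prd_cop {M d p : ℕ} (hp : p ∈ prd M d) : Nat.Coprime d p := by
  unfold prd at hp
  rw [mem_filter, mem_pr] at hp
  exact (Nat.coprime_comm.1 ((Nat.Prime.coprime_iff_not_dvd hp.1.2).2 hp.2))

/-- all configurations -/
theorem all_cfgs {Ω : Type} [MeasurableSpace Ω] {P : Measure Ω} {X : ℕ → Ω → ℕ} (h : Sys P X)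
    {w z : ℕ → ℝ} (hw : Monotone w) (hz : Monotone z) (k D B E : ℕ) {ε : ℝ} (hε : 0 < ε) :
    ∀ᵐ ω ∂P, ∀ᶠ N : ℕ in atTop, ∀ u : ℤ, |u| ≤ (N : ℤ) ^ B → ∀ g : Fin k → ℤ[X], (∀ i, (g i).natDegree ≤ D) →
      (∀ i j, |(g i).coeff j| ≤ (N : ℤ) ^ B) → ∀ W ≤ N, ∀ x y : Fin k → ℕ, (∀ i, x i ≤ N) → (∀ i, y i ≤ N) →
      ∀ d : ℕ, 0 < d → d ≤ N → ∀ r : ℤ,
      |DD (PT w z g) (prd (N ^ E) d) (fun q => X q ω) d r (cell w z g W x y u N)| ≤ (N : ℝ) ^ (1 / 2 + ε) := by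
  classical
  have hP := h.prob
  obtain ⟨F, hF⟩ : ∃ F : ℕ, F = (B + 2) * (1 + k * (D + 1)) + 2 * (2 * k + 3) := ⟨_, rfl⟩
  obtain ⟨n, hn⟩ := exists_nat_ge (((F : ℝ) + 3) / (2 * ε))
  obtain ⟨C, hC, hone⟩ := one_cfg k D E n
  obtain ⟨T, hT⟩ : ∃ T : ℕ → Finset ((ℤ × (Fin k × Fin (D + 1) → ℤ)) × ((Fin k → ℕ) × (Fin k → ℕ)) × (ℕ × ℕ × ℕ)),
    T = fun N : ℕ => ((Icc (-(N : ℤ) ^ B) ((N : ℤ) ^ B)) ×ˢ
      (Fintype.piFinset fun _ : Fin k × Fin (D + 1) => Icc (-(N : ℤ) ^ B) ((N : ℤ) ^ B))) ×ˢ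
      ((Fintype.piFinset fun _ : Fin k => range (N + 1)) ×ˢ (Fintype.piFinset fun _ : Fin k => range (N + 1))) ×ˢ
      (range (N + 1) ×ˢ range (N + 1) ×ˢ range (N + 1)) := ⟨_, rfl⟩
  obtain ⟨G, hG⟩ : ∃ G : ℕ → Set Ω, G = fun N => ⋃ q ∈ (T N).filter (fun q => 0 < q.2.2.2.1),
    {ω | (N : ℝ) ^ (1 / 2 + ε) ≤ |DD (PT w z (pol q.1.2)) (prd (N ^ E) q.2.2.2.1) (fun p => X p ω) q.2.2.2.1 q.2.2.2.2
      (cell w z (pol q.1.2) q.2.2.1 q.2.1.1 q.2.1.2 q.1.1 N)|} := ⟨_, rfl⟩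
  have hbc : ∀ᵐ ω ∂P, ∀ᶠ N in atTop, ω ∉ G N := by
    refine bc (C := 4 * C) ?_
    filter_upwards [eventually_ge_atTop 3] with N hN
    have hN3 : (3 : ℝ) ≤ N := by exact_mod_cast hN
    have hN0 : (0 : ℝ) < N := by linarith
    have hN1 : (1 : ℝ) ≤ N := by linarith
    have hcardI : (#(Icc (-(N : ℤ) ^ B) ((N : ℤ) ^ B)) : ℝ) ≤ (N : ℝ) ^ (B + 2) := by
      rw [Int.card_Icc]
      have h1 : (((N : ℤ) ^ B + 1 - (-(N : ℤ) ^ B)).toNat : ℤ) = 2 * (N : ℤ) ^ B + 1 := by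
        have h0 : (0 : ℤ) ≤ (N : ℤ) ^ B := by positivity
        rw [Int.toNat_of_nonneg (by linarith)]
        ring
      have h2 : ((((N : ℤ) ^ B + 1 - (-(N : ℤ) ^ B)).toNat : ℕ) : ℝ) = 2 * (N : ℝ) ^ B + 1 := by exact_mod_cast h1
      rw [h2]
      have h3 : (1 : ℝ) ≤ (N : ℝ) ^ B := one_le_pow₀ hN1
      calc 2 * (N : ℝ) ^ B + 1 ≤ 3 * (N : ℝ) ^ B := by linarith
        _ ≤ (N : ℝ) * (N : ℝ) ^ B := mul_le_mul_of_nonneg_right hN3 (by positivity)
        _ ≤ (N : ℝ) * ((N : ℝ) * (N : ℝ) ^ B) := by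
            refine mul_le_mul_of_nonneg_left ?_ hN0.le
            exact le_mul_of_one_le_left (by positivity) hN1
        _ = _ := by ring
    have hc2 : ((N : ℝ) + 1) ≤ (N : ℝ) ^ 2 := by nlinarith
    have hcard : (#(T N) : ℝ) ≤ (N : ℝ) ^ F := by
      rw [hT]
      simp only
      rw [card_product, card_product, card_product, card_product, card_product, card_product,
        Fintype.card_piFinset, Fintype.card_piFinset]
      push_cast
      simp only [prod_const, card_univ, Fintype.card_prod, Fintype.card_fin, card_range]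
      push_cast
      calc (#(Icc (-(N : ℤ) ^ B) ((N : ℤ) ^ B)) : ℝ) * (#(Icc (-(N : ℤ) ^ B) ((N : ℤ) ^ B)) : ℝ) ^ (k * (D + 1)) *
            (((N : ℝ) + 1) ^ k * ((N : ℝ) + 1) ^ k * (((N : ℝ) + 1) * (((N : ℝ) + 1) * ((N : ℝ) + 1)))) =
            (#(Icc (-(N : ℤ) ^ B) ((N : ℤ) ^ B)) : ℝ) ^ (1 + k * (D + 1)) * ((N : ℝ) + 1) ^ (2 * k + 3) := by ring
        _ ≤ ((N : ℝ) ^ (B + 2)) ^ (1 + k * (D + 1)) * ((N : ℝ) ^ 2) ^ (2 * k + 3) :=
            mul_le_mul (pow_le_pow_left₀ (by positivity) hcardI _) (pow_le_pow_left₀ (by positivity) hc2 _)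
              (by positivity) (by positivity)
        _ = (N : ℝ) ^ F := by
            rw [hF, pow_add (N : ℝ) ((B + 2) * (1 + k * (D + 1))), pow_mul (N : ℝ) (B + 2), pow_mul (N : ℝ) 2]
    have hδ : (0 : ℝ) < (N : ℝ) ^ (1 / 2 + ε) := by positivity
    rw [hG]
    refine (measureReal_biUnion_finset_le _ _).trans ?_
    calc ∑ q ∈ (T N).filter (fun q => 0 < q.2.2.2.1), P.real {ω | (N : ℝ) ^ (1 / 2 + ε) ≤
            |DD (PT w z (pol q.1.2)) (prd (N ^ E) q.2.2.2.1) (fun p => X p ω) q.2.2.2.1 q.2.2.2.2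
              (cell w z (pol q.1.2) q.2.2.1 q.2.1.1 q.2.1.2 q.1.1 N)|} ≤
          ∑ _q ∈ (T N).filter (fun q => 0 < q.2.2.2.1), C * (N : ℝ) ^ (n + 2) / ((N : ℝ) ^ (1 / 2 + ε)) ^ (2 * n + 2) := by
          refine sum_le_sum fun q hq => ?_
          rw [mem_filter] at hq
          refine hone h w z hw hz (pol q.1.2) (pol_deg q.1.2) N (by omega) _
            (cell_mem hw hz _ _ _ _ _ _) ?_ _ (filter_subset _ _) _ hq.2 (fun p hp => prd_cop hp) _ _ hδ
          unfold cell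
          refine (card_filter_le _ _).trans ?_
          rw [Int.card_Ioc]
          simp
      _ = #((T N).filter (fun q => 0 < q.2.2.2.1)) *
          (C * (N : ℝ) ^ (n + 2) / ((N : ℝ) ^ (1 / 2 + ε)) ^ (2 * n + 2)) := by
          rw [sum_const, nsmul_eq_mul]
      _ ≤ (N : ℝ) ^ F * (C * (N : ℝ) ^ (n + 2) / ((N : ℝ) ^ (1 / 2 + ε)) ^ (2 * n + 2)) := by
          refine mul_le_mul_of_nonneg_right (le_trans ?_ hcard) (by positivity)
          exact_mod_cast card_filter_le _ _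
      _ ≤ C * (N : ℝ) ^ (-2 : ℝ) := by
          have e1 : ((N : ℝ) ^ (1 / 2 + ε)) ^ (2 * n + 2) = (N : ℝ) ^ ((1 / 2 + ε) * (2 * n + 2)) := by
            rw [← Real.rpow_natCast, ← Real.rpow_mul hN0.le]
            push_cast
            rfl
          rw [e1, ← Real.rpow_natCast (N : ℝ) F, ← Real.rpow_natCast (N : ℝ) (n + 2), mul_div_assoc, ← Real.rpow_sub hN0,
            mul_left_comm, ← Real.rpow_add hN0]
          refine mul_le_mul_of_nonneg_left (Real.rpow_le_rpow_of_exponent_le hN1 ?_) hC.le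
          push_cast
          rw [div_le_iff₀ (by positivity)] at hn
          nlinarith
      _ ≤ 4 * C / ((N : ℝ) + 1) ^ 2 := by
          rw [Real.rpow_neg hN0.le, Real.rpow_two, le_div_iff₀ (by positivity)]
          have h5 : ((N : ℝ) + 1) ^ 2 ≤ 4 * (N : ℝ) ^ 2 := by nlinarith
          calc C * ((N : ℝ) ^ 2)⁻¹ * ((N : ℝ) + 1) ^ 2 ≤ C * ((N : ℝ) ^ 2)⁻¹ * (4 * (N : ℝ) ^ 2) :=
                mul_le_mul_of_nonneg_left h5 (by positivity)
            _ = 4 * C := by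
                field_simp
  filter_upwards [hbc] with ω hω
  filter_upwards [hω] with N hN u hu g hD hg W hW x y hx hy d hd0 hd r
  have hdz : (0 : ℤ) < d := by exact_mod_cast hd0
  obtain ⟨r0, hr0⟩ : ∃ r0 : ℕ, r0 = (r % d).toNat := ⟨_, rfl⟩
  have h0 := Int.emod_nonneg r hdz.ne'
  have h1 := Int.emod_lt_of_pos r hdz
  have hr0z : (r0 : ℤ) = r % d := by rw [hr0]; exact Int.toNat_of_nonneg h0
  have hDD : DD (PT w z g) (prd (N ^ E) d) (fun q => X q ω) d r (cell w z g W x y u N) =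
      DD (PT w z g) (prd (N ^ E) d) (fun q => X q ω) d (r0 : ℤ) (cell w z g W x y u N) := by
    unfold DD
    congr 1
    refine sum_congr (filter_congr fun m _ => ?_) fun _ _ => rfl
    rw [hr0z]
    unfold Int.ModEq
    rw [Int.emod_emod]
  rw [hDD]
  by_contra hcon
  apply hN
  rw [hG]
  simp only [Set.mem_iUnion]
  refine ⟨((u, fun q => (g q.1).coeff q.2), (x, y), (W, d, r0)), ?_, ?_⟩
  · rw [mem_filter]
    refine ⟨?_, hd0⟩
    rw [hT]
    simp only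
    rw [mem_product, mem_product, mem_product, mem_product, mem_product, mem_product, Fintype.mem_piFinset,
      Fintype.mem_piFinset, Fintype.mem_piFinset]
    refine ⟨⟨mem_Icc.2 (abs_le.1 hu), fun q => mem_Icc.2 (abs_le.1 (hg q.1 q.2))⟩,
      ⟨fun i => mem_range.2 (Nat.lt_succ_of_le (hx i)), fun i => mem_range.2 (Nat.lt_succ_of_le (hy i))⟩,
      mem_range.2 (Nat.lt_succ_of_le hW), mem_range.2 (Nat.lt_succ_of_le hd), mem_range.2 ?_⟩
    show r0 < N + 1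
    omega
  · show (N : ℝ) ^ (1 / 2 + ε) ≤ |DD (PT w z (pol fun q : Fin k × Fin (D + 1) => (g q.1).coeff q.2)) (prd (N ^ E) d)
      (fun p => X p ω) d r0 (cell w z (pol fun q : Fin k × Fin (D + 1) => (g q.1).coeff q.2) W x y u N)|
    rw [← pol_surj hD]
    exact (not_le.1 hcon).le

end Pool.Agent.L5helper86.UL
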