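import Pool.Agent.L5helper86.UL.Sing2

/-! Project UL (helper86): the classical form of the local densities. -/

set_option autoImplicit false

namespace Pool.Agent.L5helper86.UL

open Finset Polynomial MeasureTheory ProbabilityTheory Filter Topology
open Pool.Agent.L5helper2.BH (pr mem_pr)
open Pool.Agent.L5helper2.RS (Vp Vp_eq Vp_pos Vp_mertens)

variable {k : ℕ}

/-- the singular product up to `y` -/
noncomputable def SS (g : Fin k → ℤ[X]) (b : ℕ → ℕ) (y : ℕ) : ℝ := ∏ p ∈ pr y, tA g p univ (b p)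

lemma rA_le_p (g : Fin k → ℤ[X]) (p : ℕ) (α : Finset (Fin k)) (b : ℕ) : rA g p α b ≤ p := by
  classical
  unfold rA
  exact (card_filter_le _ _).trans (by simp)

lemma tA_nonneg (g : Fin k → ℤ[X]) {p : ℕ} (hp : p.Prime) (α : Finset (Fin k)) (b : ℕ) : 0 ≤ tA g p α b := by
  have hp0 : (0 : ℝ) < p := by exact_mod_cast hp.pos
  have hp2 : (2 : ℝ) ≤ p := by exact_mod_cast hp.two_le
  have h1 : (rA g p α b : ℝ) / p ≤ 1 := by
    rw [div_le_one hp0]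
    exact_mod_cast rA_le_p g p α b
  have h2 : 1 / (p : ℝ) ≤ 1 / 2 := one_div_le_one_div_of_le (by norm_num) hp2
  unfold tA
  exact div_nonneg (by linarith) (pow_nonneg (by linarith) _)

lemma SS_nonneg (g : Fin k → ℤ[X]) (b : ℕ → ℕ) (y : ℕ) : 0 ≤ SS g b y :=
  prod_nonneg fun _ hp => tA_nonneg g (mem_pr.1 hp).2 _ _

lemma pr_split {W M : ℕ} (h : W ≤ M) (F : ℕ → ℝ) :
    ∏ p ∈ pr M, F p = (∏ p ∈ pr W, F p) * ∏ p ∈ (Ioc W M).filter Nat.Prime, F p := by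
  rw [← prod_union]
  · refine prod_congr ?_ fun _ _ => rfl
    ext p
    rw [mem_union, mem_pr, mem_pr, mem_filter, mem_Ioc]
    constructor
    · rintro ⟨h1, h2⟩
      by_cases h3 : p ≤ W
      · exact Or.inl ⟨h3, h2⟩
      · exact Or.inr ⟨⟨by omega, h1⟩, h2⟩
    · rintro (⟨h1, h2⟩ | ⟨⟨_, h1⟩, h2⟩)
      · exact ⟨by omega, h2⟩
      · exact ⟨h1, h2⟩
  · rw [disjoint_left]
    intro p h1 h2
    rw [mem_pr] at h1
    rw [mem_filter, mem_Ioc] at h2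
    omega

lemma tl_eq {g : Fin k → ℤ[X]} {W : ℕ} (hNC : ∀ p : ℕ, p.Prime → W < p → NC g p) (M : ℕ) :
    tl g W M = (Ioc W M).filter Nat.Prime := by
  ext p
  rw [mem_tl, mem_filter, mem_Ioc]
  constructor
  · rintro ⟨h1, h2, _⟩
    exact ⟨h1, h2⟩
  · rintro ⟨h1, h2⟩
    exact ⟨h1, h2, hNC p h2 h1.1⟩

lemma prod_tl {g : Fin k → ℤ[X]} {D : ℕ} (hD : ∀ i, (g i).natDegree ≤ D) {W : ℕ}
    (hNC : ∀ p : ℕ, p.Prime → W < p → NC g p) (hW : 2 * (k * D) ≤ W) (α : ℕ → Finset (Fin k)) (b : ℕ → ℕ) (M : ℕ) :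
    ∏ p ∈ (Ioc W M).filter Nat.Prime, tA g p (α p) (b p) = Real.exp (∑ p ∈ tl g W M, Real.log (tA g p (α p) (b p))) := by
  rw [tl_eq hNC, Real.exp_sum]
  refine prod_congr rfl fun p hp => ?_
  rw [mem_filter, mem_Ioc] at hp
  rw [Real.exp_log]
  exact tA_pos hD hp.2 (hNC p hp.2 hp.1.1) (by omega) _ _

lemma tA_empty (g : Fin k → ℤ[X]) (p b : ℕ) : tA g p ∅ b = 1 := by
  classical
  unfold tA rA
  simp

/-- the logarithms of the tails are small -/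
theorem log_form {Ω : Type} [MeasurableSpace Ω] {P : Measure Ω} {X : ℕ → Ω → ℕ} (h : Sys P X)
    (k D B E : ℕ) {ε : ℝ} (hε : 0 < ε) :
    ∀ᵐ ω ∂P, ∀ᶠ N : ℕ in atTop, ∀ g : Fin k → ℤ[X], Function.Injective g → (∀ i, (g i).natDegree ≤ D) →
      (∀ i j, |(g i).coeff j| ≤ (N : ℤ) ^ B) → (∀ p : ℕ, p.Prime → WW N < p → NC g p) →
      ∀ ℓ : Fin k → ℕ, (∀ i, ℓ i ≤ N ^ E) →
      |∑ p ∈ tl g (WW N) (N ^ E), Real.log (tA g p (al ℓ p) (X p ω))| ≤ ε := by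
  have h1 := tail_as h k D B E (half_pos hε)
  have h2 := tail_det k D B (half_pos hε)
  filter_upwards [h1] with ω hω
  filter_upwards [hω, h2] with N h3 h4 g hinj hD hg hNC ℓ hℓ
  have h5 := h3 g hD hg ℓ hℓ
  have h6 := h4 g hinj hD hg hNC (al ℓ) (fun p => X p ω) (N ^ E)
  rw [sum_add_distrib] at h6
  rw [abs_le] at h5 h6 ⊢
  constructor <;> linarith [h5.1, h5.2, h6.1, h6.2]

/-- the product of the densities -/
lemma split_form {g : Fin k → ℤ[X]} {b : ℕ → ℕ} {M : ℕ} {ℓ : Fin k → ℕ} (hℓ : ∀ i, ℓ i ≤ M) :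
    ∏ p ∈ pr M, (1 - (rA g p (al ℓ p) (b p) : ℝ) / p) =
      (∏ p ∈ pr M, tA g p (al ℓ p) (b p)) * ∏ i, Vp (ℓ i) := by
  classical
  have h1 : ∏ i, Vp (ℓ i) = ∏ p ∈ pr M, (1 - 1 / (p : ℝ)) ^ #(al ℓ p) := by
    have h2 : ∀ i, Vp (ℓ i) = ∏ p ∈ pr M, if p ≤ ℓ i then (1 - 1 / (p : ℝ)) else 1 := by
      intro i
      rw [Vp_eq, ← prod_filter]
      refine prod_congr ?_ fun _ _ => rfl
      ext p
      rw [mem_filter, mem_Icc, mem_filter, mem_pr]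
      have := hℓ i
      constructor
      · rintro ⟨⟨_, h2⟩, h3⟩
        exact ⟨⟨by omega, h3⟩, h2⟩
      · rintro ⟨⟨_, h2⟩, h3⟩
        exact ⟨⟨h2.one_lt.le, h3⟩, h2⟩
    rw [prod_congr rfl fun i _ => h2 i, Finset.prod_comm]
    refine prod_congr rfl fun p _ => ?_
    rw [← prod_filter, prod_const]
    rfl
  rw [h1, ← prod_mul_distrib]
  refine prod_congr rfl fun p hp => ?_
  have hp2 : (2 : ℝ) ≤ p := by exact_mod_cast (mem_pr.1 hp).2.two_le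
  have h2 : 1 / (p : ℝ) ≤ 1 / 2 := one_div_le_one_div_of_le (by norm_num) hp2
  have h3 : (1 - 1 / (p : ℝ)) ^ #(al ℓ p) ≠ 0 := pow_ne_zero _ (by linarith)
  unfold tA
  rw [div_mul_cancel₀ _ h3]

/-- the classical form -/
theorem classical_form {Ω : Type} [MeasurableSpace Ω] {P : Measure Ω} {X : ℕ → Ω → ℕ} (h : Sys P X)
    (k D B E : ℕ) {ε : ℝ} (hε : 0 < ε) :
    ∀ᵐ ω ∂P, ∀ᶠ N : ℕ in atTop, ∀ g : Fin k → ℤ[X], Function.Injective g → (∀ i, (g i).natDegree ≤ D) →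
      (∀ i j, |(g i).coeff j| ≤ (N : ℤ) ^ B) → (∀ p : ℕ, p.Prime → WW N < p → NC g p) →
      ∀ y, WW N ≤ y → y ≤ N ^ E → ∀ ℓ : Fin k → ℕ, (∀ i, ℓ i ≤ N ^ E) → (∀ i, WW N ≤ ℓ i) →
      ∃ τ : ℝ, |τ| ≤ ε ∧ ∏ p ∈ pr (N ^ E), (1 - (rA g p (al ℓ p) (X p ω) : ℝ) / p) =
        Real.exp τ * SS g (fun p => X p ω) y * ∏ i, Vp (ℓ i) := by
  have h1 := log_form h k D B E (half_pos hε)
  filter_upwards [h1] with ω hω
  filter_upwards [hω, WW_tendsto.eventually_ge_atTop (2 * (k * D))] with N h2 hWD g hinj hD hg hNC y hy1 hy2 ℓ hℓ1 hℓ2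
  have hWM : WW N ≤ N ^ E := hy1.trans hy2
  have h3 := h2 g hinj hD hg hNC ℓ hℓ1
  have h4 := h2 g hinj hD hg hNC (fun _ => y) (fun _ => hy2)
  obtain ⟨s1, hs1⟩ : ∃ s1, s1 = ∑ p ∈ tl g (WW N) (N ^ E), Real.log (tA g p (al ℓ p) (X p ω)) := ⟨_, rfl⟩
  obtain ⟨s2, hs2⟩ : ∃ s2, s2 = ∑ p ∈ tl g (WW N) (N ^ E), Real.log (tA g p (al (fun _ => y) p) (X p ω)) := ⟨_, rfl⟩
  rw [← hs1] at h3
  rw [← hs2] at h4
  have h5 : ∏ p ∈ pr (N ^ E), tA g p (al ℓ p) (X p ω) = SS g (fun p => X p ω) (WW N) * Real.exp s1 := by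
    rw [pr_split hWM, hs1, ← prod_tl hD hNC hWD (al ℓ) (fun p => X p ω)]
    congr 1
    unfold SS
    refine prod_congr rfl fun p hp => ?_
    congr 1
    unfold al
    refine filter_true_of_mem fun i _ => (mem_pr.1 hp).1.trans (hℓ2 i)
  have h6 : SS g (fun p => X p ω) y = SS g (fun p => X p ω) (WW N) * Real.exp s2 := by
    rw [hs2, ← prod_tl hD hNC hWD (al fun _ => y) (fun p => X p ω)]
    have h7 : ∏ p ∈ pr (N ^ E), tA g p (al (fun _ => y) p) (X p ω) = SS g (fun p => X p ω) y := by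
      rw [pr_split hy2, prod_eq_one (s := (Ioc y (N ^ E)).filter Nat.Prime), mul_one]
      · unfold SS
        refine prod_congr rfl fun p hp => ?_
        congr 1
        unfold al
        exact filter_true_of_mem fun i _ => (mem_pr.1 hp).1
      · intro p hp
        rw [mem_filter, mem_Ioc] at hp
        have : al (fun _ : Fin k => y) p = ∅ := by
          unfold al
          rw [filter_eq_empty_iff]
          intro i _
          show ¬ p ≤ y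
          omega
        rw [this, tA_empty]
    rw [← h7, pr_split hWM]
    congr 1
    unfold SS
    refine prod_congr rfl fun p hp => ?_
    congr 1
    unfold al
    exact filter_true_of_mem fun i _ => (mem_pr.1 hp).1.trans hy1
  refine ⟨s1 - s2, ?_, ?_⟩
  · rw [abs_le] at h3 h4 ⊢
    constructor <;> linarith [h3.1, h3.2, h4.1, h4.2]
  · rw [split_form hℓ1, h5, h6]
    congr 1
    rw [Real.exp_sub]
    have := Real.exp_pos s2
    field_simp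

/-- the levels -/
noncomputable def lev (z : ℕ → ℝ) (g : Fin k → ℤ[X]) (m : ℤ) (i : Fin k) : ℕ := ⌊z ((g i).eval m).natAbs⌋₊

lemma dens_rA {z : ℕ → ℝ} {g : Fin k → ℤ[X]} {b : ℕ → ℕ} {m : ℤ} {M : ℕ}
    (hM : ∀ i, z ((g i).eval m).natAbs ≤ M) :
    dens z g b m = ∏ p ∈ pr M, (1 - (rA g p (al (lev z g m) p) (b p) : ℝ) / p) := by
  rw [dens_eq hM]
  unfold h2
  refine prod_congr rfl fun p hp => ?_
  rw [nu_rA]
  have : (PS z g).lab p m = al (lev z g m) p := by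
    show univ.filter (fun i => (p : ℝ) ≤ z ((g i).eval m).natAbs) = univ.filter fun i => p ≤ lev z g m i
    refine filter_congr fun i _ => ?_
    unfold lev
    rw [Nat.le_floor_iff' (mem_pr.1 hp).2.ne_zero]
  rw [this]

end Pool.Agent.L5helper86.UL
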