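import Pool.Agent.L5helper86.UL.Bonf
import Pool.Agent.L5helper86.UL.Semi1
import Pool.Agent.L5helper86.UL.Sing3

/-! Project UL (helper86): the law in one cell. -/

set_option autoImplicit false

namespace Pool.Agent.L5helper86.UL

open Finset Polynomial MeasureTheory ProbabilityTheory Filter Topology
open Pool.Agent.L5helper2.BH (pr mem_pr)

variable {k : ℕ}

/-- `n` avoids the class `c p` for the primes `p ≤ w |n|` and the class `a p` for the primes `w |n| < p ≤ z |n|` -/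
def SR (w z : ℕ → ℝ) (c : ℕ → ℤ) (a : ℕ → ℕ) (n : ℤ) : Prop :=
  ∀ p : ℕ, p.Prime → ((p : ℝ) ≤ w n.natAbs → ¬ n ≡ c p [ZMOD p]) ∧
    (w n.natAbs < (p : ℝ) → (p : ℝ) ≤ z n.natAbs → ¬ n ≡ (a p : ℤ) [ZMOD p])

open Classical in
/-- the number of the forbidden residues at `m` modulo `p` -/
noncomputable def rhoS (w z : ℕ → ℝ) (g : Fin k → ℤ[X]) (m : ℤ) (c : ℤ) (b p : ℕ) : ℕ :=
  #((range p).filter fun r : ℕ => ∃ i, ((p : ℝ) ≤ w ((g i).eval m).natAbs ∧ (g i).eval (r : ℤ) ≡ c [ZMOD p]) ∨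
    (w ((g i).eval m).natAbs < (p : ℝ) ∧ (p : ℝ) ≤ z ((g i).eval m).natAbs ∧ (g i).eval (r : ℤ) ≡ (b : ℤ) [ZMOD p]))

/-- the local density at `m` -/
noncomputable def densS (w z : ℕ → ℝ) (g : Fin k → ℤ[X]) (c : ℕ → ℤ) (a : ℕ → ℕ) (m : ℤ) : ℝ :=
  ∏ᶠ p : Nat.Primes, (1 - (rhoS w z g m (c p) (a p) p : ℝ) / p)

/-- killed by the class `c`, not by the class `a` -/
def Qd (g : Fin k → ℤ[X]) (c : ℕ → ℤ) (a : ℕ → ℕ) (x y : Fin k → ℕ) (p : ℕ) (m : ℤ) : Prop :=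
  (∃ i ∈ al y p, (g i).eval m ≡ c p [ZMOD p]) ∧ ¬ ∃ i ∈ al x p \ al y p, (g i).eval m ≡ (a p : ℤ) [ZMOD p]

lemma Qd_per (g : Fin k → ℤ[X]) (c : ℕ → ℤ) (a : ℕ → ℕ) (x y : Fin k → ℕ) (p : ℕ) (m m' : ℤ)
    (h : m ≡ m' [ZMOD p]) : Qd g c a x y p m ↔ Qd g c a x y p m' := by
  have h1 : ∀ i, (g i).eval m ≡ (g i).eval m' [ZMOD p] := fun i =>
    (Int.modEq_iff_dvd.2 ((Int.modEq_iff_dvd.1 h).trans (sub_dvd_eval_sub m' m (g i))))
  have h2 : ∀ (i : Fin k) (e : ℤ), (g i).eval m ≡ e [ZMOD p] ↔ (g i).eval m' ≡ e [ZMOD p] := fun i e =>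
    ⟨fun h => (h1 i).symm.trans h, fun h => (h1 i).trans h⟩
  unfold Qd
  simp only [h2]

/-- the labels in a cell -/
lemma cell_lab {w z : ℕ → ℝ} {g : Fin k → ℤ[X]} {W : ℕ} {x y : Fin k → ℕ} {u : ℤ} {N : ℕ} {m : ℤ}
    (hm : m ∈ cell w z g W x y u N) {p : ℕ} (hp : p.Prime) (hpW : p ≤ W) :
    (PT w z g).lab p m = (al x p, al y p) := by
  classical
  unfold cell at hm
  rw [mem_filter] at hm
  have h := hm.2
  show (univ.filter (fun i => (p : ℝ) ≤ z ((g i).eval m).natAbs),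
    univ.filter (fun i => (p : ℝ) ≤ w ((g i).eval m).natAbs)) = (al x p, al y p)
  unfold al
  congr 1
  · refine filter_congr fun i _ => ?_
    rw [← Nat.le_floor_iff' hp.ne_zero, ← (h i).1]
    omega
  · refine filter_congr fun i _ => ?_
    rw [← Nat.le_floor_iff' hp.ne_zero, ← (h i).2]
    omega

lemma card_pr (W : ℕ) : #(pr W) ≤ W := by
  unfold pr
  refine (card_filter_le _ _).trans ?_
  simp

lemma pr_mono {W M : ℕ} (h : W ≤ M) : pr W ⊆ pr M := by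
  intro p hp
  rw [mem_pr] at hp ⊢
  exact ⟨hp.1.trans h, hp.2⟩

lemma prd_eq {M : ℕ} {D : Finset ℕ} (hD : D ⊆ pr M) : prd M (∏ p ∈ D, p) = pr M \ D := by
  unfold prd
  ext p
  rw [mem_filter, Finset.mem_sdiff]
  refine and_congr_right fun hp => not_congr ?_
  constructor
  · intro h
    obtain ⟨q, hq, hpq⟩ := (Prime.dvd_finsetProd_iff (mem_pr.1 hp).2.prime _).1 h
    rw [(Nat.prime_dvd_prime_iff_eq (mem_pr.1 hp).2 (mem_pr.1 (hD hq)).2).1 hpq]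
    exact hq
  · intro h
    exact dvd_prod_of_mem _ h

lemma h1_split {P T D : Finset ℕ} (hT : T ⊆ P)
    (hD : D ⊆ T) (F : ℕ → ℝ) : (∏ p ∈ P \ T, F p) * ∏ p ∈ T \ D, F p = ∏ p ∈ P \ D, F p := by
  have h1 : T \ D ⊆ P \ D := sdiff_subset_sdiff hT (le_refl D)
  have h2 : (P \ D) \ (T \ D) = P \ T := by
    ext x
    simp only [Finset.mem_sdiff]
    constructor
    · rintro ⟨⟨h3, h4⟩, h5⟩
      exact ⟨h3, fun h => h5 ⟨h, h4⟩⟩
    · rintro ⟨h3, h4⟩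
      exact ⟨⟨h3, fun h => h4 (hD h)⟩, fun h => h4 h.1⟩
  rw [← prod_sdiff h1, h2]

open Classical in
/-- the law in one cell -/
theorem cell_law1 {w z : ℕ → ℝ} {g : Fin k → ℤ[X]} {W : ℕ} {x y : Fin k → ℕ} {u : ℤ} {N M : ℕ} {c : ℕ → ℤ} {a : ℕ → ℕ}
    (hWM : W ≤ M) (hW1 : 1 ≤ W) {r : ℕ} (hWr : W ^ (r + 1) ≤ N) {δ : ℝ} (hδ0 : 0 ≤ δ)
    (hδ : ∀ d : ℕ, 0 < d → d ≤ N → ∀ r' : ℤ, |DD (PT w z g) (prd M d) a d r' (cell w z g W x y u N)| ≤ δ)
    {hs hd : ℤ → ℝ} {σ : Sieve (Finset (Fin k) × Finset (Fin k))} (hσ : σ = PT w z g)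
    {cd ad : ℕ → ℝ} (hcd : ∀ p, cd p = 1 - (nu σ p (al x p, al y p) (a p) : ℝ) / p)
    (had : ∀ p, ad p = (kq (Qd g c a x y) p : ℝ) / p) (hle : ∀ p ∈ pr W, ad p ≤ cd p)
    (hhs : ∀ m ∈ cell w z g W x y u N, hs m = h1 σ (pr M \ pr W) a m *
      ∏ p ∈ pr W, ((if σ.κ p (σ.lab p m) (a p) m then (0 : ℝ) else 1) - (if Qd g c a x y p m then 1 else 0)))
    (hhd : ∀ m ∈ cell w z g W x y u N, hd m = h2 σ (pr M \ pr W) a m * ∏ p ∈ pr W, (cd p - ad p)) :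
    |∑ m ∈ cell w z g W x y u N, hs m - ∑ m ∈ cell w z g W x y u N, hd m| ≤
      2 * ∑ m ∈ cell w z g W x y u N, h2 σ (pr M \ pr W) a m * es cd ad (r + 1) (pr W) +
      ((r : ℝ) + 2) * (W : ℝ) ^ (2 * (r + 1)) * δ := by
  obtain ⟨S, hS⟩ : ∃ S, S = cell w z g W x y u N := ⟨_, rfl⟩
  obtain ⟨T, hT⟩ : ∃ T, T = pr W := ⟨_, rfl⟩
  have hTM : T ⊆ pr M := by rw [hT]; exact pr_mono hWM
  rw [← hS] at hhs hhd hδ ⊢
  rw [← hT] at hle hhs hhd ⊢
  obtain ⟨c1, hc1⟩ : ∃ c1 : ℤ → ℕ → ℝ, c1 = fun m p => if σ.κ p (σ.lab p m) (a p) m then (0 : ℝ) else 1 := ⟨_, rfl⟩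
  obtain ⟨a1, ha1⟩ : ∃ a1 : ℤ → ℕ → ℝ, a1 = fun m p => if Qd g c a x y p m then (1 : ℝ) else 0 := ⟨_, rfl⟩
  have hTp : ∀ p ∈ T, p.Prime := fun p hp => by rw [hT] at hp; exact (mem_pr.1 hp).2
  have hTW : ∀ p ∈ T, p ≤ W := fun p hp => by rw [hT] at hp; exact (mem_pr.1 hp).1
  have hlab : ∀ m ∈ S, ∀ p ∈ T, σ.lab p m = (al x p, al y p) := by
    intro m hm p hp
    rw [hσ]
    rw [hS] at hm
    exact cell_lab hm (hTp p hp) (hTW p hp)
  have hQκ : ∀ m ∈ S, ∀ p ∈ T, Qd g c a x y p m → ¬ σ.κ p (σ.lab p m) (a p) m := by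
    intro m hm p hp hQ
    rw [hlab m hm p hp, hσ]
    exact hQ.2
  have ha10 : ∀ m, ∀ p ∈ T, 0 ≤ a1 m p := by
    intro m p _
    rw [ha1]
    simp only
    split_ifs <;> norm_num
  have hac1 : ∀ m ∈ S, ∀ p ∈ T, a1 m p ≤ c1 m p := by
    intro m hm p hp
    have h := hQκ m hm p hp
    rw [ha1, hc1]
    simp only
    by_cases h3 : Qd g c a x y p m
    · rw [if_pos h3, if_neg (h h3)]
    · rw [if_neg h3]
      split_ifs <;> norm_num
  have had0 : ∀ p ∈ T, 0 ≤ ad p := fun p _ => by rw [had]; positivity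
  have hcd0 : ∀ p ∈ T, 0 ≤ cd p := fun p hp => (had0 p hp).trans (hle p hp)
  -- the two sums over `D`
  obtain ⟨A1, hA1⟩ : ∃ A1 : Finset ℕ → ℝ, A1 = fun D => ∑ m ∈ S, h1 σ (pr M \ D) a m * ∏ p ∈ D, (if Qd g c a x y p m then (1 : ℝ) else 0) :=
    ⟨_, rfl⟩
  obtain ⟨A2, hA2⟩ : ∃ A2 : Finset ℕ → ℝ, A2 = fun D => (∏ p ∈ D, ad p) * ∑ m ∈ S, h2 σ (pr M \ D) a m := ⟨_, rfl⟩
  have hes1 : ∀ j, ∑ m ∈ S, h1 σ (pr M \ T) a m * es (c1 m) (a1 m) j T = ∑ D ∈ powersetCard j T, A1 D := by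
    intro j
    unfold es
    simp only [mul_sum]
    rw [sum_comm]
    refine sum_congr rfl fun D hD => ?_
    rw [mem_powersetCard] at hD
    rw [hA1]
    refine sum_congr rfl fun m _ => ?_
    have h3 : h1 σ (pr M \ T) a m * ∏ p ∈ T \ D, c1 m p = h1 σ (pr M \ D) a m := by
      rw [hc1]
      exact h1_split hTM hD.1 fun p => if σ.κ p (σ.lab p m) (a p) m then (0 : ℝ) else 1
    rw [← h3, ha1]
    ring
  have hes2 : ∀ j, ∑ m ∈ S, h2 σ (pr M \ T) a m * es cd ad j T = ∑ D ∈ powersetCard j T, A2 D := by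
    intro j
    unfold es
    simp only [mul_sum]
    rw [sum_comm]
    refine sum_congr rfl fun D hD => ?_
    rw [mem_powersetCard] at hD
    rw [hA2]
    simp only
    rw [mul_sum]
    refine sum_congr rfl fun m hm => ?_
    have h3 : h2 σ (pr M \ T) a m * ∏ p ∈ T \ D, cd p = h2 σ (pr M \ D) a m := by
      have h4 : ∏ p ∈ T \ D, cd p = ∏ p ∈ T \ D, (1 - (nu σ p (σ.lab p m) (a p) : ℝ) / p) := by
        refine prod_congr rfl fun p hp => ?_
        rw [hcd, hlab m hm p (Finset.mem_sdiff.1 hp).1]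
      rw [h4]
      exact h1_split hTM hD.1 fun p => 1 - (nu σ p (σ.lab p m) (a p) : ℝ) / p
    rw [← h3]
    ring
  -- the errors
  have herr : ∀ j ≤ r + 1, ∀ D ∈ powersetCard j T, |A1 D - A2 D| ≤ (W : ℝ) ^ j * δ := by
    intro j hj D hD
    rw [mem_powersetCard] at hD
    have hDp : ∀ p ∈ D, p.Prime := fun p hp => hTp p (hD.1 hp)
    have hDW : ∏ p ∈ D, p ≤ W ^ j := by
      rw [← hD.2]
      exact prod_le_pow_card _ _ _ fun p hp => hTW p (hD.1 hp)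
    have hprd : prd M (∏ p ∈ D, p) = pr M \ D := prd_eq (hD.1.trans hTM)
    have h3 := prog σ (pr M \ D) a S (Qd g c a x y) (Qd_per g c a x y) δ D hDp 1 one_pos
      (fun p _ => Nat.coprime_one_left p) (fun r' => by
        rw [one_mul, ← hprd, hσ]
        refine hδ _ (prod_pos fun p hp => (hDp p hp).pos) (hDW.trans ?_) r'
        exact (Nat.pow_le_pow_right hW1 hj).trans hWr) 0
    have h4 : S.filter (fun m => m ≡ 0 [ZMOD ((1 : ℕ) : ℤ)]) = S := by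
      refine filter_true_of_mem fun m _ => ?_
      push_cast
      exact Int.modEq_one
    rw [h4, Nat.cast_one, div_one] at h3
    rw [hA1, hA2]
    simp only [had]
    refine h3.trans (mul_le_mul_of_nonneg_right ?_ hδ0)
    calc ∏ p ∈ D, (kq (Qd g c a x y) p : ℝ) ≤ ∏ p ∈ D, ((p : ℕ) : ℝ) := by
          refine prod_le_prod (fun p _ => by positivity) fun p _ => ?_
          unfold kq
          have : #((range p).filter fun t : ℕ => Qd g c a x y p t) ≤ p := (card_filter_le _ _).trans (by simp)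
          exact_mod_cast this
      _ ≤ (W : ℝ) ^ j := by
          have h5 : (((∏ p ∈ D, p : ℕ)) : ℝ) ≤ ((W ^ j : ℕ) : ℝ) := Nat.cast_le.2 hDW
          rw [Nat.cast_prod] at h5
          push_cast at h5
          exact h5
  have hcardT : #T ≤ W := by rw [hT]; exact card_pr W
  have hWr1 : (1 : ℝ) ≤ W := by exact_mod_cast hW1
  have herrj : ∀ j ≤ r + 1, |∑ D ∈ powersetCard j T, A1 D - ∑ D ∈ powersetCard j T, A2 D| ≤ (W : ℝ) ^ (2 * (r + 1)) * δ := by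
    intro j hj
    rw [← sum_sub_distrib]
    refine (abs_sum_le_sum_abs _ _).trans ((sum_le_sum (herr j hj)).trans ?_)
    rw [sum_const, card_powersetCard, nsmul_eq_mul]
    have h3 : (((#T).choose j : ℕ) : ℝ) ≤ (W : ℝ) ^ j := by
      have : (#T).choose j ≤ W ^ j := (Nat.choose_le_pow _ _).trans (Nat.pow_le_pow_left hcardT j)
      exact_mod_cast this
    calc (((#T).choose j : ℕ) : ℝ) * ((W : ℝ) ^ j * δ) ≤ (W : ℝ) ^ j * ((W : ℝ) ^ j * δ) :=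
          mul_le_mul_of_nonneg_right h3 (by positivity)
      _ = (W : ℝ) ^ (2 * j) * δ := by ring
      _ ≤ (W : ℝ) ^ (2 * (r + 1)) * δ :=
          mul_le_mul_of_nonneg_right (pow_le_pow_right₀ hWr1 (by omega)) hδ0
  -- the comparison of the sums with the truncations
  have hb1 : |∑ m ∈ S, hs m - ∑ j ∈ range (r + 1), (-1) ^ j * ∑ D ∈ powersetCard j T, A1 D| ≤
      ∑ D ∈ powersetCard (r + 1) T, A1 D := by
    rw [← hes1]
    have h3 : ∑ j ∈ range (r + 1), (-1) ^ j * ∑ D ∈ powersetCard j T, A1 D =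
        ∑ m ∈ S, h1 σ (pr M \ T) a m * fs (c1 m) (a1 m) r T := by
      unfold fs
      simp only [mul_sum (range (r + 1))]
      rw [sum_comm]
      refine sum_congr rfl fun j _ => ?_
      rw [← hes1, mul_sum]
      exact sum_congr rfl fun m _ => by ring
    rw [h3, ← sum_sub_distrib]
    refine (abs_sum_le_sum_abs _ _).trans (sum_le_sum fun m hm => ?_)
    rw [hhs m hm, ← mul_sub, abs_mul, abs_of_nonneg (h1_01 σ _ a m).1]
    refine mul_le_mul_of_nonneg_left ?_ (h1_01 σ _ a m).1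
    have := bonf_abs (ha10 m) (hac1 m hm) r
    rw [hc1, ha1] at this
    simp only at this
    rw [hc1, ha1]
    exact this
  have hb2 : |∑ m ∈ S, hd m - ∑ j ∈ range (r + 1), (-1) ^ j * ∑ D ∈ powersetCard j T, A2 D| ≤
      ∑ D ∈ powersetCard (r + 1) T, A2 D := by
    rw [← hes2]
    have h3 : ∑ j ∈ range (r + 1), (-1) ^ j * ∑ D ∈ powersetCard j T, A2 D =
        ∑ m ∈ S, h2 σ (pr M \ T) a m * fs cd ad r T := by
      unfold fs
      simp only [mul_sum (range (r + 1))]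
      rw [sum_comm]
      refine sum_congr rfl fun j _ => ?_
      rw [← hes2, mul_sum]
      exact sum_congr rfl fun m _ => by ring
    rw [h3, ← sum_sub_distrib]
    refine (abs_sum_le_sum_abs _ _).trans (sum_le_sum fun m hm => ?_)
    rw [hhd m hm, ← mul_sub, abs_mul, abs_of_nonneg (h2_01 σ _ a m).1]
    exact mul_le_mul_of_nonneg_left (bonf_abs had0 hle r) (h2_01 σ _ a m).1
  have hb3 : |∑ j ∈ range (r + 1), (-1) ^ j * ∑ D ∈ powersetCard j T, A1 D -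
      ∑ j ∈ range (r + 1), (-1) ^ j * ∑ D ∈ powersetCard j T, A2 D| ≤ ((r : ℝ) + 1) * ((W : ℝ) ^ (2 * (r + 1)) * δ) := by
    rw [← sum_sub_distrib]
    refine (abs_sum_le_sum_abs _ _).trans ?_
    calc ∑ j ∈ range (r + 1), |(-1) ^ j * ∑ D ∈ powersetCard j T, A1 D - (-1) ^ j * ∑ D ∈ powersetCard j T, A2 D| ≤
          ∑ _j ∈ range (r + 1), (W : ℝ) ^ (2 * (r + 1)) * δ := by
          refine sum_le_sum fun j hj => ?_
          rw [← mul_sub, abs_mul, abs_neg_one_pow, one_mul]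
          exact herrj j (by rw [mem_range] at hj; omega)
      _ = _ := by
          rw [sum_const, card_range, nsmul_eq_mul]
          push_cast
          ring
  have hb4 := herrj (r + 1) le_rfl
  rw [hes2]
  rw [abs_le] at hb1 hb2 hb3 hb4 ⊢
  constructor <;> linarith [hb1.1, hb1.2, hb2.1, hb2.2, hb3.1, hb3.2, hb4.1, hb4.2]

end Pool.Agent.L5helper86.UL
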