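import Pool.Agent.L5helper86.UL.Cell

/-! Project UL (helper86): the law in one cell, final form. -/

set_option autoImplicit false

namespace Pool.Agent.L5helper86.UL

open Finset Polynomial MeasureTheory ProbabilityTheory Filter Topology
open Pool.Agent.L5helper2.BH (pr mem_pr)

variable {k : ℕ}

open Classical in
/-- the number of all killed residues for given labels -/
noncomputable def US (g : Fin k → ℤ[X]) (c : ℕ → ℤ) (a : ℕ → ℕ) (α : Finset (Fin k) × Finset (Fin k)) (p : ℕ) : ℕ :=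
  #((range p).filter fun t : ℕ => (∃ i ∈ α.1 \ α.2, (g i).eval (t : ℤ) ≡ (a p : ℤ) [ZMOD p]) ∨
    ∃ i ∈ α.2, (g i).eval (t : ℤ) ≡ c p [ZMOD p])

lemma US_eq (w z : ℕ → ℝ) (g : Fin k → ℤ[X]) (c : ℕ → ℤ) (a : ℕ → ℕ) (x y : Fin k → ℕ) (p : ℕ) :
    nu (PT w z g) p (al x p, al y p) (a p) + kq (Qd g c a x y) p = US g c a (al x p, al y p) p := by
  classical
  unfold nu kq US
  have h1 : (range p).filter (fun t : ℕ => (∃ i ∈ al x p \ al y p, (g i).eval (t : ℤ) ≡ (a p : ℤ) [ZMOD p]) ∨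
      ∃ i ∈ al y p, (g i).eval (t : ℤ) ≡ c p [ZMOD p]) =
      (range p).filter (fun t : ℕ => (PT w z g).κ p (al x p, al y p) (a p) t) ∪
      (range p).filter (fun t : ℕ => Qd g c a x y p t) := by
    rw [← filter_or]
    refine filter_congr fun t _ => ?_
    have h2 : (PT w z g).κ p (al x p, al y p) (a p) t ↔ ∃ i ∈ al x p \ al y p, (g i).eval (t : ℤ) ≡ (a p : ℤ) [ZMOD p] :=
      Iff.rfl
    rw [h2]
    unfold Qd
    have key : ∀ A B : Prop, (A ∨ B ↔ A ∨ (B ∧ ¬ A)) := fun A B => by tauto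
    exact key _ _
  have h3 : #((range p).filter (fun t : ℕ => (∃ i ∈ al x p \ al y p, (g i).eval (t : ℤ) ≡ (a p : ℤ) [ZMOD p]) ∨
      ∃ i ∈ al y p, (g i).eval (t : ℤ) ≡ c p [ZMOD p])) =
      #((range p).filter (fun t : ℕ => (PT w z g).κ p (al x p, al y p) (a p) t)) +
      #((range p).filter (fun t : ℕ => Qd g c a x y p t)) := by
    rw [h1, card_union_of_disjoint]
    rw [disjoint_left]
    intro t h4 h5
    rw [mem_filter] at h4 h5
    exact h5.2.2 h4.2
  rw [← h3]

lemma US_le (g : Fin k → ℤ[X]) (c : ℕ → ℤ) (a : ℕ → ℕ) (α : Finset (Fin k) × Finset (Fin k)) (p : ℕ) :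
    US g c a α p ≤ p := by
  classical
  unfold US
  exact (card_filter_le _ _).trans (by simp)

lemma US_small {g : Fin k → ℤ[X]} {D : ℕ} (hD : ∀ i, (g i).natDegree ≤ D) {c : ℕ → ℤ} {a : ℕ → ℕ}
    {α : Finset (Fin k) × Finset (Fin k)} {p : ℕ} (hp : p.Prime) (h : US g c a α p < p) : US g c a α p ≤ k * D := by
  classical
  have : Fact p.Prime := ⟨hp⟩
  have h1 : ∃ t ∈ range p, ¬ ((∃ i ∈ α.1 \ α.2, (g i).eval (t : ℤ) ≡ (a p : ℤ) [ZMOD p]) ∨
      ∃ i ∈ α.2, (g i).eval (t : ℤ) ≡ c p [ZMOD p]) := by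
    by_contra hcon
    push Not at hcon
    have h2 : US g c a α p = p := by
      unfold US
      rw [filter_true_of_mem, card_range]
      intro t ht
      exact hcon t ht
    omega
  obtain ⟨t0, _, ht0⟩ := h1
  rw [not_or] at ht0
  have hiff : ∀ (i : Fin k) (t : ℕ) (e : ℤ), (g i).eval (t : ℤ) ≡ e [ZMOD p] ↔
      (rd g p i).eval (t : ZMod p) = (e : ZMod p) := by
    intro i t e
    have h3 := rd_eval g p i t
    rw [Int.cast_natCast] at h3
    rw [h3, ← ZMod.intCast_eq_intCast_iff]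
  obtain ⟨e, he⟩ : ∃ e : Fin k → ℤ, e = fun i => if i ∈ α.2 then c p else (a p : ℤ) := ⟨_, rfl⟩
  obtain ⟨A, hA⟩ : ∃ A : Finset (Fin k), A = (α.1 \ α.2) ∪ α.2 := ⟨_, rfl⟩
  unfold US
  calc _ ≤ #(A.biUnion fun i : Fin k => (range p).filter fun t : ℕ =>
          (rd g p i - C (e i : ZMod p)).eval (t : ZMod p) = 0) := by
        refine card_le_card fun t ht => ?_
        rw [mem_filter] at ht
        rw [mem_biUnion]
        rcases ht.2 with ⟨i, hi, h4⟩ | ⟨i, hi, h4⟩
        · refine ⟨i, by rw [hA]; exact Finset.mem_union_left _ hi, ?_⟩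
          rw [mem_filter, eval_sub, eval_C, he]
          simp only [if_neg (Finset.mem_sdiff.1 hi).2]
          rw [hiff] at h4
          exact ⟨ht.1, by rw [h4]; exact sub_self _⟩
        · refine ⟨i, by rw [hA]; exact Finset.mem_union_right _ hi, ?_⟩
          rw [mem_filter, eval_sub, eval_C, he]
          simp only [if_pos hi]
          rw [hiff] at h4
          exact ⟨ht.1, by rw [h4]; exact sub_self _⟩
    _ ≤ ∑ _i ∈ A, D := by
        refine card_biUnion_le.trans (sum_le_sum fun i hi => ?_)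
        refine root_count ?_ ?_
        · intro h0
          have h5 : (g i).eval (t0 : ℤ) ≡ e i [ZMOD p] := by
            rw [hiff, sub_eq_zero.1 h0, eval_C]
          rw [hA, Finset.mem_union] at hi
          rw [he] at h5
          simp only at h5
          by_cases hi2 : i ∈ α.2
          · rw [if_pos hi2] at h5
            exact ht0.2 ⟨i, hi2, h5⟩
          · rw [if_neg hi2] at h5
            rcases hi with hi | hi
            · exact ht0.1 ⟨i, hi, h5⟩
            · exact hi2 hi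
        · rw [natDegree_sub_C]
          exact rd_deg g hD p i
    _ = #A * D := by rw [sum_const, smul_eq_mul]
    _ ≤ k * D := Nat.mul_le_mul_right D ((card_le_univ A).trans (by rw [Fintype.card_fin]))

open Classical in
/-- `m` is killed at `p` -/
def bad (w z : ℕ → ℝ) (g : Fin k → ℤ[X]) (c : ℕ → ℤ) (a : ℕ → ℕ) (p : ℕ) (m : ℤ) : Prop :=
  (∃ i ∈ ((PT w z g).lab p m).1 \ ((PT w z g).lab p m).2, (g i).eval m ≡ (a p : ℤ) [ZMOD p]) ∨
    ∃ i ∈ ((PT w z g).lab p m).2, (g i).eval m ≡ c p [ZMOD p]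

lemma bad_iff (w z : ℕ → ℝ) (g : Fin k → ℤ[X]) (c : ℕ → ℤ) (a : ℕ → ℕ) (p : ℕ) (m : ℤ) : bad w z g c a p m ↔
    ∃ i, ((p : ℝ) ≤ w ((g i).eval m).natAbs ∧ (g i).eval m ≡ c p [ZMOD p]) ∨
      (w ((g i).eval m).natAbs < (p : ℝ) ∧ (p : ℝ) ≤ z ((g i).eval m).natAbs ∧ (g i).eval m ≡ (a p : ℤ) [ZMOD p]) := by
  classical
  unfold bad
  have h1 : ((PT w z g).lab p m).1 = univ.filter (fun i => (p : ℝ) ≤ z ((g i).eval m).natAbs) := rfl
  have h2 : ((PT w z g).lab p m).2 = univ.filter (fun i => (p : ℝ) ≤ w ((g i).eval m).natAbs) := rfl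
  rw [h1, h2]
  simp only [Finset.mem_sdiff, mem_filter, mem_univ, true_and, not_le]
  constructor
  · rintro (⟨i, ⟨h3, h4⟩, h5⟩ | ⟨i, h3, h4⟩)
    · exact ⟨i, Or.inr ⟨h4, h3, h5⟩⟩
    · exact ⟨i, Or.inl ⟨h3, h4⟩⟩
  · rintro ⟨i, ⟨h3, h4⟩ | ⟨h3, h4, h5⟩⟩
    · exact Or.inr ⟨i, h3, h4⟩
    · exact Or.inl ⟨i, ⟨h4, h3⟩, h5⟩

lemma SR_iff (w z : ℕ → ℝ) (g : Fin k → ℤ[X]) (c : ℕ → ℤ) (a : ℕ → ℕ) (m : ℤ) :
    (∀ i, SR w z c a ((g i).eval m)) ↔ ∀ p : ℕ, p.Prime → ¬ bad w z g c a p m := by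
  unfold SR
  constructor
  · intro h p hp hb
    rw [bad_iff] at hb
    obtain ⟨i, ⟨h1, h2⟩ | ⟨h1, h2, h3⟩⟩ := hb
    · exact (h i p hp).1 h1 h2
    · exact (h i p hp).2 h1 h2 h3
  · intro h i p hp
    refine ⟨fun h1 h2 => h p hp ?_, fun h1 h2 h3 => h p hp ?_⟩
    · rw [bad_iff]
      exact ⟨i, Or.inl ⟨h1, h2⟩⟩
    · rw [bad_iff]
      exact ⟨i, Or.inr ⟨h1, h2, h3⟩⟩

lemma rhoS_US (w z : ℕ → ℝ) (g : Fin k → ℤ[X]) (c : ℕ → ℤ) (a : ℕ → ℕ) (p : ℕ) (m : ℤ) :
    rhoS w z g m (c p) (a p) p = US g c a ((PT w z g).lab p m) p := by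
  classical
  unfold rhoS US
  refine congrArg card (filter_congr fun r _ => ?_)
  have h1 : ((PT w z g).lab p m).1 = univ.filter (fun i => (p : ℝ) ≤ z ((g i).eval m).natAbs) := rfl
  have h2 : ((PT w z g).lab p m).2 = univ.filter (fun i => (p : ℝ) ≤ w ((g i).eval m).natAbs) := rfl
  rw [h1, h2]
  simp only [Finset.mem_sdiff, mem_filter, mem_univ, true_and, not_le]
  constructor
  · rintro ⟨i, ⟨h3, h4⟩ | ⟨h3, h4, h5⟩⟩
    · exact Or.inr ⟨i, h3, h4⟩
    · exact Or.inl ⟨i, ⟨h4, h3⟩, h5⟩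
  · rintro (⟨i, ⟨h3, h4⟩, h5⟩ | ⟨i, h3, h4⟩)
    · exact ⟨i, Or.inr ⟨h4, h3, h5⟩⟩
    · exact ⟨i, Or.inl ⟨h3, h4⟩⟩

lemma densS_eq {w z : ℕ → ℝ} {g : Fin k → ℤ[X]} {c : ℕ → ℤ} {a : ℕ → ℕ} {m : ℤ} {M : ℕ}
    (hM : ∀ i, z ((g i).eval m).natAbs ≤ M) (hM2 : ∀ i, w ((g i).eval m).natAbs ≤ M) :
    densS w z g c a m = ∏ p ∈ pr M, (1 - (US g c a ((PT w z g).lab p m) p : ℝ) / p) := by
  classical
  unfold densS
  have hr : ∀ p : ℕ, M < p → rhoS w z g m (c p) (a p) p = 0 := by
    intro p hp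
    unfold rhoS
    rw [card_eq_zero, filter_eq_empty_iff]
    have h3 : (M : ℝ) < p := by exact_mod_cast hp
    rintro r _ ⟨i, ⟨hi, _⟩ | ⟨_, hi, _⟩⟩
    · linarith [hM2 i]
    · linarith [hM i]
  change (∏ᶠ p : {p : ℕ // p.Prime}, (1 - (rhoS w z g m (c p) (a p) p : ℝ) / p)) = _
  rw [finprod_eq_prod_of_mulSupport_subset (s := (pr M).subtype Nat.Prime)]
  · rw [← prod_subtype_of_mem (fun p => 1 - (US g c a ((PT w z g).lab p m) p : ℝ) / p)
      (fun p hp => (mem_pr.1 hp).2)]
    refine prod_congr rfl fun p _ => ?_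
    rw [rhoS_US]
  · intro p hp
    rw [Function.mem_mulSupport] at hp
    rw [mem_coe, mem_subtype, mem_pr]
    refine ⟨?_, p.2⟩
    by_contra hcon
    apply hp
    rw [hr p (not_le.1 hcon)]
    simp

lemma densS_01 {w z : ℕ → ℝ} {g : Fin k → ℤ[X]} {c : ℕ → ℤ} {a : ℕ → ℕ} {m : ℤ} {M : ℕ}
    (hM : ∀ i, z ((g i).eval m).natAbs ≤ M) (hM2 : ∀ i, w ((g i).eval m).natAbs ≤ M) :
    0 ≤ densS w z g c a m ∧ densS w z g c a m ≤ 1 := by
  rw [densS_eq hM hM2]
  have h : ∀ p, (US g c a ((PT w z g).lab p m) p : ℝ) / p ≤ 1 := fun p =>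
    div_le_one_of_le₀ (by exact_mod_cast US_le g c a _ p) (by positivity)
  constructor
  · exact prod_nonneg fun p _ => by linarith [h p]
  · refine prod_le_one (fun p _ => by linarith [h p]) fun p _ => ?_
    have : (0 : ℝ) ≤ (US g c a ((PT w z g).lab p m) p : ℝ) / p := by positivity
    linarith

open Classical in
/-- the law in one cell -/
theorem cell_law {w z : ℕ → ℝ} {g : Fin k → ℤ[X]} {D : ℕ} (hD : ∀ i, (g i).natDegree ≤ D) {W : ℕ} {x y : Fin k → ℕ}
    {u : ℤ} {N M : ℕ} {c : ℕ → ℤ} {a : ℕ → ℕ} (hWM : W ≤ M) (hW1 : 1 ≤ W) {r : ℕ} (hWr : W ^ (r + 1) ≤ N) {δ : ℝ}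
    (hδ0 : 0 ≤ δ)
    (hδ : ∀ d : ℕ, 0 < d → d ≤ N → ∀ r' : ℤ, |DD (PT w z g) (prd M d) a d r' (cell w z g W x y u N)| ≤ δ)
    (hw : ∀ m ∈ Ioc u (u + N), ∀ i, w ((g i).eval m).natAbs ≤ W)
    (hz : ∀ m ∈ Ioc u (u + N), ∀ i, z ((g i).eval m).natAbs ≤ M) :
    |(#((cell w z g W x y u N).filter fun m => ∀ i, SR w z c a ((g i).eval m)) : ℝ) -
      ∑ m ∈ cell w z g W x y u N, densS w z g c a m| ≤
      2 * (Real.exp (-((r : ℝ) + 1)) * ∏ p ∈ pr W, (1 + (8 * (k * D + 1) ^ 2 : ℕ) / (p : ℝ))) *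
        ∑ m ∈ cell w z g W x y u N, densS w z g c a m + ((r : ℝ) + 2) * (W : ℝ) ^ (2 * (r + 1)) * δ := by
  obtain ⟨σ, hσ⟩ : ∃ σ, σ = PT w z g := ⟨_, rfl⟩
  obtain ⟨hs, hhs⟩ : ∃ hs : ℤ → ℝ, hs = fun m => if ∀ i, SR w z c a ((g i).eval m) then 1 else 0 := ⟨_, rfl⟩
  have hWMr : (W : ℝ) ≤ M := by exact_mod_cast hWM
  have hcellI : ∀ m ∈ cell w z g W x y u N, m ∈ Ioc u (u + N) := fun m hm => by
    unfold cell at hm
    exact (mem_filter.1 hm).1
  have hd1 : ∀ m ∈ cell w z g W x y u N, densS w z g c a m = ∏ p ∈ pr M, (1 - (US g c a ((PT w z g).lab p m) p : ℝ) / p) :=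
    fun m hm => densS_eq (hz m (hcellI m hm)) fun i => (hw m (hcellI m hm) i).trans hWMr
  have hd01 : ∀ m ∈ cell w z g W x y u N, 0 ≤ densS w z g c a m :=
    fun m hm => (densS_01 (hz m (hcellI m hm)) fun i => (hw m (hcellI m hm) i).trans hWMr).1
  have hcount : (#((cell w z g W x y u N).filter fun m => ∀ i, SR w z c a ((g i).eval m)) : ℝ) =
      ∑ m ∈ cell w z g W x y u N, hs m := by
    rw [hhs, ← sum_filter, sum_const, nsmul_eq_mul, mul_one]
  have hsum0 : 0 ≤ ∑ m ∈ cell w z g W x y u N, densS w z g c a m := sum_nonneg hd01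
  have hQ0 : 0 ≤ ∏ p ∈ pr W, (1 + (8 * (k * D + 1) ^ 2 : ℕ) / (p : ℝ)) := prod_nonneg fun p _ => by positivity
  rw [hcount]
  by_cases hU : ∀ p ∈ pr W, US g c a (al x p, al y p) p < p
  · -- no obstruction
    obtain ⟨cd, hcd⟩ : ∃ cd : ℕ → ℝ, cd = fun p => 1 - (nu σ p (al x p, al y p) (a p) : ℝ) / p := ⟨_, rfl⟩
    obtain ⟨ad, had⟩ : ∃ ad : ℕ → ℝ, ad = fun p => (kq (Qd g c a x y) p : ℝ) / p := ⟨_, rfl⟩
    have hcdad : ∀ p, p.Prime → cd p - ad p = 1 - (US g c a (al x p, al y p) p : ℝ) / p := by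
      intro p _
      rw [hcd, had, ← US_eq w z g, hσ]
      push_cast
      ring
    have hle : ∀ p ∈ pr W, ad p ≤ cd p := by
      intro p hp
      have h1 := hcdad p (mem_pr.1 hp).2
      have h2 : (US g c a (al x p, al y p) p : ℝ) / p ≤ 1 :=
        div_le_one_of_le₀ (by exact_mod_cast US_le g c a _ p) (by positivity)
      linarith
    have h18 : ∀ m ∈ cell w z g W x y u N, densS w z g c a m = h2 σ (pr M \ pr W) a m * ∏ p ∈ pr W, (cd p - ad p) := by
      intro m hm
      rw [hd1 m hm, ← prod_sdiff (pr_mono hWM)]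
      congr 1
      · unfold h2
        refine prod_congr rfl fun p hp => ?_
        rw [Finset.mem_sdiff, mem_pr, mem_pr] at hp
        have hpp := hp.1.2
        have hpW : W < p := by
          by_contra hcon
          exact hp.2 ⟨not_lt.1 hcon, hpp⟩
        have hlab2 : ((PT w z g).lab p m).2 = ∅ := by
          show univ.filter (fun i => (p : ℝ) ≤ w ((g i).eval m).natAbs) = ∅
          rw [filter_eq_empty_iff]
          intro i _ hi
          have h19 := hw m (hcellI m hm) i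
          have h20 : (W : ℝ) < p := by exact_mod_cast hpW
          linarith
        have h21 : US g c a ((PT w z g).lab p m) p = nu (PT w z g) p ((PT w z g).lab p m) (a p) := by
          unfold US nu
          refine congrArg card (filter_congr fun t _ => ?_)
          rw [hlab2]
          show _ ↔ ∃ i ∈ ((PT w z g).lab p m).1 \ ((PT w z g).lab p m).2, (g i).eval (t : ℤ) ≡ (a p : ℤ) [ZMOD p]
          rw [hlab2]
          simp
        rw [h21, hσ]
      · refine prod_congr rfl fun p hp => ?_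
        rw [hcdad p (mem_pr.1 hp).2, cell_lab hm (mem_pr.1 hp).2 (mem_pr.1 hp).1]
    have h1 := cell_law1 (c := c) hWM hW1 hWr hδ0 hδ (hs := hs) (hd := fun m => densS w z g c a m) (σ := σ) hσ
      (cd := cd) (ad := ad) (fun p => by rw [hcd]) (fun p => by rw [had]) hle ?_ ?_
    · refine h1.trans (add_le_add ?_ le_rfl)
      rw [mul_assoc]
      refine mul_le_mul_of_nonneg_left ?_ (by norm_num)
      rw [mul_sum]
      refine sum_le_sum fun m hm => ?_
      -- the bound of the symmetric sum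
      have had0 : ∀ p ∈ pr W, 0 ≤ ad p := fun p _ => by rw [had]; positivity
      have hcd0 : ∀ p ∈ pr W, 0 ≤ cd p := fun p hp => (had0 p hp).trans (hle p hp)
      have h3 := es_le had0 hcd0 (Real.exp_pos 1).le (r + 1)
      have h4 : ∏ p ∈ pr W, (cd p + Real.exp 1 * ad p) ≤
          (∏ p ∈ pr W, (1 + (8 * (k * D + 1) ^ 2 : ℕ) / (p : ℝ))) * ∏ p ∈ pr W, (cd p - ad p) := by
        rw [← prod_mul_distrib]
        refine prod_le_prod (fun p hp => add_nonneg (hcd0 p hp) (mul_nonneg (Real.exp_pos 1).le (had0 p hp))) ?_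
        intro p hp
        have hpp := (mem_pr.1 hp).2
        have hp0 : (0 : ℝ) < p := by exact_mod_cast hpp.pos
        have h5 := hU p hp
        have h6 := US_small hD hpp h5
        have h7 := hcdad p hpp
        obtain ⟨U, hUdef⟩ : ∃ U, U = US g c a (al x p, al y p) p := ⟨_, rfl⟩
        rw [← hUdef] at h5 h6 h7
        have h5r : (U : ℝ) + 1 ≤ p := by exact_mod_cast h5
        have h6r : (U : ℝ) ≤ (k * D : ℕ) := by exact_mod_cast h6
        have hU0 : (0 : ℝ) ≤ U := by positivity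
        have hadU : ad p ≤ U / p := by
          rw [had]
          refine div_le_div_of_nonneg_right ?_ hp0.le
          rw [hUdef, ← US_eq w z g]
          push_cast
          have : (0 : ℝ) ≤ (nu (PT w z g) p (al x p, al y p) (a p) : ℝ) := by positivity
          linarith
        have he3 : Real.exp 1 ≤ 3 := by
          have := Real.exp_one_lt_d9
          linarith
        have hap := had0 p hp
        obtain ⟨R, hR⟩ : ∃ R : ℝ, R = (k * D : ℕ) := ⟨_, rfl⟩
        have hR0 : 0 ≤ R := by rw [hR]; positivity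
        rw [← hR] at h6r
        have hKR : ((8 * (k * D + 1) ^ 2 : ℕ) : ℝ) = 8 * (R + 1) ^ 2 := by
          rw [hR]
          push_cast
          ring
        rw [hKR]
        have h8 : cd p + Real.exp 1 * ad p ≤ (cd p - ad p) + 4 * (U / p) := by nlinarith
        refine h8.trans ?_
        rw [h7]
        have h9 : (1 + 8 * (R + 1) ^ 2 / (p : ℝ)) * (1 - (U : ℝ) / p) = (1 - (U : ℝ) / p) + 8 * (R + 1) ^ 2 * (p - U) / p ^ 2 := by
          field_simp
        rw [h9]
        refine add_le_add le_rfl ?_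
        rw [mul_div_assoc', div_le_div_iff₀ hp0 (by positivity)]
        have h10 : 4 * (U : ℝ) * p ≤ 8 * (R + 1) ^ 2 * (p - U) := by
          by_cases hc : 2 * R ≤ p
          · have h11 : (p : ℝ) / 2 ≤ p - U := by linarith
            have h12 : 8 * (R + 1) ^ 2 * ((p : ℝ) / 2) ≤ 8 * (R + 1) ^ 2 * (p - U) :=
              mul_le_mul_of_nonneg_left h11 (by positivity)
            have h13 : (U : ℝ) * p ≤ (R + 1) ^ 2 * p := mul_le_mul_of_nonneg_right (by nlinarith) hp0.le
            linarith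
          · have h11 : (1 : ℝ) ≤ p - U := by linarith
            have h12 : 8 * (R + 1) ^ 2 * 1 ≤ 8 * (R + 1) ^ 2 * (p - U) := mul_le_mul_of_nonneg_left h11 (by positivity)
            have h13 : (U : ℝ) * p ≤ R * (2 * R) := mul_le_mul h6r (by linarith) hp0.le hR0
            nlinarith
        have h14 := mul_le_mul_of_nonneg_right h10 hp0.le
        calc 4 * (U : ℝ) * (p : ℝ) ^ 2 = 4 * (U : ℝ) * p * p := by ring
          _ ≤ 8 * (R + 1) ^ 2 * (p - U) * p := h14
      have h15 : es cd ad (r + 1) (pr W) ≤ Real.exp (-((r : ℝ) + 1)) *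
          ((∏ p ∈ pr W, (1 + (8 * (k * D + 1) ^ 2 : ℕ) / (p : ℝ))) * ∏ p ∈ pr W, (cd p - ad p)) := by
        have h16 := h3.trans h4
        rw [Real.exp_neg, ← div_eq_inv_mul, le_div_iff₀ (Real.exp_pos _)]
        have h17 : Real.exp ((r : ℝ) + 1) = Real.exp 1 ^ (r + 1) := by
          rw [← Real.exp_nat_mul]
          push_cast
          ring_nf
        rw [h17]
        exact h16
      rw [h18 m hm]
      have h22 := mul_le_mul_of_nonneg_left h15 (h2_01 σ (pr M \ pr W) a m).1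
      refine h22.trans (le_of_eq ?_)
      ring
    · -- survival
      intro m hm
      have hmI := hcellI m hm
      have h3 : hs m = ∏ p ∈ pr M, if bad w z g c a p m then (0 : ℝ) else 1 := by
        rw [hhs]
        simp only
        by_cases hall : ∀ i, SR w z c a ((g i).eval m)
        · rw [if_pos hall]
          rw [SR_iff] at hall
          symm
          refine prod_eq_one fun p hp => ?_
          rw [if_neg (hall p (mem_pr.1 hp).2)]
        · rw [if_neg hall]
          rw [SR_iff] at hall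
          push Not at hall
          obtain ⟨p, hp, hb⟩ := hall
          symm
          refine prod_eq_zero (i := p) ?_ (by rw [if_pos hb])
          rw [mem_pr]
          refine ⟨?_, hp⟩
          rw [bad_iff] at hb
          obtain ⟨i, ⟨h4, _⟩ | ⟨_, h4, _⟩⟩ := hb
          · exact_mod_cast h4.trans ((hw m hmI i).trans hWMr)
          · exact_mod_cast h4.trans (hz m hmI i)
      rw [h3, ← prod_sdiff (pr_mono hWM)]
      have hκ : ∀ p, σ.κ p (σ.lab p m) (a p) m ↔
          ∃ i ∈ ((PT w z g).lab p m).1 \ ((PT w z g).lab p m).2, (g i).eval m ≡ (a p : ℤ) [ZMOD p] := by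
        intro p
        rw [hσ]
        rfl
      congr 1
      · unfold h1
        refine prod_congr rfl fun p hp => ?_
        rw [Finset.mem_sdiff, mem_pr, mem_pr] at hp
        have hpp := hp.1.2
        have hpW : W < p := by
          by_contra hcon
          exact hp.2 ⟨not_lt.1 hcon, hpp⟩
        have hlab2 : ((PT w z g).lab p m).2 = ∅ := by
          show univ.filter (fun i => (p : ℝ) ≤ w ((g i).eval m).natAbs) = ∅
          rw [filter_eq_empty_iff]
          intro i _ hi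
          have h19 := hw m hmI i
          have h20 : (W : ℝ) < p := by exact_mod_cast hpW
          linarith
        have h4 : bad w z g c a p m ↔ σ.κ p (σ.lab p m) (a p) m := by
          rw [hκ]
          unfold bad
          constructor
          · rintro (h5 | ⟨i, hi, _⟩)
            · exact h5
            · rw [hlab2] at hi
              simp at hi
          · intro h5
            exact Or.inl h5
        by_cases h5 : bad w z g c a p m
        · rw [if_pos h5, if_pos (h4.1 h5)]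
        · rw [if_neg h5, if_neg fun h => h5 (h4.2 h)]
      · refine prod_congr rfl fun p hp => ?_
        have hlab := cell_lab hm (mem_pr.1 hp).2 (mem_pr.1 hp).1
        by_cases hA : ∃ i ∈ al x p \ al y p, (g i).eval m ≡ (a p : ℤ) [ZMOD p]
        · have h4 : σ.κ p (σ.lab p m) (a p) m := by
            rw [hκ, hlab]
            exact hA
          have h5 : ¬ Qd g c a x y p m := fun h => h.2 hA
          have h6 : bad w z g c a p m := by
            unfold bad
            rw [hlab]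
            exact Or.inl hA
          rw [if_pos h4, if_neg h5, if_pos h6, sub_zero]
        · have h4 : ¬ σ.κ p (σ.lab p m) (a p) m := by
            rw [hκ, hlab]
            exact hA
          rw [if_neg h4]
          by_cases hB : ∃ i ∈ al y p, (g i).eval m ≡ c p [ZMOD p]
          · have h5 : Qd g c a x y p m := ⟨hB, hA⟩
            have h6 : bad w z g c a p m := by
              unfold bad
              rw [hlab]
              exact Or.inr hB
            rw [if_pos h5, if_pos h6, sub_self]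
          · have h5 : ¬ Qd g c a x y p m := fun h => hB h.1
            have h6 : ¬ bad w z g c a p m := by
              unfold bad
              rw [hlab]
              exact fun h => h.elim hA hB
            rw [if_neg h5, if_neg h6, sub_zero]
    · exact h18
  · -- obstruction
    push Not at hU
    obtain ⟨p, hpW, hUp⟩ := hU
    have hpp := (mem_pr.1 hpW).2
    have hp0 : (p : ℝ) ≠ 0 := by exact_mod_cast hpp.ne_zero
    have hUp2 : US g c a (al x p, al y p) p = p := le_antisymm (US_le g c a _ p) hUp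
    have hpz : (0 : ℤ) < p := by exact_mod_cast hpp.pos
    have hdz : ∀ m ∈ cell w z g W x y u N, densS w z g c a m = 0 := by
      intro m hm
      rw [hd1 m hm]
      refine prod_eq_zero (i := p) (pr_mono hWM hpW) ?_
      rw [cell_lab hm hpp (mem_pr.1 hpW).1, hUp2, div_self hp0, sub_self]
    have hsz : ∀ m ∈ cell w z g W x y u N, hs m = 0 := by
      intro m hm
      rw [hhs]
      simp only
      rw [if_neg]
      rw [SR_iff]
      intro hall
      apply hall p hpp
      have hall2 : (range p).filter (fun t : ℕ => (∃ i ∈ (al x p) \ (al y p), (g i).eval (t : ℤ) ≡ (a p : ℤ) [ZMOD p]) ∨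
          ∃ i ∈ al y p, (g i).eval (t : ℤ) ≡ c p [ZMOD p]) = range p := by
        refine eq_of_subset_of_card_le (filter_subset _ _) ?_
        rw [card_range]
        exact hUp2.ge
      have h0 := Int.emod_nonneg m hpz.ne'
      have h1 := Int.emod_lt_of_pos m hpz
      have ht : (m % p).toNat ∈ range p := mem_range.2 (by omega)
      rw [← hall2, mem_filter] at ht
      have h3 : (((m % p).toNat : ℕ) : ℤ) = m % p := Int.toNat_of_nonneg h0
      rw [h3] at ht
      have h4 : ∀ (i : Fin k) (e : ℤ), (g i).eval (m % p) ≡ e [ZMOD p] → (g i).eval m ≡ e [ZMOD p] := by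
        intro i e he
        refine Int.ModEq.trans ?_ he
        refine (Int.modEq_iff_dvd.2 ?_)
        refine dvd_trans ?_ (sub_dvd_eval_sub (m % p) m (g i))
        exact Int.modEq_iff_dvd.1 (Int.mod_modEq m p).symm
      unfold bad
      rw [cell_lab hm hpp (mem_pr.1 hpW).1]
      rcases ht.2 with ⟨i, hi, h5⟩ | ⟨i, hi, h5⟩
      · exact Or.inl ⟨i, hi, h4 i _ h5⟩
      · exact Or.inr ⟨i, hi, h4 i _ h5⟩
    rw [sum_eq_zero hsz, sum_eq_zero hdz, sub_zero, abs_zero]
    positivity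

end Pool.Agent.L5helper86.UL
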