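import Pool.Agent.L5helper86.UL.Lower

/-! Project UL (helper86): the pair `m`, `n - f(m)`. -/

set_option autoImplicit false

namespace Pool.Agent.L5helper86.UL

open Finset Polynomial MeasureTheory ProbabilityTheory Filter Topology

/-- the pair `X`, `n - f` -/
noncomputable def pair (f : ℤ[X]) (n : ℤ) : Fin 2 → ℤ[X] := ![X, C n - f]

lemma pair_zero (f : ℤ[X]) (n m : ℤ) : (pair f n 0).eval m = m := by simp [pair]

lemma pair_one (f : ℤ[X]) (n m : ℤ) : (pair f n 1).eval m = n - f.eval m := by simp [pair]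

lemma pair_deg {f : ℤ[X]} {n : ℤ} {D : ℕ} (hf : f.natDegree ≤ D) (i : Fin 2) : (pair f n i).natDegree ≤ D + 1 := by
  fin_cases i
  · show (X : ℤ[X]).natDegree ≤ D + 1
    rw [natDegree_X]
    omega
  · show (C n - f).natDegree ≤ D + 1
    refine (natDegree_sub_le _ _).trans ?_
    rw [natDegree_C]
    omega

lemma pair_coeff {f : ℤ[X]} {n : ℤ} {N B : ℕ} (hN : 2 ≤ N) (hf : ∀ j, |f.coeff j| ≤ (N : ℤ) ^ B)
    (hn : |n| ≤ (N : ℤ) ^ B) (i : Fin 2) (j : ℕ) : |(pair f n i).coeff j| ≤ (N : ℤ) ^ (B + 1) := by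
  have hN2 : (2 : ℤ) ≤ N := by exact_mod_cast hN
  have h1 : (1 : ℤ) ≤ (N : ℤ) ^ (B + 1) := one_le_pow₀ (by linarith)
  have h2 : 2 * (N : ℤ) ^ B ≤ (N : ℤ) ^ (B + 1) := by
    rw [pow_succ]
    have : (0 : ℤ) ≤ (N : ℤ) ^ B := by positivity
    nlinarith
  have h0 : (0 : ℤ) ≤ (N : ℤ) ^ B := by positivity
  fin_cases i
  · show |(X : ℤ[X]).coeff j| ≤ _
    rw [coeff_X]
    split_ifs
    · simpa using h1
    · rw [abs_zero]
      linarith
  · show |(C n - f).coeff j| ≤ _
    rw [coeff_sub, coeff_C]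
    refine (abs_sub _ _).trans ?_
    split_ifs
    · linarith [hf j]
    · rw [abs_zero]
      linarith [hf j]

/-- no local obstruction for the pair -/
lemma pair_free {f : ℤ[X]} {n : ℤ} {b : ℕ → ℕ}
    (h : ∀ p : ℕ, p.Prime → ∃ r : ℤ, ¬ r ≡ (b p : ℤ) [ZMOD p] ∧ ¬ n - f.eval r ≡ (b p : ℤ) [ZMOD p]) :
    Free (pair f n) b := by
  intro p hp
  obtain ⟨r, h1, h2⟩ := h p hp
  refine ⟨r, fun i => ?_⟩
  fin_cases i
  · show ¬ (pair f n 0).eval r ≡ _ [ZMOD p]
    rwa [pair_zero]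
  · show ¬ (pair f n 1).eval r ≡ _ [ZMOD p]
    rwa [pair_one]

/-- the local condition for quadratic polynomials and primes `p ≥ 5` -/
lemma quad_free (b c n : ℤ) (a : ℕ) {p : ℕ} (hp : p.Prime) (h5 : 5 ≤ p) :
    ∃ r : ℤ, ¬ r ≡ (a : ℤ) [ZMOD p] ∧ ¬ n - (r ^ 2 + b * r + c) ≡ (a : ℤ) [ZMOD p] := by
  classical
  have : Fact p.Prime := ⟨hp⟩
  obtain ⟨h, hh⟩ : ∃ h : (ZMod p)[X], h = X ^ 2 + C (b : ZMod p) * X + C ((c : ZMod p) - n + a) := ⟨_, rfl⟩
  have hdeg : h.natDegree = 2 := by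
    rw [hh]
    compute_degree!
  have hne : h ≠ 0 := by
    intro h0
    rw [h0, natDegree_zero] at hdeg
    omega
  have h1 := root_count hne hdeg.le
  have h2 : #((range p).filter fun t : ℕ => (t : ZMod p) = (a : ZMod p)) ≤ 1 := by
    rw [card_le_one]
    intro s hs t ht
    rw [mem_filter, mem_range] at hs ht
    have h3 := congrArg ZMod.val (hs.2.trans ht.2.symm)
    rwa [ZMod.val_cast_of_lt hs.1, ZMod.val_cast_of_lt ht.1] at h3
  have h3 : ∃ t ∈ range p, t ∉ ((range p).filter fun t : ℕ => h.eval (t : ZMod p) = 0) ∪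
      ((range p).filter fun t : ℕ => (t : ZMod p) = (a : ZMod p)) := by
    by_contra hcon
    push Not at hcon
    have h4 : range p ⊆ ((range p).filter fun t : ℕ => h.eval (t : ZMod p) = 0) ∪
      ((range p).filter fun t : ℕ => (t : ZMod p) = (a : ZMod p)) := hcon
    have h5' := card_le_card h4
    rw [card_range] at h5'
    have h6 := card_union_le ((range p).filter fun t : ℕ => h.eval (t : ZMod p) = 0)
      ((range p).filter fun t : ℕ => (t : ZMod p) = (a : ZMod p))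
    omega
  obtain ⟨t, ht, ht2⟩ := h3
  rw [mem_union, mem_filter, mem_filter, not_or, not_and, not_and] at ht2
  refine ⟨t, fun h4 => ht2.2 ht ?_, fun h4 => ht2.1 ht ?_⟩
  · rw [← ZMod.intCast_eq_intCast_iff] at h4
    simpa using h4
  · rw [← ZMod.intCast_eq_intCast_iff] at h4
    push_cast at h4
    rw [hh]
    simp only [eval_add, eval_mul, eval_pow, eval_X, eval_C]
    linear_combination -h4

/-- the local condition for admissible quadratic polynomials -/
lemma adm_free {b c n : ℤ} (hbc : Odd (b + c)) (h3 : ¬ (3 : ℤ) ∣ b) (hn : Odd n) {a : ℕ → ℕ} (ha2 : a 2 = 0)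
    (ha3 : a 3 = 0) {p : ℕ} (hp : p.Prime) :
    ∃ r : ℤ, ¬ r ≡ (a p : ℤ) [ZMOD p] ∧ ¬ n - (r ^ 2 + b * r + c) ≡ (a p : ℤ) [ZMOD p] := by
  by_cases h5 : 5 ≤ p
  · exact quad_free b c n (a p) hp h5
  · have hp23 : p = 2 ∨ p = 3 := by
      have h2 := hp.two_le
      have h4 : p ≠ 4 := by
        rintro rfl
        exact absurd hp (by norm_num)
      omega
    rcases hp23 with rfl | rfl
    · refine ⟨1, ?_, ?_⟩
      · rw [ha2]
        intro h
        have := Int.modEq_iff_dvd.1 h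
        push_cast at this
      · rw [ha2]
        intro h
        have h6 := Int.modEq_iff_dvd.1 h
        push_cast at h6
        obtain ⟨x, hx⟩ := hbc
        obtain ⟨y, hy⟩ := hn
        obtain ⟨w, hw⟩ := h6
        omega
    · rw [ha3]
      by_cases h6 : (n - (1 ^ 2 + b * 1 + c)) ≡ ((0 : ℕ) : ℤ) [ZMOD ((3 : ℕ) : ℤ)]
      · refine ⟨2, ?_, ?_⟩
        · intro h
          have := Int.modEq_iff_dvd.1 h
          push_cast at this
        · intro h
          have h7 := Int.modEq_iff_dvd.1 h6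
          have h8 := Int.modEq_iff_dvd.1 h
          push_cast at h7 h8
          apply h3
          obtain ⟨x, hx⟩ := h7
          obtain ⟨y, hy⟩ := h8
          omega
      · refine ⟨1, ?_, h6⟩
        intro h
        have := Int.modEq_iff_dvd.1 h
        push_cast at this

end Pool.Agent.L5helper86.UL
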