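import Pool.Agent.L5helper86.UL.Sing3

/-! Project UL (helper86): the convolution sum of the densities of Mertens. -/

set_option autoImplicit false

namespace Pool.Agent.L5helper86.UL

open Finset MeasureTheory ProbabilityTheory Filter Topology
open Pool.Agent.L5helper2.RS (Vp Vp_eq Vp_pos Vp_le Vp_mertens)

/-- the density of Mertens at the level `m^θ` -/
noncomputable def VV (θ : ℝ) (m : ℕ) : ℝ := Vp ⌊(m : ℝ) ^ θ⌋₊

lemma VV_pos (θ : ℝ) (m : ℕ) : 0 < VV θ m := Vp_pos _

lemma VV_le (θ : ℝ) (m : ℕ) : VV θ m ≤ 1 := Vp_le _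

lemma logT : Tendsto (fun n : ℕ => Real.log n) atTop atTop := Real.tendsto_log_atTop.comp tendsto_natCast_atTop_atTop

lemma floorT {θ : ℝ} (hθ : 0 < θ) : Tendsto (fun m : ℕ => ⌊(m : ℝ) ^ θ⌋₊) atTop atTop :=
  tendsto_nat_floor_atTop.comp ((tendsto_rpow_atTop hθ).comp tendsto_natCast_atTop_atTop)

lemma log_floor {θ : ℝ} (hθ : 0 < θ) :
    Tendsto (fun m : ℕ => Real.log ((⌊(m : ℝ) ^ θ⌋₊ : ℕ) : ℝ) / Real.log m) atTop (𝓝 θ) := by
  have hbig : ∀ᶠ m : ℕ in atTop, (2 : ℝ) ≤ (m : ℝ) ^ θ :=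
    ((tendsto_rpow_atTop hθ).comp tendsto_natCast_atTop_atTop).eventually_ge_atTop 2
  have hlow : Tendsto (fun m : ℕ => θ - Real.log 2 / Real.log m) atTop (𝓝 θ) := by
    have h1 : Tendsto (fun m : ℕ => Real.log 2 / Real.log m) atTop (𝓝 0) := logT.const_div_atTop _
    simpa using tendsto_const_nhds.sub h1
  refine tendsto_of_tendsto_of_tendsto_of_le_of_le' hlow tendsto_const_nhds ?_ ?_
  · filter_upwards [hbig, eventually_ge_atTop 2] with m hm hm2
    have hm0 : (0 : ℝ) < m := by exact_mod_cast (by omega : 0 < m)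
    have hl : 0 < Real.log m := Real.log_pos (by exact_mod_cast (by omega : 1 < m))
    rw [sub_le_iff_le_add, ← add_div, le_div_iff₀ hl]
    have h1 : (m : ℝ) ^ θ ≤ 2 * (⌊(m : ℝ) ^ θ⌋₊ : ℕ) := by
      have := Nat.lt_floor_add_one ((m : ℝ) ^ θ)
      linarith
    have h2 := Real.log_le_log (by positivity) h1
    have h3 : (0 : ℝ) < (⌊(m : ℝ) ^ θ⌋₊ : ℕ) := by linarith
    rw [Real.log_rpow hm0, Real.log_mul (by norm_num) h3.ne'] at h2
    linarith
  · filter_upwards [hbig, eventually_ge_atTop 2] with m hm hm2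
    have hm0 : (0 : ℝ) < m := by exact_mod_cast (by omega : 0 < m)
    have hl : 0 < Real.log m := Real.log_pos (by exact_mod_cast (by omega : 1 < m))
    rw [div_le_iff₀ hl]
    have h1 : ((⌊(m : ℝ) ^ θ⌋₊ : ℕ) : ℝ) ≤ (m : ℝ) ^ θ := Nat.floor_le (by positivity)
    have h3 : (0 : ℝ) < (⌊(m : ℝ) ^ θ⌋₊ : ℕ) := by
      have := Nat.lt_floor_add_one ((m : ℝ) ^ θ)
      linarith
    have h2 := Real.log_le_log h3 h1
    rwa [Real.log_rpow hm0] at h2

lemma VV_lim {θ : ℝ} (hθ : 0 < θ) : Tendsto (fun m : ℕ => VV θ m * Real.log m) atTop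
    (𝓝 (Real.exp (-Real.eulerMascheroniConstant) / θ)) := by
  have h1 := (Vp_mertens.comp (floorT hθ)).div (log_floor hθ) hθ.ne'
  refine h1.congr' ?_
  filter_upwards [eventually_ge_atTop 2, (floorT hθ).eventually_ge_atTop 2] with m hm hm2
  have hl : 0 < Real.log m := Real.log_pos (by exact_mod_cast (by omega : 1 < m))
  have hl2 : 0 < Real.log ((⌊(m : ℝ) ^ θ⌋₊ : ℕ) : ℝ) := Real.log_pos (by exact_mod_cast (by omega : 1 < ⌊(m : ℝ) ^ θ⌋₊))
  simp only [Pi.div_apply, Function.comp_apply]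
  unfold VV
  field_simp

/-- the sum of the logarithms -/
lemma sum_logs (n : ℕ) (hn : 1 ≤ n) : ∑ m ∈ Ico 1 n, (Real.log n - Real.log m) ≤ n := by
  have hn0 : (0 : ℝ) < n := by exact_mod_cast hn
  have h1 := Real.pow_div_factorial_le_exp (n : ℝ) hn0.le n
  have hf : (0 : ℝ) < (n.factorial : ℝ) := by exact_mod_cast n.factorial_pos
  have h2 := Real.log_le_log (by positivity) h1
  rw [Real.log_exp, Real.log_div (by positivity) hf.ne', Real.log_pow] at h2
  have h3 : Real.log (n.factorial : ℝ) = ∑ m ∈ Ico 1 (n + 1), Real.log m := by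
    rw [← prod_Ico_id_eq_factorial]
    push_cast
    rw [Real.log_prod]
    intro m hm
    rw [mem_Ico] at hm
    have : (0 : ℝ) < m := by exact_mod_cast hm.1
    exact this.ne'
  have h4 : ∑ m ∈ Ico 1 (n + 1), (Real.log n - Real.log m) = n * Real.log n - Real.log (n.factorial : ℝ) := by
    rw [sum_sub_distrib, sum_const, Nat.card_Ico, nsmul_eq_mul, h3]
    simp
  have h5 : ∑ m ∈ Ico 1 (n + 1), (Real.log n - Real.log m) = ∑ m ∈ Ico 1 n, (Real.log n - Real.log m) := by
    rw [sum_Ico_succ_top hn, sub_self, add_zero]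
  rw [← h5, h4]
  exact h2

/-- the mean deviation -/
lemma mean_dev {θ : ℝ} (hθ : 0 < θ) : Tendsto (fun n : ℕ => ((n : ℝ))⁻¹ * ∑ m ∈ Ico 1 n,
    |Real.log n * VV θ m - Real.exp (-Real.eulerMascheroniConstant) / θ|) atTop (𝓝 0) := by
  obtain ⟨c, hc⟩ : ∃ c, c = Real.exp (-Real.eulerMascheroniConstant) / θ := ⟨_, rfl⟩
  have hlim := VV_lim hθ
  rw [← hc] at hlim ⊢
  have hu : Tendsto (fun m : ℕ => |VV θ m * Real.log m - c|) atTop (𝓝 0) := by
    have h1 := (hlim.sub_const c).abs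
    simpa using h1
  have hces := hu.cesaro
  have hV0 : Tendsto (fun m : ℕ => VV θ m) atTop (𝓝 0) := by
    have h1 := hlim.div_atTop logT
    refine h1.congr' ?_
    filter_upwards [eventually_ge_atTop 2] with m hm
    have hl : 0 < Real.log m := Real.log_pos (by exact_mod_cast (by omega : 1 < m))
    field_simp
  have hln : Tendsto (fun n : ℕ => Real.log n / n) atTop (𝓝 0) := by
    have h1 := (Real.isLittleO_log_id_atTop.tendsto_div_nhds_zero).comp tendsto_natCast_atTop_atTop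
    exact h1
  rw [Metric.tendsto_atTop] at hces hV0 hln ⊢
  intro ε hε
  obtain ⟨K, hK⟩ := hV0 (ε / 4) (by positivity)
  obtain ⟨n1, hn1⟩ := hces (ε / 4) (by positivity)
  obtain ⟨n2, hn2⟩ := hln (ε / (4 * (K + 1))) (by positivity)
  refine ⟨max (max n1 n2) 1, fun n hn => ?_⟩
  have hn1' : n1 ≤ n := (le_max_left _ _).trans ((le_max_left _ _).trans hn)
  have hn2' : n2 ≤ n := (le_max_right _ _).trans ((le_max_left _ _).trans hn)
  have hn1'' : 1 ≤ n := (le_max_right _ _).trans hn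
  have hn0 : (0 : ℝ) < n := by exact_mod_cast hn1''
  have h1 := hn1 n hn1'
  have h2 := hn2 n hn2'
  rw [Real.dist_eq, sub_zero] at h1 h2 ⊢
  have hlogn : 0 ≤ Real.log n := Real.log_nonneg (by exact_mod_cast hn1'')
  have hterm : ∀ m ∈ Ico 1 n, |Real.log n * VV θ m - c| ≤ |VV θ m * Real.log m - c| +
      (ε / 4 * (Real.log n - Real.log m) + if m < K then Real.log n else 0) := by
    intro m hm
    rw [mem_Ico] at hm
    have hm0 : (0 : ℝ) < m := by exact_mod_cast hm.1
    have hlm : 0 ≤ Real.log m := Real.log_nonneg (by exact_mod_cast hm.1)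
    have hle : Real.log m ≤ Real.log n := Real.log_le_log hm0 (by exact_mod_cast hm.2.le)
    have e : Real.log n * VV θ m - c = (VV θ m * Real.log m - c) + VV θ m * (Real.log n - Real.log m) := by ring
    rw [e]
    refine (abs_add_le _ _).trans (add_le_add le_rfl ?_)
    have hV := VV_pos θ m
    rw [abs_of_nonneg (mul_nonneg hV.le (by linarith))]
    split_ifs with hcase
    · have h3 := VV_le θ m
      have h4 : VV θ m * (Real.log n - Real.log m) ≤ 1 * (Real.log n - Real.log m) :=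
        mul_le_mul_of_nonneg_right h3 (by linarith)
      have h5 : 0 ≤ ε / 4 * (Real.log n - Real.log m) := mul_nonneg (by positivity) (by linarith)
      linarith
    · have h3 := hK m (not_lt.1 hcase)
      rw [Real.dist_eq, sub_zero, abs_of_pos hV] at h3
      rw [add_zero]
      exact mul_le_mul_of_nonneg_right h3.le (by linarith)
  have hs1 : ∑ m ∈ Ico 1 n, |VV θ m * Real.log m - c| ≤ ∑ m ∈ range n, |VV θ m * Real.log m - c| :=
    sum_le_sum_of_subset_of_nonneg (fun m hm => mem_range.2 (mem_Ico.1 hm).2) fun m _ _ => abs_nonneg _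
  have hs2 : ∑ m ∈ Ico 1 n, (if m < K then Real.log n else 0) ≤ K * Real.log n := by
    rw [← sum_filter, sum_const, nsmul_eq_mul]
    refine mul_le_mul_of_nonneg_right ?_ hlogn
    have : #((Ico 1 n).filter fun m => m < K) ≤ K := by
      calc #((Ico 1 n).filter fun m => m < K) ≤ #(range K) := card_le_card fun m hm => mem_range.2 (mem_filter.1 hm).2
        _ = K := card_range K
    exact_mod_cast this
  have hs3 := sum_logs n hn1''
  rw [abs_of_nonneg (by positivity)]
  rw [abs_of_nonneg (by positivity)] at h1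
  rw [abs_of_nonneg (by positivity)] at h2
  have hfin : (n : ℝ)⁻¹ * ∑ m ∈ Ico 1 n, |Real.log n * VV θ m - c| ≤
      (n : ℝ)⁻¹ * ∑ m ∈ range n, |VV θ m * Real.log m - c| + ε / 4 + K * (Real.log n / n) := by
    calc (n : ℝ)⁻¹ * ∑ m ∈ Ico 1 n, |Real.log n * VV θ m - c| ≤
          (n : ℝ)⁻¹ * (∑ m ∈ range n, |VV θ m * Real.log m - c| + (ε / 4 * n + K * Real.log n)) := by
          refine mul_le_mul_of_nonneg_left ?_ (by positivity)
          refine (sum_le_sum hterm).trans ?_
          rw [sum_add_distrib, sum_add_distrib, ← mul_sum]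
          have := mul_le_mul_of_nonneg_left hs3 (show 0 ≤ ε / 4 by positivity)
          linarith
      _ = _ := by
          field_simp
          ring
  have h6 : (K : ℝ) * (Real.log n / n) ≤ ε / 4 := by
    calc (K : ℝ) * (Real.log n / n) ≤ K * (ε / (4 * (K + 1))) := mul_le_mul_of_nonneg_left h2.le (by positivity)
      _ ≤ ε / 4 := by
          rw [mul_div_assoc', div_le_div_iff₀ (by positivity) (by norm_num)]
          nlinarith [show (0 : ℝ) ≤ K by positivity]
  linarith

/-- the convolution sum -/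
theorem conv_sum {θ : ℝ} (hθ : 0 < θ) : Tendsto (fun n : ℕ => (Real.log n) ^ 2 / n * ∑ m ∈ Ico 1 n, VV θ m * VV θ (n - m))
    atTop (𝓝 ((Real.exp (-Real.eulerMascheroniConstant) / θ) ^ 2)) := by
  obtain ⟨c, hc⟩ : ∃ c, c = Real.exp (-Real.eulerMascheroniConstant) / θ := ⟨_, rfl⟩
  have hc0 : 0 < c := by rw [hc]; exact div_pos (Real.exp_pos _) hθ
  have hdev := mean_dev hθ
  have hlim := VV_lim hθ
  rw [← hc] at hlim hdev ⊢
  obtain ⟨K, hK⟩ := eventually_atTop.1 (hlim.eventually_le_const (show c < c + 1 by linarith))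
  have h1n : Tendsto (fun n : ℕ => (n : ℝ)⁻¹) atTop (𝓝 0) := tendsto_inv_atTop_nhds_zero_nat
  have hkey : ∀ᶠ n : ℕ in atTop, |(Real.log n) ^ 2 / n * ∑ m ∈ Ico 1 n, VV θ m * VV θ (n - m) - c ^ 2| ≤
      2 * (3 * c + 2) * ((n : ℝ)⁻¹ * ∑ m ∈ Ico 1 n, |Real.log n * VV θ m - c|) + c ^ 2 * (n : ℝ)⁻¹ := by
    filter_upwards [eventually_ge_atTop (max 4 (2 * K))] with n hn
    have hn4 : 4 ≤ n := (le_max_left _ _).trans hn
    have hnK : 2 * K ≤ n := (le_max_right _ _).trans hn
    have hn0 : (0 : ℝ) < n := by exact_mod_cast (by omega : 0 < n)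
    have hn4r : (4 : ℝ) ≤ n := by exact_mod_cast hn4
    have hlogn : 0 < Real.log n := Real.log_pos (by linarith)
    obtain ⟨x, hx⟩ : ∃ x : ℕ → ℝ, x = fun m => Real.log n * VV θ m := ⟨_, rfl⟩
    have hx0 : ∀ m, 0 ≤ x m := fun m => by rw [hx]; exact mul_nonneg hlogn.le (VV_pos θ m).le
    have hxC : ∀ m : ℕ, n ≤ 2 * m → x m ≤ 2 * (c + 1) := by
      intro m hm
      have hmr : (n : ℝ) ≤ 2 * m := by exact_mod_cast hm
      have hm2 : (2 : ℝ) ≤ m := by linarith
      have hlm : 0 < Real.log m := Real.log_pos (by linarith)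
      have h1 := hK m (by omega)
      have h2 : Real.log n ≤ 2 * Real.log m := by
        rw [← Real.log_rpow (by linarith), Real.rpow_two]
        refine Real.log_le_log hn0 ?_
        nlinarith
      rw [hx]
      calc Real.log n * VV θ m ≤ 2 * Real.log m * VV θ m := mul_le_mul_of_nonneg_right h2 (VV_pos θ m).le
        _ = 2 * (VV θ m * Real.log m) := by ring
        _ ≤ _ := by linarith
    have hterm : ∀ m ∈ Ico 1 n, |x m * x (n - m) - c ^ 2| ≤ (3 * c + 2) * (|x m - c| + |x (n - m) - c|) := by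
      intro m hm
      rw [mem_Ico] at hm
      have a1 := abs_nonneg (x m - c)
      have a2 := abs_nonneg (x (n - m) - c)
      by_cases hcase : n ≤ 2 * m
      · have e : x m * x (n - m) - c ^ 2 = x m * (x (n - m) - c) + c * (x m - c) := by ring
        rw [e]
        refine (abs_add_le _ _).trans ?_
        rw [abs_mul, abs_mul, abs_of_nonneg (hx0 m), abs_of_pos hc0]
        have h2 := mul_le_mul_of_nonneg_right (hxC m hcase) a2
        nlinarith
      · have e : x m * x (n - m) - c ^ 2 = x (n - m) * (x m - c) + c * (x (n - m) - c) := by ring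
        rw [e]
        refine (abs_add_le _ _).trans ?_
        rw [abs_mul, abs_mul, abs_of_nonneg (hx0 (n - m)), abs_of_pos hc0]
        have h2 := mul_le_mul_of_nonneg_right (hxC (n - m) (by omega)) a1
        nlinarith
    have hrefl : ∑ m ∈ Ico 1 n, |x (n - m) - c| = ∑ m ∈ Ico 1 n, |x m - c| := by
      refine sum_nbij' (fun m => n - m) (fun m => n - m) ?_ ?_ ?_ ?_ ?_
      · intro m hm; rw [mem_Ico] at hm ⊢; omega
      · intro m hm; rw [mem_Ico] at hm ⊢; omega
      · intro m hm; rw [mem_Ico] at hm; show n - (n - m) = m; omega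
      · intro m hm; rw [mem_Ico] at hm; show n - (n - m) = m; omega
      · intro m hm; rfl
    have e1 : (Real.log n) ^ 2 / n * ∑ m ∈ Ico 1 n, VV θ m * VV θ (n - m) - c ^ 2 =
        (n : ℝ)⁻¹ * ∑ m ∈ Ico 1 n, (x m * x (n - m) - c ^ 2) - c ^ 2 * (n : ℝ)⁻¹ := by
      have e2 : ∑ m ∈ Ico 1 n, x m * x (n - m) = (Real.log n) ^ 2 * ∑ m ∈ Ico 1 n, VV θ m * VV θ (n - m) := by
        rw [mul_sum]
        refine sum_congr rfl fun m _ => ?_
        rw [hx]
        ring
      rw [sum_sub_distrib, e2, sum_const, Nat.card_Ico, nsmul_eq_mul, Nat.cast_sub (by omega), Nat.cast_one]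
      field_simp
      ring
    rw [e1]
    refine (abs_sub _ _).trans ?_
    have h3 : |c ^ 2 * (n : ℝ)⁻¹| = c ^ 2 * (n : ℝ)⁻¹ := abs_of_nonneg (by positivity)
    rw [h3, abs_mul, abs_of_nonneg (by positivity : 0 ≤ (n : ℝ)⁻¹)]
    refine add_le_add ?_ le_rfl
    calc (n : ℝ)⁻¹ * |∑ m ∈ Ico 1 n, (x m * x (n - m) - c ^ 2)| ≤
          (n : ℝ)⁻¹ * ∑ m ∈ Ico 1 n, (3 * c + 2) * (|x m - c| + |x (n - m) - c|) :=
          mul_le_mul_of_nonneg_left ((abs_sum_le_sum_abs _ _).trans (sum_le_sum hterm)) (by positivity)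
      _ = 2 * (3 * c + 2) * ((n : ℝ)⁻¹ * ∑ m ∈ Ico 1 n, |Real.log n * VV θ m - c|) := by
          rw [← mul_sum, sum_add_distrib, hrefl, hx]
          ring
  rw [tendsto_iff_norm_sub_tendsto_zero]
  refine squeeze_zero' (Eventually.of_forall fun n => norm_nonneg _) hkey ?_
  have := (hdev.const_mul (2 * (3 * c + 2))).add (h1n.const_mul (c ^ 2))
  simpa using this

end Pool.Agent.L5helper86.UL
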