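import Pool.Agent.L5helper86.UL.Cell2
import Pool.Agent.L5helper86.UL.Pair
import Pool.Agent.L5helper86.UL.VSum

/-! Project UL (helper86): the pair `m`, `n - m`, local factors. -/

set_option autoImplicit false

namespace Pool.Agent.L5helper86.UL

open Finset Polynomial MeasureTheory ProbabilityTheory Filter Topology
open Pool.Agent.L5helper2.BH (pr mem_pr)
open Pool.Agent.L5helper2.RS (Vp Vp_eq Vp_pos Vp_le Vp_mertens bc)

/-- the residue -/
def rc (p : ℕ) (x : ℤ) : ℕ := (x % p).toNat

lemma rc_mem {p : ℕ} (hp : 0 < p) (x : ℤ) : rc p x ∈ range p := by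
  have hpz : (0 : ℤ) < p := by exact_mod_cast hp
  have h1 := Int.emod_nonneg x hpz.ne'
  have h2 := Int.emod_lt_of_pos x hpz
  unfold rc
  rw [mem_range]
  omega

lemma rc_iff {p : ℕ} (hp : 0 < p) {t : ℕ} (ht : t ∈ range p) (x : ℤ) : (t : ℤ) ≡ x [ZMOD p] ↔ t = rc p x := by
  have hpz : (0 : ℤ) < p := by exact_mod_cast hp
  have h1 := Int.emod_nonneg x hpz.ne'
  have h2 := Int.emod_lt_of_pos x hpz
  have h3 : ((t : ℤ)) % p = t := Int.emod_eq_of_lt (by positivity) (by exact_mod_cast mem_range.1 ht)
  unfold rc Int.ModEq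
  rw [h3]
  omega

lemma rc_eq {p : ℕ} (hp : 0 < p) (x y : ℤ) : rc p x = rc p y ↔ x ≡ y [ZMOD p] := by
  have hpz : (0 : ℤ) < p := by exact_mod_cast hp
  have h1 := Int.emod_nonneg x hpz.ne'
  have h2 := Int.emod_nonneg y hpz.ne'
  unfold rc Int.ModEq
  omega

/-- one class -/
lemma one_class {p : ℕ} (hp : 0 < p) (x : ℤ) : #((range p).filter fun t : ℕ => (t : ℤ) ≡ x [ZMOD p]) = 1 := by
  have h : (range p).filter (fun t : ℕ => (t : ℤ) ≡ x [ZMOD p]) = {rc p x} := by
    ext t
    rw [mem_filter, mem_singleton]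
    constructor
    · rintro ⟨h1, h2⟩
      exact (rc_iff hp h1 x).1 h2
    · rintro rfl
      exact ⟨rc_mem hp x, (rc_iff hp (rc_mem hp x) x).2 rfl⟩
  rw [h, card_singleton]

/-- two classes -/
lemma two_class {p : ℕ} (hp : 0 < p) (x y : ℤ) :
    #((range p).filter fun t : ℕ => (t : ℤ) ≡ x [ZMOD p] ∨ (t : ℤ) ≡ y [ZMOD p]) =
      if x ≡ y [ZMOD p] then 1 else 2 := by
  have h : (range p).filter (fun t : ℕ => (t : ℤ) ≡ x [ZMOD p] ∨ (t : ℤ) ≡ y [ZMOD p]) = {rc p x, rc p y} := by
    ext t
    rw [mem_filter, mem_insert, mem_singleton]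
    constructor
    · rintro ⟨h1, h2 | h2⟩
      · exact Or.inl ((rc_iff hp h1 x).1 h2)
      · exact Or.inr ((rc_iff hp h1 y).1 h2)
    · rintro (rfl | rfl)
      · exact ⟨rc_mem hp x, Or.inl ((rc_iff hp (rc_mem hp x) x).2 rfl)⟩
      · exact ⟨rc_mem hp y, Or.inr ((rc_iff hp (rc_mem hp y) y).2 rfl)⟩
  rw [h]
  split_ifs with hc
  · rw [(rc_eq hp x y).2 hc]
    simp
  · rw [card_pair]
    exact fun h => hc ((rc_eq hp x y).1 h)

lemma flip_iff (n t e : ℤ) (p : ℕ) : n - t ≡ e [ZMOD p] ↔ t ≡ n - e [ZMOD p] := by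
  constructor
  · intro h
    have h2 := (Int.ModEq.refl (n := (p : ℤ)) n).sub h
    have e1 : n - (n - t) = t := by ring
    rwa [e1] at h2
  · intro h
    have h2 := (Int.ModEq.refl (n := (p : ℤ)) n).sub h
    have e1 : n - (n - e) = e := by ring
    rwa [e1] at h2

lemma add_iff (n x y : ℤ) (p : ℕ) : x ≡ n - y [ZMOD p] ↔ x + y ≡ n [ZMOD p] := by
  constructor
  · intro h
    have h2 := h.add_right y
    have e1 : n - y + y = n := by ring
    rwa [e1] at h2
  · intro h
    have h2 := h.sub_right y
    have e1 : x + y - y = x := by ring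
    rwa [e1] at h2

open Classical in
/-- the possible coincidences at `p` -/
noncomputable def xi (n : ℤ) (b p : ℕ) : ℝ :=
  (if (b : ℤ) ≡ n [ZMOD p] then 1 else 0) + (if 2 * (b : ℤ) ≡ n [ZMOD p] then 1 else 0)

lemma xi_nonneg (n : ℤ) (b p : ℕ) : 0 ≤ xi n b p := by
  unfold xi
  split_ifs <;> norm_num

open Classical in
/-- the number of the killed residues for the pair `m`, `n - m` -/
lemma US_gold {n : ℤ} {a : ℕ → ℕ} {α : Finset (Fin 2) × Finset (Fin 2)} (hα : α.2 ⊆ α.1) {p : ℕ} (hp : p.Prime) :
    US (pair X n) (fun _ => 0) a α p ≤ #α.1 ∧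
    (#α.1 : ℝ) - (US (pair X n) (fun _ => 0) a α p : ℝ) ≤ (if (p : ℤ) ∣ n then 1 else 0) + xi n (a p) p ∧
    (#α.1 < 2 → US (pair X n) (fun _ => 0) a α p = #α.1) ∧ (#α.1 = 2 → 1 ≤ US (pair X n) (fun _ => 0) a α p) ∧
    (α.2 = univ → US (pair X n) (fun _ => 0) a α p = if (p : ℤ) ∣ n then 1 else 2) := by
  have hp0 := hp.pos
  obtain ⟨e, he⟩ : ∃ e : Fin 2 → ℤ, e = fun i => if i ∈ α.2 then 0 else (a p : ℤ) := ⟨_, rfl⟩
  have hUS : US (pair X n) (fun _ => 0) a α p = #((range p).filter fun t : ℕ =>
      (0 ∈ α.1 ∧ (t : ℤ) ≡ e 0 [ZMOD p]) ∨ (1 ∈ α.1 ∧ (t : ℤ) ≡ n - e 1 [ZMOD p])) := by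
    unfold US
    refine congrArg card (filter_congr fun t _ => ?_)
    have h0 : (pair X n 0).eval (t : ℤ) = t := pair_zero _ _ _
    have h1 : (pair X n 1).eval (t : ℤ) = n - t := by rw [pair_one, eval_X]
    simp only [Finset.mem_sdiff]
    rw [← flip_iff, he]
    constructor
    · rintro (⟨i, ⟨hi1, hi2⟩, h⟩ | ⟨i, hi, h⟩)
      · fin_cases i
        · left
          refine ⟨hi1, ?_⟩
          have hi2' : (0 : Fin 2) ∉ α.2 := hi2
          have h' : (pair X n 0).eval (t : ℤ) ≡ (a p : ℤ) [ZMOD p] := h
          simp only [if_neg hi2']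
          rwa [h0] at h'
        · right
          refine ⟨hi1, ?_⟩
          have hi2' : (1 : Fin 2) ∉ α.2 := hi2
          have h' : (pair X n 1).eval (t : ℤ) ≡ (a p : ℤ) [ZMOD p] := h
          simp only [if_neg hi2']
          rwa [h1] at h'
      · fin_cases i
        · left
          have hi' : (0 : Fin 2) ∈ α.2 := hi
          refine ⟨hα hi', ?_⟩
          have h' : (pair X n 0).eval (t : ℤ) ≡ 0 [ZMOD p] := h
          simp only [if_pos hi']
          rwa [h0] at h'
        · right
          have hi' : (1 : Fin 2) ∈ α.2 := hi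
          refine ⟨hα hi', ?_⟩
          have h' : (pair X n 1).eval (t : ℤ) ≡ 0 [ZMOD p] := h
          simp only [if_pos hi']
          rwa [h1] at h'
    · rintro (⟨hi, h⟩ | ⟨hi, h⟩)
      · by_cases hc : (0 : Fin 2) ∈ α.2
        · simp only [if_pos hc] at h
          exact Or.inr ⟨0, hc, by rw [h0]; exact h⟩
        · simp only [if_neg hc] at h
          exact Or.inl ⟨0, ⟨hi, hc⟩, by rw [h0]; exact h⟩
      · by_cases hc : (1 : Fin 2) ∈ α.2
        · simp only [if_pos hc] at h
          exact Or.inr ⟨1, hc, by rw [h1]; exact h⟩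
        · simp only [if_neg hc] at h
          exact Or.inl ⟨1, ⟨hi, hc⟩, by rw [h1]; exact h⟩
  have hx0 := xi_nonneg n (a p) p
  have hd0 : (0 : ℝ) ≤ (if (p : ℤ) ∣ n then 1 else 0) := by split_ifs <;> norm_num
  by_cases h0 : (0 : Fin 2) ∈ α.1
  · by_cases h1 : (1 : Fin 2) ∈ α.1
    · -- both
      have hα1 : α.1 = univ := by
        ext i
        fin_cases i
        · simpa using h0
        · simpa using h1
      have hc2 : #α.1 = 2 := by rw [hα1, card_univ, Fintype.card_fin]
      simp only [h0, h1, true_and] at hUS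
      rw [two_class hp0] at hUS
      simp only [add_iff] at hUS
      refine ⟨?_, ?_, ?_, ?_, ?_⟩
      · rw [hUS, hc2]
        split_ifs <;> norm_num
      · rw [hUS, hc2]
        by_cases hc : e 0 + e 1 ≡ n [ZMOD p]
        · rw [if_pos hc]
          have h3 : (1 : ℝ) ≤ (if (p : ℤ) ∣ n then 1 else 0) + xi n (a p) p := by
            rw [he] at hc
            simp only at hc
            unfold xi
            by_cases hb0 : (0 : Fin 2) ∈ α.2
            · by_cases hb1 : (1 : Fin 2) ∈ α.2
              · rw [if_pos hb0, if_pos hb1, add_zero] at hc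
                have h4 : (p : ℤ) ∣ n := by
                  have := Int.modEq_iff_dvd.1 hc
                  simpa using this
                rw [if_pos h4]
                have : (0 : ℝ) ≤ (if (a p : ℤ) ≡ n [ZMOD p] then 1 else 0) + (if 2 * (a p : ℤ) ≡ n [ZMOD p] then 1 else 0) := by
                  split_ifs <;> norm_num
                linarith
              · rw [if_pos hb0, if_neg hb1, zero_add] at hc
                rw [if_pos hc]
                have : (0 : ℝ) ≤ (if 2 * (a p : ℤ) ≡ n [ZMOD p] then 1 else 0) := by split_ifs <;> norm_num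
                linarith
            · by_cases hb1 : (1 : Fin 2) ∈ α.2
              · rw [if_neg hb0, if_pos hb1, add_zero] at hc
                rw [if_pos hc]
                have : (0 : ℝ) ≤ (if 2 * (a p : ℤ) ≡ n [ZMOD p] then 1 else 0) := by split_ifs <;> norm_num
                linarith
              · rw [if_neg hb0, if_neg hb1, ← two_mul] at hc
                rw [if_pos hc]
                have : (0 : ℝ) ≤ (if (a p : ℤ) ≡ n [ZMOD p] then 1 else 0) := by split_ifs <;> norm_num
                linarith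
          push_cast
          linarith
        · rw [if_neg hc]
          push_cast
          linarith
      · intro h
        omega
      · intro _
        rw [hUS]
        split_ifs <;> norm_num
      · intro hu
        rw [hUS, he]
        simp only [hu, mem_univ, if_true]
        have h5 : (0 : ℤ) + 0 ≡ n [ZMOD p] ↔ (p : ℤ) ∣ n := by
          rw [Int.modEq_iff_dvd]
          simp
        by_cases h6 : (p : ℤ) ∣ n
        · rw [if_pos (h5.2 h6), if_pos h6]
        · rw [if_neg (fun h => h6 (h5.1 h)), if_neg h6]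
    · -- only 0
      have hα1 : α.1 = {0} := by
        ext i
        fin_cases i
        · simpa using h0
        · simpa using h1
      have hc1 : #α.1 = 1 := by rw [hα1, card_singleton]
      simp only [h0, h1, true_and, false_and, or_false] at hUS
      rw [one_class hp0] at hUS
      rw [hUS, hc1]
      refine ⟨le_rfl, ?_, fun _ => rfl, fun h => by omega, fun hu => ?_⟩
      · push_cast
        linarith
      · exfalso
        apply h1
        apply hα
        rw [hu]
        exact mem_univ _
  · by_cases h1 : (1 : Fin 2) ∈ α.1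
    · have hα1 : α.1 = {1} := by
        ext i
        fin_cases i
        · simpa using h0
        · simpa using h1
      have hc1 : #α.1 = 1 := by rw [hα1, card_singleton]
      simp only [h0, h1, true_and, false_and, false_or] at hUS
      rw [one_class hp0] at hUS
      rw [hUS, hc1]
      refine ⟨le_rfl, ?_, fun _ => rfl, fun h => by omega, fun hu => ?_⟩
      · push_cast
        linarith
      · exfalso
        apply h0
        apply hα
        rw [hu]
        exact mem_univ _
    · have hα1 : α.1 = ∅ := by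
        ext i
        fin_cases i
        · simpa using h0
        · simpa using h1
      have hc1 : #α.1 = 0 := by rw [hα1, card_empty]
      simp only [h0, h1, false_and, or_false] at hUS
      simp only [filter_false, card_empty] at hUS
      rw [hUS, hc1]
      refine ⟨le_rfl, ?_, fun _ => rfl, fun h => by omega, fun hu => ?_⟩
      · push_cast
        linarith
      · exfalso
        apply h0
        apply hα
        rw [hu]
        exact mem_univ _

end Pool.Agent.L5helper86.UL
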