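import Pool.Agent.L5helper86.UL.Gold1

/-! Project UL (helper86): the pair `m`, `n - m`: tails and the singular series. -/

set_option autoImplicit false

namespace Pool.Agent.L5helper86.UL

open Finset Polynomial MeasureTheory ProbabilityTheory Filter Topology
open Pool.Agent.L5helper2.BH (pr mem_pr)
open Pool.Agent.L5helper2.RS (Vp Vp_eq Vp_pos Vp_le Vp_mertens bc)

lemma exp_neg_le {x : ℝ} (h0 : 0 ≤ x) (h1 : x ≤ 1 / 2) : Real.exp (-(2 * x)) ≤ 1 - x := by
  have h2 := log_bound h0 h1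
  rw [abs_le] at h2
  have h3 : 0 < 1 - x := by linarith
  rw [← Real.exp_log h3]
  apply Real.exp_le_exp.2
  nlinarith [h2.1]

/-- the factor -/
noncomputable def FF (U c p : ℕ) : ℝ := (1 - (U : ℝ) / p) / (1 - 1 / (p : ℝ)) ^ c

lemma FF_bounds {U c p : ℕ} (hp : 3 ≤ p) (hc : c ≤ 2) (h1 : U ≤ c) (h2 : c < 2 → U = c) (h3 : c = 2 → 1 ≤ U) {ξ : ℝ}
    (hξ : (c : ℝ) - U ≤ ξ) (hξ0 : 0 ≤ ξ) :
    Real.exp (-(8 / (p : ℝ) ^ 2)) ≤ FF U c p ∧ FF U c p ≤ Real.exp (2 * ξ / p) := by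
  have hp3 : (3 : ℝ) ≤ p := by exact_mod_cast hp
  have hp0 : (0 : ℝ) < p := by linarith
  have hx : 1 / (p : ℝ) ≤ 1 / 3 := one_div_le_one_div_of_le (by norm_num) hp3
  have hx1 : 0 < 1 - 1 / (p : ℝ) := by linarith
  have hone : Real.exp (-(8 / (p : ℝ) ^ 2)) ≤ 1 := Real.exp_le_one_iff.2 (by
    have : 0 ≤ 8 / (p : ℝ) ^ 2 := by positivity
    linarith)
  have hone2 : 1 ≤ Real.exp (2 * ξ / p) := Real.one_le_exp (by positivity)
  have hc3 : c = 0 ∨ c = 1 ∨ c = 2 := by omega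
  rcases hc3 with rfl | rfl | rfl
  · have hU : U = 0 := h2 (by norm_num)
    subst hU
    unfold FF
    simp only [Nat.cast_zero, zero_div, sub_zero, pow_zero, div_one]
    exact ⟨hone, hone2⟩
  · have hU : U = 1 := h2 (by norm_num)
    subst hU
    unfold FF
    simp only [Nat.cast_one, pow_one]
    rw [div_self hx1.ne']
    exact ⟨hone, hone2⟩
  · have hU1 := h3 rfl
    have hU2 : U = 1 ∨ U = 2 := by omega
    rcases hU2 with rfl | rfl
    · have e : FF 1 2 p = (1 - 1 / (p : ℝ))⁻¹ := by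
        unfold FF
        rw [Nat.cast_one]
        field_simp
      rw [e]
      have h4 : 1 ≤ (1 - 1 / (p : ℝ))⁻¹ := by
        rw [one_le_inv₀ hx1]
        have : 0 < 1 / (p : ℝ) := by positivity
        linarith
      refine ⟨hone.trans h4, ?_⟩
      have h5 := exp_neg_le (x := 1 / (p : ℝ)) (by positivity) (by linarith)
      rw [Real.exp_neg] at h5
      have h6 := inv_anti₀ (inv_pos.2 (Real.exp_pos _)) h5
      rw [inv_inv] at h6
      refine h6.trans (Real.exp_le_exp.2 ?_)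
      push_cast at hξ
      rw [mul_div_assoc, mul_one_div, mul_div_assoc']
      refine div_le_div_of_nonneg_right ?_ hp0.le
      linarith
    · have hp1 : (0 : ℝ) < p - 1 := by linarith
      have e : FF 2 2 p = 1 - 1 / ((p : ℝ) - 1) ^ 2 := by
        unfold FF
        push_cast
        field_simp
        ring
      rw [e]
      have h4 : 1 / ((p : ℝ) - 1) ^ 2 ≤ 4 / (p : ℝ) ^ 2 := by
        rw [div_le_div_iff₀ (by positivity) (by positivity)]
        nlinarith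
      have h5 : 1 / ((p : ℝ) - 1) ^ 2 ≤ 1 / 2 := by
        rw [div_le_div_iff₀ (by positivity) (by norm_num)]
        nlinarith
      have h6 := exp_neg_le (x := 1 / ((p : ℝ) - 1) ^ 2) (by positivity) h5
      constructor
      · refine le_trans (Real.exp_le_exp.2 ?_) h6
        have e2 : 8 / (p : ℝ) ^ 2 = 2 * (4 / (p : ℝ) ^ 2) := by ring
        rw [e2]
        linarith
      · have : 0 < 1 / ((p : ℝ) - 1) ^ 2 := by positivity
        linarith

lemma half_class {p : ℕ} (hp : p.Prime) (hp2 : p ≠ 2) (n : ℤ) :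
    #((range p).filter fun t : ℕ => 2 * (t : ℤ) ≡ n [ZMOD p]) = 1 := by
  obtain ⟨q, hq⟩ := hp.odd_of_ne_two hp2
  have hqz : (p : ℤ) = 2 * q + 1 := by exact_mod_cast hq
  rw [← one_class hp.pos (n * (q + 1))]
  refine congrArg card (filter_congr fun t _ => ?_)
  constructor
  · intro h
    have h2 := h.mul_right ((q : ℤ) + 1)
    refine Int.ModEq.trans ?_ h2
    rw [Int.modEq_iff_dvd]
    refine ⟨t, ?_⟩
    rw [hqz]
    ring
  · intro h
    have h2 := h.mul_left 2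
    refine h2.trans ?_
    rw [Int.modEq_iff_dvd]
    refine ⟨-n, ?_⟩
    rw [hqz]
    ring

lemma xi_sum {p : ℕ} (hp : p.Prime) (hp2 : p ≠ 2) (n : ℤ) : ∑ b ∈ range p, xi n b p = 2 := by
  classical
  unfold xi
  rw [sum_add_distrib, ← sum_filter, ← sum_filter, sum_const, sum_const, one_class hp.pos, half_class hp hp2]
  norm_num

/-- the random tail -/
theorem gold_tail {Ω : Type} [MeasurableSpace Ω] {P : Measure Ω} {X : ℕ → Ω → ℕ} (h : Sys P X) (E : ℕ) {ε : ℝ} (hε : 0 < ε) :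
    ∀ᵐ ω ∂P, ∀ᶠ n : ℕ in atTop, ∑ p ∈ (Ioc (WW n) (n ^ E)).filter Nat.Prime, xi n (X p ω) p / p ≤ ε := by
  have hP := h.prob
  have hbc : ∀ᵐ ω ∂P, ∀ᶠ n : ℕ in atTop, ω ∉ {ω | ε / 2 ≤ ∑ p ∈ (Ioc (WW n) (n ^ E)).filter Nat.Prime,
      (xi n (X p ω) p - 2 / (p : ℝ)) / p} := by
    refine bc (C := 4 * Real.exp 4) ?_
    filter_upwards [eventually_ge_atTop 3, logT.eventually_ge_atTop (4 / ε), WW_tendsto.eventually_ge_atTop 4] with n hn hlog hWN
    have hn3 : (3 : ℝ) ≤ n := by exact_mod_cast hn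
    have hn0 : (0 : ℝ) < n := by linarith
    have hn1 : (1 : ℝ) ≤ n := by linarith
    have hpr : ∀ p ∈ (Ioc (WW n) (n ^ E)).filter Nat.Prime, p.Prime := fun p hp => (mem_filter.1 hp).2
    have hgt : ∀ p ∈ (Ioc (WW n) (n ^ E)).filter Nat.Prime, WW n < p := fun p hp => (mem_Ioc.1 (mem_filter.1 hp).1).1
    have h1 := exp_tail h hpr (φ := fun p b => xi n b p - 2 / (p : ℝ)) (K := 2) (by norm_num) (fun p hp b => by
        have hp0 : (2 : ℝ) ≤ p := by exact_mod_cast (hpr p hp).two_le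
        have h2 : 2 / (p : ℝ) ≤ 1 := by rw [div_le_one (by linarith)]; exact hp0
        have h3 : 0 ≤ 2 / (p : ℝ) := by positivity
        have h4 := xi_nonneg n b p
        have h5 : xi n b p ≤ 2 := by
          unfold xi
          split_ifs <;> norm_num
        rw [abs_le]
        constructor <;> linarith) (fun p hp => by
        have hp0 : (p : ℝ) ≠ 0 := by exact_mod_cast (hpr p hp).ne_zero
        rw [sum_sub_distrib, xi_sum (hpr p hp) (by have := hgt p hp; omega), sum_const, card_range, nsmul_eq_mul]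
        field_simp
        ring) (w := WW n) (by omega) (by
          rw [show (2 : ℝ) ^ 2 = 4 by norm_num]
          exact_mod_cast hWN) hgt (ε / 2)
    refine h1.trans ?_
    have h2 : Real.exp (2 ^ 2 - ε / 2 * Real.sqrt (WW n)) ≤ Real.exp 4 * (n : ℝ) ^ (-2 : ℝ) := by
      have e2 : (n : ℝ) ^ (-2 : ℝ) = Real.exp (-2 * Real.log n) := by
        rw [mul_comm, Real.exp_mul, Real.exp_log hn0]
      rw [e2, ← Real.exp_add]
      refine Real.exp_le_exp.2 ?_
      have h3 := mul_le_mul_of_nonneg_left (sqrt_WW n) (half_pos hε).le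
      have hl0 : 0 ≤ Real.log n := Real.log_nonneg hn1
      rw [div_le_iff₀ hε] at hlog
      nlinarith
    refine h2.trans ?_
    rw [Real.rpow_neg hn0.le, Real.rpow_two, le_div_iff₀ (by positivity)]
    have h5 : ((n : ℝ) + 1) ^ 2 ≤ 4 * (n : ℝ) ^ 2 := by nlinarith
    calc Real.exp 4 * ((n : ℝ) ^ 2)⁻¹ * ((n : ℝ) + 1) ^ 2 ≤ Real.exp 4 * ((n : ℝ) ^ 2)⁻¹ * (4 * (n : ℝ) ^ 2) :=
          mul_le_mul_of_nonneg_left h5 (by positivity)
      _ = 4 * Real.exp 4 := by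
          field_simp
  filter_upwards [hbc] with ω hω
  filter_upwards [hω, WW_tendsto.eventually_ge_atTop (max 1 ⌈4 / ε⌉₊)] with n hn hW
  rw [not_le] at hn
  have hW1 : 1 ≤ WW n := (le_max_left _ _).trans hW
  have hWε : 4 / ε ≤ WW n := (Nat.le_ceil _).trans (by exact_mod_cast (le_max_right _ _).trans hW)
  have h6 := sum_inv_sq hW1 ((Ioc (WW n) (n ^ E)).filter Nat.Prime) fun p hp => (mem_Ioc.1 (mem_filter.1 hp).1).1
  have e : ∑ p ∈ (Ioc (WW n) (n ^ E)).filter Nat.Prime, xi n (X p ω) p / p =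
      ∑ p ∈ (Ioc (WW n) (n ^ E)).filter Nat.Prime, (xi n (X p ω) p - 2 / (p : ℝ)) / p +
      2 * ∑ p ∈ (Ioc (WW n) (n ^ E)).filter Nat.Prime, 1 / (p : ℝ) ^ 2 := by
    rw [mul_sum, ← sum_add_distrib]
    refine sum_congr rfl fun p hp => ?_
    have hp0 : (p : ℝ) ≠ 0 := by exact_mod_cast (mem_filter.1 hp).2.ne_zero
    field_simp
    ring
  rw [e]
  have hW0 : (0 : ℝ) < WW n := by exact_mod_cast hW1
  have h7 : 2 * (1 / (WW n : ℝ)) ≤ ε / 2 := by
    rw [div_le_iff₀ hε] at hWε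
    rw [mul_one_div, div_le_div_iff₀ hW0 (by norm_num)]
    linarith
  linarith

/-- the twin prime constant -/
noncomputable def C2 : ℝ := ⨅ z : ℕ, ∏ p ∈ (Icc 3 z).filter Nat.Prime, (1 - 1 / ((p : ℝ) - 1) ^ 2)

/-- the singular series of Hardy and Littlewood -/
noncomputable def sing (n : ℕ) : ℝ :=
  2 * C2 * ∏ p ∈ n.primeFactors.filter (fun p => 2 < p), ((p : ℝ) - 1) / ((p : ℝ) - 2)

/-- the partial products -/
noncomputable def PP (z : ℕ) : ℝ := ∏ p ∈ (Icc 3 z).filter Nat.Prime, (1 - 1 / ((p : ℝ) - 1) ^ 2)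

lemma fac_01 {p : ℕ} (hp : 3 ≤ p) : 0 < 1 - 1 / ((p : ℝ) - 1) ^ 2 ∧ 1 - 1 / ((p : ℝ) - 1) ^ 2 ≤ 1 := by
  have hp3 : (3 : ℝ) ≤ p := by exact_mod_cast hp
  have hp1 : (0 : ℝ) < p - 1 := by linarith
  have h5 : 1 / ((p : ℝ) - 1) ^ 2 ≤ 1 / 2 := by
    rw [div_le_div_iff₀ (by positivity) (by norm_num)]
    nlinarith
  have : 0 < 1 / ((p : ℝ) - 1) ^ 2 := by positivity
  constructor <;> linarith

lemma PP_anti : Antitone PP := by
  intro a b hab
  unfold PP
  have hsub : (Icc 3 a).filter Nat.Prime ⊆ (Icc 3 b).filter Nat.Prime :=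
    filter_subset_filter _ (Icc_subset_Icc le_rfl hab)
  rw [← prod_sdiff hsub]
  refine mul_le_of_le_one_left (prod_nonneg fun p hp => (fac_01 (mem_Icc.1 (mem_filter.1 hp).1).1).1.le) ?_
  refine prod_le_one (fun p hp => ?_) fun p hp => ?_
  · exact (fac_01 (mem_Icc.1 (mem_filter.1 (Finset.mem_sdiff.1 hp).1).1).1).1.le
  · exact (fac_01 (mem_Icc.1 (mem_filter.1 (Finset.mem_sdiff.1 hp).1).1).1).2

lemma tele (z : ℕ) : ∏ j ∈ Icc 3 (z + 2), (1 - 1 / ((j : ℝ) - 1) ^ 2) = ((z : ℝ) + 2) / (2 * ((z : ℝ) + 1)) := by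
  induction z with
  | zero => simp
  | succ z ih =>
    rw [show z + 1 + 2 = (z + 2) + 1 by ring, prod_Icc_succ_top (by omega), ih]
    push_cast
    have h1 : (z : ℝ) + 1 ≠ 0 := by positivity
    have h2 : (z : ℝ) + 2 ≠ 0 := by positivity
    have e : (z : ℝ) + 2 + 1 - 1 = z + 2 := by ring
    rw [e]
    field_simp
    ring

lemma PP_low (z : ℕ) : 1 / 2 ≤ PP z := by
  have h1 : PP (z + 2) ≤ PP z := PP_anti (by omega)
  refine le_trans ?_ h1
  have h2 : ∏ j ∈ Icc 3 (z + 2), (1 - 1 / ((j : ℝ) - 1) ^ 2) ≤ PP (z + 2) := by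
    unfold PP
    rw [← prod_sdiff (filter_subset Nat.Prime (Icc 3 (z + 2)))]
    refine mul_le_of_le_one_left (prod_nonneg fun p hp => (fac_01 (mem_Icc.1 (mem_filter.1 hp).1).1).1.le) ?_
    refine prod_le_one (fun p hp => ?_) fun p hp => ?_
    · exact (fac_01 (mem_Icc.1 (Finset.mem_sdiff.1 hp).1).1).1.le
    · exact (fac_01 (mem_Icc.1 (Finset.mem_sdiff.1 hp).1).1).2
  refine le_trans ?_ h2
  rw [tele, div_le_div_iff₀ (by norm_num) (by positivity)]
  linarith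

lemma PP_bdd : BddBelow (Set.range PP) := ⟨1 / 2, by rintro _ ⟨z, rfl⟩; exact PP_low z⟩

lemma C2_le (z : ℕ) : C2 ≤ PP z := ciInf_le PP_bdd z

lemma C2_low : 1 / 2 ≤ C2 := le_ciInf PP_low

lemma PP_lim : Tendsto PP atTop (𝓝 C2) := tendsto_atTop_ciInf PP_anti PP_bdd

lemma sing_low (n : ℕ) : 1 ≤ sing n := by
  unfold sing
  have h1 := C2_low
  have h2 : 1 ≤ ∏ p ∈ n.primeFactors.filter (fun p => 2 < p), ((p : ℝ) - 1) / ((p : ℝ) - 2) := by
    calc (1 : ℝ) = ∏ _p ∈ n.primeFactors.filter (fun p => 2 < p), (1 : ℝ) := by rw [prod_const_one]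
      _ ≤ _ := by
          refine prod_le_prod (fun p _ => zero_le_one) fun p hp => ?_
          have hp2 : 2 < p := (mem_filter.1 hp).2
          have hp3 : (3 : ℝ) ≤ p := by exact_mod_cast (by omega : 3 ≤ p)
          rw [le_div_iff₀ (by linarith)]
          linarith
  nlinarith

end Pool.Agent.L5helper86.UL
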