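import Pool.Agent.L5helper86.UL.Gold2

/-! Project UL (helper86): the pair `m`, `n - m`: the density in classical form. -/

set_option autoImplicit false

namespace Pool.Agent.L5helper86.UL

open Finset Polynomial MeasureTheory ProbabilityTheory Filter Topology
open Pool.Agent.L5helper2.BH (pr mem_pr)
open Pool.Agent.L5helper2.RS (Vp Vp_eq Vp_pos Vp_le Vp_mertens bc)

/-- the product of the local factors for the classes `0` -/
noncomputable def SW (n W : ℕ) : ℝ := ∏ p ∈ pr W, FF (if (p : ℤ) ∣ (n : ℤ) then 1 else 2) 2 p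

lemma SW_eq {n W : ℕ} (hn : Even n) (hW : 2 ≤ W) : SW n W =
    2 * PP W * ∏ p ∈ ((Icc 3 W).filter Nat.Prime).filter (fun p => p ∣ n), ((p : ℝ) - 1) / ((p : ℝ) - 2) := by
  have h1 : pr W = insert 2 ((Icc 3 W).filter Nat.Prime) := by
    ext p
    rw [mem_pr, mem_insert, mem_filter, mem_Icc]
    constructor
    · rintro ⟨h2, h3⟩
      have h4 := h3.two_le
      by_cases h5 : p = 2
      · exact Or.inl h5
      · exact Or.inr ⟨⟨by omega, h2⟩, h3⟩
    · rintro (rfl | ⟨⟨_, h2⟩, h3⟩)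
      · exact ⟨hW, Nat.prime_two⟩
      · exact ⟨h2, h3⟩
  have h2 : (2 : ℕ) ∉ (Icc 3 W).filter Nat.Prime := by
    rw [mem_filter, mem_Icc]
    omega
  unfold SW PP
  rw [h1, prod_insert h2]
  have h3 : FF (if ((2 : ℕ) : ℤ) ∣ (n : ℤ) then 1 else 2) 2 2 = 2 := by
    rw [if_pos (by exact_mod_cast hn.two_dvd)]
    unfold FF
    norm_num
  rw [h3, prod_filter (fun p => p ∣ n), mul_assoc, ← prod_mul_distrib]
  congr 1
  refine prod_congr rfl fun p hp => ?_
  rw [mem_filter, mem_Icc] at hp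
  have hp3 : (3 : ℝ) ≤ p := by exact_mod_cast hp.1.1
  have hp1 : (p : ℝ) - 1 ≠ 0 := by linarith
  have hp2 : (p : ℝ) - 2 ≠ 0 := by linarith
  have hp0 : (p : ℝ) ≠ 0 := by linarith
  by_cases hd : p ∣ n
  · rw [if_pos (by exact_mod_cast hd), if_pos hd]
    unfold FF
    push_cast
    field_simp
    ring
  · rw [if_neg (by exact_mod_cast hd), if_neg hd]
    unfold FF
    push_cast
    field_simp
    ring

lemma omega_le {n : ℕ} (hn : 1 ≤ n) : (#n.primeFactors : ℝ) ≤ 2 * Real.log n := by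
  have hn0 : (0 : ℝ) < n := by exact_mod_cast hn
  have h2 : 2 ^ #n.primeFactors ≤ n := by
    calc 2 ^ #n.primeFactors ≤ ∏ p ∈ n.primeFactors, p := by
          refine Finset.pow_card_le_prod _ _ _ fun p hp => ?_
          exact (Nat.prime_of_mem_primeFactors hp).two_le
      _ ≤ n := Nat.le_of_dvd hn (Nat.prod_primeFactors_dvd n)
  have h3 : ((2 : ℝ)) ^ #n.primeFactors ≤ (n : ℝ) := by exact_mod_cast h2
  have h4 := Real.log_le_log (by positivity) h3
  rw [Real.log_pow] at h4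
  have h5 : (1 / 2 : ℝ) ≤ Real.log 2 := by
    have := Real.log_two_gt_d9
    linarith
  have h6 : (#n.primeFactors : ℝ) * (1 / 2) ≤ #n.primeFactors * Real.log 2 :=
    mul_le_mul_of_nonneg_left h5 (by positivity)
  linarith

lemma small_div {ε : ℝ} (hε : 0 < ε) : ∀ᶠ n : ℕ in atTop, 2 * Real.log n / (WW n : ℝ) ≤ ε := by
  filter_upwards [logT.eventually_ge_atTop (max 1 (2 / ε))] with n hn
  have hL1 : 1 ≤ Real.log n := (le_max_left _ _).trans hn
  have hL2 : 2 / ε ≤ Real.log n := (le_max_right _ _).trans hn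
  have hWr : (Real.log n) ^ 4 ≤ (WW n : ℝ) := Nat.le_ceil _
  have hL0 : 0 < Real.log n := by linarith
  calc 2 * Real.log n / (WW n : ℝ) ≤ 2 * Real.log n / (Real.log n) ^ 4 :=
        div_le_div_of_nonneg_left (by positivity) (by positivity) hWr
    _ ≤ ε := by
        rw [div_le_iff₀ (by positivity)]
        rw [div_le_iff₀ hε] at hL2
        have h1 : (Real.log n) ^ 2 ≤ (Real.log n) ^ 4 := pow_le_pow_right₀ hL1 (by norm_num)
        nlinarith

/-- the large prime divisors -/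
lemma large_div {n W : ℕ} (hn : 1 ≤ n) (hW : 1 ≤ W) {B : Finset ℕ} (hB : ∀ p ∈ B, p ∈ n.primeFactors ∧ W < p) :
    ∑ p ∈ B, 1 / (p : ℝ) ≤ 2 * Real.log n / W := by
  have hW0 : (0 : ℝ) < W := by exact_mod_cast hW
  calc ∑ p ∈ B, 1 / (p : ℝ) ≤ ∑ _p ∈ B, 1 / (W : ℝ) := by
        refine sum_le_sum fun p hp => ?_
        exact one_div_le_one_div_of_le hW0 (by exact_mod_cast (hB p hp).2.le)
    _ = #B * (1 / (W : ℝ)) := by rw [sum_const, nsmul_eq_mul]
    _ ≤ (2 * Real.log n) * (1 / (W : ℝ)) := by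
        refine mul_le_mul_of_nonneg_right (le_trans ?_ (omega_le hn)) (by positivity)
        exact_mod_cast card_le_card fun p hp => (hB p hp).1
    _ = _ := by ring

/-- the singular series -/
lemma SW_sing {ε : ℝ} (hε : 0 < ε) : ∀ᶠ n : ℕ in atTop, Even n →
    Real.exp (-ε) * sing n ≤ SW n (WW n) ∧ SW n (WW n) ≤ Real.exp ε * sing n := by
  have hC2 := C2_low
  have hC20 : 0 < C2 := by linarith
  have h1 : ∀ᶠ n : ℕ in atTop, PP (WW n) ≤ Real.exp ε * C2 := by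
    refine (PP_lim.comp WW_tendsto).eventually_le_const ?_
    have : 1 < Real.exp ε := Real.one_lt_exp_iff.2 hε
    nlinarith
  filter_upwards [h1, small_div (half_pos hε), WW_tendsto.eventually_ge_atTop 4, eventually_ge_atTop 1] with n h2 h3 hW hn he
  obtain ⟨W, hWdef⟩ : ∃ W, W = WW n := ⟨_, rfl⟩
  rw [← hWdef] at h2 h3 hW ⊢
  rw [SW_eq he (by omega)]
  obtain ⟨A, hA⟩ : ∃ A, A = ((Icc 3 W).filter Nat.Prime).filter (fun p => p ∣ n) := ⟨_, rfl⟩
  obtain ⟨B, hB⟩ : ∃ B, B = n.primeFactors.filter (fun p => W < p) := ⟨_, rfl⟩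
  rw [← hA]
  have hAB : n.primeFactors.filter (fun p => 2 < p) = A ∪ B := by
    ext p
    rw [hA, hB, Finset.mem_union, mem_filter, mem_filter, mem_filter, mem_filter, mem_Icc, Nat.mem_primeFactors]
    constructor
    · rintro ⟨⟨h4, h5, h6⟩, h7⟩
      by_cases h8 : p ≤ W
      · exact Or.inl ⟨⟨⟨by omega, h8⟩, h4⟩, h5⟩
      · exact Or.inr ⟨⟨h4, h5, h6⟩, by omega⟩
    · rintro (⟨⟨⟨h4, h5⟩, h6⟩, h7⟩ | ⟨⟨h4, h5, h6⟩, h7⟩)
      · exact ⟨⟨h6, h7, by omega⟩, by omega⟩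
      · exact ⟨⟨h4, h5, h6⟩, by omega⟩
  have hdisj : Disjoint A B := by
    rw [disjoint_left]
    intro p h4 h5
    rw [hA, mem_filter, mem_filter, mem_Icc] at h4
    rw [hB, mem_filter] at h5
    omega
  have hApos : 0 < ∏ p ∈ A, ((p : ℝ) - 1) / ((p : ℝ) - 2) := by
    refine prod_pos fun p hp => ?_
    rw [hA, mem_filter, mem_filter, mem_Icc] at hp
    have hp3 : (3 : ℝ) ≤ p := by exact_mod_cast hp.1.1.1
    exact div_pos (by linarith) (by linarith)
  have hB1 : 1 ≤ ∏ p ∈ B, ((p : ℝ) - 1) / ((p : ℝ) - 2) := by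
    calc (1 : ℝ) = ∏ _p ∈ B, (1 : ℝ) := by rw [prod_const_one]
      _ ≤ _ := by
          refine prod_le_prod (fun p _ => zero_le_one) fun p hp => ?_
          rw [hB, mem_filter] at hp
          have hp3 : (3 : ℝ) ≤ p := by exact_mod_cast (by omega : 3 ≤ p)
          rw [le_div_iff₀ (by linarith)]
          linarith
  have hB2 : ∏ p ∈ B, ((p : ℝ) - 1) / ((p : ℝ) - 2) ≤ Real.exp ε := by
    calc ∏ p ∈ B, ((p : ℝ) - 1) / ((p : ℝ) - 2) ≤ ∏ p ∈ B, Real.exp (2 * (1 / (p : ℝ))) := by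
          refine prod_le_prod (fun p hp => ?_) fun p hp => ?_
          · rw [hB, mem_filter] at hp
            have hp3 : (3 : ℝ) ≤ p := by exact_mod_cast (by omega : 3 ≤ p)
            exact div_nonneg (by linarith) (by linarith)
          · rw [hB, mem_filter] at hp
            have hp4 : (4 : ℝ) ≤ p := by exact_mod_cast (by omega : 4 ≤ p)
            have h5 : ((p : ℝ) - 1) / ((p : ℝ) - 2) ≤ 2 * (1 / (p : ℝ)) + 1 := by
              rw [div_le_iff₀ (by linarith), mul_one_div]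
              have h6 : 2 / (p : ℝ) * p = 2 := by
                field_simp
              have h7 : 0 ≤ 2 / (p : ℝ) := by positivity
              have h8 : 2 / (p : ℝ) ≤ 1 / 2 := by
                rw [div_le_div_iff₀ (by linarith) (by norm_num)]
                linarith
              nlinarith
            exact h5.trans (Real.add_one_le_exp _)
      _ = Real.exp (2 * ∑ p ∈ B, 1 / (p : ℝ)) := by rw [← Real.exp_sum, mul_sum]
      _ ≤ Real.exp ε := by
          refine Real.exp_le_exp.2 ?_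
          have h5 := large_div hn (W := W) (by omega) (B := B) fun p hp => by
            rw [hB, mem_filter] at hp
            exact hp
          linarith
  unfold sing
  rw [hAB, prod_union hdisj]
  obtain ⟨a, ha⟩ : ∃ a, a = ∏ p ∈ A, ((p : ℝ) - 1) / ((p : ℝ) - 2) := ⟨_, rfl⟩
  obtain ⟨b, hb⟩ : ∃ b, b = ∏ p ∈ B, ((p : ℝ) - 1) / ((p : ℝ) - 2) := ⟨_, rfl⟩
  rw [← ha] at hApos ⊢
  rw [← hb] at hB1 hB2 ⊢
  have hPC := C2_le W
  constructor
  · have h5 : Real.exp (-ε) * b ≤ 1 := by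
      rw [Real.exp_neg, inv_mul_le_iff₀ (Real.exp_pos _), mul_one]
      exact hB2
    calc Real.exp (-ε) * (2 * C2 * (a * b)) = 2 * C2 * a * (Real.exp (-ε) * b) := by ring
      _ ≤ 2 * C2 * a * 1 := mul_le_mul_of_nonneg_left h5 (by positivity)
      _ ≤ 2 * PP W * a := by
          rw [mul_one]
          exact mul_le_mul_of_nonneg_right (by linarith) hApos.le
  · calc 2 * PP W * a ≤ 2 * (Real.exp ε * C2) * a := mul_le_mul_of_nonneg_right (by linarith) hApos.le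
      _ = Real.exp ε * (2 * C2 * (a * 1)) := by ring
      _ ≤ Real.exp ε * (2 * C2 * (a * b)) := by
          refine mul_le_mul_of_nonneg_left ?_ (Real.exp_pos _).le
          refine mul_le_mul_of_nonneg_left ?_ (by positivity)
          exact mul_le_mul_of_nonneg_left hB1 hApos.le

lemma prod_al {k : ℕ} {M : ℕ} {ℓ : Fin k → ℕ} (hℓ : ∀ i, ℓ i ≤ M) :
    ∏ p ∈ pr M, (1 - 1 / (p : ℝ)) ^ #(al ℓ p) = ∏ i, Vp (ℓ i) := by
  classical
  symm
  have h2 : ∀ i, Vp (ℓ i) = ∏ p ∈ pr M, if p ≤ ℓ i then (1 - 1 / (p : ℝ)) else 1 := by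
    intro i
    rw [Vp_eq, ← prod_filter]
    refine prod_congr ?_ fun _ _ => rfl
    ext p
    rw [mem_filter, mem_Icc, mem_filter, mem_pr]
    have := hℓ i
    constructor
    · rintro ⟨⟨_, h2⟩, h3⟩
      exact ⟨⟨by omega, h3⟩, h2⟩
    · rintro ⟨⟨_, h2⟩, h3⟩
      exact ⟨⟨h2.one_lt.le, h3⟩, h2⟩
  rw [prod_congr rfl fun i _ => h2 i, Finset.prod_comm]
  refine prod_congr rfl fun p _ => ?_
  rw [← prod_filter, prod_const]
  rfl

lemma WW_le_n : ∀ᶠ n : ℕ in atTop, WW n ≤ n := by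
  have h := (isLittleO_log_rpow_atTop (show (0 : ℝ) < 1 / 8 by norm_num)).bound (show (0 : ℝ) < 1 by norm_num)
  have h2 := tendsto_natCast_atTop_atTop.eventually h
  have h3 : ∀ᶠ n : ℕ in atTop, (2 : ℝ) ≤ (n : ℝ) ^ (1 / 2 : ℝ) :=
    ((tendsto_rpow_atTop (by norm_num)).comp tendsto_natCast_atTop_atTop).eventually_ge_atTop 2
  filter_upwards [h2, h3, eventually_ge_atTop 2] with n h4 h5 hn
  have hn1 : (1 : ℝ) ≤ n := by exact_mod_cast (by omega : 1 ≤ n)
  have hn0 : (0 : ℝ) < n := by linarith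
  rw [Real.norm_eq_abs, abs_of_nonneg (Real.log_nonneg hn1), Real.norm_eq_abs, abs_of_nonneg (by positivity), one_mul] at h4
  have h6 : (Real.log n) ^ 4 ≤ (n : ℝ) ^ (1 / 2 : ℝ) := by
    calc (Real.log n) ^ 4 ≤ ((n : ℝ) ^ (1 / 8 : ℝ)) ^ 4 := pow_le_pow_left₀ (Real.log_nonneg hn1) h4 4
      _ = (n : ℝ) ^ (1 / 2 : ℝ) := by
          rw [← Real.rpow_natCast, ← Real.rpow_mul hn0.le]
          norm_num
  unfold WW
  rw [Nat.ceil_le]
  refine h6.trans ?_
  calc (n : ℝ) ^ (1 / 2 : ℝ) ≤ (n : ℝ) ^ (1 : ℝ) := Real.rpow_le_rpow_of_exponent_le hn1 (by norm_num)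
    _ = n := Real.rpow_one _

lemma low_level {w : ℕ → ℝ} (hw1 : ∀ᶠ v : ℕ in atTop, (Real.log v) ^ 5 ≤ w v) : ∀ᶠ n : ℕ in atTop, ∀ v : ℕ,
    n ≤ v ^ 2 → (WW n : ℝ) ≤ w v := by
  obtain ⟨v0, hv0⟩ := eventually_atTop.1 hw1
  filter_upwards [logT.eventually_ge_atTop 64, eventually_ge_atTop ((v0 + 1) ^ 2)] with n h1 h2 v hv
  have hvv : v0 + 1 ≤ v := by
    by_contra hcon
    have h3 : v ≤ v0 := by omega
    have h4 : v ^ 2 ≤ v0 ^ 2 := Nat.pow_le_pow_left h3 2
    nlinarith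
  refine le_trans ?_ (hv0 v (by omega))
  have hn0 : (0 : ℝ) < n := by
    have : 0 < n := lt_of_lt_of_le (by positivity) h2
    exact_mod_cast this
  have hlog : Real.log n ≤ 2 * Real.log v := by
    have h3 : (n : ℝ) ≤ (v : ℝ) ^ 2 := by exact_mod_cast hv
    have h4 := Real.log_le_log hn0 h3
    rwa [Real.log_pow, Nat.cast_ofNat] at h4
  obtain ⟨L, hL⟩ : ∃ L, L = Real.log n := ⟨_, rfl⟩
  rw [← hL] at h1 hlog
  have h5 : (WW n : ℝ) ≤ L ^ 4 + 1 := by
    unfold WW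
    rw [← hL]
    exact (Nat.ceil_lt_add_one (by positivity)).le
  have h6 : (L / 2) ^ 5 ≤ (Real.log v) ^ 5 := pow_le_pow_left₀ (by linarith) (by linarith) 5
  refine h5.trans (le_trans ?_ h6)
  have h7 : (1 : ℝ) ≤ L ^ 4 := one_le_pow₀ (by linarith)
  have e : (L / 2) ^ 5 = L / 32 * L ^ 4 := by ring
  rw [e]
  nlinarith

/-- the density of the pair `m`, `n - m` -/
theorem gold_dens {Ω : Type} [MeasurableSpace Ω] {P : Measure Ω} {X : ℕ → Ω → ℕ} (h : Sys P X) {θ : ℝ} (hθ : 0 < θ)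
    {w : ℕ → ℝ} (hw1 : ∀ᶠ v : ℕ in atTop, (Real.log v) ^ 5 ≤ w v) (hw2 : ∀ᶠ v : ℕ in atTop, w v ≤ (v : ℝ) ^ θ) :
    ∀ᵐ ω ∂P, ∀ ε : ℝ, 0 < ε → ∀ᶠ n : ℕ in atTop, Even n → ∀ m : ℕ, n ≤ m ^ 2 → m ≤ n → n ≤ (n - m) ^ 2 →
      Real.exp (-ε) * (sing n * (VV θ m * VV θ (n - m))) ≤
        densS w (fun v : ℕ => (v : ℝ) ^ θ) (pair Polynomial.X n) (fun _ => 0) (fun p => X p ω) m ∧
      densS w (fun v : ℕ => (v : ℝ) ^ θ) (pair Polynomial.X n) (fun _ => 0) (fun p => X p ω) m ≤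
        Real.exp ε * (sing n * (VV θ m * VV θ (n - m))) := by
  classical
  obtain ⟨E, hE⟩ : ∃ E : ℕ, E = ⌈θ⌉₊ + 1 := ⟨_, rfl⟩
  have hEθ : θ ≤ E := by
    rw [hE]
    push_cast
    have := Nat.le_ceil θ
    linarith
  have hE1 : 1 ≤ E := by omega
  have h1 : ∀ᵐ ω ∂P, ∀ j : ℕ, ∀ᶠ n : ℕ in atTop,
      ∑ p ∈ (Ioc (WW n) (n ^ E)).filter Nat.Prime, xi n (X p ω) p / p ≤ 1 / ((j : ℝ) + 1) := by
    rw [ae_all_iff]
    intro j
    exact gold_tail h E (by positivity)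
  filter_upwards [h1] with ω hω ε hε
  obtain ⟨j, hj⟩ := exists_nat_gt (8 / ε)
  have hj0 : (0 : ℝ) < (j : ℝ) + 1 := by positivity
  have hjε : 1 / ((j : ℝ) + 1) ≤ ε / 8 := by
    rw [div_lt_iff₀ hε] at hj
    rw [div_le_div_iff₀ hj0 (by norm_num)]
    linarith
  obtain ⟨v1, hv1⟩ := eventually_atTop.1 hw2
  filter_upwards [hω j, SW_sing (show 0 < ε / 2 by positivity), small_div (show 0 < ε / 8 by positivity), WW_le_n,
    low_level hw1, WW_tendsto.eventually_ge_atTop (max 4 ⌈16 / ε⌉₊), eventually_ge_atTop ((v1 + 2) ^ 2)] with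
    n h2 h3 h4 h5 h6 h7 h8 he m hm1 hm2 hm3
  obtain ⟨W, hW⟩ : ∃ W, W = WW n := ⟨_, rfl⟩
  rw [← hW] at h2 h3 h4 h5 h6 h7
  obtain ⟨M, hM⟩ : ∃ M, M = n ^ E := ⟨_, rfl⟩
  rw [← hM] at h2
  have hW4 : 4 ≤ W := (le_max_left _ _).trans h7
  have hWε : 16 / ε ≤ W := (Nat.le_ceil _).trans (by exact_mod_cast (le_max_right _ _).trans h7)
  have hn1 : 1 ≤ n := by
    have : 1 ≤ (v1 + 2) ^ 2 := Nat.one_le_pow _ _ (by omega)
    omega
  have hn1r : (1 : ℝ) ≤ n := by exact_mod_cast hn1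
  have hWM : W ≤ M := by
    rw [hM]
    exact h5.trans (Nat.le_self_pow (by omega) n)
  obtain ⟨g, hg⟩ : ∃ g, g = pair Polynomial.X (n : ℤ) := ⟨_, rfl⟩
  obtain ⟨z, hz⟩ : ∃ z : ℕ → ℝ, z = fun v : ℕ => (v : ℝ) ^ θ := ⟨_, rfl⟩
  rw [← hg, ← hz]
  have hv0 : ((g 0).eval (m : ℤ)).natAbs = m := by
    rw [hg, pair_zero]
    simp
  have hv1' : ((g 1).eval (m : ℤ)).natAbs = n - m := by
    rw [hg, pair_one, eval_X]
    omega
  have hbig : ∀ v : ℕ, n ≤ v ^ 2 → v1 ≤ v := by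
    intro v hv
    by_contra hcon
    have h9 : v ≤ v1 := by omega
    have h10 : v ^ 2 ≤ v1 ^ 2 := Nat.pow_le_pow_left h9 2
    nlinarith
  have hzM : ∀ v : ℕ, v ≤ n → z v ≤ M := by
    intro v hv
    rw [hz, hM]
    push_cast
    calc (v : ℝ) ^ θ ≤ (n : ℝ) ^ θ := Real.rpow_le_rpow (by positivity) (by exact_mod_cast hv) hθ.le
      _ ≤ (n : ℝ) ^ (E : ℝ) := Real.rpow_le_rpow_of_exponent_le hn1r hEθ
      _ = (n : ℝ) ^ E := Real.rpow_natCast _ _
  have hvi : ∀ i : Fin 2, n ≤ (((g i).eval (m : ℤ)).natAbs) ^ 2 ∧ ((g i).eval (m : ℤ)).natAbs ≤ n := by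
    intro i
    fin_cases i
    · show n ≤ (((g 0).eval (m : ℤ)).natAbs) ^ 2 ∧ ((g 0).eval (m : ℤ)).natAbs ≤ n
      rw [hv0]
      exact ⟨hm1, hm2⟩
    · show n ≤ (((g 1).eval (m : ℤ)).natAbs) ^ 2 ∧ ((g 1).eval (m : ℤ)).natAbs ≤ n
      rw [hv1']
      exact ⟨hm3, Nat.sub_le _ _⟩
  have hwz : ∀ i : Fin 2, w ((g i).eval (m : ℤ)).natAbs ≤ z ((g i).eval (m : ℤ)).natAbs := by
    intro i
    rw [hz]
    exact hv1 _ (hbig _ (hvi i).1)
  have hzM' : ∀ i : Fin 2, z ((g i).eval (m : ℤ)).natAbs ≤ M := fun i => hzM _ (hvi i).2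
  obtain ⟨lb, hlb⟩ : ∃ lb, lb = fun p => (PT w z g).lab p (m : ℤ) := ⟨_, rfl⟩
  have hlb1 : ∀ p, (lb p).1 = univ.filter (fun i => (p : ℝ) ≤ z ((g i).eval (m : ℤ)).natAbs) := fun p => by rw [hlb]; rfl
  have hlb2 : ∀ p, (lb p).2 = univ.filter (fun i => (p : ℝ) ≤ w ((g i).eval (m : ℤ)).natAbs) := fun p => by rw [hlb]; rfl
  have hsub : ∀ p, (lb p).2 ⊆ (lb p).1 := by
    intro p i hi
    rw [hlb2, mem_filter] at hi
    rw [hlb1, mem_filter]
    exact ⟨hi.1, hi.2.trans (hwz i)⟩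
  have hUSg : ∀ p, p.Prime → US g (fun _ => 0) (fun p => X p ω) (lb p) p ≤ #(lb p).1 ∧
    (#(lb p).1 : ℝ) - (US g (fun _ => 0) (fun p => X p ω) (lb p) p : ℝ) ≤ (if (p : ℤ) ∣ (n : ℤ) then 1 else 0) + xi n (X p ω) p ∧
    (#(lb p).1 < 2 → US g (fun _ => 0) (fun p => X p ω) (lb p) p = #(lb p).1) ∧
    (#(lb p).1 = 2 → 1 ≤ US g (fun _ => 0) (fun p => X p ω) (lb p) p) ∧
    ((lb p).2 = univ → US g (fun _ => 0) (fun p => X p ω) (lb p) p = if (p : ℤ) ∣ (n : ℤ) then 1 else 2) := by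
    intro p hp
    rw [hg]
    exact US_gold (a := fun p => X p ω) (hsub p) hp
  have hdens : densS w z g (fun _ => 0) (fun p => X p ω) (m : ℤ) =
      (∏ p ∈ pr M, FF (US g (fun _ => 0) (fun p => X p ω) (lb p) p) (#(lb p).1) p) * (VV θ m * VV θ (n - m)) := by
    rw [densS_eq hzM' fun i => (hwz i).trans (hzM' i)]
    have h9 : VV θ m * VV θ (n - m) = ∏ p ∈ pr M, (1 - 1 / (p : ℝ)) ^ #(lb p).1 := by
      have h10 := prod_al (k := 2) (M := M) (ℓ := lev z g m) (fun i => by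
        unfold lev
        exact Nat.floor_le_of_le (hzM' i))
      rw [Fin.prod_univ_two] at h10
      have h11 : Vp (lev z g m 0) = VV θ m := by
        unfold lev VV
        rw [hv0, hz]
      have h12 : Vp (lev z g m 1) = VV θ (n - m) := by
        unfold lev VV
        rw [hv1', hz]
      rw [h11, h12] at h10
      rw [← h10]
      refine prod_congr rfl fun p hp => ?_
      congr 2
      rw [hlb1]
      unfold al lev
      refine filter_congr fun i _ => ?_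
      rw [Nat.le_floor_iff' (mem_pr.1 hp).2.ne_zero]
    rw [h9, ← prod_mul_distrib]
    refine prod_congr rfl fun p hp => ?_
    have hp2 : (2 : ℝ) ≤ p := by exact_mod_cast (mem_pr.1 hp).2.two_le
    have h2 : 1 / (p : ℝ) ≤ 1 / 2 := one_div_le_one_div_of_le (by norm_num) hp2
    have h3 : (1 - 1 / (p : ℝ)) ^ #(lb p).1 ≠ 0 := pow_ne_zero _ (by linarith)
    unfold FF
    rw [div_mul_cancel₀ _ h3, hlb]
  have hsmall : ∏ p ∈ pr W, FF (US g (fun _ => 0) (fun p => X p ω) (lb p) p) (#(lb p).1) p = SW n W := by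
    unfold SW
    refine prod_congr rfl fun p hp => ?_
    have hu : (lb p).2 = univ := by
      rw [hlb2]
      refine filter_true_of_mem fun i _ => ?_
      refine le_trans ?_ (h6 _ (hvi i).1)
      exact_mod_cast (mem_pr.1 hp).1
    have hu1 : (lb p).1 = univ := by
      rw [← univ_subset_iff, ← hu]
      exact hsub p
    rw [(hUSg p (mem_pr.1 hp).2).2.2.2.2 hu, hu1, card_univ, Fintype.card_fin]
  have hlarge : ∀ p ∈ (Ioc W M).filter Nat.Prime,
      Real.exp (-(8 / (p : ℝ) ^ 2)) ≤ FF (US g (fun _ => 0) (fun p => X p ω) (lb p) p) (#(lb p).1) p ∧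
      FF (US g (fun _ => 0) (fun p => X p ω) (lb p) p) (#(lb p).1) p ≤
        Real.exp (2 * ((if (p : ℤ) ∣ (n : ℤ) then 1 else 0) + xi n (X p ω) p) / p) := by
    intro p hp
    rw [mem_filter, mem_Ioc] at hp
    obtain ⟨b1, b2, b3, b4, _⟩ := hUSg p hp.2
    refine FF_bounds (by omega) ?_ b1 b3 b4 b2 ?_
    · exact (card_le_univ _).trans (by rw [Fintype.card_fin])
    · have := xi_nonneg n (X p ω) p
      split_ifs <;> linarith
  obtain ⟨F, hF⟩ : ∃ F : ℕ → ℝ, F = fun p => FF (US g (fun _ => 0) (fun p => X p ω) (lb p) p) (#(lb p).1) p := ⟨_, rfl⟩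
  have hlow : Real.exp (-(ε / 2)) ≤ ∏ p ∈ (Ioc W M).filter Nat.Prime, F p := by
    calc Real.exp (-(ε / 2)) ≤ Real.exp (-(8 * ∑ p ∈ (Ioc W M).filter Nat.Prime, 1 / (p : ℝ) ^ 2)) := by
          refine Real.exp_le_exp.2 ?_
          have h9 := sum_inv_sq (w := W) (by omega) ((Ioc W M).filter Nat.Prime) fun p hp => (mem_Ioc.1 (mem_filter.1 hp).1).1
          have hW0 : (0 : ℝ) < W := by exact_mod_cast (by omega : 0 < W)
          have h10 : 8 * (1 / (W : ℝ)) ≤ ε / 2 := by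
            rw [div_le_iff₀ hε] at hWε
            rw [mul_one_div, div_le_div_iff₀ hW0 (by norm_num)]
            linarith
          linarith
      _ = ∏ p ∈ (Ioc W M).filter Nat.Prime, Real.exp (-(8 / (p : ℝ) ^ 2)) := by
          rw [← Real.exp_sum, sum_neg_distrib, mul_sum]
          congr 2
          exact sum_congr rfl fun p _ => by ring
      _ ≤ ∏ p ∈ (Ioc W M).filter Nat.Prime, F p := by
          refine prod_le_prod (fun p _ => (Real.exp_pos _).le) fun p hp => ?_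
          rw [hF]
          exact (hlarge p hp).1
  have hup : ∏ p ∈ (Ioc W M).filter Nat.Prime, F p ≤ Real.exp (ε / 2) := by
    calc ∏ p ∈ (Ioc W M).filter Nat.Prime, F p ≤ ∏ p ∈ (Ioc W M).filter Nat.Prime,
          Real.exp (2 * ((if (p : ℤ) ∣ (n : ℤ) then 1 else 0) + xi n (X p ω) p) / p) := by
          refine prod_le_prod (fun p hp => ?_) fun p hp => ?_
          · rw [hF]
            exact (Real.exp_pos _).le.trans (hlarge p hp).1
          · rw [hF]
            exact (hlarge p hp).2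
      _ = Real.exp (2 * ∑ p ∈ ((Ioc W M).filter Nat.Prime).filter (fun p : ℕ => (p : ℤ) ∣ (n : ℤ)), 1 / (p : ℝ) +
            2 * ∑ p ∈ (Ioc W M).filter Nat.Prime, xi n (X p ω) p / p) := by
          rw [← Real.exp_sum]
          congr 1
          rw [mul_sum, mul_sum, sum_filter (fun p : ℕ => (p : ℤ) ∣ (n : ℤ)), ← sum_add_distrib]
          refine sum_congr rfl fun p _ => ?_
          split_ifs <;> ring
      _ ≤ Real.exp (ε / 2) := by
          refine Real.exp_le_exp.2 ?_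
          have h9 := large_div hn1 (W := W) (by omega) (B := ((Ioc W M).filter Nat.Prime).filter (fun p : ℕ => (p : ℤ) ∣ (n : ℤ)))
            fun p hp => by
              rw [mem_filter, mem_filter, mem_Ioc] at hp
              refine ⟨?_, hp.1.1.1⟩
              rw [Nat.mem_primeFactors]
              exact ⟨hp.1.2, by exact_mod_cast hp.2, by omega⟩
          linarith
  rw [hdens, pr_split hWM, hsmall]
  have hS := h3 he
  have hV0 : 0 < VV θ m * VV θ (n - m) := mul_pos (VV_pos _ _) (VV_pos _ _)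
  have hs0 : 0 < sing n := lt_of_lt_of_le one_pos (sing_low n)
  rw [hF] at hlow hup
  simp only at hlow hup
  obtain ⟨G, hG⟩ : ∃ G, G = ∏ p ∈ (Ioc W M).filter Nat.Prime, FF (US g (fun _ => 0) (fun p => X p ω) (lb p) p) (#(lb p).1) p :=
    ⟨_, rfl⟩
  rw [← hG] at hlow hup ⊢
  have hexp1 : Real.exp (-ε) = Real.exp (-(ε / 2)) * Real.exp (-(ε / 2)) := by
    rw [← Real.exp_add]
    congr 1
    ring
  have hexp2 : Real.exp ε = Real.exp (ε / 2) * Real.exp (ε / 2) := by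
    rw [← Real.exp_add]
    congr 1
    ring
  constructor
  · have h9 : Real.exp (-(ε / 2)) * sing n * Real.exp (-(ε / 2)) ≤ SW n W * G :=
      mul_le_mul hS.1 hlow (Real.exp_pos _).le ((mul_pos (Real.exp_pos _) hs0).le.trans hS.1)
    calc Real.exp (-ε) * (sing n * (VV θ m * VV θ (n - m))) =
          (Real.exp (-(ε / 2)) * sing n * Real.exp (-(ε / 2))) * (VV θ m * VV θ (n - m)) := by
          rw [hexp1]
          ring
      _ ≤ (SW n W * G) * (VV θ m * VV θ (n - m)) := mul_le_mul_of_nonneg_right h9 hV0.le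
  · have h9 : SW n W * G ≤ Real.exp (ε / 2) * sing n * Real.exp (ε / 2) :=
      mul_le_mul hS.2 hup ((Real.exp_pos _).le.trans hlow) (by positivity)
    calc (SW n W * G) * (VV θ m * VV θ (n - m)) ≤
          (Real.exp (ε / 2) * sing n * Real.exp (ε / 2)) * (VV θ m * VV θ (n - m)) :=
          mul_le_mul_of_nonneg_right h9 hV0.le
      _ = Real.exp ε * (sing n * (VV θ m * VV θ (n - m))) := by
          rw [hexp2]
          ring

end Pool.Agent.L5helper86.UL
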