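import Pool.Agent.L5helper86.UL.AS

/-! Project UL (helper86): the universal law in final form. -/

set_option autoImplicit false

namespace Pool.Agent.L5helper86.UL

open Finset Polynomial MeasureTheory ProbabilityTheory Filter Topology
open Pool.Agent.L5helper2.BH (pr mem_pr)

/-- the integer `n` is not congruent to `b p` modulo `p` for all primes `p ≤ z |n|` -/
def Sifted (z : ℕ → ℝ) (b : ℕ → ℕ) (n : ℤ) : Prop :=
  ∀ p : ℕ, p.Prime → (p : ℝ) ≤ z n.natAbs → ¬ n ≡ (b p : ℤ) [ZMOD p]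

variable {k : ℕ}

open Classical in
/-- the number of the residues `r` modulo `p` with `g i (r) ≡ b` modulo `p` for some `i` with `p ≤ z |g i (m)|` -/
noncomputable def rho (z : ℕ → ℝ) (g : Fin k → ℤ[X]) (m : ℤ) (b p : ℕ) : ℕ :=
  #((range p).filter fun r : ℕ => ∃ i, (p : ℝ) ≤ z ((g i).eval m).natAbs ∧ (g i).eval (r : ℤ) ≡ (b : ℤ) [ZMOD p])

/-- the local density at `m` -/
noncomputable def dens (z : ℕ → ℝ) (g : Fin k → ℤ[X]) (b : ℕ → ℕ) (m : ℤ) : ℝ :=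
  ∏ᶠ p : Nat.Primes, (1 - (rho z g m (b p) p : ℝ) / p)

lemma nu_rho (z : ℕ → ℝ) (g : Fin k → ℤ[X]) (m : ℤ) (b p : ℕ) :
    nu (PS z g) p ((PS z g).lab p m) b = rho z g m b p := by
  classical
  unfold nu rho
  congr 1
  refine filter_congr fun r _ => ?_
  show (∃ i ∈ univ.filter (fun i => (p : ℝ) ≤ z ((g i).eval m).natAbs), (g i).eval (r : ℤ) ≡ (b : ℤ) [ZMOD p]) ↔ _
  simp only [mem_filter, mem_univ, true_and]

lemma dens_eq {z : ℕ → ℝ} {g : Fin k → ℤ[X]} {b : ℕ → ℕ} {m : ℤ} {M : ℕ}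
    (hM : ∀ i, z ((g i).eval m).natAbs ≤ M) : dens z g b m = h2 (PS z g) (pr M) b m := by
  classical
  unfold dens h2
  have hr : ∀ p : ℕ, M < p → rho z g m (b p) p = 0 := by
    intro p hp
    unfold rho
    rw [card_eq_zero, filter_eq_empty_iff]
    rintro r _ ⟨i, hi, _⟩
    have h3 : (M : ℝ) < p := by exact_mod_cast hp
    linarith [hM i]
  change (∏ᶠ p : {p : ℕ // p.Prime}, (1 - (rho z g m (b p) p : ℝ) / p)) = _
  rw [finprod_eq_prod_of_mulSupport_subset (s := (pr M).subtype Nat.Prime)]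
  · rw [← prod_subtype_of_mem (fun p => 1 - (nu (PS z g) p ((PS z g).lab p m) (b p) : ℝ) / p)
      (fun p hp => (mem_pr.1 hp).2)]
    refine prod_congr rfl fun p _ => ?_
    rw [nu_rho]
  · intro p hp
    rw [Function.mem_mulSupport] at hp
    rw [mem_coe, mem_subtype, mem_pr]
    refine ⟨?_, p.2⟩
    by_contra hcon
    apply hp
    rw [hr p (not_le.1 hcon)]
    simp

open Classical in
lemma h1_eq {z : ℕ → ℝ} {g : Fin k → ℤ[X]} {b : ℕ → ℕ} {m : ℤ} {M : ℕ}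
    (hM : ∀ i, z ((g i).eval m).natAbs ≤ M) :
    h1 (PS z g) (pr M) b m = if ∀ i, Sifted z b ((g i).eval m) then 1 else 0 := by
  have hk : ∀ p : ℕ, (PS z g).κ p ((PS z g).lab p m) (b p) m ↔
      ∃ i, (p : ℝ) ≤ z ((g i).eval m).natAbs ∧ (g i).eval m ≡ (b p : ℤ) [ZMOD p] := by
    intro p
    show (∃ i ∈ univ.filter (fun i => (p : ℝ) ≤ z ((g i).eval m).natAbs), (g i).eval m ≡ (b p : ℤ) [ZMOD p]) ↔ _
    simp only [mem_filter, mem_univ, true_and]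
  unfold h1
  split_ifs with h
  · refine prod_eq_one fun p hp => ?_
    rw [if_neg]
    rw [hk]
    rintro ⟨i, h3, h4⟩
    exact h i p (mem_pr.1 hp).2 h3 h4
  · unfold Sifted at h
    push Not at h
    obtain ⟨i, p, hp, h3, h4⟩ := h
    refine prod_eq_zero (i := p) ?_ ?_
    · rw [mem_pr]
      exact ⟨by exact_mod_cast h3.trans (hM i), hp⟩
    · rw [if_pos]
      rw [hk]
      exact ⟨i, h3, h4⟩

open Classical in
lemma DD_law {z : ℕ → ℝ} {g : Fin k → ℤ[X]} {b : ℕ → ℕ} {S : Finset ℤ} {M : ℕ}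
    (hM : ∀ m ∈ S, ∀ i, z ((g i).eval m).natAbs ≤ M) :
    DD (PS z g) (pr M) b 1 0 S = (#(S.filter fun m => ∀ i, Sifted z b ((g i).eval m)) : ℝ) - ∑ m ∈ S, dens z g b m := by
  unfold DD
  have e1 : S.filter (fun m => m ≡ 0 [ZMOD ((1 : ℕ) : ℤ)]) = S := by
    refine filter_true_of_mem fun m _ => ?_
    push_cast
    exact Int.modEq_one
  rw [e1]
  have e2 : ∑ m ∈ S, h1 (PS z g) (pr M) b m = (#(S.filter fun m => ∀ i, Sifted z b ((g i).eval m)) : ℝ) := by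
    rw [sum_congr rfl fun m hm => h1_eq (hM m hm), ← sum_filter, sum_const, nsmul_eq_mul, mul_one]
  rw [e2, sum_congr rfl fun m hm => (dens_eq (b := b) (hM m hm)).symm]
  simp

/-- the levels are at most a power -/
lemma level_bound {z : ℕ → ℝ} {A : ℕ} (hA : ∀ n : ℕ, z n ≤ ((n : ℝ) + 2) ^ A) (D B : ℕ) :
    ∃ E : ℕ, ∀ᶠ N : ℕ in atTop, ∀ u : ℤ, |u| ≤ (N : ℤ) ^ B → ∀ f : ℤ[X], f.natDegree ≤ D →
      (∀ j, |f.coeff j| ≤ (N : ℤ) ^ B) → ∀ m ∈ Ioc u (u + N), (f.eval m).natAbs ≤ N ^ E ∧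
        z (f.eval m).natAbs ≤ ((N ^ E : ℕ) : ℝ) := by
  obtain ⟨F, hF⟩ : ∃ F : ℕ, F = 1 + B + (B + 2) * D := ⟨_, rfl⟩
  refine ⟨(F + 1) * A + F, ?_⟩
  filter_upwards [eventually_ge_atTop (D + 3)] with N hN u hu f hD hf m hm
  have hN3 : (3 : ℤ) ≤ N := by exact_mod_cast (by omega : 3 ≤ N)
  have hN1 : (1 : ℤ) ≤ N := by linarith
  have hND : ((D : ℤ) + 1) ≤ N := by exact_mod_cast (by omega : D + 1 ≤ N)
  have hm2 : |m| ≤ (N : ℤ) ^ (B + 2) := by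
    rw [mem_Ioc] at hm
    rw [abs_le] at hu
    have h1 : (1 : ℤ) ≤ (N : ℤ) ^ B := one_le_pow₀ hN1
    have h2 : (N : ℤ) ^ B + N ≤ (N : ℤ) ^ (B + 2) := by
      calc (N : ℤ) ^ B + N ≤ (N : ℤ) ^ B * N + (N : ℤ) ^ B * N := by nlinarith
        _ = 2 * ((N : ℤ) ^ B * N) := by ring
        _ ≤ N * ((N : ℤ) ^ B * N) := mul_le_mul_of_nonneg_right (by linarith) (by positivity)
        _ = _ := by ring
    rw [abs_le]
    constructor <;> linarith [hm.1, hm.2]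
  have hev : |f.eval m| ≤ (N : ℤ) ^ F := by
    rw [eval_eq_sum_range' (Nat.lt_succ_of_le hD)]
    calc |∑ i ∈ range (D + 1), f.coeff i * m ^ i| ≤ ∑ i ∈ range (D + 1), |f.coeff i * m ^ i| := abs_sum_le_sum_abs _ _
      _ ≤ ∑ _i ∈ range (D + 1), (N : ℤ) ^ B * (N : ℤ) ^ ((B + 2) * D) := by
          refine sum_le_sum fun i hi => ?_
          rw [mem_range] at hi
          rw [abs_mul, abs_pow]
          refine mul_le_mul (hf i) ?_ (by positivity) (by positivity)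
          calc |m| ^ i ≤ ((N : ℤ) ^ (B + 2)) ^ i := pow_le_pow_left₀ (abs_nonneg _) hm2 i
            _ ≤ ((N : ℤ) ^ (B + 2)) ^ D := pow_le_pow_right₀ (one_le_pow₀ hN1) (by omega)
            _ = _ := by rw [← pow_mul]
      _ = ((D : ℤ) + 1) * ((N : ℤ) ^ B * (N : ℤ) ^ ((B + 2) * D)) := by
          rw [sum_const, card_range, nsmul_eq_mul]
          push_cast
          ring
      _ ≤ N * ((N : ℤ) ^ B * (N : ℤ) ^ ((B + 2) * D)) := mul_le_mul_of_nonneg_right hND (by positivity)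
      _ = (N : ℤ) ^ F := by
          rw [hF]
          ring
  have hev2 : (f.eval m).natAbs ≤ N ^ F := by
    have : (((f.eval m).natAbs : ℕ) : ℤ) ≤ ((N ^ F : ℕ) : ℤ) := by
      rw [Int.natCast_natAbs]
      push_cast
      exact hev
    exact_mod_cast this
  have hNN : 1 ≤ N := by omega
  constructor
  · exact hev2.trans (Nat.pow_le_pow_right hNN (by omega))
  · refine (hA _).trans ?_
    have h4 : (((f.eval m).natAbs : ℕ) : ℝ) ≤ (N : ℝ) ^ F := by exact_mod_cast hev2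
    have hNr : (3 : ℝ) ≤ N := by exact_mod_cast (by omega : 3 ≤ N)
    have h5 : (((f.eval m).natAbs : ℕ) : ℝ) + 2 ≤ (N : ℝ) ^ (F + 1) := by
      have h6 : (1 : ℝ) ≤ (N : ℝ) ^ F := one_le_pow₀ (by linarith)
      rw [pow_succ]
      nlinarith
    push_cast
    calc ((((f.eval m).natAbs : ℕ) : ℝ) + 2) ^ A ≤ ((N : ℝ) ^ (F + 1)) ^ A := pow_le_pow_left₀ (by positivity) h5 A
      _ = (N : ℝ) ^ ((F + 1) * A) := by rw [← pow_mul]
      _ ≤ (N : ℝ) ^ ((F + 1) * A + F) := pow_le_pow_right₀ (by linarith) (by omega)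

open Classical in
/-- the universal law -/
theorem universal {Ω : Type} [MeasurableSpace Ω] {P : Measure Ω} {X : ℕ → Ω → ℕ} (h : Sys P X)
    {z : ℕ → ℝ} (hz : Monotone z) {A : ℕ} (hA : ∀ n : ℕ, z n ≤ ((n : ℝ) + 2) ^ A) :
    ∀ᵐ ω ∂P, ∀ k D B : ℕ, ∀ ε : ℝ, 0 < ε → ∀ᶠ N : ℕ in atTop, ∀ u : ℤ, |u| ≤ (N : ℤ) ^ B →
      ∀ g : Fin k → ℤ[X], (∀ i, (g i).natDegree ≤ D) → (∀ i j, |(g i).coeff j| ≤ (N : ℤ) ^ B) →
      |(#((Ioc u (u + N)).filter fun m => ∀ i, Sifted z (fun p => X p ω) ((g i).eval m)) : ℝ) -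
        ∑ m ∈ Ioc u (u + N), dens z g (fun p => X p ω) m| ≤ (N : ℝ) ^ (1 / 2 + ε) := by
  rw [ae_all_iff]
  intro k
  rw [ae_all_iff]
  intro D
  rw [ae_all_iff]
  intro B
  obtain ⟨E, hE⟩ := level_bound hA D B
  have h1 : ∀ᵐ ω ∂P, ∀ j : ℕ, ∀ᶠ N : ℕ in atTop, ∀ u : ℤ, |u| ≤ (N : ℤ) ^ B → ∀ g : Fin k → ℤ[X],
      (∀ i, (g i).natDegree ≤ D) → (∀ i j, |(g i).coeff j| ≤ (N : ℤ) ^ B) →
      |DD (PS z g) (pr (N ^ E)) (fun q => X q ω) 1 0 (Ioc u (u + N))| ≤ (N : ℝ) ^ (1 / 2 + 1 / ((j : ℝ) + 1)) := by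
    rw [ae_all_iff]
    intro j
    exact all_configs h hz k D B E (by positivity)
  filter_upwards [h1] with ω hω ε hε
  obtain ⟨j, hj⟩ := exists_nat_gt (1 / ε)
  have hj0 : (0 : ℝ) < (j : ℝ) + 1 := by positivity
  have hjε : 1 / ((j : ℝ) + 1) ≤ ε := by
    rw [div_lt_iff₀ hε] at hj
    rw [div_le_iff₀ hj0]
    linarith
  filter_upwards [hω j, hE, eventually_ge_atTop 1] with N h2 h3 hN1 u hu g hD hg
  have h4 := h2 u hu g hD hg
  rw [DD_law (fun m hm i => (h3 u hu (g i) (hD i) (hg i) m hm).2)] at h4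
  refine h4.trans (Real.rpow_le_rpow_of_exponent_le (by exact_mod_cast hN1) (by linarith))

end Pool.Agent.L5helper86.UL
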