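import Pool.Agent.L5helper86.UL.Cell2
import Pool.Agent.L5helper86.UL.Law
import Pool.Agent.L5helper2.RS.E4

/-! Project UL (helper86): the law in the semi-random model. -/

set_option autoImplicit false

namespace Pool.Agent.L5helper86.UL

open Finset Polynomial MeasureTheory ProbabilityTheory Filter Topology
open Pool.Agent.L5helper2.BH (pr mem_pr)
open Pool.Agent.L5helper2.RS (Vp Vp_eq Vp_pos Vp_le Vp_mertens Vp_inv Vp_anti)

variable {k : ℕ}

lemma logT' : Tendsto (fun n : ℕ => Real.log n) atTop atTop := Real.tendsto_log_atTop.comp tendsto_natCast_atTop_atTop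

lemma loglogT : Tendsto (fun n : ℕ => Real.log (Real.log n)) atTop atTop := Real.tendsto_log_atTop.comp logT'

lemma loglog_small {c : ℝ} (hc : 0 < c) : ∀ᶠ n : ℕ in atTop, Real.log (Real.log n) ≤ c * Real.log n := by
  have h1 : Tendsto (fun n : ℕ => Real.log (Real.log n) / Real.log n) atTop (𝓝 0) :=
    (Real.isLittleO_log_id_atTop.tendsto_div_nhds_zero).comp logT'
  filter_upwards [h1.eventually_le_const hc, logT'.eventually_gt_atTop 0] with n h2 h3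
  rwa [div_le_iff₀ h3] at h2

/-- small powers of the lower level -/
lemma W_small {w : ℕ → ℝ} (hw : ∀ ε : ℝ, 0 < ε → ∀ᶠ n : ℕ in atTop, w n ≤ Real.exp (ε * Real.log n / Real.log (Real.log n)))
    {E : ℕ} (hE : 1 ≤ E) {C ε : ℝ} (hC : 0 < C) (hε : 0 < ε) : ∀ᶠ N : ℕ in atTop, ∀ j : ℕ,
    (j : ℝ) ≤ C * Real.log (Real.log N) → ((⌈w (N ^ E)⌉₊ + 2 : ℕ) : ℝ) ^ j ≤ (N : ℝ) ^ ε := by
  have hE0 : (0 : ℝ) < E := by exact_mod_cast hE
  have hE1 : (1 : ℝ) ≤ E := by exact_mod_cast hE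
  have hpowT : Tendsto (fun N : ℕ => N ^ E) atTop atTop := tendsto_pow_atTop (by omega)
  have h1 := hpowT.eventually (hw (ε / (2 * C * E)) (by positivity))
  filter_upwards [h1, loglog_small (c := ε / (2 * C * Real.log 4)) (by
    have : 0 < Real.log 4 := Real.log_pos (by norm_num)
    positivity), loglogT.eventually_ge_atTop 1, logT'.eventually_ge_atTop 1, eventually_ge_atTop 2] with N h2 h3 h4 h5 hN j hj
  have hN0 : (0 : ℝ) < N := by exact_mod_cast (by omega : 0 < N)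
  have hl4 : 0 < Real.log 4 := Real.log_pos (by norm_num)
  obtain ⟨L, hL⟩ : ∃ L, L = Real.log N := ⟨_, rfl⟩
  obtain ⟨LL, hLL⟩ : ∃ LL, LL = Real.log L := ⟨_, rfl⟩
  rw [← hL, ← hLL] at hj h3 h4
  rw [← hL] at h5
  push_cast at h2
  rw [Real.log_pow, ← hL] at h2
  have hL0 : 0 < L := by linarith
  have hLL2 : LL ≤ Real.log (E * L) := by
    rw [hLL]
    exact Real.log_le_log hL0 (by nlinarith)
  obtain ⟨x, hx⟩ : ∃ x, x = ε / (2 * C) * L / LL := ⟨_, rfl⟩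
  have hx0 : 0 ≤ x := by rw [hx]; positivity
  have h6 : w (N ^ E) ≤ Real.exp x := by
    refine h2.trans (Real.exp_le_exp.2 ?_)
    rw [hx]
    have e : ε / (2 * C * E) * (E * L) = ε / (2 * C) * L := by
      field_simp
    rw [e]
    exact div_le_div_of_nonneg_left (by positivity) (by linarith) hLL2
  have hex1 : 1 ≤ Real.exp x := Real.one_le_exp hx0
  have h7 : ((⌈w (N ^ E)⌉₊ + 2 : ℕ) : ℝ) ≤ 4 * Real.exp x := by
    push_cast
    have h8 : ((⌈w (N ^ E)⌉₊ : ℕ) : ℝ) ≤ Real.exp x + 1 := by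
      have h9 : ⌈w (N ^ E)⌉₊ ≤ ⌈Real.exp x⌉₊ := Nat.ceil_le_ceil h6
      have h10 : ((⌈Real.exp x⌉₊ : ℕ) : ℝ) < Real.exp x + 1 := Nat.ceil_lt_add_one (Real.exp_pos x).le
      have h11 : ((⌈w (N ^ E)⌉₊ : ℕ) : ℝ) ≤ ((⌈Real.exp x⌉₊ : ℕ) : ℝ) := by exact_mod_cast h9
      linarith
    linarith
  have h8 : 4 * Real.exp x = Real.exp (Real.log 4 + x) := by
    rw [Real.exp_add, Real.exp_log (by norm_num)]
  rw [h8] at h7
  have h9 : ((⌈w (N ^ E)⌉₊ + 2 : ℕ) : ℝ) ^ j ≤ Real.exp (j * (Real.log 4 + x)) := by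
    rw [Real.exp_nat_mul]
    exact pow_le_pow_left₀ (by positivity) h7 j
  refine h9.trans ?_
  have e : (N : ℝ) ^ ε = Real.exp (ε * L) := by
    rw [hL, mul_comm, Real.exp_mul, Real.exp_log hN0]
  rw [e]
  refine Real.exp_le_exp.2 ?_
  have h10 : (j : ℝ) * (Real.log 4 + x) ≤ (C * LL) * (Real.log 4 + x) :=
    mul_le_mul_of_nonneg_right hj (by positivity)
  refine h10.trans ?_
  have h11 : (C * LL) * x = ε / 2 * L := by
    rw [hx]
    field_simp
  have h12 : (C * LL) * Real.log 4 ≤ ε / 2 * L := by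
    have h13 := mul_le_mul_of_nonneg_right h3 (show 0 ≤ C * Real.log 4 by positivity)
    have e2 : ε / (2 * C * Real.log 4) * L * (C * Real.log 4) = ε / 2 * L := by
      field_simp
    rw [e2] at h13
    linarith
  linarith

/-- the product over the primes up to `N` -/
lemma prod_log (K : ℕ) : ∃ C : ℝ, 0 < C ∧ ∀ᶠ N : ℕ in atTop, ∀ W ≤ N,
    ∏ p ∈ pr W, (1 + (K : ℝ) / (p : ℝ)) ≤ (C * Real.log N) ^ K := by
  obtain ⟨C, hC, h⟩ := Vp_inv
  refine ⟨C, hC, ?_⟩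
  filter_upwards [h] with N hN W hW
  have h1 : ∏ p ∈ pr W, (1 + (K : ℝ) / (p : ℝ)) ≤ ((Vp W)⁻¹) ^ K := by
    rw [Vp_eq, ← prod_inv_distrib, ← prod_pow]
    refine prod_le_prod (fun p _ => by positivity) fun p hp => ?_
    have hp2 : (2 : ℝ) ≤ p := by exact_mod_cast (mem_pr.1 hp).2.two_le
    have h2 : 1 / (p : ℝ) ≤ 1 / 2 := one_div_le_one_div_of_le (by norm_num) hp2
    have hV1 : 0 < 1 - 1 / (p : ℝ) := by linarith
    have h8 : 1 + 1 / (p : ℝ) ≤ (1 - 1 / (p : ℝ))⁻¹ := by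
      rw [← one_div, le_div_iff₀ hV1]
      have : (0 : ℝ) ≤ (1 / (p : ℝ)) ^ 2 := by positivity
      nlinarith
    have h9 := one_add_mul_le_pow (a := 1 / (p : ℝ)) (by
      have : 0 < 1 / (p : ℝ) := by positivity
      linarith) K
    have e : 1 + (K : ℝ) / p = 1 + (K : ℝ) * (1 / (p : ℝ)) := by ring
    rw [e]
    exact h9.trans (pow_le_pow_left₀ (by positivity) h8 _)
  refine h1.trans (pow_le_pow_left₀ (inv_nonneg.2 (Vp_pos W).le) ?_ K)
  refine le_trans ?_ hN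
  exact inv_anti₀ (Vp_pos N) (Vp_anti hW)

/-- the sum over the cells -/
lemma sum_cells (w z : ℕ → ℝ) (g : Fin k → ℤ[X]) (W : ℕ) (u : ℤ) (N : ℕ) (H : ℤ → ℝ) :
    ∑ m ∈ Ioc u (u + N), H m =
      ∑ q ∈ (Fintype.piFinset fun _ : Fin k => range (W + 1)) ×ˢ (Fintype.piFinset fun _ : Fin k => range (W + 1)),
        ∑ m ∈ cell w z g W q.1 q.2 u N, H m := by
  classical
  rw [← sum_fiberwise_of_maps_to (s := Ioc u (u + N))
    (t := (Fintype.piFinset fun _ : Fin k => range (W + 1)) ×ˢ (Fintype.piFinset fun _ : Fin k => range (W + 1)))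
    (g := fun m : ℤ => ((fun i : Fin k => min ⌊z ((g i).eval m).natAbs⌋₊ W), (fun i : Fin k => min ⌊w ((g i).eval m).natAbs⌋₊ W)))]
  · refine sum_congr rfl fun q _ => sum_congr ?_ fun _ _ => rfl
    unfold cell
    refine filter_congr fun m _ => ?_
    rw [Prod.ext_iff, funext_iff, funext_iff, ← forall_and]
  · intro m _
    rw [mem_product, Fintype.mem_piFinset, Fintype.mem_piFinset]
    refine ⟨fun i => ?_, fun i => ?_⟩
    · rw [mem_range]
      exact Nat.lt_succ_of_le (min_le_right _ _)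
    · rw [mem_range]
      exact Nat.lt_succ_of_le (min_le_right _ _)

open Classical in
/-- the law in the semi-random model -/
theorem semi_law {Ω : Type} [MeasurableSpace Ω] {P : Measure Ω} {X : ℕ → Ω → ℕ} (h : Sys P X)
    {w z : ℕ → ℝ} (hwm : Monotone w) (hzm : Monotone z) {A : ℕ} (hA : ∀ n : ℕ, z n ≤ ((n : ℝ) + 2) ^ A)
    (hw : ∀ ε : ℝ, 0 < ε → ∀ᶠ n : ℕ in atTop, w n ≤ Real.exp (ε * Real.log n / Real.log (Real.log n))) :
    ∀ᵐ ω ∂P, ∀ k D B A' : ℕ, ∀ ε : ℝ, 0 < ε → ∀ᶠ N : ℕ in atTop, ∀ u : ℤ, |u| ≤ (N : ℤ) ^ B →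
      ∀ g : Fin k → ℤ[X], (∀ i, (g i).natDegree ≤ D) → (∀ i j, |(g i).coeff j| ≤ (N : ℤ) ^ B) → ∀ c : ℕ → ℤ,
      0 ≤ ∑ m ∈ Ioc u (u + N), densS w z g c (fun p => X p ω) m ∧
      |(#((Ioc u (u + N)).filter fun m => ∀ i, SR w z c (fun p => X p ω) ((g i).eval m)) : ℝ) -
        ∑ m ∈ Ioc u (u + N), densS w z g c (fun p => X p ω) m| ≤
        (∑ m ∈ Ioc u (u + N), densS w z g c (fun p => X p ω) m) / (Real.log N) ^ A' + (N : ℝ) ^ (1 / 2 + ε) := by
  rw [ae_all_iff]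
  intro k
  rw [ae_all_iff]
  intro D
  rw [ae_all_iff]
  intro B
  obtain ⟨E0, hE0⟩ := level_bound hA D B
  obtain ⟨E, hE⟩ : ∃ E : ℕ, E = E0 + 1 := ⟨_, rfl⟩
  have hE1 : 1 ≤ E := by omega
  have h1 : ∀ᵐ ω ∂P, ∀ j : ℕ, ∀ᶠ N : ℕ in atTop, ∀ u : ℤ, |u| ≤ (N : ℤ) ^ B → ∀ g : Fin k → ℤ[X], (∀ i, (g i).natDegree ≤ D) →
      (∀ i j, |(g i).coeff j| ≤ (N : ℤ) ^ B) → ∀ W ≤ N, ∀ x y : Fin k → ℕ, (∀ i, x i ≤ N) → (∀ i, y i ≤ N) →
      ∀ d : ℕ, 0 < d → d ≤ N → ∀ r : ℤ,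
      |DD (PT w z g) (prd (N ^ E) d) (fun q => X q ω) d r (cell w z g W x y u N)| ≤ (N : ℝ) ^ (1 / 2 + 1 / ((j : ℝ) + 1)) := by
    rw [ae_all_iff]
    intro j
    exact all_cfgs h hwm hzm k D B E (by positivity)
  filter_upwards [h1] with ω hω A' ε hε
  obtain ⟨j, hj⟩ := exists_nat_gt (2 / ε)
  have hj0 : (0 : ℝ) < (j : ℝ) + 1 := by positivity
  have hjε : 1 / ((j : ℝ) + 1) ≤ ε / 2 := by
    rw [div_lt_iff₀ hε] at hj
    rw [div_le_div_iff₀ hj0 (by norm_num)]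
    linarith
  obtain ⟨K, hK⟩ : ∃ K : ℕ, K = 8 * (k * D + 1) ^ 2 := ⟨_, rfl⟩
  obtain ⟨C0, hC0, hprod⟩ := prod_log K
  obtain ⟨C2, hC2⟩ : ∃ C2 : ℝ, C2 = (K : ℝ) + A' + 1 := ⟨_, rfl⟩
  have hC2p : 1 ≤ C2 := by
    rw [hC2]
    have : (0 : ℝ) ≤ (K : ℝ) + A' := by positivity
    linarith
  have hC2' : 0 < C2 := by linarith
  obtain ⟨C3, hC3⟩ : ∃ C3 : ℝ, C3 = 2 * k + 4 * C2 + 1 := ⟨_, rfl⟩
  have hC3' : 0 < C3 := by rw [hC3]; positivity
  have hsm := W_small hw hE1 hC3' (show 0 < min (ε / 4) 1 by positivity)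
  have hlogc : ∀ᶠ N : ℕ in atTop, 2 * C0 ^ K ≤ Real.log N := logT'.eventually_ge_atTop _
  have hLLs : ∀ᶠ N : ℕ in atTop, C2 * Real.log (Real.log N) + 2 ≤ (N : ℝ) ^ (ε / 4) := by
    have hb1 : ∀ᶠ N : ℕ in atTop, (C2 + 2) * Real.log N ≤ (N : ℝ) ^ (ε / 4) := by
      have h3 := (isLittleO_log_rpow_atTop (show 0 < ε / 4 by positivity)).bound (show 0 < 1 / (C2 + 2) by positivity)
      have h4 := tendsto_natCast_atTop_atTop.eventually h3
      filter_upwards [h4, eventually_ge_atTop 2] with N h5 hN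
      have hN1 : (1 : ℝ) ≤ N := by exact_mod_cast (by omega : 1 ≤ N)
      rw [Real.norm_eq_abs, abs_of_nonneg (Real.log_nonneg hN1), Real.norm_eq_abs, abs_of_nonneg (by positivity),
        one_div, inv_mul_eq_div, le_div_iff₀ (by positivity)] at h5
      linarith
    filter_upwards [hb1, loglog_small one_pos, logT'.eventually_ge_atTop 1, loglogT.eventually_ge_atTop 0] with N h3 h4 h5 h6
    rw [one_mul] at h4
    nlinarith
  filter_upwards [hω j, hE0, hprod, hsm, hlogc, hLLs, loglogT.eventually_ge_atTop 2, logT'.eventually_ge_atTop 1,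
    eventually_ge_atTop 2] with N h2 h3 h4 h5 h6 h7 h8 h9 hN2 u hu g hD hg c
  have hN1 : (1 : ℝ) ≤ N := by exact_mod_cast (by omega : 1 ≤ N)
  have hN0 : (0 : ℝ) < N := by linarith
  obtain ⟨LL, hLL⟩ : ∃ LL, LL = Real.log (Real.log N) := ⟨_, rfl⟩
  rw [← hLL] at h5 h7 h8
  obtain ⟨W, hW⟩ : ∃ W : ℕ, W = ⌈w (N ^ E)⌉₊ + 1 := ⟨_, rfl⟩
  have hW1 : 1 ≤ W := by omega
  have h5' : ∀ i : ℕ, (i : ℝ) ≤ C3 * LL → ((W : ℝ) + 1) ^ i ≤ (N : ℝ) ^ min (ε / 4) 1 := by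
    intro i hi
    have h10 := h5 i hi
    have e : ((⌈w (N ^ E)⌉₊ + 2 : ℕ) : ℝ) = (W : ℝ) + 1 := by
      rw [hW]
      push_cast
      ring
    rwa [e] at h10
  obtain ⟨r1, hr1⟩ : ∃ r1 : ℕ, r1 = ⌈C2 * LL⌉₊ := ⟨_, rfl⟩
  have hr1p : 1 ≤ r1 := by
    rw [hr1]
    exact Nat.one_le_ceil_iff.2 (by positivity)
  obtain ⟨r, hr⟩ : ∃ r : ℕ, r + 1 = r1 := ⟨r1 - 1, by omega⟩
  have hr1a : C2 * LL ≤ (r : ℝ) + 1 := by
    have : C2 * LL ≤ (r1 : ℝ) := by rw [hr1]; exact Nat.le_ceil _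
    rw [← hr] at this
    push_cast at this
    exact this
  have hr1b : (r : ℝ) + 1 ≤ C2 * LL + 1 := by
    have : (r1 : ℝ) < C2 * LL + 1 := by rw [hr1]; exact Nat.ceil_lt_add_one (by positivity)
    rw [← hr] at this
    push_cast at this
    linarith
  have hr1c : (r : ℝ) + 1 ≤ 2 * C2 * LL := by nlinarith
  have hmin1 : (N : ℝ) ^ min (ε / 4) 1 ≤ N := by
    calc (N : ℝ) ^ min (ε / 4) 1 ≤ (N : ℝ) ^ (1 : ℝ) := Real.rpow_le_rpow_of_exponent_le hN1 (min_le_right _ _)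
      _ = N := Real.rpow_one _
  have hmin2 : (N : ℝ) ^ min (ε / 4) 1 ≤ (N : ℝ) ^ (ε / 4) := Real.rpow_le_rpow_of_exponent_le hN1 (min_le_left _ _)
  have hWr : W ^ (r + 1) ≤ N := by
    have h10 := h5' (r + 1) (by
      push_cast
      rw [hC3]
      nlinarith [show (0 : ℝ) ≤ k by positivity])
    have h11 : ((W : ℝ)) ^ (r + 1) ≤ N :=
      (pow_le_pow_left₀ (by positivity) (by linarith) _).trans (h10.trans hmin1)
    exact_mod_cast h11
  have hWN : W ≤ N := (Nat.le_self_pow (by omega) W).trans hWr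
  have hWM : W ≤ N ^ E := hWN.trans (Nat.le_self_pow (by omega) N)
  have hbnd : ∀ i, ∀ m ∈ Ioc u (u + N), ((g i).eval m).natAbs ≤ N ^ E ∧ z ((g i).eval m).natAbs ≤ ((N ^ E : ℕ) : ℝ) := by
    intro i m hm
    have h10 := h3 u hu (g i) (hD i) (hg i) m hm
    have h11 : N ^ E0 ≤ N ^ E := Nat.pow_le_pow_right (by omega) (by omega)
    exact ⟨h10.1.trans h11, h10.2.trans (by exact_mod_cast h11)⟩
  have hww : ∀ m ∈ Ioc u (u + N), ∀ i, w ((g i).eval m).natAbs ≤ W := by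
    intro m hm i
    refine (hwm (hbnd i m hm).1).trans ?_
    rw [hW]
    push_cast
    have := Nat.le_ceil (w (N ^ E))
    linarith
  have hzz : ∀ m ∈ Ioc u (u + N), ∀ i, z ((g i).eval m).natAbs ≤ ((N ^ E : ℕ) : ℝ) := fun m hm i => (hbnd i m hm).2
  have hWMr : (W : ℝ) ≤ ((N ^ E : ℕ) : ℝ) := by exact_mod_cast hWM
  have hd01 : ∀ m ∈ Ioc u (u + N), 0 ≤ densS w z g c (fun p => X p ω) m :=
    fun m hm => (densS_01 (hzz m hm) fun i => (hww m hm i).trans hWMr).1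
  have hS0 : 0 ≤ ∑ m ∈ Ioc u (u + N), densS w z g c (fun p => X p ω) m := sum_nonneg hd01
  refine ⟨hS0, ?_⟩
  obtain ⟨δ, hδ⟩ : ∃ δ : ℝ, δ = (N : ℝ) ^ (1 / 2 + 1 / ((j : ℝ) + 1)) := ⟨_, rfl⟩
  have hδ0 : 0 ≤ δ := by rw [hδ]; positivity
  obtain ⟨keys, hkeys⟩ : ∃ keys, keys = (Fintype.piFinset fun _ : Fin k => range (W + 1)) ×ˢ
    (Fintype.piFinset fun _ : Fin k => range (W + 1)) := ⟨_, rfl⟩
  obtain ⟨Q, hQ⟩ : ∃ Q : ℝ, Q = Real.exp (-((r : ℝ) + 1)) * ∏ p ∈ pr W, (1 + (K : ℝ) / (p : ℝ)) := ⟨_, rfl⟩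
  have hcell : ∀ q ∈ keys, |(#((cell w z g W q.1 q.2 u N).filter fun m => ∀ i, SR w z c (fun p => X p ω) ((g i).eval m)) : ℝ) -
      ∑ m ∈ cell w z g W q.1 q.2 u N, densS w z g c (fun p => X p ω) m| ≤
      2 * Q * ∑ m ∈ cell w z g W q.1 q.2 u N, densS w z g c (fun p => X p ω) m +
        ((r : ℝ) + 2) * (W : ℝ) ^ (2 * (r + 1)) * δ := by
    intro q hq
    rw [hkeys, mem_product, Fintype.mem_piFinset, Fintype.mem_piFinset] at hq
    have h10 := cell_law (c := c) hD hWM hW1 hWr hδ0 (x := q.1) (y := q.2) (a := fun p => X p ω) (fun d hd0 hd r' => by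
      have h11 := h2 u hu g hD hg W hWN q.1 q.2 (fun i => (Nat.lt_succ_iff.1 (mem_range.1 (hq.1 i))).trans hWN)
        (fun i => (Nat.lt_succ_iff.1 (mem_range.1 (hq.2 i))).trans hWN) d hd0 hd r'
      rw [← hδ] at h11
      exact h11) hww hzz
    rw [← hK, ← hQ] at h10
    exact h10
  have hcount : (#((Ioc u (u + N)).filter fun m => ∀ i, SR w z c (fun p => X p ω) ((g i).eval m)) : ℝ) =
      ∑ q ∈ keys, (#((cell w z g W q.1 q.2 u N).filter fun m => ∀ i, SR w z c (fun p => X p ω) ((g i).eval m)) : ℝ) := by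
    have h10 : ∀ S : Finset ℤ, (#(S.filter fun m => ∀ i, SR w z c (fun p => X p ω) ((g i).eval m)) : ℝ) =
        ∑ m ∈ S, if ∀ i, SR w z c (fun p => X p ω) ((g i).eval m) then (1 : ℝ) else 0 := by
      intro S
      rw [← sum_filter, sum_const, nsmul_eq_mul, mul_one]
    simp only [h10]
    rw [sum_cells w z g W u N, ← hkeys]
  have hsumd : ∑ m ∈ Ioc u (u + N), densS w z g c (fun p => X p ω) m =
      ∑ q ∈ keys, ∑ m ∈ cell w z g W q.1 q.2 u N, densS w z g c (fun p => X p ω) m := by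
    rw [sum_cells w z g W u N, ← hkeys]
  have htot : |(#((Ioc u (u + N)).filter fun m => ∀ i, SR w z c (fun p => X p ω) ((g i).eval m)) : ℝ) -
      ∑ m ∈ Ioc u (u + N), densS w z g c (fun p => X p ω) m| ≤
      2 * Q * ∑ m ∈ Ioc u (u + N), densS w z g c (fun p => X p ω) m +
        (keys.card : ℝ) * (((r : ℝ) + 2) * (W : ℝ) ^ (2 * (r + 1)) * δ) := by
    rw [hcount, hsumd, ← sum_sub_distrib]
    refine (abs_sum_le_sum_abs _ _).trans ((sum_le_sum hcell).trans (le_of_eq ?_))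
    rw [sum_add_distrib, ← mul_sum, sum_const, nsmul_eq_mul]
  refine htot.trans (add_le_add ?_ ?_)
  · -- the relative error
    have hlog0 : 0 < Real.log N := by linarith
    have hQ1 : 2 * Q ≤ 1 / (Real.log N) ^ A' := by
      have h10 : Real.exp (-((r : ℝ) + 1)) ≤ (Real.log N) ^ (-C2) := by
        rw [Real.rpow_def_of_pos hlog0]
        refine Real.exp_le_exp.2 ?_
        rw [← hLL]
        linarith
      have h11 := h4 W hWN
      have h12 : Q ≤ (Real.log N) ^ (-C2) * (C0 * Real.log N) ^ K := by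
        rw [hQ]
        exact mul_le_mul h10 h11 (prod_nonneg fun p _ => by positivity) (by positivity)
      have h13 : (Real.log N) ^ (-C2) * (C0 * Real.log N) ^ K = C0 ^ K * ((Real.log N) ^ (A' + 1))⁻¹ := by
        rw [mul_pow, ← Real.rpow_natCast (Real.log N) K, mul_left_comm, ← Real.rpow_add hlog0,
          ← Real.rpow_natCast (Real.log N) (A' + 1), ← Real.rpow_neg hlog0.le]
        congr 2
        rw [hC2]
        push_cast
        ring
      rw [h13] at h12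
      calc 2 * Q ≤ 2 * (C0 ^ K * ((Real.log N) ^ (A' + 1))⁻¹) := mul_le_mul_of_nonneg_left h12 (by norm_num)
        _ = (2 * C0 ^ K) * ((Real.log N) ^ (A' + 1))⁻¹ := by ring
        _ ≤ Real.log N * ((Real.log N) ^ (A' + 1))⁻¹ := mul_le_mul_of_nonneg_right h6 (by positivity)
        _ = 1 / (Real.log N) ^ A' := by
            rw [pow_succ]
            field_simp
    calc 2 * Q * ∑ m ∈ Ioc u (u + N), densS w z g c (fun p => X p ω) m ≤
          1 / (Real.log N) ^ A' * ∑ m ∈ Ioc u (u + N), densS w z g c (fun p => X p ω) m :=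
          mul_le_mul_of_nonneg_right hQ1 hS0
      _ = _ := by ring
  · -- the absolute error
    have hkc : (keys.card : ℝ) = ((W : ℝ) + 1) ^ (2 * k) := by
      rw [hkeys, card_product, Fintype.card_piFinset]
      simp only [prod_const, card_univ, Fintype.card_fin, card_range]
      push_cast
      ring
    rw [hkc]
    have h10 := h5' (2 * k + 2 * (r + 1)) (by
      push_cast
      rw [hC3]
      nlinarith [show (0 : ℝ) ≤ k by positivity])
    have h11 : ((W : ℝ) + 1) ^ (2 * k) * (W : ℝ) ^ (2 * (r + 1)) ≤ (N : ℝ) ^ (ε / 4) := by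
      refine le_trans ?_ (h10.trans hmin2)
      rw [pow_add]
      refine mul_le_mul_of_nonneg_left (pow_le_pow_left₀ (by positivity) (by linarith) _) (by positivity)
    have h12 : (r : ℝ) + 2 ≤ (N : ℝ) ^ (ε / 4) := by linarith
    calc ((W : ℝ) + 1) ^ (2 * k) * (((r : ℝ) + 2) * (W : ℝ) ^ (2 * (r + 1)) * δ) =
          (((W : ℝ) + 1) ^ (2 * k) * (W : ℝ) ^ (2 * (r + 1))) * ((r : ℝ) + 2) * δ := by ring
      _ ≤ (N : ℝ) ^ (ε / 4) * (N : ℝ) ^ (ε / 4) * (N : ℝ) ^ (1 / 2 + ε / 2) := by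
          refine mul_le_mul (mul_le_mul h11 h12 (by positivity) (by positivity)) ?_ hδ0 (by positivity)
          rw [hδ]
          exact Real.rpow_le_rpow_of_exponent_le hN1 (by linarith)
      _ = (N : ℝ) ^ (1 / 2 + ε) := by
          rw [← Real.rpow_add hN0, ← Real.rpow_add hN0]
          congr 1
          ring

end Pool.Agent.L5helper86.UL
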