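import Pool.Agent.L5helper86.UL.Gold3
import Pool.Agent.L5helper86.UL.Semi

/-! Project UL (helper86): the pair `m`, `n - m`: asymptotic formulas. -/

set_option autoImplicit false

namespace Pool.Agent.L5helper86.UL

open Finset Polynomial MeasureTheory ProbabilityTheory Filter Topology
open Pool.Agent.L5helper2.BH (pr mem_pr)
open Pool.Agent.L5helper2.RS (Vp Vp_eq Vp_pos Vp_le Vp_mertens bc)

lemma sum_int (u H : ℕ) (f : ℤ → ℝ) : ∑ m ∈ Ioc (u : ℤ) ((u : ℤ) + (H : ℤ)), f m = ∑ m ∈ Ioc u (u + H), f (m : ℤ) := by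
  symm
  refine sum_nbij' (fun m : ℕ => (m : ℤ)) (fun m : ℤ => m.toNat) ?_ ?_ ?_ ?_ ?_
  · intro m hm
    rw [mem_Ioc] at hm ⊢
    omega
  · intro m hm
    rw [mem_Ioc] at hm ⊢
    omega
  · intro m _
    simp
  · intro m hm
    rw [mem_Ioc] at hm
    show ((m.toNat : ℕ) : ℤ) = m
    omega
  · intro m _
    rfl

lemma densS_01' {k : ℕ} (w z : ℕ → ℝ) (g : Fin k → ℤ[X]) (c : ℕ → ℤ) (a : ℕ → ℕ) (m : ℤ) :
    0 ≤ densS w z g c a m ∧ densS w z g c a m ≤ 1 := by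
  obtain ⟨M, hM⟩ : ∃ M : ℕ, M = ∑ i, (⌈z ((g i).eval m).natAbs⌉₊ + ⌈w ((g i).eval m).natAbs⌉₊) := ⟨_, rfl⟩
  have h1 : ∀ i, ⌈z ((g i).eval m).natAbs⌉₊ + ⌈w ((g i).eval m).natAbs⌉₊ ≤ M := by
    intro i
    rw [hM]
    exact single_le_sum (f := fun i => ⌈z ((g i).eval m).natAbs⌉₊ + ⌈w ((g i).eval m).natAbs⌉₊)
      (fun _ _ => Nat.zero_le _) (mem_univ i)
  refine densS_01 (M := M) (fun i => ?_) fun i => ?_
  · refine (Nat.le_ceil _).trans ?_
    exact_mod_cast (Nat.le_add_right _ _).trans (h1 i)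
  · refine (Nat.le_ceil _).trans ?_
    exact_mod_cast (Nat.le_add_left _ _).trans (h1 i)

/-- uniform asymptotics of `V` -/
lemma unif_V {θ : ℝ} (hθ : 0 < θ) {κ η : ℝ} (hκ : 0 < κ) (hη : 0 < η) : ∀ᶠ n : ℕ in atTop, ∀ m : ℕ,
    κ * n ≤ m → m ≤ n → |Real.log n * VV θ m - Real.exp (-Real.eulerMascheroniConstant) / θ| ≤ η := by
  obtain ⟨c, hc⟩ : ∃ c, c = Real.exp (-Real.eulerMascheroniConstant) / θ := ⟨_, rfl⟩
  have hc0 : 0 < c := by rw [hc]; exact div_pos (Real.exp_pos _) hθ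
  have hlim := VV_lim hθ
  rw [← hc] at hlim ⊢
  have h1 : ∀ᶠ m : ℕ in atTop, |VV θ m * Real.log m - c| ≤ min (η / 2) 1 := by
    have h2 : Tendsto (fun m : ℕ => |VV θ m * Real.log m - c|) atTop (𝓝 0) := by
      simpa using (hlim.sub_const c).abs
    exact h2.eventually_le_const (by positivity)
  obtain ⟨m0, hm0⟩ := eventually_atTop.1 h1
  obtain ⟨K, hK⟩ : ∃ K, K = |Real.log κ| := ⟨_, rfl⟩
  have hK0 : 0 ≤ K := by rw [hK]; exact abs_nonneg _
  filter_upwards [eventually_ge_atTop (⌈(m0 : ℝ) / κ⌉₊ + 1), logT.eventually_ge_atTop (K + (c + 1) * K * 2 / η + 1)] with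
    n hn hlog m hm1 hm2
  have hn1 : 1 ≤ n := by omega
  have hn0 : (0 : ℝ) < n := by exact_mod_cast hn1
  have hmm : m0 ≤ m := by
    have h3 : (m0 : ℝ) / κ ≤ n := by
      refine (Nat.le_ceil _).trans ?_
      exact_mod_cast (by omega : ⌈(m0 : ℝ) / κ⌉₊ ≤ n)
    rw [div_le_iff₀ hκ] at h3
    have : (m0 : ℝ) ≤ m := by linarith
    exact_mod_cast this
  have h4 := hm0 m hmm
  have h5 : |VV θ m * Real.log m - c| ≤ η / 2 := h4.trans (min_le_left _ _)
  have h6 : |VV θ m * Real.log m - c| ≤ 1 := h4.trans (min_le_right _ _)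
  have hmp : (0 : ℝ) < m := lt_of_lt_of_le (by positivity) hm1
  have h7 : Real.log κ + Real.log n ≤ Real.log m := by
    rw [← Real.log_mul hκ.ne' hn0.ne']
    exact Real.log_le_log (by positivity) hm1
  have h8 : Real.log m ≤ Real.log n := Real.log_le_log hmp (by exact_mod_cast hm2)
  have h9 : -K ≤ Real.log κ := by rw [hK]; exact neg_abs_le _
  have h10 : (c + 1) * K * 2 / η + 1 ≤ Real.log m := by linarith
  have hlm : 0 < Real.log m := lt_of_lt_of_le (by positivity) h10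
  have e : Real.log n * VV θ m - c = (VV θ m * Real.log m - c) + (VV θ m * Real.log m) * ((Real.log n - Real.log m) / Real.log m) := by
    field_simp
    ring
  rw [e]
  refine (abs_add_le _ _).trans ?_
  have h11 : 0 ≤ VV θ m * Real.log m := mul_nonneg (VV_pos _ _).le hlm.le
  have h12 : VV θ m * Real.log m ≤ c + 1 := by
    rw [abs_le] at h6
    linarith [h6.2]
  have h13 : 0 ≤ (Real.log n - Real.log m) / Real.log m := div_nonneg (by linarith) hlm.le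
  rw [abs_of_nonneg (mul_nonneg h11 h13)]
  have h14 : (VV θ m * Real.log m) * ((Real.log n - Real.log m) / Real.log m) ≤ (c + 1) * (K / Real.log m) := by
    refine mul_le_mul h12 ?_ h13 (by positivity)
    exact div_le_div_of_nonneg_right (by linarith) hlm.le
  have h15 : (c + 1) * (K / Real.log m) ≤ η / 2 := by
    rw [mul_div_assoc', div_le_iff₀ hlm]
    have h16 : (c + 1) * K * 2 / η ≤ Real.log m := by linarith
    rw [div_le_iff₀ hη] at h16
    linarith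
  linarith

/-- squares are eventually large -/
lemma sq_big {κ : ℝ} (hκ : 0 < κ) : ∀ᶠ n : ℕ in atTop, ∀ v : ℕ, κ * n ≤ v → n ≤ v ^ 2 := by
  filter_upwards [eventually_ge_atTop (⌈1 / κ ^ 2⌉₊ + 1)] with n hn v hv
  have hn0 : (0 : ℝ) < n := by exact_mod_cast (by omega : 0 < n)
  have h1 : 1 / κ ^ 2 ≤ n := by
    refine (Nat.le_ceil _).trans ?_
    exact_mod_cast (by omega : ⌈1 / κ ^ 2⌉₊ ≤ n)
  rw [div_le_iff₀ (by positivity)] at h1
  have h2 : (κ * n) ^ 2 ≤ (v : ℝ) ^ 2 := pow_le_pow_left₀ (by positivity) hv 2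
  have h3 : (n : ℝ) ≤ (v : ℝ) ^ 2 := by
    refine le_trans ?_ h2
    nlinarith
  exact_mod_cast h3

open Classical in
/-- the number of the representations in an interval -/
noncomputable def RR (w : ℕ → ℝ) (θ : ℝ) (a : ℕ → ℕ) (n u H : ℕ) : ℝ :=
  #((Ioc (u : ℤ) ((u : ℤ) + (H : ℤ))).filter fun m => ∀ i, SR w (fun v : ℕ => (v : ℝ) ^ θ) (fun _ => 0) a
    ((pair Polynomial.X (n : ℤ) i).eval m))

lemma z_mono {θ : ℝ} (hθ : 0 < θ) : Monotone (fun v : ℕ => (v : ℝ) ^ θ) := by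
  intro a b hab
  exact Real.rpow_le_rpow (by positivity) (by exact_mod_cast hab) hθ.le

lemma z_bound {θ : ℝ} (hθ : 0 < θ) (n : ℕ) : (n : ℝ) ^ θ ≤ ((n : ℝ) + 2) ^ ⌈θ⌉₊ := by
  have hn : (0 : ℝ) ≤ n := by positivity
  calc (n : ℝ) ^ θ ≤ ((n : ℝ) + 2) ^ θ := Real.rpow_le_rpow hn (by linarith) hθ.le
    _ ≤ ((n : ℝ) + 2) ^ (⌈θ⌉₊ : ℝ) := Real.rpow_le_rpow_of_exponent_le (by linarith) (Nat.le_ceil θ)
    _ = _ := Real.rpow_natCast _ _

lemma hw_pow {θ : ℝ} (hθ : 0 < θ) {w : ℕ → ℝ}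
    (hw : ∀ ε : ℝ, 0 < ε → ∀ᶠ n : ℕ in atTop, w n ≤ Real.exp (ε * Real.log n / Real.log (Real.log n))) :
    ∀ᶠ v : ℕ in atTop, w v ≤ (v : ℝ) ^ θ := by
  filter_upwards [hw θ hθ, loglogT.eventually_ge_atTop 1, logT.eventually_ge_atTop 1, eventually_ge_atTop 1] with v h1 h2 h3 hv
  have hv0 : (0 : ℝ) < v := by exact_mod_cast hv
  refine h1.trans ?_
  have e : (v : ℝ) ^ θ = Real.exp (θ * Real.log v) := by
    rw [mul_comm, Real.exp_mul, Real.exp_log hv0]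
  rw [e]
  refine Real.exp_le_exp.2 ?_
  exact div_le_self (by positivity) h2

/-- choice of a small parameter -/
lemma choose_eta {c ε : ℝ} (hc : 0 < c) (hε : 0 < ε) : ∃ η : ℝ, 0 < η ∧ η < c ∧
    Real.exp η * (c + η) ^ 2 ≤ c ^ 2 + ε ∧ c ^ 2 - ε ≤ Real.exp (-η) * (c - η) ^ 2 := by
  have h1 : Tendsto (fun η : ℝ => Real.exp η * (c + η) ^ 2) (𝓝[>] 0) (𝓝 (c ^ 2)) := by
    have h2 : Continuous (fun η : ℝ => Real.exp η * (c + η) ^ 2) := by fun_prop
    have h3 := h2.tendsto 0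
    simp only [Real.exp_zero, add_zero, one_mul] at h3
    exact h3.mono_left nhdsWithin_le_nhds
  have h2 : Tendsto (fun η : ℝ => Real.exp (-η) * (c - η) ^ 2) (𝓝[>] 0) (𝓝 (c ^ 2)) := by
    have h2 : Continuous (fun η : ℝ => Real.exp (-η) * (c - η) ^ 2) := by fun_prop
    have h3 := h2.tendsto 0
    simp only [neg_zero, Real.exp_zero, sub_zero, one_mul] at h3
    exact h3.mono_left nhdsWithin_le_nhds
  have h3 : ∀ᶠ η : ℝ in 𝓝[>] 0, 0 < η := eventually_mem_nhdsWithin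
  have h4 : ∀ᶠ η : ℝ in 𝓝[>] 0, η < c := by
    have : ∀ᶠ η : ℝ in 𝓝 0, η < c := Iio_mem_nhds hc
    exact this.filter_mono nhdsWithin_le_nhds
  obtain ⟨η, h5, h6, h7, h8⟩ := (h3.and (h4.and ((h1.eventually_le_const (show c ^ 2 < c ^ 2 + ε by linarith)).and
    (h2.eventually_const_le (show c ^ 2 - ε < c ^ 2 by linarith))))).exists
  exact ⟨η, h5, h6, h7, h8⟩

/-- the asymptotic formula in short intervals -/
theorem gold_short {Ω : Type} [MeasurableSpace Ω] {P : Measure Ω} {X : ℕ → Ω → ℕ} (h : Sys P X) {θ : ℝ} (hθ : 0 < θ)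
    {w : ℕ → ℝ} (hwm : Monotone w) (hw1 : ∀ᶠ v : ℕ in atTop, (Real.log v) ^ 5 ≤ w v)
    (hw : ∀ ε : ℝ, 0 < ε → ∀ᶠ n : ℕ in atTop, w n ≤ Real.exp (ε * Real.log n / Real.log (Real.log n))) :
    ∀ᵐ ω ∂P, ∀ κ δ ε : ℝ, 0 < κ → 0 < δ → 0 < ε → ∀ᶠ n : ℕ in atTop, Even n → ∀ u H : ℕ,
      κ * n ≤ u → (u : ℝ) + H ≤ (1 - κ) * n → (n : ℝ) ^ δ ≤ H →
      |RR w θ (fun p => X p ω) n u H - (Real.exp (-Real.eulerMascheroniConstant) / θ) ^ 2 *
        (sing n * H / (Real.log n) ^ 2)| ≤ ε * (sing n * H / (Real.log n) ^ 2) := by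
  classical
  obtain ⟨c, hc⟩ : ∃ c, c = Real.exp (-Real.eulerMascheroniConstant) / θ := ⟨_, rfl⟩
  have hc0 : 0 < c := by rw [hc]; exact div_pos (Real.exp_pos _) hθ
  filter_upwards [semi_law h hwm (z_mono hθ) (z_bound hθ) hw, gold_dens h hθ hw1 (hw_pow hθ hw)] with ω h1 h2 κ δ ε hκ hδ hε
  obtain ⟨η, hη0, hηc, hη1, hη2⟩ := choose_eta hc0 (show 0 < ε / 3 by positivity)
  obtain ⟨B, hB⟩ : ∃ B : ℕ, B = ⌈1 / δ⌉₊ + 1 := ⟨_, rfl⟩
  obtain ⟨H0, hH0⟩ := eventually_atTop.1 (h1 2 2 (B + 1) 1 (1 / 4) (by norm_num))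
  have hu := unif_V hθ hκ hη0
  rw [← hc] at hu ⊢
  have hbig : ∀ᶠ n : ℕ in atTop, (max ((H0 : ℝ) + 2) (Real.exp (3 * (c ^ 2 + ε / 3) / ε + 1))) ≤ (n : ℝ) ^ δ :=
    ((tendsto_rpow_atTop hδ).comp tendsto_natCast_atTop_atTop).eventually_ge_atTop _
  have hlog2 : ∀ᶠ n : ℕ in atTop, (Real.log n) ^ 2 ≤ ε / 3 * (n : ℝ) ^ (δ / 4) := by
    have h3 := (isLittleO_log_rpow_atTop (show 0 < δ / 8 by positivity)).bound (show 0 < Real.sqrt (ε / 3) by positivity)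
    have h4 := tendsto_natCast_atTop_atTop.eventually h3
    filter_upwards [h4, eventually_ge_atTop 2] with n h5 hn
    have hn1 : (1 : ℝ) ≤ n := by exact_mod_cast (by omega : 1 ≤ n)
    have hn0 : (0 : ℝ) < n := by linarith
    rw [Real.norm_eq_abs, abs_of_nonneg (Real.log_nonneg hn1), Real.norm_eq_abs, abs_of_nonneg (by positivity)] at h5
    calc (Real.log n) ^ 2 ≤ (Real.sqrt (ε / 3) * (n : ℝ) ^ (δ / 8)) ^ 2 := pow_le_pow_left₀ (Real.log_nonneg hn1) h5 2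
      _ = ε / 3 * (n : ℝ) ^ (δ / 4) := by
          rw [mul_pow, Real.sq_sqrt (by positivity), ← Real.rpow_natCast ((n : ℝ) ^ (δ / 8)), ← Real.rpow_mul hn0.le]
          congr 2
          push_cast
          ring
  filter_upwards [hu, h2 η hη0, sq_big hκ, hbig, hlog2, eventually_ge_atTop 3] with n h3 h4 h5 h6 h7 hn he u H hu1 hu2 hH
  have hn3 : (3 : ℝ) ≤ n := by exact_mod_cast hn
  have hn0 : (0 : ℝ) < n := by linarith
  have hn1 : (1 : ℝ) ≤ n := by linarith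
  have hlog0 : 0 < Real.log n := Real.log_pos (by linarith)
  have hs1 := sing_low n
  have hHr : (H0 : ℝ) + 2 ≤ H := (le_max_left _ _).trans (h6.trans hH)
  have hH02 : H0 + 2 ≤ H := by exact_mod_cast hHr
  have hH1 : (1 : ℝ) ≤ H := by exact_mod_cast (by omega : 1 ≤ H)
  have hHpos : (0 : ℝ) < H := by linarith
  have hlogH : 3 * (c ^ 2 + ε / 3) / ε + 1 ≤ Real.log H := by
    rw [Real.le_log_iff_exp_le hHpos]
    exact (le_max_right _ _).trans (h6.trans hH)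
  have hlogH0 : 0 < Real.log H := lt_of_lt_of_le (by positivity) hlogH
  -- sizes
  have hnHr : (n : ℝ) ≤ (H : ℝ) ^ B := by
    have h8 : (n : ℝ) = ((n : ℝ) ^ δ) ^ (1 / δ) := by
      rw [← Real.rpow_mul hn0.le, mul_one_div_cancel hδ.ne', Real.rpow_one]
    rw [h8]
    calc ((n : ℝ) ^ δ) ^ (1 / δ) ≤ (H : ℝ) ^ (1 / δ) := Real.rpow_le_rpow (by positivity) hH (by positivity)
      _ ≤ (H : ℝ) ^ (B : ℝ) := by
          refine Real.rpow_le_rpow_of_exponent_le hH1 ?_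
          rw [hB]
          push_cast
          have := Nat.le_ceil (1 / δ)
          linarith
      _ = _ := Real.rpow_natCast _ _
  have hnH : (n : ℤ) ≤ (H : ℤ) ^ B := by exact_mod_cast hnHr
  have hH1z : (1 : ℤ) ≤ H := by exact_mod_cast (by omega : 1 ≤ H)
  have hun : (u : ℤ) ≤ n := by
    have h8 : (u : ℝ) ≤ n := by nlinarith
    exact_mod_cast h8
  have h8 := hH0 H (by omega) (u : ℤ) (by
    rw [abs_of_nonneg (by positivity)]
    exact (hun.trans hnH).trans (pow_le_pow_right₀ hH1z (by omega))) (pair Polynomial.X (n : ℤ))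
    (fun i => pair_deg (by rw [natDegree_X]) i) (fun i j => pair_coeff (by omega) (fun j => by
      rw [coeff_X]
      split_ifs
      · rw [abs_one]
        exact one_le_pow₀ hH1z
      · rw [abs_zero]
        positivity) (by
      rw [abs_of_nonneg (by positivity)]
      exact hnH) i j) (fun _ => 0)
  obtain ⟨S, hS⟩ : ∃ S, S = ∑ m ∈ Ioc (u : ℤ) ((u : ℤ) + (H : ℤ)), densS w (fun v : ℕ => (v : ℝ) ^ θ)
    (pair Polynomial.X (n : ℤ)) (fun _ => 0) (fun p => X p ω) m := ⟨_, rfl⟩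
  rw [← hS] at h8
  obtain ⟨hS0, h9⟩ := h8
  rw [pow_one] at h9
  obtain ⟨s, hs⟩ : ∃ s, s = sing n / (Real.log n) ^ 2 := ⟨_, rfl⟩
  have hs0 : 0 < s := by rw [hs]; positivity
  have e1 : sing n * H / (Real.log n) ^ 2 = s * H := by rw [hs]; ring
  rw [e1]
  -- the densities
  have hd : ∀ m ∈ Ioc u (u + H), (c ^ 2 - ε / 3) * s ≤ densS w (fun v : ℕ => (v : ℝ) ^ θ)
      (pair Polynomial.X (n : ℤ)) (fun _ => 0) (fun p => X p ω) m ∧
      densS w (fun v : ℕ => (v : ℝ) ^ θ) (pair Polynomial.X (n : ℤ)) (fun _ => 0) (fun p => X p ω) m ≤ (c ^ 2 + ε / 3) * s := by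
    intro m hm
    rw [mem_Ioc] at hm
    have hum : (u : ℝ) ≤ m := by exact_mod_cast hm.1.le
    have hmu : (m : ℝ) ≤ (u : ℝ) + H := by exact_mod_cast hm.2
    have hm1 : κ * n ≤ m := hu1.trans hum
    have hm2 : (m : ℝ) ≤ (1 - κ) * n := hmu.trans hu2
    have hm3 : (m : ℝ) ≤ n := by nlinarith
    have hmn : m ≤ n := by exact_mod_cast hm3
    have hm4 : κ * n ≤ ((n - m : ℕ) : ℝ) := by
      rw [Nat.cast_sub hmn]
      linarith
    have a1 := h3 m hm1 hmn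
    have a2 := h3 (n - m) hm4 (Nat.sub_le _ _)
    have a3 := h4 he m (h5 m hm1) hmn (h5 (n - m) hm4)
    obtain ⟨x, hx⟩ : ∃ x, x = Real.log n * VV θ m := ⟨_, rfl⟩
    obtain ⟨y, hy⟩ : ∃ y, y = Real.log n * VV θ (n - m) := ⟨_, rfl⟩
    rw [← hx] at a1
    rw [← hy] at a2
    rw [abs_le] at a1 a2
    have e2 : sing n * (VV θ m * VV θ (n - m)) = s * (x * y) := by
      rw [hs, hx, hy]
      field_simp
    rw [e2] at a3
    have hxy1 : x * y ≤ (c + η) ^ 2 := by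
      rw [sq]
      exact mul_le_mul (by linarith [a1.2]) (by linarith [a2.2]) (by linarith [a2.1]) (by linarith)
    have hxy2 : (c - η) ^ 2 ≤ x * y := by
      rw [sq]
      exact mul_le_mul (by linarith [a1.1]) (by linarith [a2.1]) (by linarith) (by linarith [a1.1])
    constructor
    · refine le_trans ?_ a3.1
      calc (c ^ 2 - ε / 3) * s ≤ (Real.exp (-η) * (c - η) ^ 2) * s := mul_le_mul_of_nonneg_right hη2 hs0.le
        _ ≤ (Real.exp (-η) * (x * y)) * s :=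
            mul_le_mul_of_nonneg_right (mul_le_mul_of_nonneg_left hxy2 (Real.exp_pos _).le) hs0.le
        _ = _ := by ring
    · refine a3.2.trans ?_
      calc Real.exp η * (s * (x * y)) = (Real.exp η * (x * y)) * s := by ring
        _ ≤ (Real.exp η * (c + η) ^ 2) * s :=
            mul_le_mul_of_nonneg_right (mul_le_mul_of_nonneg_left hxy1 (Real.exp_pos _).le) hs0.le
        _ ≤ (c ^ 2 + ε / 3) * s := mul_le_mul_of_nonneg_right hη1 hs0.le
  have hSn : S = ∑ m ∈ Ioc u (u + H), densS w (fun v : ℕ => (v : ℝ) ^ θ)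
      (pair Polynomial.X (n : ℤ)) (fun _ => 0) (fun p => X p ω) (m : ℤ) := by
    rw [hS, sum_int]
  have hcard : (#(Ioc u (u + H)) : ℝ) = H := by
    rw [Nat.card_Ioc]
    simp
  have hSlow : (c ^ 2 - ε / 3) * s * H ≤ S := by
    rw [hSn]
    calc (c ^ 2 - ε / 3) * s * H = ∑ _m ∈ Ioc u (u + H), (c ^ 2 - ε / 3) * s := by
          rw [sum_const, nsmul_eq_mul, hcard]
          ring
      _ ≤ _ := sum_le_sum fun m hm => (hd m hm).1
  have hSup : S ≤ (c ^ 2 + ε / 3) * s * H := by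
    rw [hSn]
    calc _ ≤ ∑ _m ∈ Ioc u (u + H), (c ^ 2 + ε / 3) * s := sum_le_sum fun m hm => (hd m hm).2
      _ = (c ^ 2 + ε / 3) * s * H := by
          rw [sum_const, nsmul_eq_mul, hcard]
          ring
  -- the errors
  have herr1 : S / Real.log H ≤ ε / 3 * (s * H) := by
    rw [div_le_iff₀ hlogH0]
    refine hSup.trans ?_
    have h10 : 3 * (c ^ 2 + ε / 3) / ε ≤ Real.log H := by linarith
    rw [div_le_iff₀ hε] at h10
    have h11 : 0 ≤ s * H := by positivity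
    have h12 := mul_le_mul_of_nonneg_right h10 h11
    calc (c ^ 2 + ε / 3) * s * H = (3 * (c ^ 2 + ε / 3) * (s * H)) / 3 := by ring
      _ ≤ (Real.log H * ε * (s * H)) / 3 := by linarith
      _ = _ := by ring
  have herr2 : (H : ℝ) ^ ((1 : ℝ) / 2 + 1 / 4) ≤ ε / 3 * (s * H) := by
    have h10 : (n : ℝ) ^ (δ / 4) ≤ (H : ℝ) ^ ((1 : ℝ) / 4) := by
      calc (n : ℝ) ^ (δ / 4) = ((n : ℝ) ^ δ) ^ ((1 : ℝ) / 4) := by
            rw [← Real.rpow_mul hn0.le]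
            congr 1
            ring
        _ ≤ _ := Real.rpow_le_rpow (by positivity) hH (by norm_num)
    have h11 : (Real.log n) ^ 2 ≤ ε / 3 * (H : ℝ) ^ ((1 : ℝ) / 4) :=
      h7.trans (mul_le_mul_of_nonneg_left h10 (by positivity))
    have h12 : (H : ℝ) ^ ((1 : ℝ) / 2 + 1 / 4) * (H : ℝ) ^ ((1 : ℝ) / 4) = H := by
      rw [← Real.rpow_add hHpos]
      norm_num
    have h13 : 0 < (H : ℝ) ^ ((1 : ℝ) / 2 + 1 / 4) := by positivity
    have h14 : (H : ℝ) ^ ((1 : ℝ) / 2 + 1 / 4) * (Real.log n) ^ 2 ≤ ε / 3 * H := by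
      calc (H : ℝ) ^ ((1 : ℝ) / 2 + 1 / 4) * (Real.log n) ^ 2 ≤
            (H : ℝ) ^ ((1 : ℝ) / 2 + 1 / 4) * (ε / 3 * (H : ℝ) ^ ((1 : ℝ) / 4)) := mul_le_mul_of_nonneg_left h11 h13.le
        _ = ε / 3 * ((H : ℝ) ^ ((1 : ℝ) / 2 + 1 / 4) * (H : ℝ) ^ ((1 : ℝ) / 4)) := by ring
        _ = _ := by rw [h12]
    calc (H : ℝ) ^ ((1 : ℝ) / 2 + 1 / 4) ≤ (ε / 3 * H) / (Real.log n) ^ 2 := by
          rw [le_div_iff₀ (by positivity)]
          exact h14
      _ ≤ ε / 3 * (s * H) := by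
          rw [hs]
          have h15 : ε / 3 * H ≤ sing n * (ε / 3 * H) := le_mul_of_one_le_left (by positivity) hs1
          calc (ε / 3 * H) / (Real.log n) ^ 2 ≤ (sing n * (ε / 3 * H)) / (Real.log n) ^ 2 :=
                div_le_div_of_nonneg_right h15 (by positivity)
            _ = _ := by ring
  have hRR : RR w θ (fun p => X p ω) n u H = (#((Ioc (u : ℤ) ((u : ℤ) + (H : ℤ))).filter fun m => ∀ i,
      SR w (fun v : ℕ => (v : ℝ) ^ θ) (fun _ => 0) (fun p => X p ω) ((pair Polynomial.X (n : ℤ) i).eval m)) : ℝ) := rfl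
  rw [← hRR] at h9
  rw [abs_le] at h9 ⊢
  have g1 := h9.1
  have g2 := h9.2
  constructor
  · linarith
  · linarith

end Pool.Agent.L5helper86.UL
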