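import Pool.Agent.L5helper86.UL.Gold4

/-! Project UL (helper86): the pair `m`, `n - m`: the asymptotic formula. -/

set_option autoImplicit false

namespace Pool.Agent.L5helper86.UL

open Finset Polynomial MeasureTheory ProbabilityTheory Filter Topology
open Pool.Agent.L5helper2.BH (pr mem_pr)
open Pool.Agent.L5helper2.RS (Vp Vp_eq Vp_pos Vp_le Vp_mertens bc)

lemma bad_card (n : ℕ) : #((Ioc 0 n).filter fun m => ¬ (n ≤ m ^ 2 ∧ n ≤ (n - m) ^ 2)) ≤ 2 * (Nat.sqrt n + 1) := by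
  have hsub : (Ioc 0 n).filter (fun m => ¬ (n ≤ m ^ 2 ∧ n ≤ (n - m) ^ 2)) ⊆
      range (Nat.sqrt n + 1) ∪ (range (Nat.sqrt n + 1)).image (fun j => n - j) := by
    intro m hm
    rw [mem_filter, mem_Ioc] at hm
    rw [Finset.mem_union, mem_range, mem_image]
    rw [not_and_or, not_le, not_le] at hm
    rcases hm.2 with h | h
    · left
      have h1 : m ≤ Nat.sqrt n := Nat.le_sqrt'.2 h.le
      omega
    · right
      have h1 : n - m ≤ Nat.sqrt n := Nat.le_sqrt'.2 h.le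
      exact ⟨n - m, mem_range.2 (by omega), by omega⟩
  refine (card_le_card hsub).trans ((card_union_le _ _).trans ?_)
  have h1 := card_image_le (s := range (Nat.sqrt n + 1)) (f := fun j => n - j)
  rw [card_range] at h1 ⊢
  omega

/-- the asymptotic formula -/
theorem gold_full {Ω : Type} [MeasurableSpace Ω] {P : Measure Ω} {X : ℕ → Ω → ℕ} (h : Sys P X) {θ : ℝ} (hθ : 0 < θ)
    {w : ℕ → ℝ} (hwm : Monotone w) (hw1 : ∀ᶠ v : ℕ in atTop, (Real.log v) ^ 5 ≤ w v)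
    (hw : ∀ ε : ℝ, 0 < ε → ∀ᶠ n : ℕ in atTop, w n ≤ Real.exp (ε * Real.log n / Real.log (Real.log n))) :
    ∀ᵐ ω ∂P, ∀ ε : ℝ, 0 < ε → ∀ᶠ n : ℕ in atTop, Even n →
      |RR w θ (fun p => X p ω) n 0 n - (Real.exp (-Real.eulerMascheroniConstant) / θ) ^ 2 *
        (sing n * n / (Real.log n) ^ 2)| ≤ ε * (sing n * n / (Real.log n) ^ 2) := by
  classical
  obtain ⟨c, hc⟩ : ∃ c, c = Real.exp (-Real.eulerMascheroniConstant) / θ := ⟨_, rfl⟩
  have hc0 : 0 < c := by rw [hc]; exact div_pos (Real.exp_pos _) hθ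
  filter_upwards [semi_law h hwm (z_mono hθ) (z_bound hθ) hw, gold_dens h hθ hw1 (hw_pow hθ hw)] with ω h1 h2 ε hε
  obtain ⟨η, hη0, hηc, hη1, hη2⟩ := choose_eta hc0 (show 0 < ε / 6 by positivity)
  have hconv := conv_sum hθ
  rw [← hc] at hconv ⊢
  have hQ1 := hconv.eventually_le_const (show c ^ 2 < (c + η) ^ 2 by nlinarith)
  have hQ2 := hconv.eventually_const_le (show (c - η) ^ 2 < c ^ 2 by nlinarith)
  have hsml : ∀ᶠ n : ℕ in atTop, (2 * Real.sqrt n + 2) * (Real.log n) ^ 2 ≤ ε / 6 * n ∧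
      (n : ℝ) ^ ((1 : ℝ) / 2 + 1 / 4) * (Real.log n) ^ 2 ≤ ε / 6 * n := by
    have h3 := (isLittleO_log_rpow_atTop (show (0 : ℝ) < 1 / 8 by norm_num)).bound
      (show 0 < Real.sqrt (ε / 24) by positivity)
    have h4 := tendsto_natCast_atTop_atTop.eventually h3
    filter_upwards [h4, eventually_ge_atTop 2] with n h5 hn
    have hn1 : (1 : ℝ) ≤ n := by exact_mod_cast (by omega : 1 ≤ n)
    have hn0 : (0 : ℝ) < n := by linarith
    rw [Real.norm_eq_abs, abs_of_nonneg (Real.log_nonneg hn1), Real.norm_eq_abs, abs_of_nonneg (by positivity)] at h5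
    have h6 : (Real.log n) ^ 2 ≤ ε / 24 * (n : ℝ) ^ ((1 : ℝ) / 4) := by
      calc (Real.log n) ^ 2 ≤ (Real.sqrt (ε / 24) * (n : ℝ) ^ ((1 : ℝ) / 8)) ^ 2 :=
            pow_le_pow_left₀ (Real.log_nonneg hn1) h5 2
        _ = ε / 24 * (n : ℝ) ^ ((1 : ℝ) / 4) := by
            rw [mul_pow, Real.sq_sqrt (by positivity), ← Real.rpow_natCast ((n : ℝ) ^ ((1 : ℝ) / 8)), ← Real.rpow_mul hn0.le]
            norm_num
    have h7 : (n : ℝ) ^ ((1 : ℝ) / 2 + 1 / 4) * (n : ℝ) ^ ((1 : ℝ) / 4) = n := by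
      rw [← Real.rpow_add hn0]
      norm_num
    have h8 : (n : ℝ) ^ ((1 : ℝ) / 2 + 1 / 4) * (Real.log n) ^ 2 ≤ ε / 24 * n := by
      calc (n : ℝ) ^ ((1 : ℝ) / 2 + 1 / 4) * (Real.log n) ^ 2 ≤
            (n : ℝ) ^ ((1 : ℝ) / 2 + 1 / 4) * (ε / 24 * (n : ℝ) ^ ((1 : ℝ) / 4)) :=
            mul_le_mul_of_nonneg_left h6 (by positivity)
        _ = ε / 24 * ((n : ℝ) ^ ((1 : ℝ) / 2 + 1 / 4) * (n : ℝ) ^ ((1 : ℝ) / 4)) := by ring
        _ = _ := by rw [h7]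
    have h9 : 2 * Real.sqrt n + 2 ≤ 4 * (n : ℝ) ^ ((1 : ℝ) / 2 + 1 / 4) := by
      have h10 : Real.sqrt n ≤ (n : ℝ) ^ ((1 : ℝ) / 2 + 1 / 4) := by
        rw [Real.sqrt_eq_rpow]
        exact Real.rpow_le_rpow_of_exponent_le hn1 (by norm_num)
      have h11 : 1 ≤ (n : ℝ) ^ ((1 : ℝ) / 2 + 1 / 4) := Real.one_le_rpow hn1 (by norm_num)
      linarith
    have h12 : 0 ≤ ε * n := by positivity
    constructor
    · calc (2 * Real.sqrt n + 2) * (Real.log n) ^ 2 ≤ (4 * (n : ℝ) ^ ((1 : ℝ) / 2 + 1 / 4)) * (Real.log n) ^ 2 :=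
            mul_le_mul_of_nonneg_right h9 (by positivity)
        _ = 4 * ((n : ℝ) ^ ((1 : ℝ) / 2 + 1 / 4) * (Real.log n) ^ 2) := by ring
        _ ≤ 4 * (ε / 24 * n) := mul_le_mul_of_nonneg_left h8 (by norm_num)
        _ = _ := by ring
    · refine h8.trans ?_
      linarith
  filter_upwards [h1 2 2 2 1 (1 / 4) (by norm_num), h2 η hη0, hQ1, hQ2, hsml, eventually_ge_atTop 3,
    logT.eventually_ge_atTop (6 * (c ^ 2 + ε) / ε + 1)] with n h3 h4 h5 h6 h7 hn hlogn he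
  have hn3 : (3 : ℝ) ≤ n := by exact_mod_cast hn
  have hn0 : (0 : ℝ) < n := by linarith
  have hn1 : (1 : ℝ) ≤ n := by linarith
  have hlog0 : 0 < Real.log n := Real.log_pos (by linarith)
  have hs1 := sing_low n
  have hn1z : (1 : ℤ) ≤ n := by exact_mod_cast (by omega : 1 ≤ n)
  have h8 := h3 0 (by rw [abs_zero]; positivity) (pair Polynomial.X (n : ℤ))
    (fun i => pair_deg (by rw [natDegree_X]) i) (fun i j => pair_coeff (B := 1) (by omega) (fun j => by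
      rw [coeff_X]
      split_ifs
      · rw [abs_one, pow_one]
        exact hn1z
      · rw [abs_zero]
        positivity) (by
      rw [abs_of_nonneg (by positivity), pow_one]) i j) (fun _ => 0)
  obtain ⟨D, hD⟩ : ∃ D : ℤ → ℝ, D = fun m => densS w (fun v : ℕ => (v : ℝ) ^ θ)
    (pair Polynomial.X (n : ℤ)) (fun _ => 0) (fun p => X p ω) m := ⟨_, rfl⟩
  have hD01 : ∀ m, 0 ≤ D m ∧ D m ≤ 1 := fun m => by rw [hD]; exact densS_01' _ _ _ _ _ _
  obtain ⟨S, hS⟩ : ∃ S, S = ∑ m ∈ Ioc (0 : ℤ) ((0 : ℤ) + (n : ℤ)), D m := ⟨_, rfl⟩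
  have hS' : S = ∑ m ∈ Ioc (0 : ℤ) ((0 : ℤ) + (n : ℤ)), densS w (fun v : ℕ => (v : ℝ) ^ θ)
    (pair Polynomial.X (n : ℤ)) (fun _ => 0) (fun p => X p ω) m := by rw [hS, hD]
  rw [← hS'] at h8
  obtain ⟨hS0, h9⟩ := h8
  rw [pow_one] at h9
  have hSn : S = ∑ m ∈ Ioc 0 n, D (m : ℤ) := by
    have := sum_int 0 n D
    rw [hS]
    simpa using this
  obtain ⟨T, hT⟩ : ∃ T, T = sing n * n / (Real.log n) ^ 2 := ⟨_, rfl⟩
  have hT0 : 0 < T := by rw [hT]; positivity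
  rw [← hT]
  -- good and bad
  obtain ⟨Gd, hGd⟩ : ∃ Gd, Gd = (Ioc 0 n).filter (fun m => n ≤ m ^ 2 ∧ n ≤ (n - m) ^ 2) := ⟨_, rfl⟩
  obtain ⟨Bd, hBd⟩ : ∃ Bd, Bd = (Ioc 0 n).filter (fun m => ¬ (n ≤ m ^ 2 ∧ n ≤ (n - m) ^ 2)) := ⟨_, rfl⟩
  have hsplit : S = ∑ m ∈ Gd, D (m : ℤ) + ∑ m ∈ Bd, D (m : ℤ) := by
    rw [hSn, hGd, hBd, sum_filter_add_sum_filter_not]
  have hBdc : (#Bd : ℝ) ≤ 2 * Real.sqrt n + 2 := by
    have h10 : (#Bd : ℝ) ≤ ((2 * (Nat.sqrt n + 1) : ℕ) : ℝ) := by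
      rw [hBd]
      exact_mod_cast bad_card n
    refine h10.trans ?_
    push_cast
    have := Real.nat_sqrt_le_real_sqrt (a := n)
    linarith
  have hBdS : ∑ m ∈ Bd, D (m : ℤ) ≤ 2 * Real.sqrt n + 2 := by
    refine le_trans ?_ hBdc
    calc ∑ m ∈ Bd, D (m : ℤ) ≤ ∑ _m ∈ Bd, (1 : ℝ) := sum_le_sum fun m _ => (hD01 _).2
      _ = #Bd := by simp
  have hBdS0 : 0 ≤ ∑ m ∈ Bd, D (m : ℤ) := sum_nonneg fun m _ => (hD01 _).1
  obtain ⟨V, hV⟩ : ∃ V : ℝ, V = ∑ m ∈ Ico 1 n, VV θ m * VV θ (n - m) := ⟨_, rfl⟩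
  have hVp : ∀ m, 0 < VV θ m * VV θ (n - m) := fun m => mul_pos (VV_pos _ _) (VV_pos _ _)
  have hVle : ∀ m, VV θ m * VV θ (n - m) ≤ 1 := fun m => mul_le_one₀ (VV_le _ _) (VV_pos _ _).le (VV_le _ _)
  have hGdI : Gd ⊆ Ico 1 n := by
    intro m hm
    rw [hGd, mem_filter, mem_Ioc] at hm
    rw [mem_Ico]
    refine ⟨hm.1.1, ?_⟩
    by_contra hcon
    have h10 : m = n := by omega
    have h11 := hm.2.2
    rw [h10, Nat.sub_self] at h11
    omega
  have hG1 : ∑ m ∈ Gd, VV θ m * VV θ (n - m) ≤ V := by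
    rw [hV]
    exact sum_le_sum_of_subset_of_nonneg hGdI fun m _ _ => (hVp m).le
  have hG2 : V ≤ ∑ m ∈ Gd, VV θ m * VV θ (n - m) + (2 * Real.sqrt n + 2) := by
    have h10 : V ≤ ∑ m ∈ Gd ∪ Bd, VV θ m * VV θ (n - m) := by
      rw [hV]
      refine sum_le_sum_of_subset_of_nonneg ?_ fun m _ _ => (hVp m).le
      intro m hm
      rw [mem_Ico] at hm
      rw [hGd, hBd, filter_union_filter_not_eq, mem_Ioc]
      omega
    have h11 : ∑ m ∈ Gd ∪ Bd, VV θ m * VV θ (n - m) = ∑ m ∈ Gd, VV θ m * VV θ (n - m) + ∑ m ∈ Bd, VV θ m * VV θ (n - m) := by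
      rw [hGd, hBd, sum_union (disjoint_filter_filter_not _ _ _)]
    rw [h11] at h10
    have h12 : ∑ m ∈ Bd, VV θ m * VV θ (n - m) ≤ #Bd := by
      calc ∑ m ∈ Bd, VV θ m * VV θ (n - m) ≤ ∑ _m ∈ Bd, (1 : ℝ) := sum_le_sum fun m _ => hVle m
        _ = #Bd := by simp
    linarith
  have hd : ∀ m ∈ Gd, Real.exp (-η) * (sing n * (VV θ m * VV θ (n - m))) ≤ D (m : ℤ) ∧
      D (m : ℤ) ≤ Real.exp η * (sing n * (VV θ m * VV θ (n - m))) := by
    intro m hm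
    rw [hGd, mem_filter, mem_Ioc] at hm
    have := h4 he m hm.2.1 hm.1.2 hm.2.2
    rw [hD]
    exact this
  have hV0 : 0 ≤ V := by rw [hV]; exact sum_nonneg fun m _ => (hVp m).le
  have hsV : sing n * V = ((Real.log n) ^ 2 / n * V) * T := by
    rw [hT]
    field_simp
  rw [← hV] at h5 h6
  obtain ⟨Q, hQ⟩ : ∃ Q, Q = (Real.log n) ^ 2 / n * V := ⟨_, rfl⟩
  rw [← hQ] at h5 h6 hsV
  have hsq : sing n * (2 * Real.sqrt n + 2) ≤ ε / 6 * T := by
    have h10 : (2 * Real.sqrt n + 2) ≤ (ε / 6 * n) / (Real.log n) ^ 2 := by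
      rw [le_div_iff₀ (by positivity)]
      exact h7.1
    calc sing n * (2 * Real.sqrt n + 2) ≤ sing n * ((ε / 6 * n) / (Real.log n) ^ 2) :=
          mul_le_mul_of_nonneg_left h10 (by linarith)
      _ = ε / 6 * T := by rw [hT]; ring
  have hsq' : 2 * Real.sqrt n + 2 ≤ ε / 6 * T := by
    refine le_trans ?_ hsq
    exact le_mul_of_one_le_left (by positivity) hs1
  have hup : S ≤ (c ^ 2 + ε / 6) * T + ε / 6 * T := by
    have h10 : ∑ m ∈ Gd, D (m : ℤ) ≤ Real.exp η * (sing n * V) := by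
      calc ∑ m ∈ Gd, D (m : ℤ) ≤ ∑ m ∈ Gd, Real.exp η * (sing n * (VV θ m * VV θ (n - m))) :=
            sum_le_sum fun m hm => (hd m hm).2
        _ = Real.exp η * (sing n * ∑ m ∈ Gd, VV θ m * VV θ (n - m)) := by rw [← mul_sum, ← mul_sum]
        _ ≤ _ := mul_le_mul_of_nonneg_left (mul_le_mul_of_nonneg_left hG1 (by linarith)) (Real.exp_pos _).le
    have h11 : Real.exp η * (sing n * V) ≤ (c ^ 2 + ε / 6) * T := by
      rw [hsV]
      calc Real.exp η * (Q * T) = (Real.exp η * Q) * T := by ring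
        _ ≤ (Real.exp η * (c + η) ^ 2) * T :=
            mul_le_mul_of_nonneg_right (mul_le_mul_of_nonneg_left h5 (Real.exp_pos _).le) hT0.le
        _ ≤ _ := mul_le_mul_of_nonneg_right hη1 hT0.le
    linarith
  have hlo : (c ^ 2 - ε / 6) * T - ε / 6 * T ≤ S := by
    have h10 : Real.exp (-η) * (sing n * (V - (2 * Real.sqrt n + 2))) ≤ ∑ m ∈ Gd, D (m : ℤ) := by
      calc Real.exp (-η) * (sing n * (V - (2 * Real.sqrt n + 2))) ≤
            Real.exp (-η) * (sing n * ∑ m ∈ Gd, VV θ m * VV θ (n - m)) :=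
            mul_le_mul_of_nonneg_left (mul_le_mul_of_nonneg_left (by linarith) (by linarith)) (Real.exp_pos _).le
        _ = ∑ m ∈ Gd, Real.exp (-η) * (sing n * (VV θ m * VV θ (n - m))) := by rw [← mul_sum, ← mul_sum]
        _ ≤ _ := sum_le_sum fun m hm => (hd m hm).1
    have h11 : (c ^ 2 - ε / 6) * T ≤ Real.exp (-η) * (sing n * V) := by
      rw [hsV]
      calc (c ^ 2 - ε / 6) * T ≤ (Real.exp (-η) * (c - η) ^ 2) * T := mul_le_mul_of_nonneg_right hη2 hT0.le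
        _ ≤ (Real.exp (-η) * Q) * T :=
            mul_le_mul_of_nonneg_right (mul_le_mul_of_nonneg_left h6 (Real.exp_pos _).le) hT0.le
        _ = _ := by ring
    have h12 : Real.exp (-η) * (sing n * (2 * Real.sqrt n + 2)) ≤ ε / 6 * T := by
      have h13 : Real.exp (-η) ≤ 1 := Real.exp_le_one_iff.2 (by linarith)
      refine le_trans ?_ hsq
      exact mul_le_of_le_one_left (by positivity) h13
    have h14 : Real.exp (-η) * (sing n * (V - (2 * Real.sqrt n + 2))) =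
        Real.exp (-η) * (sing n * V) - Real.exp (-η) * (sing n * (2 * Real.sqrt n + 2)) := by ring
    linarith
  have herr1 : S / Real.log n ≤ ε / 6 * T := by
    rw [div_le_iff₀ hlog0]
    have h10 : 6 * (c ^ 2 + ε) / ε ≤ Real.log n := by linarith
    rw [div_le_iff₀ hε] at h10
    have h12 := mul_le_mul_of_nonneg_right h10 hT0.le
    have h13 : S ≤ (c ^ 2 + ε) * T := by
      have : 0 ≤ ε * T := by positivity
      linarith
    linarith
  have herr2 : (n : ℝ) ^ ((1 : ℝ) / 2 + 1 / 4) ≤ ε / 6 * T := by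
    have h10 : (n : ℝ) ^ ((1 : ℝ) / 2 + 1 / 4) ≤ (ε / 6 * n) / (Real.log n) ^ 2 := by
      rw [le_div_iff₀ (by positivity)]
      exact h7.2
    refine h10.trans ?_
    have h15 : ε / 6 * n ≤ sing n * (ε / 6 * n) := le_mul_of_one_le_left (by positivity) hs1
    calc (ε / 6 * n) / (Real.log n) ^ 2 ≤ (sing n * (ε / 6 * n)) / (Real.log n) ^ 2 :=
          div_le_div_of_nonneg_right h15 (by positivity)
      _ = _ := by rw [hT]; ring
  have hRR : RR w θ (fun p => X p ω) n 0 n = (#((Ioc (0 : ℤ) ((0 : ℤ) + (n : ℤ))).filter fun m => ∀ i,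
      SR w (fun v : ℕ => (v : ℝ) ^ θ) (fun _ => 0) (fun p => X p ω) ((pair Polynomial.X (n : ℤ) i).eval m)) : ℝ) := by
    unfold RR
    push_cast
    rfl
  rw [← hRR] at h9
  rw [abs_le] at h9 ⊢
  have g1 := h9.1
  have g2 := h9.2
  have g3 : 0 ≤ ε * T := by positivity
  constructor
  · linarith
  · linarith

end Pool.Agent.L5helper86.UL
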