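import Mathlib

/-! Project UL (helper86): the elementary inequality behind one step of the induction over the primes. -/

set_option autoImplicit false

namespace Pool.Agent.L5helper86.UL

open Finset

lemma young {a b : ℝ} (ha : 0 ≤ a) (hb : 0 ≤ b) (n : ℕ) : a ^ n * b ≤ a ^ (n + 1) + b ^ (n + 1) := by
  rcases le_total b a with h | h
  · calc a ^ n * b ≤ a ^ n * a := mul_le_mul_of_nonneg_left h (by positivity)
      _ = a ^ (n + 1) := by ring
      _ ≤ _ := le_add_of_nonneg_right (by positivity)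
  · calc a ^ n * b ≤ b ^ n * b := mul_le_mul_of_nonneg_right (pow_le_pow_left₀ ha h n) hb
      _ = b ^ (n + 1) := by ring
      _ ≤ _ := le_add_of_nonneg_left (by positivity)

lemma young' {a b : ℝ} (ha : 0 ≤ a) (hb : 0 ≤ b) (n : ℕ) : a * b ^ n ≤ a ^ (n + 1) + b ^ (n + 1) := by
  have := young hb ha n
  linarith [mul_comm a (b ^ n)]

lemma young_abs (x y : ℝ) (n : ℕ) : |x| ^ (2 * n + 1) * |y| ≤ x ^ (2 * n + 2) + y ^ (2 * n + 2) := by
  have h := young (abs_nonneg x) (abs_nonneg y) (2 * n + 1)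
  have e : ∀ z : ℝ, |z| ^ (2 * n + 1 + 1) = z ^ (2 * n + 2) := by
    intro z
    rw [show 2 * n + 1 + 1 = 2 * (n + 1) by ring, pow_mul, pow_mul, sq_abs]
  rwa [e, e] at h

lemma taylor (n : ℕ) : ∃ C : ℝ, 0 < C ∧ ∀ x y : ℝ, (x - y) ^ (2 * n + 2) ≤
    x ^ (2 * n + 2) - (2 * n + 2) * x ^ (2 * n + 1) * y + C * (x ^ (2 * n) * y ^ 2 + y ^ (2 * n + 2)) := by
  induction n with
  | zero =>
    refine ⟨1, one_pos, fun x y => ?_⟩
    simp only [mul_zero, zero_add, pow_one, pow_zero, CharP.cast_eq_zero]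
    nlinarith [sq_nonneg y]
  | succ n ih =>
    obtain ⟨C, hC, ih⟩ := ih
    refine ⟨(6 * n + 7) * 2 + 8 * C, by positivity, fun x y => ?_⟩
    have ha : 0 ≤ x ^ 2 := sq_nonneg x
    have hb : 0 ≤ y ^ 2 := sq_nonneg y
    have h1 : x ^ (2 * n) * y ^ 4 ≤ x ^ (2 * n + 2) * y ^ 2 + y ^ (2 * n + 4) := by
      have h := mul_le_mul_of_nonneg_right (young ha hb n) hb
      calc x ^ (2 * n) * y ^ 4 = (x ^ 2) ^ n * y ^ 2 * y ^ 2 := by rw [← pow_mul]; ring
        _ ≤ _ := h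
        _ = _ := by rw [← pow_mul, ← pow_mul]; ring
    have h2 : x ^ 2 * y ^ (2 * n + 2) ≤ x ^ (2 * n + 2) * y ^ 2 + y ^ (2 * n + 4) := by
      have h := mul_le_mul_of_nonneg_right (young' ha hb n) hb
      calc x ^ 2 * y ^ (2 * n + 2) = x ^ 2 * (y ^ 2) ^ n * y ^ 2 := by rw [← pow_mul]; ring
        _ ≤ _ := h
        _ = _ := by rw [← pow_mul, ← pow_mul]; ring
    have h3 : -(x ^ (2 * n + 1) * y ^ 3) ≤ x ^ (2 * n + 2) * y ^ 2 + x ^ (2 * n) * y ^ 4 := by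
      have h4 : 0 ≤ x ^ (2 * n) * y ^ 2 := by
        rw [pow_mul]
        positivity
      have h5 : -(x * y) ≤ x ^ 2 + y ^ 2 := by nlinarith [sq_nonneg (x + y)]
      have h6 := mul_le_mul_of_nonneg_left h5 h4
      calc -(x ^ (2 * n + 1) * y ^ 3) = x ^ (2 * n) * y ^ 2 * -(x * y) := by ring
        _ ≤ _ := h6
        _ = _ := by ring
    have h7 : (x - y) ^ 2 ≤ 2 * x ^ 2 + 2 * y ^ 2 := by nlinarith [sq_nonneg (x + y)]
    have h8 : 0 ≤ x ^ (2 * n) * y ^ 2 + y ^ (2 * n + 2) := by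
      rw [pow_mul, show 2 * n + 2 = 2 * (n + 1) by ring, pow_mul]
      positivity
    have h9 := mul_le_mul_of_nonneg_left h7 (mul_nonneg hC.le h8)
    have h10 := mul_le_mul_of_nonneg_right (ih x y) (sq_nonneg (x - y))
    have h11 : (0 : ℝ) ≤ (2 * n + 2) := by positivity
    have h12 := mul_le_mul_of_nonneg_left h3 h11
    have h13 := mul_le_mul_of_nonneg_left h1 (by positivity : (0 : ℝ) ≤ 2 * n + 2)
    have h14 := mul_le_mul_of_nonneg_left h1 (by positivity : (0 : ℝ) ≤ 2 * C)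
    have h15 := mul_le_mul_of_nonneg_left h2 (by positivity : (0 : ℝ) ≤ 2 * C)
    have h16 : 0 ≤ y ^ (2 * n + 4) := by
      rw [show 2 * n + 4 = 2 * (n + 2) by ring, pow_mul]
      positivity
    have h17 : 0 ≤ x ^ (2 * n + 2) * y ^ 2 := by
      rw [show 2 * n + 2 = 2 * (n + 1) by ring, pow_mul]
      positivity
    have h18 : (0 : ℝ) ≤ n := by positivity
    have h19 := mul_nonneg h18 h16
    have h20 := mul_nonneg h18 h17
    have h21 := mul_nonneg hC.le h16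
    have h22 := mul_nonneg hC.le h17
    have e1 : (x - y) ^ (2 * (n + 1) + 2) = (x - y) ^ (2 * n + 2) * (x - y) ^ 2 := by ring
    have e2 : (x ^ (2 * n + 2) - (2 * n + 2) * x ^ (2 * n + 1) * y + C * (x ^ (2 * n) * y ^ 2 + y ^ (2 * n + 2))) *
        (x - y) ^ 2 = x ^ (2 * n + 4) - (2 * n + 4) * (x ^ (2 * n + 3) * y) + (4 * n + 5) * (x ^ (2 * n + 2) * y ^ 2) +
        (2 * n + 2) * -(x ^ (2 * n + 1) * y ^ 3) + C * (x ^ (2 * n) * y ^ 2 + y ^ (2 * n + 2)) * (x - y) ^ 2 := by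
      ring
    have e3 : C * (x ^ (2 * n) * y ^ 2 + y ^ (2 * n + 2)) * (2 * x ^ 2 + 2 * y ^ 2) =
        2 * C * (x ^ (2 * n + 2) * y ^ 2) + 2 * C * (x ^ (2 * n) * y ^ 4) + 2 * C * (x ^ 2 * y ^ (2 * n + 2)) +
        2 * C * y ^ (2 * n + 4) := by ring
    have e4 : x ^ (2 * (n + 1) + 2) - (2 * ((n + 1 : ℕ) : ℝ) + 2) * x ^ (2 * (n + 1) + 1) * y +
        ((6 * n + 7) * 2 + 8 * C) * (x ^ (2 * (n + 1)) * y ^ 2 + y ^ (2 * (n + 1) + 2)) =
        x ^ (2 * n + 4) - (2 * n + 4) * (x ^ (2 * n + 3) * y) +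
        ((6 * n + 7) * 2 + 8 * C) * (x ^ (2 * n + 2) * y ^ 2) + ((6 * n + 7) * 2 + 8 * C) * y ^ (2 * n + 4) := by
      push_cast
      ring
    rw [e1, e4]
    rw [e2] at h10
    rw [e3] at h9
    nlinarith

/-- power means -/
lemma pow_sum_le {ι : Type} (S : Finset ι) (z : ι → ℝ) (n : ℕ) {B : ℝ} (hB : (#S : ℝ) ≤ B) :
    (∑ i ∈ S, z i) ^ (2 * n + 2) ≤ B ^ (2 * n + 1) * ∑ i ∈ S, z i ^ (2 * n + 2) := by
  have e : ∀ z : ℝ, |z| ^ (2 * n + 2) = z ^ (2 * n + 2) := by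
    intro z
    rw [show 2 * n + 2 = 2 * (n + 1) by ring, pow_mul, pow_mul, sq_abs]
  have h1 : (∑ i ∈ S, z i) ^ (2 * n + 2) ≤ (∑ i ∈ S, |z i|) ^ (2 * n + 2) := by
    rw [← e]
    exact pow_le_pow_left₀ (abs_nonneg _) (abs_sum_le_sum_abs _ _) _
  refine h1.trans ?_
  have h0 : 0 ≤ ∑ i ∈ S, z i ^ (2 * n + 2) := sum_nonneg fun i _ => by
    rw [← e]
    positivity
  rcases S.eq_empty_or_nonempty with rfl | hS
  · simp
  · have hc : (0 : ℝ) < #S := by exact_mod_cast hS.card_pos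
    have h2 := pow_sum_div_card_le_sum_pow (s := S) (f := fun i => |z i|) (fun i _ => abs_nonneg _) (2 * n + 1)
    rw [div_le_iff₀ (by positivity)] at h2
    simp only [show 2 * n + 1 + 1 = 2 * n + 2 by ring, e] at h2
    refine h2.trans ?_
    rw [mul_comm]
    exact mul_le_mul_of_nonneg_right (pow_le_pow_left₀ hc.le hB _) h0

lemma arith1 {u v w a b c : ℝ} (hu : 0 ≤ u) (hv : 0 ≤ v) (hw : 0 ≤ w) (ha : 0 ≤ a) (hb : 0 ≤ b) (hc : 0 ≤ c) :
    (u * a + v * b) + (w * a + v * c) ≤ (u + v + w + v) * (a + b + c) := by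
  have e : (u + v + w + v) * (a + b + c) - ((u * a + v * b) + (w * a + v * c)) =
      u * b + u * c + v * a + v * c + w * b + w * c + v * a + v * b := by ring
  have : 0 ≤ u * b + u * c + v * a + v * c + w * b + w * c + v * a + v * b := by positivity
  linarith

lemma arith3 {U V a b c d : ℝ} (hU : U ≤ a * d) (hV : V ≤ b * c) (ha : 0 ≤ a) (hb : 0 ≤ b) (hc : 0 ≤ c)
    (hd : 0 ≤ d) : U + V ≤ (a + b) * (c + d) := by
  have : 0 ≤ a * c + b * d := by positivity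
  have e : (a + b) * (c + d) = a * d + b * c + (a * c + b * d) := by ring
  linarith

lemma arith2 {p a b c d x y z : ℝ} (ha : 0 ≤ a) (hb : 0 ≤ b) (hc : 0 ≤ c) (hd : 0 ≤ d) (hx : 0 ≤ x) (hy : 0 ≤ y)
    (hz : 0 ≤ z) : (p * a + y * (a + b + c) + z * (c + d)) + x * (a + b + c) ≤
      p * a + (x + y + z + 1) * (a + b + c + d) := by
  have e : p * a + (x + y + z + 1) * (a + b + c + d) - ((p * a + y * (a + b + c) + z * (c + d)) + x * (a + b + c)) =
      x * d + y * d + z * a + z * b + (a + b + c + d) := by ring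
  have : 0 ≤ x * d + y * d + z * a + z * b + (a + b + c + d) := by positivity
  linarith

open Classical in
/-- one step -/
theorem one_step {𝒜 : Type} [Fintype 𝒜] (n B : ℕ) : ∃ C : ℝ, 0 < C ∧ ∀ (p : ℕ) (κ : 𝒜 → ℕ → ℕ → Prop)
    (x : 𝒜 → ℕ → ℝ) (Sp Exc : Finset ℕ) (kb : 𝒜 → ℕ), Sp ⊆ range p → Exc ⊆ range p → #Sp ≤ B → #Exc ≤ B →
    (∀ r ∈ range p, ∀ α, (∀ t ∈ range p, κ α r t) ∨ #((range p).filter (κ α r)) ≤ B) →
    (∀ r ∈ range p \ Sp, ∀ α, #((range p).filter (κ α r)) ≤ B) →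
    (∀ α, ∀ t ∈ range p \ Exc, #((range p \ Sp).filter fun r => κ α r t) = kb α) →
    (∀ α, ∀ t ∈ range p, #((range p \ Sp).filter fun r => κ α r t) ≤ B) → (∀ α, kb α ≤ B) →
    ∑ r ∈ range p, ((∑ α, ∑ t ∈ range p, x α t) - ∑ α, ∑ t ∈ (range p).filter (κ α r), x α t) ^ (2 * n + 2) ≤
      p * (∑ α, ∑ t ∈ range p, x α t) ^ (2 * n + 2) +
      C * ((∑ α, ∑ t ∈ range p, x α t) ^ (2 * n + 2) + ∑ α, (∑ t ∈ range p, x α t) ^ (2 * n + 2) +
        ∑ α, ∑ t ∈ range p, x α t ^ (2 * n + 2) +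
        (∑ α, ∑ t ∈ range p, x α t) ^ (2 * n) * ∑ α, ∑ t ∈ range p, x α t ^ 2) := by
  obtain ⟨C0, hC0, hT⟩ := taylor n
  obtain ⟨A, hA⟩ : ∃ A : ℝ, A = Fintype.card 𝒜 := ⟨_, rfl⟩
  have hA0 : 0 ≤ A := by rw [hA]; positivity
  have hB0 : (0 : ℝ) ≤ B := by positivity
  obtain ⟨c1, hc1⟩ : ∃ c1 : ℝ, c1 = B * (2 ^ (2 * n + 1) * (1 + A ^ (2 * n + 1) * (1 + B ^ (2 * n + 1)))) := ⟨_, rfl⟩
  obtain ⟨c2, hc2⟩ : ∃ c2 : ℝ, c2 = (2 * n + 2) * (B * A + B + B * A * B + B) := ⟨_, rfl⟩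
  obtain ⟨c3, hc3⟩ : ∃ c3 : ℝ, c3 = C0 * (A * B * B + A ^ (2 * n + 1) * B ^ (2 * n + 1) * B) := ⟨_, rfl⟩
  have h1p : 0 ≤ c1 := by rw [hc1]; positivity
  have h2p : 0 ≤ c2 := by rw [hc2]; positivity
  have h3p : 0 ≤ c3 := by rw [hc3]; positivity
  refine ⟨c1 + c2 + c3 + 1, by positivity, ?_⟩
  intro p κ x Sp Exc kb hSp hExc hSpB hExcB hfull hnorm hconst hcol hkb
  obtain ⟨Y, hY⟩ : ∃ Y : 𝒜 → ℕ → ℝ, Y = fun α r => ∑ t ∈ (range p).filter (κ α r), x α t := ⟨_, rfl⟩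
  obtain ⟨X, hX⟩ : ∃ X : 𝒜 → ℝ, X = fun α => ∑ t ∈ range p, x α t := ⟨_, rfl⟩
  obtain ⟨x0, hx0⟩ : ∃ x0 : ℝ, x0 = ∑ α, ∑ t ∈ range p, x α t := ⟨_, rfl⟩
  obtain ⟨S0, hS0⟩ : ∃ S0 : ℝ, S0 = x0 ^ (2 * n + 2) := ⟨_, rfl⟩
  obtain ⟨S1, hS1⟩ : ∃ S1 : ℝ, S1 = ∑ α, X α ^ (2 * n + 2) := ⟨_, rfl⟩
  obtain ⟨S2, hS2⟩ : ∃ S2 : ℝ, S2 = ∑ α, ∑ t ∈ range p, x α t ^ (2 * n + 2) := ⟨_, rfl⟩
  obtain ⟨Q, hQ⟩ : ∃ Q : ℝ, Q = ∑ α, ∑ t ∈ range p, x α t ^ 2 := ⟨_, rfl⟩
  obtain ⟨S3, hS3⟩ : ∃ S3 : ℝ, S3 = x0 ^ (2 * n) * Q := ⟨_, rfl⟩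
  have ev : ∀ z : ℝ, 0 ≤ z ^ (2 * n + 2) := fun z => by
    rw [show 2 * n + 2 = 2 * (n + 1) by ring, pow_mul]
    positivity
  have ev2 : ∀ z : ℝ, 0 ≤ z ^ (2 * n) := fun z => by
    rw [pow_mul]
    positivity
  have hS0p : 0 ≤ S0 := by rw [hS0]; exact ev _
  have hS1p : 0 ≤ S1 := by rw [hS1]; exact sum_nonneg fun α _ => ev _
  have hS2p : 0 ≤ S2 := by rw [hS2]; exact sum_nonneg fun α _ => sum_nonneg fun t _ => ev _
  have hQp : 0 ≤ Q := by rw [hQ]; exact sum_nonneg fun α _ => sum_nonneg fun t _ => sq_nonneg _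
  have hS3p : 0 ≤ S3 := by rw [hS3]; exact mul_nonneg (ev2 _) hQp
  have goal_eq : (∑ r ∈ range p, ((∑ α, ∑ t ∈ range p, x α t) - ∑ α, ∑ t ∈ (range p).filter (κ α r), x α t) ^ (2 * n + 2) ≤
      p * (∑ α, ∑ t ∈ range p, x α t) ^ (2 * n + 2) +
      (c1 + c2 + c3 + 1) * ((∑ α, ∑ t ∈ range p, x α t) ^ (2 * n + 2) + ∑ α, (∑ t ∈ range p, x α t) ^ (2 * n + 2) +
        ∑ α, ∑ t ∈ range p, x α t ^ (2 * n + 2) +
        (∑ α, ∑ t ∈ range p, x α t) ^ (2 * n) * ∑ α, ∑ t ∈ range p, x α t ^ 2)) ↔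
      (∑ r ∈ range p, (x0 - ∑ α, Y α r) ^ (2 * n + 2) ≤ p * S0 + (c1 + c2 + c3 + 1) * (S0 + S1 + S2 + S3)) := by
    rw [hS0, hS1, hS2, hS3, hQ, hx0, hX, hY]
  rw [goal_eq]
  -- splitting
  have hsplit : ∑ r ∈ range p, (x0 - ∑ α, Y α r) ^ (2 * n + 2) =
      ∑ r ∈ range p \ Sp, (x0 - ∑ α, Y α r) ^ (2 * n + 2) + ∑ r ∈ Sp, (x0 - ∑ α, Y α r) ^ (2 * n + 2) :=
    (sum_sdiff hSp).symm
  -- the special residues
  have hY1 : ∀ r ∈ range p, ∀ α, Y α r ^ (2 * n + 2) ≤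
      X α ^ (2 * n + 2) + B ^ (2 * n + 1) * ∑ t ∈ range p, x α t ^ (2 * n + 2) := by
    intro r hr α
    have h5 : 0 ≤ (B : ℝ) ^ (2 * n + 1) * ∑ t ∈ range p, x α t ^ (2 * n + 2) :=
      mul_nonneg (by positivity) (sum_nonneg fun t _ => ev _)
    rcases hfull r hr α with h | h
    · have e : Y α r = X α := by
        rw [hY, hX]
        simp only
        rw [filter_true_of_mem h]
      rw [e]
      linarith
    · have h6 := pow_sum_le ((range p).filter (κ α r)) (x α) n (B := B) (by exact_mod_cast h)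
      have h7 : ∑ t ∈ (range p).filter (κ α r), x α t ^ (2 * n + 2) ≤ ∑ t ∈ range p, x α t ^ (2 * n + 2) :=
        sum_le_sum_of_subset_of_nonneg (filter_subset _ _) fun t _ _ => ev _
      have h8 := mul_le_mul_of_nonneg_left h7 (by positivity : (0 : ℝ) ≤ (B : ℝ) ^ (2 * n + 1))
      have h9 := ev (X α)
      rw [hY]
      simp only
      linarith
  have hYs : ∀ r ∈ range p, (∑ α, Y α r) ^ (2 * n + 2) ≤ A ^ (2 * n + 1) * (S1 + B ^ (2 * n + 1) * S2) := by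
    intro r hr
    refine (pow_sum_le univ (fun α => Y α r) n (B := A) (by rw [hA, card_univ])).trans ?_
    refine mul_le_mul_of_nonneg_left ?_ (by positivity)
    refine (sum_le_sum fun α _ => hY1 r hr α).trans (le_of_eq ?_)
    rw [sum_add_distrib, ← mul_sum, hS1, hS2]
  have hsp : ∑ r ∈ Sp, (x0 - ∑ α, Y α r) ^ (2 * n + 2) ≤ c1 * (S0 + S1 + S2) := by
    have h5 : ∀ r ∈ Sp, (x0 - ∑ α, Y α r) ^ (2 * n + 2) ≤
        2 ^ (2 * n + 1) * (S0 + A ^ (2 * n + 1) * (S1 + B ^ (2 * n + 1) * S2)) := by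
      intro r hr
      have h6 := pow_sum_le (univ : Finset Bool) (fun b => if b then x0 else -∑ α, Y α r) n (B := 2) (by simp)
      simp only [Fintype.sum_bool, if_true, Bool.false_eq_true, if_false] at h6
      have h7 : (-∑ α, Y α r) ^ (2 * n + 2) = (∑ α, Y α r) ^ (2 * n + 2) := by
        rw [show 2 * n + 2 = 2 * (n + 1) by ring, pow_mul, pow_mul, neg_sq]
      rw [h7, ← hS0, ← sub_eq_add_neg] at h6
      refine h6.trans (mul_le_mul_of_nonneg_left ?_ (by positivity))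
      linarith [hYs r (hSp hr)]
    refine (sum_le_sum h5).trans ?_
    rw [sum_const, nsmul_eq_mul]
    have h8 : (0 : ℝ) ≤ 2 ^ (2 * n + 1) * (S0 + A ^ (2 * n + 1) * (S1 + B ^ (2 * n + 1) * S2)) := by positivity
    have h9 : (#Sp : ℝ) ≤ B := by exact_mod_cast hSpB
    refine (mul_le_mul_of_nonneg_right h9 h8).trans ?_
    rw [hc1, mul_assoc]
    refine mul_le_mul_of_nonneg_left ?_ hB0
    rw [mul_assoc]
    refine mul_le_mul_of_nonneg_left ?_ (by positivity)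
    have hAp : 0 ≤ A ^ (2 * n + 1) := by positivity
    have hBp : (0 : ℝ) ≤ (B : ℝ) ^ (2 * n + 1) := by positivity
    nlinarith [mul_nonneg hAp hS0p, mul_nonneg hAp hS1p, mul_nonneg hAp hS2p, mul_nonneg (mul_nonneg hAp hBp) hS0p,
      mul_nonneg (mul_nonneg hAp hBp) hS1p, mul_nonneg (mul_nonneg hAp hBp) hS2p]
  -- the normal residues
  have hcolsum : ∀ g : 𝒜 → ℕ → ℝ, ∑ r ∈ range p \ Sp, ∑ α, ∑ t ∈ (range p).filter (κ α r), g α t =
      ∑ α, ∑ t ∈ range p, (#((range p \ Sp).filter fun r => κ α r t) : ℝ) * g α t := by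
    intro g
    rw [sum_comm]
    refine sum_congr rfl fun α _ => ?_
    simp only [sum_filter]
    rw [sum_comm]
    refine sum_congr rfl fun t _ => ?_
    rw [← sum_filter, sum_const, nsmul_eq_mul]
  have hY2 : ∀ r ∈ range p \ Sp, (∑ α, Y α r) ^ 2 ≤ A * B * ∑ α, ∑ t ∈ (range p).filter (κ α r), x α t ^ 2 := by
    intro r hr
    have h5 := sq_sum_le_card_mul_sum_sq (s := (univ : Finset 𝒜)) (f := fun α => Y α r)
    rw [card_univ, ← hA] at h5
    refine h5.trans ?_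
    rw [mul_assoc]
    refine mul_le_mul_of_nonneg_left ?_ hA0
    rw [mul_sum]
    refine sum_le_sum fun α _ => ?_
    have h6 := sq_sum_le_card_mul_sum_sq (s := (range p).filter (κ α r)) (f := fun t => x α t)
    rw [hY]
    simp only
    refine h6.trans (mul_le_mul_of_nonneg_right ?_ (sum_nonneg fun t _ => sq_nonneg _))
    exact_mod_cast hnorm r hr α
  have hYm : ∀ r ∈ range p \ Sp, (∑ α, Y α r) ^ (2 * n + 2) ≤
      A ^ (2 * n + 1) * B ^ (2 * n + 1) * ∑ α, ∑ t ∈ (range p).filter (κ α r), x α t ^ (2 * n + 2) := by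
    intro r hr
    refine (pow_sum_le univ (fun α => Y α r) n (B := A) (by rw [hA, card_univ])).trans ?_
    rw [mul_assoc]
    refine mul_le_mul_of_nonneg_left ?_ (by positivity)
    rw [mul_sum]
    refine sum_le_sum fun α _ => ?_
    rw [hY]
    exact pow_sum_le ((range p).filter (κ α r)) (x α) n (B := B) (by exact_mod_cast hnorm r hr α)
  have hq2 : ∑ r ∈ range p \ Sp, (∑ α, Y α r) ^ 2 ≤ A * B * B * Q := by
    refine (sum_le_sum hY2).trans ?_
    rw [← mul_sum, hcolsum, mul_assoc (A * B), hQ]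
    refine mul_le_mul_of_nonneg_left ?_ (by positivity)
    rw [mul_sum]
    refine sum_le_sum fun α _ => ?_
    rw [mul_sum]
    refine sum_le_sum fun t ht => ?_
    refine mul_le_mul_of_nonneg_right ?_ (sq_nonneg _)
    exact_mod_cast hcol α t ht
  have hqm : ∑ r ∈ range p \ Sp, (∑ α, Y α r) ^ (2 * n + 2) ≤ A ^ (2 * n + 1) * B ^ (2 * n + 1) * B * S2 := by
    refine (sum_le_sum hYm).trans ?_
    rw [← mul_sum, hcolsum, mul_assoc (A ^ (2 * n + 1) * (B : ℝ) ^ (2 * n + 1)), hS2]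
    refine mul_le_mul_of_nonneg_left ?_ (by positivity)
    rw [mul_sum]
    refine sum_le_sum fun α _ => ?_
    rw [mul_sum]
    refine sum_le_sum fun t ht => ?_
    refine mul_le_mul_of_nonneg_right ?_ (ev _)
    exact_mod_cast hcol α t ht
  have hmean : |∑ r ∈ range p \ Sp, ∑ α, Y α r| ≤ B * ∑ α, |X α| + B * ∑ α, ∑ t ∈ Exc, |x α t| := by
    have e1 : ∑ r ∈ range p \ Sp, ∑ α, Y α r =
        ∑ α, (kb α : ℝ) * X α + ∑ α, ∑ t ∈ Exc, ((#((range p \ Sp).filter fun r => κ α r t) : ℝ) - kb α) * x α t := by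
      rw [hY]
      simp only
      rw [hcolsum, ← sum_add_distrib]
      refine sum_congr rfl fun α _ => ?_
      rw [hX]
      simp only
      rw [mul_sum, ← sum_sdiff hExc, ← sum_sdiff hExc (f := fun t => (kb α : ℝ) * x α t), add_assoc,
        ← sum_add_distrib]
      congr 1
      · refine sum_congr rfl fun t ht => ?_
        rw [hconst α t ht]
      · refine sum_congr rfl fun t _ => ?_
        ring
    rw [e1]
    refine (abs_add_le _ _).trans (add_le_add ?_ ?_)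
    · refine (abs_sum_le_sum_abs _ _).trans ?_
      rw [mul_sum]
      refine sum_le_sum fun α _ => ?_
      rw [abs_mul, abs_of_nonneg (by positivity : (0 : ℝ) ≤ kb α)]
      refine mul_le_mul_of_nonneg_right ?_ (abs_nonneg _)
      exact_mod_cast hkb α
    · refine (abs_sum_le_sum_abs _ _).trans ?_
      rw [mul_sum]
      refine sum_le_sum fun α _ => ?_
      refine (abs_sum_le_sum_abs _ _).trans ?_
      rw [mul_sum]
      refine sum_le_sum fun t ht => ?_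
      rw [abs_mul]
      refine mul_le_mul_of_nonneg_right ?_ (abs_nonneg _)
      have h5 : (#((range p \ Sp).filter fun r => κ α r t) : ℝ) ≤ B := by exact_mod_cast hcol α t (hExc ht)
      have h6 : (kb α : ℝ) ≤ B := by exact_mod_cast hkb α
      have h7 : (0 : ℝ) ≤ #((range p \ Sp).filter fun r => κ α r t) := by positivity
      have h8 : (0 : ℝ) ≤ kb α := by positivity
      rw [abs_le]
      constructor <;> linarith
  have hlin : -((2 * n + 2) * x0 ^ (2 * n + 1) * ∑ r ∈ range p \ Sp, ∑ α, Y α r) ≤ c2 * (S0 + S1 + S2) := by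
    have h5 : |x0| ^ (2 * n + 1) * |∑ r ∈ range p \ Sp, ∑ α, Y α r| ≤ (B * A + B + B * A * B + B) * (S0 + S1 + S2) := by
      refine (mul_le_mul_of_nonneg_left hmean (by positivity)).trans ?_
      have h6 : |x0| ^ (2 * n + 1) * (B * ∑ α, |X α|) ≤ B * (A * S0 + S1) := by
        have e2 : |x0| ^ (2 * n + 1) * (B * ∑ α, |X α|) = B * ∑ α, |x0| ^ (2 * n + 1) * |X α| := by
          rw [← mul_sum]
          ring
        rw [e2]
        refine mul_le_mul_of_nonneg_left ?_ hB0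
        refine (sum_le_sum fun α _ => young_abs x0 (X α) n).trans (le_of_eq ?_)
        rw [sum_add_distrib, sum_const, card_univ, nsmul_eq_mul, ← hA, ← hS0, ← hS1]
      have h7 : |x0| ^ (2 * n + 1) * (B * ∑ α, ∑ t ∈ Exc, |x α t|) ≤ B * (A * B * S0 + S2) := by
        have e2 : |x0| ^ (2 * n + 1) * (B * ∑ α, ∑ t ∈ Exc, |x α t|) =
            B * ∑ α, ∑ t ∈ Exc, |x0| ^ (2 * n + 1) * |x α t| := by
          rw [mul_left_comm, mul_sum]
          congr 1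
          refine sum_congr rfl fun α _ => ?_
          rw [mul_sum]
        rw [e2]
        refine mul_le_mul_of_nonneg_left ?_ hB0
        calc ∑ α, ∑ t ∈ Exc, |x0| ^ (2 * n + 1) * |x α t| ≤ ∑ α, (B * S0 + ∑ t ∈ range p, x α t ^ (2 * n + 2)) := by
              refine sum_le_sum fun α _ => ?_
              refine (sum_le_sum fun t _ => young_abs x0 (x α t) n).trans ?_
              rw [sum_add_distrib, sum_const, nsmul_eq_mul, ← hS0]
              refine add_le_add ?_ (sum_le_sum_of_subset_of_nonneg hExc fun t _ _ => ev _)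
              refine mul_le_mul_of_nonneg_right ?_ hS0p
              exact_mod_cast hExcB
          _ = A * B * S0 + S2 := by
              rw [sum_add_distrib, sum_const, card_univ, nsmul_eq_mul, ← hA, ← hS2]
              ring
      rw [mul_add]
      have hBA : (0 : ℝ) ≤ B * A := by positivity
      have hBAB : (0 : ℝ) ≤ B * A * B := by positivity
      refine (add_le_add h6 h7).trans ?_
      have h8 := arith1 hBA hB0 hBAB hS0p hS1p hS2p
      calc _ = ((B : ℝ) * A * S0 + B * S1) + (B * A * B * S0 + B * S2) := by ring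
        _ ≤ _ := h8
    have h8 : -(x0 ^ (2 * n + 1) * ∑ r ∈ range p \ Sp, ∑ α, Y α r) ≤
        |x0| ^ (2 * n + 1) * |∑ r ∈ range p \ Sp, ∑ α, Y α r| := by
      rw [← abs_pow, ← abs_mul]
      exact neg_le_abs _
    have h9 := mul_le_mul_of_nonneg_left (h8.trans h5) (by positivity : (0 : ℝ) ≤ 2 * n + 2)
    rw [hc2]
    calc _ = (2 * n + 2) * -(x0 ^ (2 * n + 1) * ∑ r ∈ range p \ Sp, ∑ α, Y α r) := by ring
      _ ≤ _ := h9
      _ = _ := by ring
  have hnormal : ∑ r ∈ range p \ Sp, (x0 - ∑ α, Y α r) ^ (2 * n + 2) ≤ p * S0 + c2 * (S0 + S1 + S2) + c3 * (S2 + S3) := by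
    refine (sum_le_sum fun r _ => hT x0 (∑ α, Y α r)).trans ?_
    rw [sum_add_distrib, sum_sub_distrib, sum_const, nsmul_eq_mul, ← mul_sum, ← mul_sum, sum_add_distrib, ← mul_sum,
      ← hS0]
    have h5 : (#(range p \ Sp) : ℝ) * S0 ≤ p * S0 := by
      refine mul_le_mul_of_nonneg_right ?_ hS0p
      have : #(range p \ Sp) ≤ p := (card_le_card sdiff_subset).trans (by simp)
      exact_mod_cast this
    have h6 : x0 ^ (2 * n) * ∑ r ∈ range p \ Sp, (∑ α, Y α r) ^ 2 ≤ A * B * B * S3 := by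
      rw [hS3]
      calc _ ≤ x0 ^ (2 * n) * (A * B * B * Q) := mul_le_mul_of_nonneg_left hq2 (ev2 _)
        _ = _ := by ring
    have h7 : C0 * (x0 ^ (2 * n) * ∑ r ∈ range p \ Sp, (∑ α, Y α r) ^ 2 + ∑ r ∈ range p \ Sp, (∑ α, Y α r) ^ (2 * n + 2)) ≤
        c3 * (S2 + S3) := by
      rw [hc3, mul_assoc]
      refine mul_le_mul_of_nonneg_left ?_ hC0.le
      exact arith3 h6 hqm (by positivity) (by positivity) hS2p hS3p
    linarith
  rw [hsplit]
  exact (add_le_add hnormal hsp).trans (arith2 hS0p hS1p hS2p hS3p h1p h2p h3p)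

end Pool.Agent.L5helper86.UL
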