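import Pool.Agent.L5helper86.UL.Law

/-! Project UL (helper86): lower bounds for the local densities. -/

set_option autoImplicit false

namespace Pool.Agent.L5helper86.UL

open Finset Polynomial MeasureTheory ProbabilityTheory Filter Topology
open Pool.Agent.L5helper2.BH (pr mem_pr)
open Pool.Agent.L5helper2.RS (Vp Vp_eq Vp_pos Vs_low)

variable {k : ℕ}

/-- no local obstruction -/
def Free (g : Fin k → ℤ[X]) (b : ℕ → ℕ) : Prop :=
  ∀ p : ℕ, p.Prime → ∃ r : ℤ, ∀ i, ¬ (g i).eval r ≡ (b p : ℤ) [ZMOD p]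

lemma rho_lt {z : ℕ → ℝ} {g : Fin k → ℤ[X]} {b : ℕ → ℕ} (hF : Free g b) (m : ℤ) {p : ℕ} (hp : p.Prime) :
    rho z g m (b p) p < p := by
  classical
  obtain ⟨r, hr⟩ := hF p hp
  have hpz : (0 : ℤ) < p := by exact_mod_cast hp.pos
  have h0 := Int.emod_nonneg r hpz.ne'
  have h1 := Int.emod_lt_of_pos r hpz
  unfold rho
  have h2 : #((range p).filter fun r : ℕ => ∃ i, (p : ℝ) ≤ z ((g i).eval m).natAbs ∧
      (g i).eval (r : ℤ) ≡ (b p : ℤ) [ZMOD p]) < #(range p) := by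
    refine card_lt_card (filter_ssubset.2 ⟨(r % p).toNat, mem_range.2 (by omega), ?_⟩)
    rintro ⟨i, _, hi⟩
    apply hr i
    have h3 : (((r % p).toNat : ℕ) : ℤ) = r % p := Int.toNat_of_nonneg h0
    rw [h3] at hi
    have h4 : (g i).eval r ≡ (g i).eval (r % p) [ZMOD p] := by
      refine (Int.modEq_iff_dvd.2 ?_)
      refine dvd_trans ?_ (sub_dvd_eval_sub (r % p) r (g i))
      exact Int.modEq_iff_dvd.1 (Int.mod_modEq r p).symm
    exact h4.trans hi
  rwa [card_range] at h2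

lemma rho_le {z : ℕ → ℝ} {g : Fin k → ℤ[X]} {D : ℕ} (hD : ∀ i, (g i).natDegree ≤ D) {b : ℕ → ℕ} (hF : Free g b)
    (m : ℤ) {p : ℕ} (hp : p.Prime) : rho z g m (b p) p ≤ k * D := by
  classical
  have : Fact p.Prime := ⟨hp⟩
  obtain ⟨r, hr⟩ := hF p hp
  have hiff : ∀ (i : Fin k) (t : ℤ), (g i).eval t ≡ (b p : ℤ) [ZMOD p] ↔
      (rd g p i).eval (t : ZMod p) = (b p : ZMod p) := by
    intro i t
    rw [rd_eval, ← ZMod.intCast_eq_intCast_iff]
    simp
  unfold rho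
  calc #((range p).filter fun r : ℕ => ∃ i, (p : ℝ) ≤ z ((g i).eval m).natAbs ∧
        (g i).eval (r : ℤ) ≡ (b p : ℤ) [ZMOD p]) ≤
        #(univ.biUnion fun i : Fin k => (range p).filter fun t : ℕ =>
          (rd g p i - C (b p : ZMod p)).eval (t : ZMod p) = 0) := by
        refine card_le_card fun t ht => ?_
        rw [mem_filter] at ht
        obtain ⟨ht1, i, _, h⟩ := ht
        rw [mem_biUnion]
        refine ⟨i, mem_univ i, ?_⟩
        rw [mem_filter, eval_sub, eval_C]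
        rw [hiff, Int.cast_natCast] at h
        exact ⟨ht1, by rw [h, sub_self]⟩
    _ ≤ ∑ _i : Fin k, D := by
        refine card_biUnion_le.trans (sum_le_sum fun i _ => ?_)
        refine root_count ?_ ?_
        · intro h0
          apply hr i
          rw [hiff, sub_eq_zero.1 h0, eval_C]
        · rw [natDegree_sub_C]
          exact rd_deg g hD p i
    _ = k * D := by rw [sum_const, card_univ, Fintype.card_fin, smul_eq_mul]

/-- a product over primes is bounded below -/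
lemma prod_low (K : ℕ) {η : ℝ} (hη : 0 < η) : ∃ c : ℝ, 0 < c ∧ ∀ (Z : ℕ) (ρ : ℕ → ℕ), 1 ≤ Z →
    (∀ p, p.Prime → ρ p < p) → (∀ p, p.Prime → ρ p ≤ K) → c * (Z : ℝ) ^ (-η) ≤ ∏ p ∈ pr Z, (1 - (ρ p : ℝ) / p) := by
  classical
  obtain ⟨C, hC, h⟩ := Vs_low (k := 2 * K) η hη
  have hC0 : 0 < C := by linarith
  refine ⟨(∏ p ∈ pr (2 * K + 1), (1 / (p : ℝ))) * (1 / C), ?_, ?_⟩
  · refine mul_pos (prod_pos fun p hp => ?_) (by positivity)
    have : 0 < p := (mem_pr.1 hp).2.pos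
    positivity
  · intro Z ρ hZ h1 h2
    have h3 := h Z hZ
    rw [Pool.Agent.L5helper2.RS.Vs_Vp, Vp_eq, ← prod_pow] at h3
    have hZ0 : (0 : ℝ) < Z := by exact_mod_cast hZ
    have hpp : ∀ p ∈ pr Z, (0 : ℝ) < 1 - 1 / p := by
      intro p hp
      have hp2 : (2 : ℝ) ≤ p := by exact_mod_cast (mem_pr.1 hp).2.two_le
      have : 1 / (p : ℝ) ≤ 1 / 2 := one_div_le_one_div_of_le (by norm_num) hp2
      linarith
    have hV0 : 0 < ∏ p ∈ pr Z, (1 - 1 / (p : ℝ)) ^ (2 * K) := prod_pos fun p hp => pow_pos (hpp p hp) _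
    have h4 : 1 / C * (Z : ℝ) ^ (-η) ≤ ∏ p ∈ pr Z, (1 - 1 / (p : ℝ)) ^ (2 * K) := by
      have h5 : (∏ p ∈ pr Z, (1 - 1 / (p : ℝ)) ^ (2 * K))⁻¹ ≤ C * (Z : ℝ) ^ η := h3
      rw [inv_le_comm₀ hV0 (by positivity)] at h5
      refine le_trans (le_of_eq ?_) h5
      rw [mul_inv, Real.rpow_neg hZ0.le, one_div]
    have hfac : ∀ p ∈ pr Z, (if p ≤ 2 * K + 1 then 1 / (p : ℝ) else 1) * (1 - 1 / (p : ℝ)) ^ (2 * K) ≤
        1 - (ρ p : ℝ) / p := by
      intro p hp
      have hpr := (mem_pr.1 hp).2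
      have hp0 : (0 : ℝ) < p := by exact_mod_cast hpr.pos
      have hV1 := hpp p hp
      have hV2 : (1 - 1 / (p : ℝ)) ^ (2 * K) ≤ 1 := pow_le_one₀ hV1.le (by
        have : 0 < 1 / (p : ℝ) := by positivity
        linarith)
      split_ifs with hcase
      · have h5 : (ρ p : ℝ) + 1 ≤ p := by exact_mod_cast h1 p hpr
        calc 1 / (p : ℝ) * (1 - 1 / (p : ℝ)) ^ (2 * K) ≤ 1 / (p : ℝ) * 1 :=
              mul_le_mul_of_nonneg_left hV2 (by positivity)
          _ ≤ 1 - (ρ p : ℝ) / p := by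
              rw [mul_one, div_le_iff₀ hp0, sub_mul, one_mul, div_mul_cancel₀ _ hp0.ne']
              linarith
      · rw [one_mul]
        obtain ⟨x, hx⟩ : ∃ x : ℝ, x = K / p := ⟨_, rfl⟩
        have hx0 : 0 ≤ x := by rw [hx]; positivity
        have hx1 : x ≤ 1 / 2 := by
          rw [hx, div_le_div_iff₀ hp0 (by norm_num)]
          have : ((2 * K + 1 : ℕ) : ℝ) < p := by exact_mod_cast not_le.1 hcase
          push_cast at this
          linarith
        have h6 : (ρ p : ℝ) / p ≤ x := by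
          rw [hx]
          exact div_le_div_of_nonneg_right (by exact_mod_cast h2 p hpr) hp0.le
        -- (1 - 1/p)^(2K) (1 + 2K/p) ≤ 1
        have h7 : (1 + 2 * x) ≤ ((1 - 1 / (p : ℝ))⁻¹) ^ (2 * K) := by
          have h8 : 1 + 1 / (p : ℝ) ≤ (1 - 1 / (p : ℝ))⁻¹ := by
            rw [← one_div, le_div_iff₀ hV1]
            have : (0 : ℝ) ≤ (1 / (p : ℝ)) ^ 2 := by positivity
            nlinarith
          have h9 := one_add_mul_le_pow (a := 1 / (p : ℝ)) (by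
            have : 0 < 1 / (p : ℝ) := by positivity
            linarith) (2 * K)
          have e : 1 + 2 * x = 1 + ((2 * K : ℕ) : ℝ) * (1 / (p : ℝ)) := by
            rw [hx]
            push_cast
            ring
          rw [e]
          exact h9.trans (pow_le_pow_left₀ (by positivity) h8 _)
        have h10 : (1 - 1 / (p : ℝ)) ^ (2 * K) ≤ (1 + 2 * x)⁻¹ := by
          rw [inv_pow] at h7
          rw [le_inv_comm₀ (pow_pos hV1 _) (by positivity)]
          exact h7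
        refine h10.trans ?_
        rw [← one_div, div_le_iff₀ (by positivity)]
        nlinarith
    have hprod : (∏ p ∈ pr Z, (if p ≤ 2 * K + 1 then 1 / (p : ℝ) else 1)) * ∏ p ∈ pr Z, (1 - 1 / (p : ℝ)) ^ (2 * K) ≤
        ∏ p ∈ pr Z, (1 - (ρ p : ℝ) / p) := by
      rw [← prod_mul_distrib]
      refine prod_le_prod (fun p hp => ?_) hfac
      refine mul_nonneg ?_ (pow_nonneg (hpp p hp).le _)
      split_ifs
      · positivity
      · exact zero_le_one
    refine le_trans ?_ hprod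
    have hsmall : ∏ p ∈ pr (2 * K + 1), (1 / (p : ℝ)) ≤ ∏ p ∈ pr Z, (if p ≤ 2 * K + 1 then 1 / (p : ℝ) else 1) := by
      rw [← prod_filter]
      have hsub : (pr Z).filter (fun p => p ≤ 2 * K + 1) ⊆ pr (2 * K + 1) := by
        intro p hp
        rw [mem_filter, mem_pr] at hp
        rw [mem_pr]
        exact ⟨hp.2, hp.1.2⟩
      rw [← prod_sdiff hsub]
      refine mul_le_of_le_one_left (prod_nonneg fun p _ => by positivity) ?_
      refine prod_le_one (fun p _ => by positivity) fun p hp => ?_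
      have hp1 : (1 : ℝ) ≤ p := by exact_mod_cast (mem_pr.1 (mem_sdiff.1 hp).1).2.one_lt.le
      rw [div_le_one (by linarith)]
      exact hp1
    calc (∏ p ∈ pr (2 * K + 1), (1 / (p : ℝ))) * (1 / C) * (Z : ℝ) ^ (-η) =
          (∏ p ∈ pr (2 * K + 1), (1 / (p : ℝ))) * (1 / C * (Z : ℝ) ^ (-η)) := by ring
      _ ≤ _ := mul_le_mul hsmall h4 (by positivity) (prod_nonneg fun p _ => by
          split_ifs
          · positivity
          · exact zero_le_one)

open Classical in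
/-- existence, in the absence of local obstructions -/
theorem universal_lower {Ω : Type} [MeasurableSpace Ω] {P : Measure Ω} {X : ℕ → Ω → ℕ} (h : Sys P X)
    {z : ℕ → ℝ} (hz : Monotone z) {A : ℕ} (hA : ∀ n : ℕ, z n ≤ ((n : ℝ) + 2) ^ A) :
    ∀ᵐ ω ∂P, ∀ k D B : ℕ, ∀ ε : ℝ, 0 < ε → ∀ᶠ N : ℕ in atTop, ∀ u : ℤ, |u| ≤ (N : ℤ) ^ B →
      ∀ g : Fin k → ℤ[X], (∀ i, (g i).natDegree ≤ D) → (∀ i j, |(g i).coeff j| ≤ (N : ℤ) ^ B) →
      Free g (fun p => X p ω) →
      (N : ℝ) ^ (1 - ε) ≤ #((Ioc u (u + N)).filter fun m => ∀ i, Sifted z (fun p => X p ω) ((g i).eval m)) ∧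
      (N : ℝ) ^ (1 - ε) ≤ ∑ m ∈ Ioc u (u + N), dens z g (fun p => X p ω) m := by
  filter_upwards [universal h hz hA] with ω hω k D B ε hε
  obtain ⟨E, hE⟩ := level_bound hA D B
  obtain ⟨η, hη⟩ : ∃ η : ℝ, η = min ε (1 / 4) / (2 * (E + 1)) := ⟨_, rfl⟩
  have hm0 : 0 < min ε (1 / 4) := lt_min hε (by norm_num)
  have hη0 : 0 < η := by rw [hη]; positivity
  obtain ⟨c, hc, hlow⟩ := prod_low (k * D) hη0
  have hlog : ∀ᶠ N : ℕ in atTop, 2 ≤ c * (N : ℝ) ^ (min ε (1 / 4) / 2) := by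
    have h1 : Tendsto (fun N : ℕ => c * (N : ℝ) ^ (min ε (1 / 4) / 2)) atTop atTop :=
      ((tendsto_rpow_atTop (by positivity)).comp tendsto_natCast_atTop_atTop).const_mul_atTop hc
    exact h1.eventually_ge_atTop 2
  filter_upwards [hω k D B (1 / 4) (by norm_num), hE, hlog, eventually_ge_atTop 1] with N h1 h2 h3 hN u hu g hD hg hF
  have hN1 : (1 : ℝ) ≤ N := by exact_mod_cast hN
  have hN0 : (0 : ℝ) < N := by linarith
  have h4 := h1 u hu g hD hg
  have h5 : ∀ m ∈ Ioc u (u + N), c * (N : ℝ) ^ (-(min ε (1 / 4) / 2)) ≤ dens z g (fun p => X p ω) m := by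
    intro m hm
    rw [dens_eq (M := N ^ E) (fun i => (h2 u hu (g i) (hD i) (hg i) m hm).2)]
    unfold Pool.Agent.L5helper86.UL.h2
    have h6 := hlow (N ^ E) (fun p => rho z g m (X p ω) p) (Nat.one_le_pow _ _ hN)
      (fun p hp => rho_lt (b := fun p => X p ω) hF m hp) (fun p hp => rho_le hD (b := fun p => X p ω) hF m hp)
    simp only [nu_rho]
    refine le_trans ?_ h6
    refine mul_le_mul_of_nonneg_left ?_ hc.le
    push_cast
    rw [← Real.rpow_natCast, ← Real.rpow_mul hN0.le]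
    refine Real.rpow_le_rpow_of_exponent_le hN1 ?_
    rw [hη]
    have h7 : (E : ℝ) * -(min ε (1 / 4) / (2 * (E + 1))) = -(min ε (1 / 4) / 2 * ((E : ℝ) / (E + 1))) := by
      field_simp
    rw [h7]
    have h8 : (E : ℝ) / (E + 1) ≤ 1 := by
      rw [div_le_one (by positivity)]
      linarith
    have h9 : min ε (1 / 4) / 2 * ((E : ℝ) / (E + 1)) ≤ min ε (1 / 4) / 2 * 1 :=
      mul_le_mul_of_nonneg_left h8 (by positivity)
    linarith
  have hcard : #(Ioc u (u + N)) = N := by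
    rw [Int.card_Ioc]
    simp
  have hsum : (N : ℝ) * (c * (N : ℝ) ^ (-(min ε (1 / 4) / 2))) ≤ ∑ m ∈ Ioc u (u + N), dens z g (fun p => X p ω) m := by
    have := card_nsmul_le_sum (Ioc u (u + N)) (fun m => dens z g (fun p => X p ω) m) _ h5
    rwa [hcard, nsmul_eq_mul] at this
  -- N^(1 - min/2) c ≥ 2 N^(1 - min)
  have hbig : 2 * (N : ℝ) ^ (1 - min ε (1 / 4)) ≤ (N : ℝ) * (c * (N : ℝ) ^ (-(min ε (1 / 4) / 2))) := by
    have e1 : (N : ℝ) * (c * (N : ℝ) ^ (-(min ε (1 / 4) / 2))) =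
        (c * (N : ℝ) ^ (min ε (1 / 4) / 2)) * (N : ℝ) ^ (1 - min ε (1 / 4)) := by
      have e2 : (N : ℝ) ^ (1 - min ε (1 / 4)) = (N : ℝ) * (N : ℝ) ^ (-(min ε (1 / 4) / 2)) * (N : ℝ) ^ (-(min ε (1 / 4) / 2)) := by
        rw [← Real.rpow_one_add' hN0.le (by
          have : min ε (1 / 4) ≤ 1 / 4 := min_le_right _ _
          intro h0
          linarith), ← Real.rpow_add hN0]
        congr 1
        ring
      have e3 : (N : ℝ) ^ (min ε (1 / 4) / 2) * (N : ℝ) ^ (-(min ε (1 / 4) / 2)) = 1 := by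
        rw [← Real.rpow_add hN0, add_neg_cancel, Real.rpow_zero]
      rw [e2]
      calc (N : ℝ) * (c * (N : ℝ) ^ (-(min ε (1 / 4) / 2))) =
            c * ((N : ℝ) * (N : ℝ) ^ (-(min ε (1 / 4) / 2))) * 1 := by ring
        _ = c * ((N : ℝ) * (N : ℝ) ^ (-(min ε (1 / 4) / 2))) *
            ((N : ℝ) ^ (min ε (1 / 4) / 2) * (N : ℝ) ^ (-(min ε (1 / 4) / 2))) := by rw [e3]
        _ = _ := by ring
    rw [e1]
    exact mul_le_mul_of_nonneg_right h3 (by positivity)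
  have hmin : (N : ℝ) ^ (1 - ε) ≤ (N : ℝ) ^ (1 - min ε (1 / 4)) :=
    Real.rpow_le_rpow_of_exponent_le hN1 (by
      have : min ε (1 / 4) ≤ ε := min_le_left _ _
      linarith)
  have hhalf : (N : ℝ) ^ (1 / 2 + 1 / 4 : ℝ) ≤ (N : ℝ) ^ (1 - min ε (1 / 4)) :=
    Real.rpow_le_rpow_of_exponent_le hN1 (by
      have : min ε (1 / 4) ≤ 1 / 4 := min_le_right _ _
      linarith)
  have hp0 : (0 : ℝ) ≤ (N : ℝ) ^ (1 - min ε (1 / 4)) := by positivity
  rw [abs_le] at h4
  constructor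
  · linarith [h4.1]
  · linarith

end Pool.Agent.L5helper86.UL
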