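import Pool.Agent.L5helper86.UL.Rec

/-! Project UL (helper86): the moments of the discrepancies. -/

set_option autoImplicit false

namespace Pool.Agent.L5helper86.UL

open Finset MeasureTheory ProbabilityTheory

variable {𝒜 : Type} [Fintype 𝒜]

open Classical in
/-- the local hypothesis at `p` -/
def Loc (σ : Sieve 𝒜) (B p : ℕ) : Prop := ∃ (Sp Exc : Finset ℕ) (kb : 𝒜 → ℕ), Sp ⊆ range p ∧ Exc ⊆ range p ∧
    #Sp ≤ B ∧ #Exc ≤ B ∧
    (∀ r ∈ range p, ∀ α, (∀ t ∈ range p, σ.κ p α r (t : ℤ)) ∨ #((range p).filter (fun t : ℕ => σ.κ p α r (t : ℤ))) ≤ B) ∧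
    (∀ r ∈ range p \ Sp, ∀ α, #((range p).filter (fun t : ℕ => σ.κ p α r (t : ℤ))) ≤ B) ∧
    (∀ α, ∀ t ∈ range p \ Exc, #((range p \ Sp).filter fun r => σ.κ p α r (t : ℤ)) = kb α) ∧
    (∀ α, ∀ t ∈ range p, #((range p \ Sp).filter fun r => σ.κ p α r (t : ℤ)) ≤ B) ∧ (∀ α, kb α ≤ B)

/-- a regular class of sets -/
structure Reg (σ : Sieve 𝒜) (𝒞 : Set (Finset ℤ)) (B : ℕ) : Prop where
  closed : ∀ S ∈ 𝒞, ∀ p α, Sl σ p S α ∈ 𝒞
  disc : ∀ S ∈ 𝒞, ∀ d : ℕ, 0 < d → ∀ r : ℤ, |(#(S.filter (fun m => m ≡ r [ZMOD d])) : ℝ) - #S / d| ≤ B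

omit [Fintype 𝒜] in
lemma DD_dep (σ : Sieve 𝒜) (s : Finset ℕ) (d : ℕ) (r : ℤ) (S : Finset ℤ) : Dep s (fun a => DD σ s a d r S) := by
  intro a b hab
  have e1 : ∀ m, h1 σ s a m = h1 σ s b m := by
    intro m
    unfold h1
    exact prod_congr rfl fun p hp => by rw [hab p hp]
  have e2 : ∀ m, h2 σ s a m = h2 σ s b m := by
    intro m
    unfold h2
    exact prod_congr rfl fun p hp => by rw [hab p hp]
  simp only [DD, e1, e2]

omit [Fintype 𝒜] in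
lemma DD_abs (σ : Sieve 𝒜) (s : Finset ℕ) (a : ℕ → ℕ) (d : ℕ) (r : ℤ) (S : Finset ℤ) :
    |DD σ s a d r S| ≤ #(S.filter (fun m => m ≡ r [ZMOD d])) + (#S : ℝ) / d := by
  unfold DD
  refine (abs_sub _ _).trans (add_le_add ?_ ?_)
  · rw [abs_of_nonneg (sum_nonneg fun m _ => (h1_01 σ s a m).1)]
    calc _ ≤ ∑ m ∈ S.filter (fun m => m ≡ r [ZMOD d]), (1 : ℝ) := sum_le_sum fun m _ => (h1_01 σ s a m).2
      _ = _ := by rw [sum_const, nsmul_eq_mul, mul_one]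
  · rw [abs_of_nonneg (mul_nonneg (by positivity) (sum_nonneg fun m _ => (h2_01 σ s a m).1))]
    calc _ ≤ (1 / (d : ℝ)) * ∑ m ∈ S, (1 : ℝ) :=
          mul_le_mul_of_nonneg_left (sum_le_sum fun m _ => (h2_01 σ s a m).2) (by positivity)
      _ = _ := by
          rw [sum_const, nsmul_eq_mul, mul_one]
          ring

omit [Fintype 𝒜] in
lemma DD_abs2 (σ : Sieve 𝒜) (s : Finset ℕ) (a : ℕ → ℕ) {d : ℕ} (hd : 0 < d) (r : ℤ) (S : Finset ℤ) :
    |DD σ s a d r S| ≤ 2 * #S := by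
  refine (DD_abs σ s a d r S).trans ?_
  have h3 : (#(S.filter (fun m => m ≡ r [ZMOD d])) : ℝ) ≤ #S := by exact_mod_cast card_filter_le _ _
  have h4 : (#S : ℝ) / d ≤ #S := div_le_self (by positivity) (by exact_mod_cast hd)
  linarith

omit [Fintype 𝒜] in
lemma DD_empty (σ : Sieve 𝒜) (s : Finset ℕ) (a : ℕ → ℕ) (d : ℕ) (r : ℤ) : DD σ s a d r ∅ = 0 := by
  simp [DD]

lemma DD_split1 (σ : Sieve 𝒜) (s : Finset ℕ) (a : ℕ → ℕ) {d p : ℕ} (hp : 0 < p) (hdp : Nat.Coprime d p)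
    (r : ℤ) (S : Finset ℤ) (α : 𝒜) :
    ∑ t ∈ range p, DD σ s a (d * p) (crt d p r t) (Sl σ p S α) = DD σ s a d r (Sl σ p S α) := by
  classical
  rw [DD_split σ s a hp hdp r (Sl σ p S α), sum_eq_single α]
  · have e : Sl σ p (Sl σ p S α) α = Sl σ p S α := by
      unfold Sl
      rw [filter_filter]
      simp
    rw [e]
  · intro β _ hβ
    have e : Sl σ p (Sl σ p S α) β = ∅ := by
      unfold Sl
      rw [filter_filter, filter_eq_empty_iff]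
      rintro m _ ⟨h3, h4⟩
      exact hβ (h4.symm.trans h3)
    rw [e]
    simp [DD_empty]
  · intro h
    exact absurd (mem_univ α) h

open Classical in
/-- the pointwise inequality -/
lemma pointwise (𝒜 : Type) [Fintype 𝒜] (n B : ℕ) (hB : 1 ≤ B) : ∃ C : ℝ, 0 < C ∧ ∀ (σ : Sieve 𝒜) (𝒞 : Set (Finset ℤ)),
    Reg σ 𝒞 B → ∀ (s : Finset ℕ) (a : ℕ → ℕ) (d p : ℕ), 0 < d → 0 < p → Nat.Coprime d p → Loc σ B p →
    ∀ S ∈ 𝒞, ∀ r : ℤ,
      (∑ ρ ∈ range p, (DD σ s a d r S - ∑ α, ∑ t ∈ (range p).filter (fun t : ℕ => σ.κ p α ρ (t : ℤ)),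
          DD σ s a (d * p) (crt d p r t) (Sl σ p S α)) ^ (2 * n + 2) ≤
        p * DD σ s a d r S ^ (2 * n + 2) + C * (DD σ s a d r S ^ (2 * n + 2) +
          ∑ α, DD σ s a d r (Sl σ p S α) ^ (2 * n + 2) +
          (p : ℝ) ^ n * ∑ α, ∑ t ∈ range p, DD σ s a (d * p) (crt d p r t) (Sl σ p S α) ^ (2 * n + 2))) ∧
      (max 1 ((#S : ℝ) / d) < p →
        ∑ ρ ∈ range p, (DD σ s a d r S - ∑ α, ∑ t ∈ (range p).filter (fun t : ℕ => σ.κ p α ρ (t : ℤ)),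
          DD σ s a (d * p) (crt d p r t) (Sl σ p S α)) ^ (2 * n + 2) ≤
        p * DD σ s a d r S ^ (2 * n + 2) + C * (DD σ s a d r S ^ (2 * n + 2) +
          ∑ α, DD σ s a d r (Sl σ p S α) ^ (2 * n + 2) + max 1 ((#S : ℝ) / d) ^ (n + 1))) := by
  obtain ⟨C1, hC1, hone⟩ := one_step (𝒜 := 𝒜) n B
  obtain ⟨A, hA⟩ : ∃ A : ℝ, A = Fintype.card 𝒜 := ⟨_, rfl⟩
  have hA0 : 0 ≤ A := by rw [hA]; positivity
  obtain ⟨b, hb⟩ : ∃ b : ℝ, b = 2 + B := ⟨_, rfl⟩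
  have hb0 : 0 < b := by rw [hb]; positivity
  have hb1 : 1 ≤ b := by
    rw [hb]
    have : (0 : ℝ) ≤ B := by positivity
    linarith
  refine ⟨C1 * (2 + A + b ^ 2 + b ^ (2 * n + 2)), by positivity, ?_⟩
  intro σ 𝒞 hR s a d p hd hp hdp hloc S hS r
  obtain ⟨Sp, Exc, kb, hSp, hExc, hSpB, hExcB, hfull, hnorm, hconst, hcol, hkb⟩ := hloc
  obtain ⟨x, hx⟩ : ∃ x : 𝒜 → ℕ → ℝ, x = fun α (t : ℕ) => DD σ s a (d * p) (crt d p r t) (Sl σ p S α) := ⟨_, rfl⟩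
  have h := hone p (fun α ρ t => σ.κ p α ρ (t : ℤ)) x Sp Exc kb hSp hExc hSpB hExcB hfull hnorm hconst hcol hkb
  have e0 : ∑ α, ∑ t ∈ range p, x α t = DD σ s a d r S := by
    rw [hx, DD_split σ s a hp hdp r S]
  have e1 : ∀ α, ∑ t ∈ range p, x α t = DD σ s a d r (Sl σ p S α) := by
    intro α
    rw [hx]
    exact DD_split1 σ s a hp hdp r S α
  rw [e0] at h
  simp only [e1] at h
  have ex : ∀ α (t : ℕ), DD σ s a (d * p) (crt d p r t) (Sl σ p S α) = x α t := fun α t => by rw [hx]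
  simp only [ex]
  obtain ⟨x0, hx0⟩ : ∃ x0 : ℝ, x0 = DD σ s a d r S := ⟨_, rfl⟩
  obtain ⟨S1, hS1⟩ : ∃ S1 : ℝ, S1 = ∑ α, DD σ s a d r (Sl σ p S α) ^ (2 * n + 2) := ⟨_, rfl⟩
  obtain ⟨S2, hS2⟩ : ∃ S2 : ℝ, S2 = ∑ α, ∑ t ∈ range p, x α t ^ (2 * n + 2) := ⟨_, rfl⟩
  obtain ⟨Q, hQ⟩ : ∃ Q : ℝ, Q = ∑ α, ∑ t ∈ range p, x α t ^ 2 := ⟨_, rfl⟩
  rw [← hx0, ← hS1, ← hS2, ← hQ] at h
  rw [← hx0, ← hS1, ← hS2]
  have ev : ∀ z : ℝ, z ^ (2 * n + 2) = (z ^ 2) ^ (n + 1) := fun z => by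
    rw [← pow_mul]
    ring
  have ev0 : ∀ z : ℝ, 0 ≤ z ^ (2 * n + 2) := fun z => by
    rw [ev]
    positivity
  have hS1p : 0 ≤ S1 := by rw [hS1]; exact sum_nonneg fun α _ => ev0 _
  have hS2p : 0 ≤ S2 := by rw [hS2]; exact sum_nonneg fun α _ => sum_nonneg fun t _ => ev0 _
  have hp1 : (1 : ℝ) ≤ p := by exact_mod_cast hp
  have hp0 : (0 : ℝ) < p := by linarith
  have hx0p : 0 ≤ x0 ^ (2 * n + 2) := ev0 x0
  have hb2 : 0 ≤ b ^ 2 := by positivity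
  have hb3 : 0 ≤ b ^ (2 * n + 2) := by positivity
  have key : ∀ U : ℝ, x0 ^ (2 * n + 2) + S1 + S2 + x0 ^ (2 * n) * Q ≤
      (2 + A + b ^ 2 + b ^ (2 * n + 2)) * (x0 ^ (2 * n + 2) + S1 + U) →
      ∑ r ∈ range p, (x0 - ∑ α, ∑ t ∈ (range p).filter (fun t : ℕ => σ.κ p α r (t : ℤ)), x α t) ^ (2 * n + 2) ≤
        p * x0 ^ (2 * n + 2) + C1 * (2 + A + b ^ 2 + b ^ (2 * n + 2)) * (x0 ^ (2 * n + 2) + S1 + U) := by
    intro U hU
    refine h.trans ?_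
    rw [mul_assoc C1]
    have := mul_le_mul_of_nonneg_left hU hC1.le
    linarith
  constructor
  · apply key
    have h5 : x0 ^ (2 * n) * Q ≤ A * x0 ^ (2 * n + 2) + (p : ℝ) ^ n * S2 := by
      have h6 : ∀ α t, x0 ^ (2 * n) * x α t ^ 2 ≤ (1 / (p : ℝ)) * x0 ^ (2 * n + 2) + (p : ℝ) ^ n * x α t ^ (2 * n + 2) := by
        intro α t
        have h7 := young (sq_nonneg x0) (mul_nonneg hp0.le (sq_nonneg (x α t))) n
        have h8 := mul_le_mul_of_nonneg_left h7 (by positivity : (0 : ℝ) ≤ 1 / p)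
        calc x0 ^ (2 * n) * x α t ^ 2 = (1 / (p : ℝ)) * ((x0 ^ 2) ^ n * (p * x α t ^ 2)) := by
              rw [← pow_mul]
              field_simp
          _ ≤ _ := h8
          _ = _ := by
              rw [mul_pow, ev, ev, pow_succ (p : ℝ)]
              field_simp
      rw [hQ, mul_sum]
      calc ∑ α, x0 ^ (2 * n) * ∑ t ∈ range p, x α t ^ 2 = ∑ α, ∑ t ∈ range p, x0 ^ (2 * n) * x α t ^ 2 :=
            sum_congr rfl fun α _ => mul_sum _ _ _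
        _ ≤ ∑ α, ∑ t ∈ range p, ((1 / (p : ℝ)) * x0 ^ (2 * n + 2) + (p : ℝ) ^ n * x α t ^ (2 * n + 2)) :=
            sum_le_sum fun α _ => sum_le_sum fun t _ => h6 α t
        _ = A * x0 ^ (2 * n + 2) + (p : ℝ) ^ n * S2 := by
            simp only [sum_add_distrib, ← mul_sum]
            rw [← hS2]
            simp only [sum_const, card_range, card_univ, nsmul_eq_mul]
            rw [← hA]
            field_simp
    have hpn : (1 : ℝ) ≤ (p : ℝ) ^ n := one_le_pow₀ hp1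
    have hT : S2 ≤ (p : ℝ) ^ n * S2 := le_mul_of_one_le_left hS2p hpn
    have hT0 : 0 ≤ (p : ℝ) ^ n * S2 := by positivity
    calc x0 ^ (2 * n + 2) + S1 + S2 + x0 ^ (2 * n) * Q ≤
          x0 ^ (2 * n + 2) + S1 + (p : ℝ) ^ n * S2 + (A * x0 ^ (2 * n + 2) + (p : ℝ) ^ n * S2) := by linarith
      _ ≤ (2 + A + b ^ 2 + b ^ (2 * n + 2)) * (x0 ^ (2 * n + 2) + S1 + (p : ℝ) ^ n * S2) := by
          have : 0 ≤ A * S1 + A * ((p : ℝ) ^ n * S2) + S1 + x0 ^ (2 * n + 2) +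
            (b ^ 2 + b ^ (2 * n + 2)) * (x0 ^ (2 * n + 2) + S1 + (p : ℝ) ^ n * S2) := by positivity
          linarith
  · intro hZ
    obtain ⟨Z, hZdef⟩ : ∃ Z : ℝ, Z = max 1 ((#S : ℝ) / d) := ⟨_, rfl⟩
    rw [← hZdef] at hZ ⊢
    have hZ1 : 1 ≤ Z := by rw [hZdef]; exact le_max_left _ _
    have hZS : (#S : ℝ) / d ≤ Z := by rw [hZdef]; exact le_max_right _ _
    have hd0 : (0 : ℝ) < d := by exact_mod_cast hd
    have hxb : ∀ α t, |x α t| ≤ b := by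
      intro α t
      rw [hx]
      simp only
      have h5 := DD_abs σ s a (d * p) (crt d p r t) (Sl σ p S α)
      have h6 := hR.disc (Sl σ p S α) (hR.closed S hS p α) (d * p) (Nat.mul_pos hd hp) (crt d p r t)
      have h7 : (#(Sl σ p S α) : ℝ) / ((d * p : ℕ) : ℝ) ≤ 1 := by
        have h8 : (#(Sl σ p S α) : ℝ) ≤ #S := by exact_mod_cast card_le_card (Sl_sub σ p S α)
        push_cast
        rw [div_le_one (by positivity)]
        have h9 : (#S : ℝ) ≤ Z * d := by rwa [div_le_iff₀ hd0] at hZS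
        calc (#(Sl σ p S α) : ℝ) ≤ Z * d := h8.trans h9
          _ ≤ p * d := mul_le_mul_of_nonneg_right hZ.le hd0.le
          _ = _ := mul_comm _ _
      rw [abs_le] at h6
      rw [hb]
      linarith [h6.2]
    have hxs : ∑ α, ∑ t ∈ range p, |x α t| ≤ b * Z := by
      have h5 : ∑ α, ∑ t ∈ range p, |x α t| ≤ ∑ α, ∑ t ∈ range p,
          ((#((Sl σ p S α).filter (fun m => m ≡ crt d p r t [ZMOD ((d * p : ℕ) : ℤ)])) : ℝ) +
            (#(Sl σ p S α) : ℝ) / ((d * p : ℕ) : ℝ)) := by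
        refine sum_le_sum fun α _ => sum_le_sum fun t _ => ?_
        rw [hx]
        exact DD_abs σ s a (d * p) (crt d p r t) (Sl σ p S α)
      refine h5.trans ?_
      have e2 := fib σ hp hdp S r (fun _ => 1)
      simp only [sum_const, nsmul_eq_mul, mul_one] at e2
      simp only [sum_add_distrib]
      rw [← e2]
      have e3 := sum_Sl σ p S (fun _ => 1)
      simp only [sum_const, nsmul_eq_mul, mul_one] at e3
      have e4 : ∑ α, ∑ t ∈ range p, (#(Sl σ p S α) : ℝ) / ((d * p : ℕ) : ℝ) = (#S : ℝ) / d := by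
        rw [← e3, sum_div]
        refine sum_congr rfl fun α _ => ?_
        rw [sum_const, card_range, nsmul_eq_mul]
        push_cast
        rw [mul_div_assoc', mul_comm (d : ℝ) p, mul_div_mul_left _ _ hp0.ne']
      rw [e4]
      have h6 := hR.disc S hS d hd r
      rw [abs_le] at h6
      rw [hb]
      have hBZ : (B : ℝ) ≤ B * Z := le_mul_of_one_le_right (by positivity) hZ1
      nlinarith [h6.2]
    have hQb : Q ≤ b ^ 2 * Z := by
      calc Q ≤ ∑ α, ∑ t ∈ range p, b * |x α t| := by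
            rw [hQ]
            refine sum_le_sum fun α _ => sum_le_sum fun t _ => ?_
            rw [← sq_abs, sq]
            exact mul_le_mul_of_nonneg_right (hxb α t) (abs_nonneg _)
        _ = b * ∑ α, ∑ t ∈ range p, |x α t| := by simp only [mul_sum]
        _ ≤ b * (b * Z) := mul_le_mul_of_nonneg_left hxs hb0.le
        _ = _ := by ring
    have hS2b : S2 ≤ b ^ (2 * n + 2) * Z := by
      calc S2 ≤ ∑ α, ∑ t ∈ range p, b ^ (2 * n + 1) * |x α t| := by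
            rw [hS2]
            refine sum_le_sum fun α _ => sum_le_sum fun t _ => ?_
            have e5 : x α t ^ (2 * n + 2) = |x α t| ^ (2 * n + 1) * |x α t| := by
              rw [← pow_succ, show 2 * n + 1 + 1 = 2 * n + 2 by ring, ev, ev, sq_abs]
            rw [e5]
            exact mul_le_mul_of_nonneg_right (pow_le_pow_left₀ (abs_nonneg _) (hxb α t) _) (abs_nonneg _)
        _ = b ^ (2 * n + 1) * ∑ α, ∑ t ∈ range p, |x α t| := by simp only [mul_sum]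
        _ ≤ b ^ (2 * n + 1) * (b * Z) := mul_le_mul_of_nonneg_left hxs (by positivity)
        _ = _ := by ring
    have hZn : Z ≤ Z ^ (n + 1) := le_self_pow₀ hZ1 (by omega)
    have hyo : x0 ^ (2 * n) * Z ≤ x0 ^ (2 * n + 2) + Z ^ (n + 1) := by
      have h7 := young (sq_nonneg x0) (by linarith : (0 : ℝ) ≤ Z) n
      rw [ev, pow_mul]
      exact h7
    have h8 : x0 ^ (2 * n) * Q ≤ b ^ 2 * (x0 ^ (2 * n + 2) + Z ^ (n + 1)) := by
      have h9 : 0 ≤ x0 ^ (2 * n) := by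
        rw [pow_mul]
        positivity
      calc x0 ^ (2 * n) * Q ≤ x0 ^ (2 * n) * (b ^ 2 * Z) := mul_le_mul_of_nonneg_left hQb h9
        _ = b ^ 2 * (x0 ^ (2 * n) * Z) := by ring
        _ ≤ _ := mul_le_mul_of_nonneg_left hyo hb2
    have h9 : S2 ≤ b ^ (2 * n + 2) * Z ^ (n + 1) := hS2b.trans (mul_le_mul_of_nonneg_left hZn hb3)
    apply key
    have hZp : 0 ≤ Z ^ (n + 1) := by positivity
    have : 0 ≤ (2 + A) * (x0 ^ (2 * n + 2) + S1 + Z ^ (n + 1)) - (x0 ^ (2 * n + 2) + S1) := by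
      have : 0 ≤ (1 + A) * (x0 ^ (2 * n + 2) + S1 + Z ^ (n + 1)) + Z ^ (n + 1) := by positivity
      linarith
    have h10 : 0 ≤ b ^ 2 * S1 := by positivity
    have h11 : 0 ≤ b ^ (2 * n + 2) * (x0 ^ (2 * n + 2) + S1) := by positivity
    linarith

end Pool.Agent.L5helper86.UL
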