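import Pool.Agent.L5helper86.UL.Mom

/-! Project UL (helper86): the moments of the discrepancies, induction over the primes. -/

set_option autoImplicit false

namespace Pool.Agent.L5helper86.UL

open Finset MeasureTheory ProbabilityTheory

variable {Ω : Type} [MeasurableSpace Ω] {P : Measure Ω} {X : ℕ → Ω → ℕ}

lemma Dep.pow {s : Finset ℕ} {G : (ℕ → ℕ) → ℝ} (hG : Dep s G) (k : ℕ) : Dep s (fun a => G a ^ k) :=
  fun a b hab => by simp only [hG a b hab]

lemma Dep.sub {s : Finset ℕ} {G H : (ℕ → ℕ) → ℝ} (hG : Dep s G) (hH : Dep s H) : Dep s (fun a => G a - H a) :=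
  fun a b hab => by simp only [hG a b hab, hH a b hab]

lemma Dep.sum {s : Finset ℕ} {ι : Type} (T : Finset ι) {G : ι → (ℕ → ℕ) → ℝ} (hG : ∀ i ∈ T, Dep s (G i)) :
    Dep s (fun a => ∑ i ∈ T, G i a) :=
  fun a b hab => sum_congr rfl fun i hi => hG i hi a b hab

/-- the moments -/
theorem moment (𝒜 : Type) [Fintype 𝒜] (n B : ℕ) (hB : 1 ≤ B) : ∃ C : ℝ, 0 < C ∧
    ∀ {Ω : Type} [MeasurableSpace Ω] {P : Measure Ω} {X : ℕ → Ω → ℕ}, Sys P X →
    ∀ (σ : Sieve 𝒜) (𝒞 : Set (Finset ℤ)), Reg σ 𝒞 B → ∀ s : Finset ℕ, (∀ p ∈ s, p.Prime ∧ Loc σ B p) →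
    ∀ d : ℕ, 0 < d → (∀ p ∈ s, Nat.Coprime d p) → ∀ S ∈ 𝒞, ∀ r : ℤ,
      ∫ ω, DD σ s (fun q => X q ω) d r S ^ (2 * n + 2) ∂P ≤
        (B : ℝ) ^ (2 * n + 2) * (∏ p ∈ s, (1 + C / p)) * max 1 ((#S : ℝ) / d) ^ (n + 1) := by
  classical
  obtain ⟨C1, hC1, hpw⟩ := pointwise 𝒜 n B hB
  obtain ⟨A, hA⟩ : ∃ A : ℝ, A = Fintype.card 𝒜 := ⟨_, rfl⟩
  have hA0 : 0 ≤ A := by rw [hA]; positivity
  obtain ⟨C, hC⟩ : ∃ C : ℝ, C = C1 * (2 + 2 * A) := ⟨_, rfl⟩
  have hC0 : 0 < C := by rw [hC]; positivity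
  refine ⟨C, hC0, ?_⟩
  intro Ω _ P X h σ 𝒞 hR s
  have hP := h.prob
  have hB1 : (1 : ℝ) ≤ B := by exact_mod_cast hB
  induction s using Finset.induction_on with
  | empty =>
    intro _ d hd _ S hS r
    have e : ∀ ω, |DD σ ∅ (fun q => X q ω) d r S| ≤ B := by
      intro ω
      have h3 := hR.disc S hS d hd r
      have e2 : DD σ ∅ (fun q => X q ω) d r S = (#(S.filter (fun m => m ≡ r [ZMOD d])) : ℝ) - #S / d := by
        simp only [DD, h1, h2, prod_empty, sum_const, nsmul_eq_mul, mul_one]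
        ring
      rw [e2]
      exact h3
    have h4 : ∀ ω, DD σ ∅ (fun q => X q ω) d r S ^ (2 * n + 2) ≤ (B : ℝ) ^ (2 * n + 2) := by
      intro ω
      have h5 := pow_le_pow_left₀ (abs_nonneg _) (e ω) (2 * n + 2)
      rwa [show 2 * n + 2 = 2 * (n + 1) by ring, pow_mul |_|, sq_abs, ← pow_mul, ← show 2 * n + 2 = 2 * (n + 1) by ring] at h5
    have h5 : 1 ≤ max 1 ((#S : ℝ) / d) ^ (n + 1) := one_le_pow₀ (le_max_left _ _)
    rw [prod_empty, mul_one]
    calc ∫ ω, DD σ ∅ (fun q => X q ω) d r S ^ (2 * n + 2) ∂P ≤ ∫ _ω, (B : ℝ) ^ (2 * n + 2) ∂P := by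
          refine integral_mono ?_ (integrable_const _) h4
          exact h.int_dep ((DD_dep σ ∅ d r S).pow (2 * n + 2)) (M := (2 * #S : ℝ) ^ (2 * n + 2)) fun a => by
            rw [abs_pow]
            exact pow_le_pow_left₀ (abs_nonneg _) (DD_abs2 σ ∅ a hd r S) _
      _ = (B : ℝ) ^ (2 * n + 2) := by simp
      _ ≤ (B : ℝ) ^ (2 * n + 2) * max 1 ((#S : ℝ) / d) ^ (n + 1) := le_mul_of_one_le_right (by positivity) h5
  | insert p s hps ih =>
    intro hs d hd hcop S hS r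
    have hp := (hs p (mem_insert_self p s)).1
    have hloc := (hs p (mem_insert_self p s)).2
    have hs' : ∀ q ∈ s, q.Prime ∧ Loc σ B q := fun q hq => hs q (mem_insert_of_mem hq)
    have hdp : Nat.Coprime d p := hcop p (mem_insert_self p s)
    have hp0 : (0 : ℝ) < p := by exact_mod_cast hp.pos
    have hp1 : (1 : ℝ) ≤ p := by exact_mod_cast hp.one_lt.le
    have hd0 : (0 : ℝ) < d := by exact_mod_cast hd
    have hIH := ih hs'
    obtain ⟨Λ, hΛ⟩ : ∃ Λ : ℝ, Λ = (B : ℝ) ^ (2 * n + 2) * ∏ q ∈ s, (1 + C / q) := ⟨_, rfl⟩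
    rw [← hΛ] at hIH
    have hΛ1 : 1 ≤ Λ := by
      rw [hΛ]
      refine one_le_mul_of_one_le_of_one_le (one_le_pow₀ hB1) ?_
      refine Finset.prod_induction _ (fun x : ℝ => 1 ≤ x) (fun u v hu hv => one_le_mul_of_one_le_of_one_le hu hv)
        le_rfl ?_
      intro q _
      have : (0 : ℝ) ≤ C / q := by positivity
      linarith
    have hΛ0 : 0 ≤ Λ := by linarith
    obtain ⟨Z, hZ⟩ : ∃ Z : ℝ, Z = max 1 ((#S : ℝ) / d) := ⟨_, rfl⟩
    have hZ1 : 1 ≤ Z := by rw [hZ]; exact le_max_left _ _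
    have hZ0 : 0 ≤ Z := by linarith
    have hSl : ∀ α, (#(Sl σ p S α) : ℝ) ≤ #S := fun α => by exact_mod_cast card_le_card (Sl_sub σ p S α)
    -- abbreviations
    obtain ⟨x0, hx0⟩ : ∃ x0 : (ℕ → ℕ) → ℝ, x0 = fun a => DD σ s a d r S := ⟨_, rfl⟩
    obtain ⟨x1, hx1⟩ : ∃ x1 : 𝒜 → (ℕ → ℕ) → ℝ, x1 = fun α a => DD σ s a d r (Sl σ p S α) := ⟨_, rfl⟩
    obtain ⟨x2, hx2⟩ : ∃ x2 : 𝒜 → ℕ → (ℕ → ℕ) → ℝ,
      x2 = fun α (t : ℕ) a => DD σ s a (d * p) (crt d p r t) (Sl σ p S α) := ⟨_, rfl⟩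
    have hdep0 : Dep s x0 := by rw [hx0]; exact DD_dep σ s d r S
    have hdep1 : ∀ α, Dep s (x1 α) := fun α => by rw [hx1]; exact DD_dep σ s d r _
    have hdep2 : ∀ α t, Dep s (x2 α t) := fun α t => by rw [hx2]; exact DD_dep σ s _ _ _
    obtain ⟨M, hM⟩ : ∃ M : ℝ, M = 2 * #S := ⟨_, rfl⟩
    have hM0 : 0 ≤ M := by rw [hM]; positivity
    have hb0 : ∀ a, |x0 a| ≤ M := fun a => by
      rw [hx0, hM]
      exact DD_abs2 σ s a hd r S
    have hb1 : ∀ α a, |x1 α a| ≤ M := fun α a => by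
      rw [hx1, hM]
      exact (DD_abs2 σ s a hd r _).trans (by linarith [hSl α])
    have hb2 : ∀ α t a, |x2 α t a| ≤ M := fun α t a => by
      rw [hx2, hM]
      exact (DD_abs2 σ s a (Nat.mul_pos hd hp.pos) _ _).trans (by linarith [hSl α])
    have hpowb : ∀ {y : ℝ}, |y| ≤ M → |y ^ (2 * n + 2)| ≤ M ^ (2 * n + 2) := by
      intro y hy
      rw [abs_pow]
      exact pow_le_pow_left₀ (abs_nonneg _) hy _
    have hi0 : Integrable (fun ω => x0 (fun q => X q ω) ^ (2 * n + 2)) P :=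
      h.int_dep (hdep0.pow (2 * n + 2)) fun a => hpowb (hb0 a)
    have hi1 : ∀ α, Integrable (fun ω => x1 α (fun q => X q ω) ^ (2 * n + 2)) P := fun α =>
      h.int_dep ((hdep1 α).pow (2 * n + 2)) fun a => hpowb (hb1 α a)
    have hi2 : ∀ α t, Integrable (fun ω => x2 α t (fun q => X q ω) ^ (2 * n + 2)) P := fun α t =>
      h.int_dep ((hdep2 α t).pow (2 * n + 2)) fun a => hpowb (hb2 α t a)
    -- the step
    obtain ⟨G, hG⟩ : ∃ G : ℕ → (ℕ → ℕ) → ℝ, G = fun ρ a => (x0 a - ∑ α, ∑ t ∈ (range p).filter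
      (fun t : ℕ => σ.κ p α ρ (t : ℤ)), x2 α t a) ^ (2 * n + 2) := ⟨_, rfl⟩
    have hGdep : ∀ ρ, Dep s (G ρ) := by
      intro ρ
      rw [hG]
      exact (hdep0.sub (Dep.sum _ fun α _ => Dep.sum _ fun t _ => hdep2 α t)).pow _
    have hGb : ∀ ρ a, |G ρ a| ≤ (M + ∑ _α : 𝒜, ∑ _t ∈ range p, M) ^ (2 * n + 2) := by
      intro ρ a
      rw [hG]
      simp only
      rw [abs_pow]
      refine pow_le_pow_left₀ (abs_nonneg _) ?_ _
      refine (abs_sub _ _).trans (add_le_add (hb0 a) ?_)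
      refine (abs_sum_le_sum_abs _ _).trans (sum_le_sum fun α _ => ?_)
      refine (abs_sum_le_sum_abs _ _).trans ?_
      refine (sum_le_sum_of_subset_of_nonneg (filter_subset _ _) fun t _ _ => abs_nonneg _).trans ?_
      exact sum_le_sum fun t _ => hb2 α t a
    have hstep : ∫ ω, DD σ (insert p s) (fun q => X q ω) d r S ^ (2 * n + 2) ∂P =
        (1 / (p : ℝ)) * ∑ ρ ∈ range p, ∫ ω, G ρ (fun q => X q ω) ∂P := by
      rw [← h.int_step (fun q hq => (hs' q hq).1) hp hps hGdep hGb]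
      refine integral_congr_ae (Filter.Eventually.of_forall fun ω => ?_)
      simp only
      rw [DD_insert σ (fun q => X q ω) hp.pos hps hdp r S, hG, hx0, hx2]
      simp only
      rw [← DD_split σ s (fun q => X q ω) hp.pos hdp r S]
    have hGi : ∀ ρ, Integrable (fun ω => G ρ (fun q => X q ω)) P := fun ρ => h.int_dep (hGdep ρ) (hGb ρ)
    rw [hstep, ← integral_finsetSum _ fun ρ _ => hGi ρ, prod_insert hps]
    have hgoal : (B : ℝ) ^ (2 * n + 2) * ((1 + C / p) * ∏ q ∈ s, (1 + C / q)) * max 1 ((#S : ℝ) / d) ^ (n + 1) =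
        (1 / (p : ℝ)) * ((p + C) * (Λ * Z ^ (n + 1))) := by
      rw [hΛ, hZ]
      field_simp
    rw [hgoal]
    refine mul_le_mul_of_nonneg_left ?_ (by positivity)
    obtain ⟨T, hT⟩ : ∃ T : ℝ, T = Λ * Z ^ (n + 1) := ⟨_, rfl⟩
    rw [← hT]
    have hT0 : 0 ≤ T := by rw [hT]; positivity
    have hE0 : ∫ ω, x0 (fun q => X q ω) ^ (2 * n + 2) ∂P ≤ T := by
      rw [hT, hZ, hx0]
      exact hIH d hd (fun q hq => hcop q (mem_insert_of_mem hq)) S hS r
    have hmono : ∀ α (D : ℝ), 0 < D → max 1 ((#(Sl σ p S α) : ℝ) / D) ≤ max 1 ((#S : ℝ) / D) := by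
      intro α D hD
      exact max_le_max le_rfl (div_le_div_of_nonneg_right (hSl α) hD.le)
    have hE1 : ∀ α, ∫ ω, x1 α (fun q => X q ω) ^ (2 * n + 2) ∂P ≤ T := by
      intro α
      rw [hT, hZ, hx1]
      refine (hIH d hd (fun q hq => hcop q (mem_insert_of_mem hq)) _ (hR.closed S hS p α) r).trans ?_
      refine mul_le_mul_of_nonneg_left (pow_le_pow_left₀ (by positivity) (hmono α d hd0) _) hΛ0
    have hE1s : ∫ ω, ∑ α, x1 α (fun q => X q ω) ^ (2 * n + 2) ∂P ≤ A * T := by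
      rw [integral_finsetSum _ fun α _ => hi1 α]
      refine (sum_le_sum fun α _ => hE1 α).trans (le_of_eq ?_)
      rw [sum_const, card_univ, nsmul_eq_mul, hA]
    have hi1s : Integrable (fun ω => ∑ α, x1 α (fun q => X q ω) ^ (2 * n + 2)) P :=
      integrable_finsetSum _ fun α _ => hi1 α
    rcases le_or_gt (p : ℝ) Z with hpZ | hpZ
    · have hpw1 : ∀ a, ∑ ρ ∈ range p, G ρ a ≤ p * x0 a ^ (2 * n + 2) + C1 * (x0 a ^ (2 * n + 2) +
          ∑ α, x1 α a ^ (2 * n + 2) + (p : ℝ) ^ n * ∑ α, ∑ t ∈ range p, x2 α t a ^ (2 * n + 2)) := by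
        intro a
        have := (hpw σ 𝒞 hR s a d p hd hp.pos hdp hloc S hS r).1
        rw [hG, hx0, hx1, hx2]
        exact this
      have hcop2 : ∀ q ∈ s, Nat.Coprime (d * p) q := by
        intro q hq
        refine Nat.Coprime.mul_left (hcop q (mem_insert_of_mem hq)) ?_
        rw [Nat.coprime_primes hp (hs' q hq).1]
        rintro rfl
        exact hps hq
      have hZp : max 1 ((#S : ℝ) / ((d * p : ℕ) : ℝ)) ≤ Z / p := by
        refine max_le ((one_le_div hp0).2 hpZ) ?_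
        rw [div_le_div_iff₀ (by exact_mod_cast Nat.mul_pos hd hp.pos) hp0]
        have h5 : (#S : ℝ) / d ≤ Z := by rw [hZ]; exact le_max_right _ _
        rw [div_le_iff₀ hd0] at h5
        push_cast
        calc (#S : ℝ) * p ≤ (Z * d) * p := mul_le_mul_of_nonneg_right h5 hp0.le
          _ = _ := by ring
      have hE2 : ∀ α (t : ℕ), ∫ ω, x2 α t (fun q => X q ω) ^ (2 * n + 2) ∂P ≤ Λ * (Z / p) ^ (n + 1) := by
        intro α t
        rw [hx2]
        refine (hIH (d * p) (Nat.mul_pos hd hp.pos) hcop2 _ (hR.closed S hS p α) _).trans ?_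
        refine mul_le_mul_of_nonneg_left (pow_le_pow_left₀ (by positivity) ?_ _) hΛ0
        exact (hmono α _ (by exact_mod_cast Nat.mul_pos hd hp.pos)).trans hZp
      have hi2s : Integrable (fun ω => ∑ α, ∑ t ∈ range p, x2 α t (fun q => X q ω) ^ (2 * n + 2)) P :=
        integrable_finsetSum _ fun α _ => integrable_finsetSum _ fun t _ => hi2 α t
      have hE2s : (p : ℝ) ^ n * ∫ ω, ∑ α, ∑ t ∈ range p, x2 α t (fun q => X q ω) ^ (2 * n + 2) ∂P ≤ A * T := by
        rw [integral_finsetSum _ fun α _ => integrable_finsetSum _ fun t _ => hi2 α t]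
        have h5 : ∀ α, ∫ ω, ∑ t ∈ range p, x2 α t (fun q => X q ω) ^ (2 * n + 2) ∂P ≤ p * (Λ * (Z / p) ^ (n + 1)) := by
          intro α
          rw [integral_finsetSum _ fun t _ => hi2 α t]
          refine (sum_le_sum fun t _ => hE2 α t).trans (le_of_eq ?_)
          rw [sum_const, card_range, nsmul_eq_mul]
        calc (p : ℝ) ^ n * ∑ α, ∫ ω, ∑ t ∈ range p, x2 α t (fun q => X q ω) ^ (2 * n + 2) ∂P ≤
              (p : ℝ) ^ n * ∑ _α : 𝒜, p * (Λ * (Z / p) ^ (n + 1)) :=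
              mul_le_mul_of_nonneg_left (sum_le_sum fun α _ => h5 α) (by positivity)
          _ = A * T := by
              rw [sum_const, card_univ, nsmul_eq_mul, hA, hT, div_pow]
              field_simp
              ring
      have hia : Integrable (fun ω => x0 (fun q => X q ω) ^ (2 * n + 2) +
          ∑ α, x1 α (fun q => X q ω) ^ (2 * n + 2)) P := hi0.add hi1s
      have hib : Integrable (fun ω => (p : ℝ) ^ n * ∑ α, ∑ t ∈ range p, x2 α t (fun q => X q ω) ^ (2 * n + 2)) P :=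
        hi2s.const_mul _
      have hic : Integrable (fun ω => x0 (fun q => X q ω) ^ (2 * n + 2) + ∑ α, x1 α (fun q => X q ω) ^ (2 * n + 2) +
          (p : ℝ) ^ n * ∑ α, ∑ t ∈ range p, x2 α t (fun q => X q ω) ^ (2 * n + 2)) P := hia.add hib
      have hid : Integrable (fun ω => C1 * (x0 (fun q => X q ω) ^ (2 * n + 2) + ∑ α, x1 α (fun q => X q ω) ^ (2 * n + 2) +
          (p : ℝ) ^ n * ∑ α, ∑ t ∈ range p, x2 α t (fun q => X q ω) ^ (2 * n + 2))) P := hic.const_mul _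
      have hie : Integrable (fun ω => (p : ℝ) * x0 (fun q => X q ω) ^ (2 * n + 2)) P := hi0.const_mul _
      calc ∫ ω, ∑ ρ ∈ range p, G ρ (fun q => X q ω) ∂P ≤
            ∫ ω, (p * x0 (fun q => X q ω) ^ (2 * n + 2) + C1 * (x0 (fun q => X q ω) ^ (2 * n + 2) +
              ∑ α, x1 α (fun q => X q ω) ^ (2 * n + 2) +
              (p : ℝ) ^ n * ∑ α, ∑ t ∈ range p, x2 α t (fun q => X q ω) ^ (2 * n + 2))) ∂P :=
            integral_mono (integrable_finsetSum _ fun ρ _ => hGi ρ) (hie.add hid) fun ω => hpw1 _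
        _ = p * ∫ ω, x0 (fun q => X q ω) ^ (2 * n + 2) ∂P + C1 * (∫ ω, x0 (fun q => X q ω) ^ (2 * n + 2) ∂P +
              ∫ ω, ∑ α, x1 α (fun q => X q ω) ^ (2 * n + 2) ∂P +
              (p : ℝ) ^ n * ∫ ω, ∑ α, ∑ t ∈ range p, x2 α t (fun q => X q ω) ^ (2 * n + 2) ∂P) := by
            rw [integral_add hie hid, integral_const_mul, integral_const_mul, integral_add hia hib,
              integral_const_mul, integral_add hi0 hi1s]
        _ ≤ p * T + C1 * (T + A * T + A * T) := by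
            refine add_le_add (mul_le_mul_of_nonneg_left hE0 hp0.le) (mul_le_mul_of_nonneg_left ?_ hC1.le)
            linarith
        _ ≤ (p + C) * T := by
            rw [hC]
            have : 0 ≤ C1 * T := by positivity
            linarith
    · have hpw1 : ∀ a, ∑ ρ ∈ range p, G ρ a ≤ p * x0 a ^ (2 * n + 2) + C1 * (x0 a ^ (2 * n + 2) +
          ∑ α, x1 α a ^ (2 * n + 2) + Z ^ (n + 1)) := by
        intro a
        have := (hpw σ 𝒞 hR s a d p hd hp.pos hdp hloc S hS r).2 (by rw [← hZ]; exact hpZ)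
        rw [hG, hx0, hx1, hx2, hZ]
        exact this
      have hZT : Z ^ (n + 1) ≤ T := by
        rw [hT]
        exact le_mul_of_one_le_left (by positivity) hΛ1
      have hia : Integrable (fun ω => x0 (fun q => X q ω) ^ (2 * n + 2) +
          ∑ α, x1 α (fun q => X q ω) ^ (2 * n + 2)) P := hi0.add hi1s
      have hib : Integrable (fun _ω => Z ^ (n + 1)) P := integrable_const _
      have hic : Integrable (fun ω => x0 (fun q => X q ω) ^ (2 * n + 2) + ∑ α, x1 α (fun q => X q ω) ^ (2 * n + 2) +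
          Z ^ (n + 1)) P := hia.add hib
      have hid : Integrable (fun ω => C1 * (x0 (fun q => X q ω) ^ (2 * n + 2) + ∑ α, x1 α (fun q => X q ω) ^ (2 * n + 2) +
          Z ^ (n + 1))) P := hic.const_mul _
      have hie : Integrable (fun ω => (p : ℝ) * x0 (fun q => X q ω) ^ (2 * n + 2)) P := hi0.const_mul _
      calc ∫ ω, ∑ ρ ∈ range p, G ρ (fun q => X q ω) ∂P ≤
            ∫ ω, (p * x0 (fun q => X q ω) ^ (2 * n + 2) + C1 * (x0 (fun q => X q ω) ^ (2 * n + 2) +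
              ∑ α, x1 α (fun q => X q ω) ^ (2 * n + 2) + Z ^ (n + 1))) ∂P :=
            integral_mono (integrable_finsetSum _ fun ρ _ => hGi ρ) (hie.add hid) fun ω => hpw1 _
        _ = p * ∫ ω, x0 (fun q => X q ω) ^ (2 * n + 2) ∂P + C1 * (∫ ω, x0 (fun q => X q ω) ^ (2 * n + 2) ∂P +
              ∫ ω, ∑ α, x1 α (fun q => X q ω) ^ (2 * n + 2) ∂P + Z ^ (n + 1)) := by
            rw [integral_add hie hid, integral_const_mul, integral_const_mul, integral_add hia hib,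
              integral_add hi0 hi1s, integral_const, probReal_univ, one_smul]
        _ ≤ p * T + C1 * (T + A * T + T) := by
            refine add_le_add (mul_le_mul_of_nonneg_left hE0 hp0.le) (mul_le_mul_of_nonneg_left ?_ hC1.le)
            linarith
        _ ≤ (p + C) * T := by
            rw [hC]
            have : 0 ≤ C1 * (A * T) := by positivity
            linarith

end Pool.Agent.L5helper86.UL
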