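import Mathlib

/-! Project UL (helper86): independent uniform residues, one step of integration. -/

set_option autoImplicit false

namespace Pool.Agent.L5helper86.UL

open Finset MeasureTheory ProbabilityTheory

variable {Ω : Type} [MeasurableSpace Ω] {P : Measure Ω} {X : ℕ → Ω → ℕ}

/-- independent uniform residues -/
structure Sys (P : Measure Ω) (X : ℕ → Ω → ℕ) : Prop where
  prob : IsProbabilityMeasure P
  meas : ∀ p, Measurable (X p)
  ind : iIndepFun (fun p : Nat.Primes => X p) P
  unif : ∀ p r : ℕ, p.Prime → r < p → P.real {ω | X p ω = r} = 1 / p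

lemma Sys.ae_lt (h : Sys P X) {p : ℕ} (hp : p.Prime) : ∀ᵐ ω ∂P, X p ω < p := by
  have hP := h.prob
  have hp0 : (p : ℝ) ≠ 0 := by exact_mod_cast hp.ne_zero
  have h1 : P.real {ω | X p ω < p} = 1 := by
    have e : {ω | X p ω < p} = ⋃ b ∈ range p, {ω | X p ω = b} := by
      ext ω
      simp
    rw [e, measureReal_biUnion_finset]
    · rw [sum_congr rfl fun b hb => h.unif p b hp (mem_range.1 hb), sum_const, card_range, nsmul_eq_mul]
      field_simp
    · intro b _ b' _ hbb
      refine Set.disjoint_left.2 fun ω hω hω' => hbb ?_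
      have h2 : X p ω = b := hω
      have h3 : X p ω = b' := hω'
      rw [← h2, h3]
    · intro b _
      exact h.meas p (measurableSet_singleton b)
  have hm : MeasurableSet {ω | X p ω < p} := by
    have : {ω | X p ω < p} = X p ⁻¹' {b | b < p} := rfl
    rw [this]
    exact h.meas p MeasurableSet.of_discrete
  have h2 : P.real {ω | X p ω < p}ᶜ = 0 := by
    rw [probReal_compl_eq_one_sub hm, h1, sub_self]
  have h3 : P {ω | X p ω < p}ᶜ = 0 := by
    rwa [measureReal_eq_zero_iff] at h2
  exact h3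

/-- `G` depends only on the coordinates in `s` -/
def Dep (s : Finset ℕ) (G : (ℕ → ℕ) → ℝ) : Prop := ∀ a b : ℕ → ℕ, (∀ p ∈ s, a p = b p) → G a = G b

lemma Dep.mono {s t : Finset ℕ} (hst : s ⊆ t) {G : (ℕ → ℕ) → ℝ} (hG : Dep s G) : Dep t G :=
  fun a b hab => hG a b fun p hp => hab p (hst hp)

lemma Dep.eq_ext {s : Finset ℕ} {G : (ℕ → ℕ) → ℝ} (hG : Dep s G) (a : ℕ → ℕ) :
    G a = G (fun q => if q ∈ s then a q else 0) :=
  hG _ _ fun p hp => by rw [if_pos hp]

lemma Sys.meas_dep (h : Sys P X) {s : Finset ℕ} {G : (ℕ → ℕ) → ℝ} (hG : Dep s G) :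
    Measurable (fun ω => G (fun q => X q ω)) := by
  classical
  have e : (fun ω => G (fun q => X q ω)) =
      (fun v : (∀ _ : s, ℕ) => G (fun q => if hq : q ∈ s then v ⟨q, hq⟩ else 0)) ∘ (fun ω (i : s) => X i ω) := by
    funext ω
    exact hG _ _ fun p hp => by simp [hp]
  rw [e]
  exact (measurable_of_countable _).comp (measurable_pi_lambda _ fun i => h.meas i)

lemma Sys.int_dep (h : Sys P X) {s : Finset ℕ} {G : (ℕ → ℕ) → ℝ} (hG : Dep s G) {M : ℝ}
    (hM : ∀ a, |G a| ≤ M) : Integrable (fun ω => G (fun q => X q ω)) P := by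
  have hP := h.prob
  exact Integrable.of_bound (h.meas_dep hG).aestronglyMeasurable M (Filter.Eventually.of_forall fun ω => hM _)

theorem Sys.int_step (h : Sys P X) {s : Finset ℕ} (hs : ∀ q ∈ s, q.Prime) {p : ℕ} (hp : p.Prime)
    (hps : p ∉ s) {G : ℕ → (ℕ → ℕ) → ℝ} (hG : ∀ r, Dep s (G r)) {M : ℝ} (hM : ∀ r a, |G r a| ≤ M) :
    ∫ ω, G (X p ω) (fun q => X q ω) ∂P = (1 / (p : ℝ)) * ∑ r ∈ range p, ∫ ω, G r (fun q => X q ω) ∂P := by
  classical
  have hP := h.prob
  obtain ⟨p', rfl⟩ : ∃ p' : Nat.Primes, (p' : ℕ) = p := ⟨⟨p, hp⟩, rfl⟩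
  revert hp hps
  generalize hpp : (p' : ℕ) = p
  intro hp hps
  have hms : ∀ b, MeasurableSet {ω | X p ω = b} := fun b => h.meas p (measurableSet_singleton b)
  have hi : ∀ r, Measurable ({ω | X p ω = r}.indicator (fun _ => (1 : ℝ))) := fun r =>
    measurable_const.indicator (hms r)
  have h1 : (fun ω => G (X p ω) (fun q => X q ω)) =ᵐ[P]
      fun ω => ∑ r ∈ range p, ({ω | X p ω = r}.indicator (fun _ => (1 : ℝ)) ω) * G r (fun q => X q ω) := by
    filter_upwards [h.ae_lt hp] with ω hω
    rw [sum_eq_single (X p ω)]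
    · rw [Set.indicator_of_mem (show ω ∈ {ω' | X p ω' = X p ω} from rfl), one_mul]
    · intro b _ hb
      have h2 : ω ∉ {ω' | X p ω' = b} := fun h' => hb (Eq.symm h')
      rw [Set.indicator_of_notMem h2, zero_mul]
    · intro h'
      exact absurd (mem_range.2 hω) h'
  have hbd : ∀ r ω, |({ω | X p ω = r}.indicator (fun _ => (1 : ℝ)) ω) * G r (fun q => X q ω)| ≤ M := by
    intro r ω
    rw [abs_mul]
    have h2 : |({ω | X p ω = r}.indicator (fun _ => (1 : ℝ)) ω)| ≤ 1 := by
      by_cases hω : ω ∈ {ω | X p ω = r}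
      · rw [Set.indicator_of_mem hω, abs_one]
      · rw [Set.indicator_of_notMem hω, abs_zero]
        exact zero_le_one
    calc _ ≤ 1 * |G r (fun q => X q ω)| := mul_le_mul_of_nonneg_right h2 (abs_nonneg _)
      _ ≤ M := by rw [one_mul]; exact hM r _
  rw [integral_congr_ae h1, integral_finsetSum _ fun r _ => ?_]
  · rw [mul_sum]
    refine sum_congr rfl fun r hr => ?_
    obtain ⟨T, hT⟩ : ∃ T : Finset Nat.Primes, T = s.subtype Nat.Prime := ⟨_, rfl⟩
    have hmT : ∀ q (hq : q ∈ s), (⟨q, hs q hq⟩ : Nat.Primes) ∈ T := by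
      intro q hq
      rw [hT]
      exact mem_subtype.2 hq
    have hdis : Disjoint ({p'} : Finset Nat.Primes) T := by
      rw [disjoint_singleton_left, hT]
      intro hmem
      exact hps (by rw [← hpp]; exact mem_subtype.1 hmem)
    have hI := h.ind.indepFun_finset ({p'} : Finset Nat.Primes) T hdis (fun i => h.meas i)
    have hI2 := hI.comp
      (φ := fun v : (∀ _ : (({p'} : Finset Nat.Primes)), ℕ) =>
        if v ⟨p', mem_singleton_self _⟩ = r then (1 : ℝ) else 0)
      (ψ := fun v : (∀ _ : T, ℕ) => G r (fun q => if hq : q ∈ s then v ⟨⟨q, hs q hq⟩, hmT q hq⟩ else 0))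
      (measurable_of_countable _) (measurable_of_countable _)
    have e1 : ((fun v : (∀ _ : (({p'} : Finset Nat.Primes)), ℕ) =>
        if v ⟨p', mem_singleton_self _⟩ = r then (1 : ℝ) else 0) ∘
        (fun ω (i : (({p'} : Finset Nat.Primes))) => X i ω)) =
        {ω | X p ω = r}.indicator (fun _ => (1 : ℝ)) := by
      funext ω
      simp only [Function.comp, Set.indicator, Set.mem_ofPred_eq, hpp]
    have e2 : ((fun v : (∀ _ : T, ℕ) => G r (fun q => if hq : q ∈ s then v ⟨⟨q, hs q hq⟩, hmT q hq⟩ else 0)) ∘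
        (fun ω (i : T) => X i ω)) = fun ω => G r (fun q => X q ω) := by
      funext ω
      exact hG r _ _ fun q hq => by simp [hq]
    have hI3 : IndepFun ({ω | X p ω = r}.indicator (fun _ => (1 : ℝ))) (fun ω => G r (fun q => X q ω)) P := by
      have h5 := hI2
      rw [show (fun v : (∀ _ : T, ℕ) => G r (fun q => if hq : q ∈ s then v ⟨⟨q, hs q hq⟩, hmT q hq⟩ else 0)) ∘
        (fun ω (i : T) => X i ω) = fun ω => G r (fun q => X q ω) from e2] at h5
      rw [show (fun v : (∀ _ : (({p'} : Finset Nat.Primes)), ℕ) =>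
        if v ⟨p', mem_singleton_self _⟩ = r then (1 : ℝ) else 0) ∘
        (fun ω (i : (({p'} : Finset Nat.Primes))) => X i ω) =
        {ω | X p ω = r}.indicator (fun _ => (1 : ℝ)) from e1] at h5
      exact h5
    rw [hI3.integral_fun_mul_eq_mul_integral (hi r).aestronglyMeasurable
      (h.meas_dep (hG r)).aestronglyMeasurable]
    congr 1
    rw [integral_indicator (hms r)]
    simp only [integral_const, MeasurableSet.univ, measureReal_restrict_apply, Set.univ_inter, smul_eq_mul, mul_one]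
    exact h.unif p r hp (mem_range.1 hr)
  · exact Integrable.of_bound (((hi r).mul (h.meas_dep (hG r))).aestronglyMeasurable) M
      (Filter.Eventually.of_forall fun ω => by
        rw [Real.norm_eq_abs]
        exact hbd r ω)

end Pool.Agent.L5helper86.UL
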