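import Pool.Agent.L5helper86.UL.Prob
import Pool.Agent.L5helper86.UL.Ineq

/-! Project UL (helper86): sieves with labels, the discrepancies, their recursion. -/

set_option autoImplicit false

namespace Pool.Agent.L5helper86.UL

open Finset

/-- a sieve: `lab p m` is the label of `m` at `p`; `κ p α ρ m`: an `m` with the label `α` is killed by the residue `ρ` -/
structure Sieve (𝒜 : Type) where
  lab : ℕ → ℤ → 𝒜
  κ : ℕ → 𝒜 → ℕ → ℤ → Prop
  per : ∀ (p : ℕ) (α : 𝒜) (ρ : ℕ) (m m' : ℤ), m ≡ m' [ZMOD p] → (κ p α ρ m ↔ κ p α ρ m')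

variable {𝒜 : Type}

open Classical in
/-- the number of the killed residues -/
noncomputable def nu (σ : Sieve 𝒜) (p : ℕ) (α : 𝒜) (ρ : ℕ) : ℕ := #((range p).filter fun t : ℕ => σ.κ p α ρ (t : ℤ))

lemma nu_le (σ : Sieve 𝒜) (p : ℕ) (α : 𝒜) (ρ : ℕ) : nu σ p α ρ ≤ p := by
  classical
  unfold nu
  exact (card_filter_le _ _).trans (by simp)

open Classical in
/-- survival -/
noncomputable def h1 (σ : Sieve 𝒜) (s : Finset ℕ) (a : ℕ → ℕ) (m : ℤ) : ℝ :=
  ∏ p ∈ s, if σ.κ p (σ.lab p m) (a p) m then 0 else 1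

/-- the local density -/
noncomputable def h2 (σ : Sieve 𝒜) (s : Finset ℕ) (a : ℕ → ℕ) (m : ℤ) : ℝ :=
  ∏ p ∈ s, (1 - (nu σ p (σ.lab p m) (a p) : ℝ) / p)

lemma h1_01 (σ : Sieve 𝒜) (s : Finset ℕ) (a : ℕ → ℕ) (m : ℤ) : 0 ≤ h1 σ s a m ∧ h1 σ s a m ≤ 1 := by
  unfold h1
  constructor
  · refine prod_nonneg fun p _ => ?_
    split_ifs <;> norm_num
  · refine prod_le_one (fun p _ => ?_) fun p _ => ?_
    · split_ifs <;> norm_num
    · split_ifs <;> norm_num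

lemma h2_01 (σ : Sieve 𝒜) (s : Finset ℕ) (a : ℕ → ℕ) (m : ℤ) : 0 ≤ h2 σ s a m ∧ h2 σ s a m ≤ 1 := by
  have h : ∀ p, (nu σ p (σ.lab p m) (a p) : ℝ) / p ≤ 1 := fun p =>
    div_le_one_of_le₀ (by exact_mod_cast nu_le σ p _ _) (by positivity)
  unfold h2
  constructor
  · exact prod_nonneg fun p _ => by linarith [h p]
  · refine prod_le_one (fun p _ => by linarith [h p]) fun p _ => ?_
    have : (0 : ℝ) ≤ (nu σ p (σ.lab p m) (a p) : ℝ) / p := by positivity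
    linarith

/-- the discrepancy -/
noncomputable def DD (σ : Sieve 𝒜) (s : Finset ℕ) (a : ℕ → ℕ) (d : ℕ) (r : ℤ) (S : Finset ℤ) : ℝ :=
  ∑ m ∈ S.filter (fun m => m ≡ r [ZMOD d]), h1 σ s a m - (1 / (d : ℝ)) * ∑ m ∈ S, h2 σ s a m

lemma crt_exists {d p : ℕ} (hdp : Nat.Coprime d p) (r t : ℤ) :
    ∃ r' : ℤ, ∀ m : ℤ, m ≡ r' [ZMOD ((d * p : ℕ) : ℤ)] ↔ m ≡ r [ZMOD d] ∧ m ≡ t [ZMOD p] := by
  have hc : IsCoprime (d : ℤ) (p : ℤ) := Nat.isCoprime_iff_coprime.2 hdp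
  obtain ⟨x, y, hxy⟩ := hc
  have h1 : r + d * x * (t - r) ≡ r [ZMOD d] := by
    refine Int.modEq_iff_dvd.2 ⟨-(x * (t - r)), by ring⟩
  have h2 : r + d * x * (t - r) ≡ t [ZMOD p] := by
    refine Int.modEq_iff_dvd.2 ⟨y * (t - r), ?_⟩
    have e : (d : ℤ) * x = 1 - y * p := by linarith [mul_comm x (d : ℤ)]
    rw [e]
    ring
  refine ⟨r + d * x * (t - r), fun m => ?_⟩
  have h3 : m ≡ r + d * x * (t - r) [ZMOD ((d * p : ℕ) : ℤ)] ↔
      m ≡ r + d * x * (t - r) [ZMOD d] ∧ m ≡ r + d * x * (t - r) [ZMOD p] := by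
    push_cast
    exact (Int.modEq_and_modEq_iff_modEq_mul (by simpa using hdp)).symm
  rw [h3]
  constructor
  · rintro ⟨h4, h5⟩
    exact ⟨h4.trans h1, h5.trans h2⟩
  · rintro ⟨h4, h5⟩
    exact ⟨h4.trans h1.symm, h5.trans h2.symm⟩

open Classical in
/-- the residue given by the Chinese remainder theorem -/
noncomputable def crt (d p : ℕ) (r t : ℤ) : ℤ :=
  if h : ∃ r' : ℤ, ∀ m : ℤ, m ≡ r' [ZMOD ((d * p : ℕ) : ℤ)] ↔ m ≡ r [ZMOD d] ∧ m ≡ t [ZMOD p] then h.choose else 0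

lemma crt_iff {d p : ℕ} (hdp : Nat.Coprime d p) (r t m : ℤ) :
    m ≡ crt d p r t [ZMOD ((d * p : ℕ) : ℤ)] ↔ m ≡ r [ZMOD d] ∧ m ≡ t [ZMOD p] := by
  have h := crt_exists hdp r t
  unfold crt
  rw [dif_pos h]
  exact h.choose_spec m

variable [Fintype 𝒜]

open Classical in
/-- the elements with the label `α` -/
noncomputable def Sl (σ : Sieve 𝒜) (p : ℕ) (S : Finset ℤ) (α : 𝒜) : Finset ℤ := S.filter fun m => σ.lab p m = α

omit [Fintype 𝒜] in
lemma mem_Sl (σ : Sieve 𝒜) (p : ℕ) (S : Finset ℤ) (α : 𝒜) (m : ℤ) : m ∈ Sl σ p S α ↔ m ∈ S ∧ σ.lab p m = α := by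
  classical
  unfold Sl
  rw [mem_filter]

omit [Fintype 𝒜] in
lemma Sl_sub (σ : Sieve 𝒜) (p : ℕ) (S : Finset ℤ) (α : 𝒜) : Sl σ p S α ⊆ S := by
  classical
  unfold Sl
  exact filter_subset _ _

lemma sum_Sl (σ : Sieve 𝒜) (p : ℕ) (S : Finset ℤ) (H : ℤ → ℝ) : ∑ α, ∑ m ∈ Sl σ p S α, H m = ∑ m ∈ S, H m := by
  classical
  unfold Sl
  exact sum_fiberwise S (fun m => σ.lab p m) H

lemma fib (σ : Sieve 𝒜) {d p : ℕ} (hp : 0 < p) (hdp : Nat.Coprime d p) (S : Finset ℤ) (r : ℤ) (H : ℤ → ℝ) :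
    ∑ m ∈ S.filter (fun m => m ≡ r [ZMOD d]), H m =
      ∑ α, ∑ t ∈ range p, ∑ m ∈ (Sl σ p S α).filter (fun m => m ≡ crt d p r t [ZMOD ((d * p : ℕ) : ℤ)]), H m := by
  classical
  rw [← sum_Sl σ p]
  refine sum_congr rfl fun α _ => ?_
  have hpz : (0 : ℤ) < p := by exact_mod_cast hp
  rw [← sum_fiberwise_of_maps_to (s := Sl σ p (S.filter fun m => m ≡ r [ZMOD d]) α) (t := range p)
    (g := fun m => (m % p).toNat)]
  · refine sum_congr rfl fun t ht => ?_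
    refine sum_congr ?_ fun _ _ => rfl
    ext m
    unfold Sl
    simp only [mem_filter, crt_iff hdp]
    have h : (m % p).toNat = t ↔ m ≡ t [ZMOD p] := by
      have h1 := Int.emod_nonneg m hpz.ne'
      have h2 : ((t : ℤ)) % p = t := Int.emod_eq_of_lt (by positivity) (by exact_mod_cast mem_range.1 ht)
      unfold Int.ModEq
      rw [h2]
      omega
    rw [h]
    tauto
  · intro m _
    rw [mem_range]
    have h1 := Int.emod_nonneg m hpz.ne'
    have h2 := Int.emod_lt_of_pos m hpz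
    omega

/-- splitting of the discrepancy -/
lemma DD_split (σ : Sieve 𝒜) (s : Finset ℕ) (a : ℕ → ℕ) {d p : ℕ} (hp : 0 < p) (hdp : Nat.Coprime d p)
    (r : ℤ) (S : Finset ℤ) : DD σ s a d r S = ∑ α, ∑ t ∈ range p, DD σ s a (d * p) (crt d p r t) (Sl σ p S α) := by
  have hp0 : (p : ℝ) ≠ 0 := by exact_mod_cast hp.ne'
  unfold DD
  simp only [sum_sub_distrib]
  rw [fib σ hp hdp]
  congr 1
  rw [← sum_Sl σ p, mul_sum]
  refine sum_congr rfl fun α _ => ?_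
  rw [sum_const, card_range, nsmul_eq_mul]
  push_cast
  rw [← mul_assoc]
  congr 1
  by_cases hd : (d : ℝ) = 0
  · rw [hd]
    simp
  · field_simp

open Classical in
/-- the recursion -/
lemma DD_insert (σ : Sieve 𝒜) {s : Finset ℕ} (a : ℕ → ℕ) {d p : ℕ} (hp : 0 < p) (hps : p ∉ s)
    (hdp : Nat.Coprime d p) (r : ℤ) (S : Finset ℤ) : DD σ (insert p s) a d r S =
      ∑ α, ∑ t ∈ range p, DD σ s a (d * p) (crt d p r t) (Sl σ p S α) -
      ∑ α, ∑ t ∈ (range p).filter (fun t : ℕ => σ.κ p α (a p) t), DD σ s a (d * p) (crt d p r t) (Sl σ p S α) := by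
  have hp0 : (p : ℝ) ≠ 0 := by exact_mod_cast hp.ne'
  rw [← sum_sub_distrib]
  have e1 : ∀ α : 𝒜, (∑ t ∈ range p, DD σ s a (d * p) (crt d p r t) (Sl σ p S α) -
      ∑ t ∈ (range p).filter (fun t : ℕ => σ.κ p α (a p) t), DD σ s a (d * p) (crt d p r t) (Sl σ p S α)) =
      ∑ t ∈ (range p).filter (fun t : ℕ => ¬ σ.κ p α (a p) t), DD σ s a (d * p) (crt d p r t) (Sl σ p S α) := by
    intro α
    rw [← sum_filter_add_sum_filter_not (range p) (fun t : ℕ => σ.κ p α (a p) t)]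
    ring
  simp only [e1]
  unfold DD
  simp only [sum_sub_distrib]
  congr 1
  · rw [fib σ hp hdp]
    refine sum_congr rfl fun α _ => ?_
    rw [sum_filter]
    refine sum_congr rfl fun t ht => ?_
    have h3 : ∀ m ∈ (Sl σ p S α).filter (fun m => m ≡ crt d p r t [ZMOD ((d * p : ℕ) : ℤ)]),
        h1 σ (insert p s) a m = if ¬ σ.κ p α (a p) t then h1 σ s a m else 0 := by
      intro m hm
      unfold Sl at hm
      rw [mem_filter, mem_filter, crt_iff hdp] at hm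
      unfold h1
      rw [prod_insert hps, hm.1.2, σ.per p α (a p) m t hm.2.2]
      by_cases hk : σ.κ p α (a p) t
      · simp [hk]
      · simp [hk]
    rw [sum_congr rfl h3]
    by_cases hk : σ.κ p α (a p) t
    · simp [hk]
    · simp [hk]
  · rw [← sum_Sl σ p, mul_sum]
    refine sum_congr rfl fun α _ => ?_
    have h3 : ∀ m ∈ Sl σ p S α, h2 σ (insert p s) a m = (1 - (nu σ p α (a p) : ℝ) / p) * h2 σ s a m := by
      intro m hm
      unfold Sl at hm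
      rw [mem_filter] at hm
      unfold h2
      rw [prod_insert hps, hm.2]
    rw [sum_congr rfl h3, ← mul_sum, sum_const, nsmul_eq_mul, ← mul_assoc, ← mul_assoc]
    congr 1
    have h4 : (#((range p).filter (fun t : ℕ => ¬ σ.κ p α (a p) t)) : ℝ) = p - nu σ p α (a p) := by
      have h5 := card_filter_add_card_filter_not (s := range p) (fun t : ℕ => σ.κ p α (a p) t)
      rw [card_range] at h5
      unfold nu
      have h6 : ((#((range p).filter (fun t : ℕ => σ.κ p α (a p) t)) : ℝ)) +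
          #((range p).filter (fun t : ℕ => ¬ σ.κ p α (a p) t)) = p := by exact_mod_cast h5
      linarith
    rw [h4]
    push_cast
    by_cases hd : (d : ℝ) = 0
    · rw [hd]
      simp
    · field_simp

end Pool.Agent.L5helper86.UL
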