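import Pool.Agent.L5helper86.UL.Pair

/-! Project UL (helper86): the problem of Schinzel for all large odd integers. -/

set_option autoImplicit false

namespace Pool.Agent.L5helper86.UL

open Finset Polynomial MeasureTheory ProbabilityTheory Filter Topology

/-- an initial segment -/
lemma initial_seg {S : Finset ℤ} (h1 : ∀ m ∈ S, 1 ≤ m) (h2 : ∀ m ∈ S, ∀ m', 1 ≤ m' → m' ≤ m → m' ∈ S) :
    S = Ioc 0 (#S : ℤ) := by
  rcases S.eq_empty_or_nonempty with rfl | hS
  · simp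
  · obtain ⟨M, hM⟩ : ∃ M, M = S.max' hS := ⟨_, rfl⟩
    have hMS : M ∈ S := by rw [hM]; exact S.max'_mem hS
    have e : S = Ioc 0 M := by
      ext m
      rw [mem_Ioc]
      constructor
      · intro hm
        have := h1 m hm
        exact ⟨by omega, by rw [hM]; exact S.le_max' m hm⟩
      · rintro ⟨h3, h4⟩
        exact h2 M hMS m (by omega) h4
    have hc : (#S : ℤ) = M := by
      have h5 := h1 M hMS
      rw [e, Int.card_Ioc]
      omega
    rw [hc]
    exact e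

/-- the range of the arguments -/
lemma quad_range {δ : ℝ} (hδ : 0 < δ) : ∀ᶠ n : ℕ in atTop, ∀ b c : ℤ, (|b| : ℝ) ≤ (n : ℝ) ^ (1 / 2 - δ) →
    (|c| : ℝ) ≤ (n : ℝ) ^ (1 - δ) → ∃ M : ℕ, (Icc (1 : ℤ) n).filter (fun m => m ^ 2 + b * m + c < n) = Ioc 0 (M : ℤ) ∧
      Real.sqrt n ≤ 3 * M ∧ (M : ℝ) ≤ 2 * Real.sqrt n := by
  have h1 : ∀ᶠ n : ℕ in atTop, (8 : ℝ) ≤ (n : ℝ) ^ δ :=
    ((tendsto_rpow_atTop hδ).comp tendsto_natCast_atTop_atTop).eventually_ge_atTop 8
  filter_upwards [h1, eventually_ge_atTop 100] with n hn hn100 b c hb hc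
  have hn0 : (100 : ℝ) ≤ n := by exact_mod_cast hn100
  have hnp : (0 : ℝ) < n := by linarith
  obtain ⟨s, hs⟩ : ∃ s, s = Real.sqrt n := ⟨_, rfl⟩
  have hs2 : s * s = n := by rw [hs]; exact Real.mul_self_sqrt hnp.le
  have hs10 : 10 ≤ s := by
    rw [hs]
    exact Real.le_sqrt_of_sq_le (by linarith)
  have hb8 : (|b| : ℝ) ≤ s / 8 := by
    refine hb.trans ?_
    rw [Real.rpow_sub hnp, ← Real.sqrt_eq_rpow, ← hs]
    exact div_le_div_of_nonneg_left (by linarith) (by norm_num) hn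
  have hc8 : (|c| : ℝ) ≤ n / 8 := by
    refine hc.trans ?_
    rw [Real.rpow_sub hnp, Real.rpow_one]
    exact div_le_div_of_nonneg_left (by linarith) (by norm_num) hn
  have hb1 := neg_abs_le (b : ℝ)
  have hb2 := le_abs_self (b : ℝ)
  have hc1 := neg_abs_le (c : ℝ)
  have hc2 := le_abs_self (c : ℝ)
  push_cast at hb8 hc8
  obtain ⟨S, hS⟩ : ∃ S, S = (Icc (1 : ℤ) n).filter (fun m => m ^ 2 + b * m + c < n) := ⟨_, rfl⟩
  have hmem : ∀ m : ℤ, m ∈ S ↔ (1 ≤ m ∧ m ≤ n) ∧ m ^ 2 + b * m + c < n := by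
    intro m
    rw [hS, mem_filter, mem_Icc]
  have hcn : c < n := by
    have : (c : ℝ) < ((n : ℤ) : ℝ) := by push_cast; linarith
    exact_mod_cast this
  have hseg := initial_seg (S := S) (fun m hm => ((hmem m).1 hm).1.1) (by
    intro m hm m' h3 h4
    rw [hmem] at hm ⊢
    refine ⟨⟨h3, h4.trans hm.1.2⟩, ?_⟩
    have h5 : m * (m' ^ 2 + b * m' + c) < m * n := by
      have e : m * (m' ^ 2 + b * m' + c) = m' * (m ^ 2 + b * m + c) + (m - m') * c - m * m' * (m - m') := by ring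
      have h6 : m' * (m ^ 2 + b * m + c) < m' * n := mul_lt_mul_of_pos_left hm.2 (by linarith)
      have h7 : (m - m') * c ≤ (m - m') * n := mul_le_mul_of_nonneg_left hcn.le (by linarith)
      have h8 : 0 ≤ m * m' * (m - m') := mul_nonneg (mul_nonneg (by linarith) (by linarith)) (by linarith)
      rw [e]
      nlinarith
    exact lt_of_mul_lt_mul_left h5 (by linarith [hm.1.1]))
  refine ⟨#S, ?_, ?_, ?_⟩
  · rw [← hS]
    exact hseg
  · -- lower bound
    rw [← hs]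
    obtain ⟨t, ht⟩ : ∃ t : ℤ, t = ⌊s / 2⌋ := ⟨_, rfl⟩
    have ht1 : (t : ℝ) ≤ s / 2 := by rw [ht]; exact Int.floor_le _
    have ht2 : s / 2 < t + 1 := by rw [ht]; exact Int.lt_floor_add_one _
    have ht0 : (1 : ℤ) ≤ t := by
      have : (1 : ℝ) < (t : ℝ) + 1 := by linarith
      have h3 : (0 : ℝ) < (t : ℝ) := by linarith
      have h4 : (0 : ℤ) < t := by exact_mod_cast h3
      omega
    have ht0r : (1 : ℝ) ≤ t := by exact_mod_cast ht0
    have htS : t ∈ S := by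
      rw [hmem]
      refine ⟨⟨ht0, ?_⟩, ?_⟩
      · have : (t : ℝ) ≤ ((n : ℤ) : ℝ) := by push_cast; nlinarith
        exact_mod_cast this
      · have h5 : (t : ℝ) ^ 2 ≤ n / 4 := by nlinarith
        have h6 : (b : ℝ) * t ≤ s / 8 * (s / 2) := by
          calc (b : ℝ) * t ≤ s / 8 * t := mul_le_mul_of_nonneg_right (by linarith) (by linarith)
            _ ≤ s / 8 * (s / 2) := mul_le_mul_of_nonneg_left ht1 (by linarith)
        have : ((t ^ 2 + b * t + c : ℤ) : ℝ) < ((n : ℤ) : ℝ) := by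
          push_cast
          nlinarith
        exact_mod_cast this
    rw [hseg, mem_Ioc] at htS
    have h7 : (t : ℝ) ≤ #S := by
      have := htS.2
      exact_mod_cast this
    linarith
  · rw [← hs]
    by_contra hcon
    push Not at hcon
    have hc0 : 0 < (#S : ℤ) := by
      have : (0 : ℝ) < ((#S : ℕ) : ℝ) := by linarith
      exact_mod_cast this
    have hMS : (#S : ℤ) ∈ S := by
      rw [hseg, mem_Ioc]
      rw [← hseg]
      exact ⟨hc0, le_rfl⟩
    rw [hmem] at hMS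
    have h9 : (((#S : ℕ) : ℝ)) ^ 2 + b * ((#S : ℕ) : ℝ) + c < n := by
      have := hMS.2
      have h10 : (((((#S : ℕ) : ℤ)) ^ 2 + b * ((#S : ℕ) : ℤ) + c : ℤ) : ℝ) < ((n : ℤ) : ℝ) := by exact_mod_cast this
      push_cast at h10
      exact h10
    obtain ⟨x, hx⟩ : ∃ x : ℝ, x = ((#S : ℕ) : ℝ) := ⟨_, rfl⟩
    rw [← hx] at h9 hcon
    nlinarith

end Pool.Agent.L5helper86.UL
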