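import Pool.Agent.L5helper86.UL.Tail

/-! Project UL (helper86): singular products. -/

set_option autoImplicit false

namespace Pool.Agent.L5helper86.UL

open Finset Polynomial MeasureTheory ProbabilityTheory Filter Topology
open Pool.Agent.L5helper2.BH (pr mem_pr)

variable {k : ℕ}

open Classical in
/-- the number of the residues `r` modulo `p` with `g i (r) ≡ b` for some `i` in `α` -/
noncomputable def rA (g : Fin k → ℤ[X]) (p : ℕ) (α : Finset (Fin k)) (b : ℕ) : ℕ :=
  #((range p).filter fun r : ℕ => ∃ i ∈ α, (g i).eval (r : ℤ) ≡ (b : ℤ) [ZMOD p])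

lemma nu_rA (z : ℕ → ℝ) (g : Fin k → ℤ[X]) (p : ℕ) (α : Finset (Fin k)) (b : ℕ) : nu (PS z g) p α b = rA g p α b := by
  classical
  unfold nu rA
  exact congrArg card (filter_congr fun r _ => Iff.rfl)

/-- all `g i` are nonconstant modulo `p` -/
def NC (g : Fin k → ℤ[X]) (p : ℕ) : Prop := ∀ i, ∀ c : ZMod p, rd g p i ≠ C c

lemma ev_iff (g : Fin k → ℤ[X]) (p : ℕ) (i : Fin k) (r b : ℕ) : (g i).eval (r : ℤ) ≡ (b : ℤ) [ZMOD p] ↔
    (rd g p i).eval (r : ZMod p) = (b : ZMod p) := by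
  have h := rd_eval g p i r
  rw [Int.cast_natCast] at h
  rw [h, ← ZMod.intCast_eq_intCast_iff]
  simp

lemma rA_le {g : Fin k → ℤ[X]} {D : ℕ} (hD : ∀ i, (g i).natDegree ≤ D) {p : ℕ} (hp : p.Prime) (hN : NC g p)
    (α : Finset (Fin k)) (b : ℕ) : rA g p α b ≤ k * D := by
  classical
  have : Fact p.Prime := ⟨hp⟩
  unfold rA
  calc #((range p).filter fun r : ℕ => ∃ i ∈ α, (g i).eval (r : ℤ) ≡ (b : ℤ) [ZMOD p]) ≤
        #(univ.biUnion fun i : Fin k => (range p).filter fun t : ℕ =>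
          (rd g p i - C (b : ZMod p)).eval (t : ZMod p) = 0) := by
        refine card_le_card fun t ht => ?_
        rw [mem_filter] at ht
        obtain ⟨ht1, i, _, h⟩ := ht
        rw [mem_biUnion]
        refine ⟨i, mem_univ i, ?_⟩
        rw [mem_filter, eval_sub, eval_C]
        rw [ev_iff] at h
        exact ⟨ht1, by rw [h, sub_self]⟩
    _ ≤ ∑ _i : Fin k, D := by
        refine card_biUnion_le.trans (sum_le_sum fun i _ => ?_)
        refine root_count (sub_ne_zero.2 (hN i _)) ?_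
        rw [natDegree_sub_C]
        exact rd_deg g hD p i
    _ = k * D := by rw [sum_const, card_univ, Fintype.card_fin, smul_eq_mul]

/-- the mean of `rA` -/
noncomputable def mA (g : Fin k → ℤ[X]) (p : ℕ) (α : Finset (Fin k)) : ℝ := (1 / (p : ℝ)) * ∑ b ∈ range p, (rA g p α b : ℝ)

open Classical in
lemma sum_rA (g : Fin k → ℤ[X]) {p : ℕ} (hp : p.Prime) (α : Finset (Fin k)) : ∑ b ∈ range p, rA g p α b =
    ∑ r ∈ range p, #(α.image fun i => (rd g p i).eval (r : ZMod p)) := by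
  have : Fact p.Prime := ⟨hp⟩
  unfold rA
  simp only [card_filter]
  rw [sum_comm]
  refine sum_congr rfl fun r _ => ?_
  rw [← card_filter]
  refine card_bij (fun b _ => (b : ZMod p)) ?_ ?_ ?_
  · intro b hb
    rw [mem_filter] at hb
    obtain ⟨_, i, hi, h⟩ := hb
    rw [ev_iff] at h
    rw [mem_image]
    exact ⟨i, hi, h⟩
  · intro a ha b hb hab
    rw [mem_filter, mem_range] at ha hb
    have h2 := congrArg ZMod.val hab
    rwa [ZMod.val_cast_of_lt ha.1, ZMod.val_cast_of_lt hb.1] at h2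
  · intro c hc
    rw [mem_image] at hc
    obtain ⟨i, hi, h⟩ := hc
    refine ⟨c.val, ?_, ZMod.natCast_zmod_val c⟩
    rw [mem_filter, mem_range]
    refine ⟨ZMod.val_lt c, i, hi, ?_⟩
    rw [ev_iff, ZMod.natCast_zmod_val]
    exact h

lemma mA_le (g : Fin k → ℤ[X]) {p : ℕ} (hp : p.Prime) (α : Finset (Fin k)) : 0 ≤ mA g p α ∧ mA g p α ≤ #α := by
  classical
  have hp0 : (0 : ℝ) < p := by exact_mod_cast hp.pos
  constructor
  · unfold mA
    positivity
  · unfold mA
    have h1 : (∑ b ∈ range p, (rA g p α b : ℝ)) ≤ p * #α := by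
      have h2 : ∑ b ∈ range p, rA g p α b ≤ p * #α := by
        rw [sum_rA g hp]
        calc ∑ r ∈ range p, #(α.image fun i => (rd g p i).eval (r : ZMod p)) ≤ ∑ _r ∈ range p, #α :=
              sum_le_sum fun r _ => card_image_le
          _ = p * #α := by rw [sum_const, card_range, smul_eq_mul]
      exact_mod_cast h2
    rw [one_div, inv_mul_le_iff₀ hp0]
    exact h1

lemma mA_ge {g : Fin k → ℤ[X]} {D : ℕ} (hD : ∀ i, (g i).natDegree ≤ D) {p : ℕ} (hp : p.Prime)
    (hinj : Function.Injective (rd g p)) (α : Finset (Fin k)) : (#α : ℝ) - k * (k * k * D : ℕ) / p ≤ mA g p α := by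
  classical
  have : Fact p.Prime := ⟨hp⟩
  have hp0 : (0 : ℝ) < p := by exact_mod_cast hp.pos
  obtain ⟨Exc, hExc⟩ : ∃ Exc, Exc = (range p).filter (fun t : ℕ => ∃ i j, rd g p i ≠ rd g p j ∧
    (rd g p i).eval (t : ZMod p) = (rd g p j).eval (t : ZMod p)) := ⟨_, rfl⟩
  have hE : #Exc ≤ k * k * D := by
    have hsub : Exc ⊆ ((univ : Finset (Fin k × Fin k)).filter fun q => rd g p q.1 ≠ rd g p q.2).biUnion fun q =>
        (range p).filter fun t : ℕ => (rd g p q.1 - rd g p q.2).eval (t : ZMod p) = 0 := by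
      intro t ht
      rw [hExc, mem_filter] at ht
      obtain ⟨ht1, i, j, hij, h⟩ := ht
      rw [mem_biUnion]
      refine ⟨(i, j), ?_, ?_⟩
      · rw [mem_filter]
        exact ⟨mem_univ _, hij⟩
      · rw [mem_filter, eval_sub]
        exact ⟨ht1, sub_eq_zero.2 h⟩
    refine (card_le_card hsub).trans (card_biUnion_le.trans ?_)
    calc ∑ q ∈ (univ : Finset (Fin k × Fin k)).filter fun q => rd g p q.1 ≠ rd g p q.2,
          #((range p).filter fun t : ℕ => (rd g p q.1 - rd g p q.2).eval (t : ZMod p) = 0) ≤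
          ∑ _q ∈ (univ : Finset (Fin k × Fin k)).filter fun q => rd g p q.1 ≠ rd g p q.2, D := by
          refine sum_le_sum fun q hq => ?_
          rw [mem_filter] at hq
          refine root_count (sub_ne_zero.2 hq.2) ?_
          exact (natDegree_sub_le _ _).trans (max_le (rd_deg g hD p _) (rd_deg g hD p _))
      _ = #((univ : Finset (Fin k × Fin k)).filter fun q => rd g p q.1 ≠ rd g p q.2) * D := by
          rw [sum_const, smul_eq_mul]
      _ ≤ (k * k) * D := by
          refine Nat.mul_le_mul_right D ((card_filter_le _ _).trans ?_)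
          rw [card_univ, Fintype.card_prod, Fintype.card_fin]
  have hα : #α ≤ k := (card_le_univ α).trans (by rw [Fintype.card_fin])
  have h1 : p * #α ≤ (∑ b ∈ range p, rA g p α b) + k * (k * k * D) := by
    rw [sum_rA g hp]
    have h2 : ∀ r ∈ range p, #α ≤ #(α.image fun i => (rd g p i).eval (r : ZMod p)) + (if r ∈ Exc then k else 0) := by
      intro r hr
      split_ifs with hcase
      · omega
      · rw [card_image_of_injOn, add_zero]
        intro i _ j _ hij
        by_contra hne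
        apply hcase
        rw [hExc, mem_filter]
        exact ⟨hr, i, j, fun h => hne (hinj h), hij⟩
    calc p * #α = ∑ _r ∈ range p, #α := by rw [sum_const, card_range, smul_eq_mul]
      _ ≤ ∑ r ∈ range p, (#(α.image fun i => (rd g p i).eval (r : ZMod p)) + (if r ∈ Exc then k else 0)) := sum_le_sum h2
      _ = ∑ r ∈ range p, #(α.image fun i => (rd g p i).eval (r : ZMod p)) + #((range p).filter (fun r => r ∈ Exc)) * k := by
          rw [sum_add_distrib, ← sum_filter, sum_const, smul_eq_mul]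
      _ ≤ ∑ r ∈ range p, #(α.image fun i => (rd g p i).eval (r : ZMod p)) + k * (k * k * D) := by
          refine Nat.add_le_add_left ?_ _
          rw [mul_comm k]
          refine Nat.mul_le_mul_right k (le_trans (card_le_card fun r hr => ?_) hE)
          exact (mem_filter.1 hr).2
  have h3 : (p : ℝ) * #α ≤ (∑ b ∈ range p, (rA g p α b : ℝ)) + k * (k * k * D : ℕ) := by exact_mod_cast h1
  unfold mA
  rw [one_div, sub_le_iff_le_add, ← div_eq_inv_mul, ← add_div, le_div_iff₀ hp0]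
  linarith

/-- the factors of the singular product -/
noncomputable def tA (g : Fin k → ℤ[X]) (p : ℕ) (α : Finset (Fin k)) (b : ℕ) : ℝ :=
  (1 - (rA g p α b : ℝ) / p) / (1 - 1 / (p : ℝ)) ^ #α

lemma log_bound {x : ℝ} (h0 : 0 ≤ x) (h1 : x ≤ 1 / 2) : |Real.log (1 - x) + x| ≤ 2 * x ^ 2 := by
  have h2 : Real.log (1 - x) ≤ -x := by
    have := Real.log_le_sub_one_of_pos (show 0 < 1 - x by linarith)
    linarith
  have h3 : -Real.log (1 - x) ≤ x + 2 * x ^ 2 := by
    rw [← Real.log_inv]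
    have h4 := Real.log_le_sub_one_of_pos (show 0 < (1 - x)⁻¹ by
      have : 0 < 1 - x := by linarith
      positivity)
    refine h4.trans ?_
    have h5 : (1 - x)⁻¹ ≤ 1 + x + 2 * x ^ 2 := by
      rw [inv_le_iff_one_le_mul₀ (by linarith)]
      nlinarith [sq_nonneg x, mul_nonneg (sq_nonneg x) (by linarith : 0 ≤ 1 - 2 * x)]
    linarith
  rw [abs_le]
  constructor <;> linarith [sq_nonneg x]

lemma tA_pos {g : Fin k → ℤ[X]} {D : ℕ} (hD : ∀ i, (g i).natDegree ≤ D) {p : ℕ} (hp : p.Prime) (hN : NC g p)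
    (hpD : 2 * (k * D) < p) (α : Finset (Fin k)) (b : ℕ) : 0 < tA g p α b := by
  have hp0 : (0 : ℝ) < p := by exact_mod_cast hp.pos
  have hp2 : (2 : ℝ) ≤ p := by exact_mod_cast hp.two_le
  unfold tA
  have h1 : (rA g p α b : ℝ) / p < 1 := by
    rw [div_lt_one hp0]
    have := rA_le hD hp hN α b
    exact_mod_cast (by omega : rA g p α b < p)
  have h2 : 1 / (p : ℝ) ≤ 1 / 2 := one_div_le_one_div_of_le (by norm_num) hp2
  have h3 : 0 < 1 - 1 / (p : ℝ) := by linarith
  have h4 : 0 < 1 - (rA g p α b : ℝ) / p := by linarith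
  positivity

lemma log_tA {g : Fin k → ℤ[X]} {D : ℕ} (hD : ∀ i, (g i).natDegree ≤ D) {p : ℕ} (hp : p.Prime) (hN : NC g p)
    (hpD : 2 * (k * D) < p) (α : Finset (Fin k)) (b : ℕ) :
    |Real.log (tA g p α b) + ((rA g p α b : ℝ) - #α) / p| ≤ (2 * (k * D : ℕ) ^ 2 + 2 * k) * (1 / (p : ℝ) ^ 2) := by
  have hp0 : (0 : ℝ) < p := by exact_mod_cast hp.pos
  have hp2 : (2 : ℝ) ≤ p := by exact_mod_cast hp.two_le
  have hr := rA_le hD hp hN α b
  have hrr : (rA g p α b : ℝ) ≤ (k * D : ℕ) := by exact_mod_cast hr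
  have hpDr : 2 * ((k * D : ℕ) : ℝ) < p := by exact_mod_cast hpD
  have h1 : (rA g p α b : ℝ) / p ≤ 1 / 2 := by
    rw [div_le_iff₀ hp0]
    linarith
  have h2 : 1 / (p : ℝ) ≤ 1 / 2 := one_div_le_one_div_of_le (by norm_num) hp2
  have h3 : 0 < 1 - 1 / (p : ℝ) := by linarith
  have h4 : 0 < 1 - (rA g p α b : ℝ) / p := by linarith
  have hα : (#α : ℝ) ≤ k := by
    have : #α ≤ k := (card_le_univ α).trans (by rw [Fintype.card_fin])
    exact_mod_cast this
  unfold tA
  rw [Real.log_div h4.ne' (by positivity), Real.log_pow]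
  have e : Real.log (1 - (rA g p α b : ℝ) / p) - #α * Real.log (1 - 1 / (p : ℝ)) + ((rA g p α b : ℝ) - #α) / p =
      (Real.log (1 - (rA g p α b : ℝ) / p) + (rA g p α b : ℝ) / p) - #α * (Real.log (1 - 1 / (p : ℝ)) + 1 / p) := by
    ring
  rw [e]
  refine (abs_sub _ _).trans ?_
  have h5 := log_bound (by positivity : 0 ≤ (rA g p α b : ℝ) / p) h1
  have h6 := log_bound (by positivity : 0 ≤ 1 / (p : ℝ)) h2
  rw [abs_mul, abs_of_nonneg (by positivity : (0 : ℝ) ≤ #α)]
  have h7 : (#α : ℝ) * |Real.log (1 - 1 / (p : ℝ)) + 1 / p| ≤ k * (2 * (1 / (p : ℝ)) ^ 2) :=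
    mul_le_mul hα h6 (abs_nonneg _) (by positivity)
  have h8 : 2 * ((rA g p α b : ℝ) / p) ^ 2 ≤ 2 * ((k * D : ℕ) : ℝ) ^ 2 * (1 / (p : ℝ) ^ 2) := by
    rw [div_pow]
    have : (rA g p α b : ℝ) ^ 2 ≤ ((k * D : ℕ) : ℝ) ^ 2 := pow_le_pow_left₀ (by positivity) hrr 2
    calc 2 * ((rA g p α b : ℝ) ^ 2 / (p : ℝ) ^ 2) ≤ 2 * (((k * D : ℕ) : ℝ) ^ 2 / (p : ℝ) ^ 2) :=
          mul_le_mul_of_nonneg_left (div_le_div_of_nonneg_right this (by positivity)) (by norm_num)
      _ = _ := by ring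
  calc _ ≤ 2 * ((rA g p α b : ℝ) / p) ^ 2 + k * (2 * (1 / (p : ℝ)) ^ 2) := add_le_add h5 h7
    _ ≤ 2 * ((k * D : ℕ) : ℝ) ^ 2 * (1 / (p : ℝ) ^ 2) + k * (2 * (1 / (p : ℝ)) ^ 2) := by linarith
    _ = _ := by ring

/-- the number of the primes for which two of the reductions coincide -/
lemma bad_count {g : Fin k → ℤ[X]} (hinj : Function.Injective g) {N B : ℕ} (hN : 2 ≤ N)
    (hg : ∀ i j, |(g i).coeff j| ≤ (N : ℤ) ^ B) {s : Finset ℕ} (hs : ∀ p ∈ s, p.Prime ∧ ¬ Function.Injective (rd g p)) :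
    (#s : ℝ) ≤ k * k * (2 * ((B : ℝ) + 1) * Real.log N) := by
  classical
  have hc : ∀ q : Fin k × Fin k, ∃ e : ℕ, q.1 ≠ q.2 → (g q.1).coeff e - (g q.2).coeff e ≠ 0 := by
    intro q
    by_cases hq : q.1 = q.2
    · exact ⟨0, fun h => absurd hq h⟩
    · have hne : g q.1 ≠ g q.2 := fun h => hq (hinj h)
      by_contra hcon
      push Not at hcon
      apply hne
      ext e
      exact sub_eq_zero.1 (hcon e).2
  choose e he using hc
  have hN1 : (1 : ℝ) < N := by exact_mod_cast (by omega : 1 < N)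
  have hN2 : (2 : ℝ) ≤ N := by exact_mod_cast hN
  have hlogN : 0 < Real.log N := Real.log_pos hN1
  have hsub : s ⊆ ((univ : Finset (Fin k × Fin k)).filter fun q => q.1 ≠ q.2).biUnion fun q =>
      ((g q.1).coeff (e q) - (g q.2).coeff (e q)).natAbs.primeFactors := by
    intro p hp
    obtain ⟨hpp, hni⟩ := hs p hp
    have : Fact p.Prime := ⟨hpp⟩
    unfold Function.Injective at hni
    push Not at hni
    obtain ⟨i, j, hij, hne⟩ := hni
    rw [mem_biUnion]
    refine ⟨(i, j), mem_filter.2 ⟨mem_univ _, hne⟩, ?_⟩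
    rw [Nat.mem_primeFactors]
    refine ⟨hpp, ?_, ?_⟩
    · have h1 := congrArg (fun f : (ZMod p)[X] => f.coeff (e (i, j))) hij
      simp only [rd, coeff_map, eq_intCast] at h1
      rw [← Int.natCast_dvd_natCast, Int.dvd_natAbs, ← ZMod.intCast_zmod_eq_zero_iff_dvd]
      push_cast
      rw [h1, sub_self]
    · rw [Int.natAbs_ne_zero]
      exact he (i, j) hne
  have hω : ∀ q ∈ (univ : Finset (Fin k × Fin k)).filter fun q => q.1 ≠ q.2,
      (#(((g q.1).coeff (e q) - (g q.2).coeff (e q)).natAbs.primeFactors) : ℝ) ≤ 2 * ((B : ℝ) + 1) * Real.log N := by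
    intro q hq
    rw [mem_filter] at hq
    obtain ⟨c, hcdef⟩ : ∃ c, c = ((g q.1).coeff (e q) - (g q.2).coeff (e q)).natAbs := ⟨_, rfl⟩
    rw [← hcdef]
    have hc0 : c ≠ 0 := by
      rw [hcdef, Int.natAbs_ne_zero]
      exact he q hq.2
    have hcb : (c : ℝ) ≤ (N : ℝ) ^ (B + 1) := by
      have h1 : ((c : ℕ) : ℤ) ≤ (N : ℤ) ^ (B + 1) := by
        rw [hcdef, Int.natCast_natAbs]
        refine (abs_sub _ _).trans ?_
        have h2 := hg q.1 (e q)
        have h3 := hg q.2 (e q)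
        have h4 : (0 : ℤ) ≤ (N : ℤ) ^ B := by positivity
        have h5 : (2 : ℤ) ≤ N := by exact_mod_cast hN
        rw [pow_succ]
        nlinarith
      exact_mod_cast h1
    have h2 : 2 ^ #c.primeFactors ≤ c := by
      calc 2 ^ #c.primeFactors ≤ ∏ p ∈ c.primeFactors, p := by
            refine Finset.pow_card_le_prod _ _ _ fun p hp => ?_
            exact (Nat.prime_of_mem_primeFactors hp).two_le
        _ ≤ c := Nat.le_of_dvd (Nat.pos_of_ne_zero hc0) (Nat.prod_primeFactors_dvd c)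
    have h3 : ((2 : ℝ)) ^ #c.primeFactors ≤ (N : ℝ) ^ (B + 1) := by
      have : (((2 ^ #c.primeFactors : ℕ)) : ℝ) ≤ c := by exact_mod_cast h2
      push_cast at this
      exact this.trans hcb
    have h4 := Real.log_le_log (by positivity) h3
    rw [Real.log_pow, Real.log_pow] at h4
    have h5 : (1 / 2 : ℝ) ≤ Real.log 2 := by
      have := Real.log_two_gt_d9
      linarith
    have h6 : (#c.primeFactors : ℝ) * (1 / 2) ≤ #c.primeFactors * Real.log 2 :=
      mul_le_mul_of_nonneg_left h5 (by positivity)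
    push_cast at h4
    linarith
  calc (#s : ℝ) ≤ #(((univ : Finset (Fin k × Fin k)).filter fun q => q.1 ≠ q.2).biUnion fun q =>
        ((g q.1).coeff (e q) - (g q.2).coeff (e q)).natAbs.primeFactors) := by exact_mod_cast card_le_card hsub
    _ ≤ ((∑ q ∈ (univ : Finset (Fin k × Fin k)).filter fun q => q.1 ≠ q.2,
        #(((g q.1).coeff (e q) - (g q.2).coeff (e q)).natAbs.primeFactors) : ℕ) : ℝ) := by
        exact_mod_cast card_biUnion_le
    _ ≤ ∑ _q ∈ (univ : Finset (Fin k × Fin k)).filter fun q => q.1 ≠ q.2, 2 * ((B : ℝ) + 1) * Real.log N := by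
        push_cast
        exact sum_le_sum hω
    _ = #((univ : Finset (Fin k × Fin k)).filter fun q => q.1 ≠ q.2) * (2 * ((B : ℝ) + 1) * Real.log N) := by
        rw [sum_const, nsmul_eq_mul]
    _ ≤ k * k * (2 * ((B : ℝ) + 1) * Real.log N) := by
        refine mul_le_mul_of_nonneg_right ?_ (by positivity)
        have : #((univ : Finset (Fin k × Fin k)).filter fun q => q.1 ≠ q.2) ≤ k * k := by
          refine (card_filter_le _ _).trans ?_
          rw [card_univ, Fintype.card_prod, Fintype.card_fin]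
        exact_mod_cast this

end Pool.Agent.L5helper86.UL
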