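import Pool.Agent.L5helper86.UL.Sing

/-! Project UL (helper86): singular products, tails small almost surely, uniformly. -/

set_option autoImplicit false

namespace Pool.Agent.L5helper86.UL

open Finset Polynomial MeasureTheory ProbabilityTheory Filter Topology
open Pool.Agent.L5helper2.BH (pr mem_pr)
open Pool.Agent.L5helper2.RS (bc)

variable {k : ℕ}

/-- the labels from the levels -/
def al (ℓ : Fin k → ℕ) (p : ℕ) : Finset (Fin k) := univ.filter fun i => p ≤ ℓ i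

/-- the cut -/
noncomputable def WW (N : ℕ) : ℕ := ⌈(Real.log N) ^ 4⌉₊

lemma sqrt_WW (N : ℕ) : (Real.log N) ^ 2 ≤ Real.sqrt (WW N) := by
  apply Real.le_sqrt_of_sq_le
  calc ((Real.log N) ^ 2) ^ 2 = (Real.log N) ^ 4 := by ring
    _ ≤ _ := Nat.le_ceil _

lemma WW_tendsto : Tendsto WW atTop atTop := by
  unfold WW
  exact tendsto_nat_ceil_atTop.comp ((tendsto_pow_atTop (by norm_num)).comp
    (Real.tendsto_log_atTop.comp tendsto_natCast_atTop_atTop))

open Classical in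
/-- the primes in `(W, M]` at which `g` is nonconstant -/
noncomputable def tl (g : Fin k → ℤ[X]) (W M : ℕ) : Finset ℕ := (Ioc W M).filter fun p => p.Prime ∧ NC g p

lemma mem_tl {g : Fin k → ℤ[X]} {W M p : ℕ} : p ∈ tl g W M ↔ (W < p ∧ p ≤ M) ∧ p.Prime ∧ NC g p := by
  classical
  unfold tl
  rw [mem_filter, mem_Ioc]

/-- the random part of one tail -/
theorem tail_one {Ω : Type} [MeasurableSpace Ω] {P : Measure Ω} {X : ℕ → Ω → ℕ} (h : Sys P X) {D : ℕ}
    {g : Fin k → ℤ[X]} (hD : ∀ i, (g i).natDegree ≤ D) (α : ℕ → Finset (Fin k)) {W M : ℕ} (hW : 1 ≤ W)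
    (hKW : ((k : ℝ) * D + k) ^ 2 ≤ W) (ε : ℝ) :
    P.real {ω | ε ≤ |∑ p ∈ tl g W M, ((rA g p (α p) (X p ω) : ℝ) - mA g p (α p)) / p|} ≤
      2 * Real.exp (((k : ℝ) * D + k) ^ 2 - ε * Real.sqrt W) := by
  have hP := h.prob
  have hb : ∀ p ∈ tl g W M, ∀ b, |(rA g p (α p) b : ℝ) - mA g p (α p)| ≤ (k : ℝ) * D + k := by
    intro p hp b
    obtain ⟨_, hpp, hNC⟩ := mem_tl.1 hp
    have h1 : (rA g p (α p) b : ℝ) ≤ (k : ℝ) * D := by exact_mod_cast rA_le hD hpp hNC (α p) b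
    have h2 := mA_le g hpp (α p)
    have h3 : (#(α p) : ℝ) ≤ k := by
      have : #(α p) ≤ k := (card_le_univ _).trans (by rw [Fintype.card_fin])
      exact_mod_cast this
    have h4 : (0 : ℝ) ≤ (rA g p (α p) b : ℝ) := by positivity
    have h5 : (0 : ℝ) ≤ (k : ℝ) * D := by positivity
    rw [abs_le]
    constructor <;> linarith [h2.1, h2.2]
  have hm : ∀ p ∈ tl g W M, ∑ b ∈ range p, ((rA g p (α p) b : ℝ) - mA g p (α p)) = 0 := by
    intro p hp
    obtain ⟨_, hpp, _⟩ := mem_tl.1 hp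
    have hp0 : (p : ℝ) ≠ 0 := by exact_mod_cast hpp.ne_zero
    rw [sum_sub_distrib, sum_const, card_range, nsmul_eq_mul]
    unfold mA
    field_simp
    ring
  have hpr : ∀ p ∈ tl g W M, p.Prime := fun p hp => (mem_tl.1 hp).2.1
  have hlt : ∀ p ∈ tl g W M, W < p := fun p hp => (mem_tl.1 hp).1.1
  have h1 := exp_tail h hpr (φ := fun p b => (rA g p (α p) b : ℝ) - mA g p (α p)) (K := (k : ℝ) * D + k)
    (by positivity) hb hm hW hKW hlt ε
  have h2 := exp_tail h hpr (φ := fun p b => -((rA g p (α p) b : ℝ) - mA g p (α p))) (K := (k : ℝ) * D + k)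
    (by positivity) (fun p hp b => by rw [abs_neg]; exact hb p hp b)
    (fun p hp => by rw [sum_neg_distrib, hm p hp, neg_zero]) hW hKW hlt ε
  have hsub : {ω | ε ≤ |∑ p ∈ tl g W M, ((rA g p (α p) (X p ω) : ℝ) - mA g p (α p)) / p|} ⊆
      {ω | ε ≤ ∑ p ∈ tl g W M, ((rA g p (α p) (X p ω) : ℝ) - mA g p (α p)) / p} ∪
      {ω | ε ≤ ∑ p ∈ tl g W M, (-((rA g p (α p) (X p ω) : ℝ) - mA g p (α p))) / p} := by
    intro ω hω
    rw [Set.mem_ofPred_eq, le_abs] at hω
    rcases hω with h3 | h3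
    · exact Or.inl h3
    · right
      rw [Set.mem_ofPred_eq]
      calc ε ≤ -∑ p ∈ tl g W M, ((rA g p (α p) (X p ω) : ℝ) - mA g p (α p)) / p := h3
        _ = _ := by
            rw [← sum_neg_distrib]
            exact sum_congr rfl fun p _ => by ring
  calc _ ≤ P.real ({ω | ε ≤ ∑ p ∈ tl g W M, ((rA g p (α p) (X p ω) : ℝ) - mA g p (α p)) / p} ∪
        {ω | ε ≤ ∑ p ∈ tl g W M, (-((rA g p (α p) (X p ω) : ℝ) - mA g p (α p))) / p}) := measureReal_mono hsub
    _ ≤ _ + _ := measureReal_union_le _ _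
    _ ≤ _ := by linarith

/-- the random part of the tails, almost surely, uniformly -/
theorem tail_as {Ω : Type} [MeasurableSpace Ω] {P : Measure Ω} {X : ℕ → Ω → ℕ} (h : Sys P X)
    (k D B E : ℕ) {ε : ℝ} (hε : 0 < ε) :
    ∀ᵐ ω ∂P, ∀ᶠ N : ℕ in atTop, ∀ g : Fin k → ℤ[X], (∀ i, (g i).natDegree ≤ D) →
      (∀ i j, |(g i).coeff j| ≤ (N : ℤ) ^ B) → ∀ ℓ : Fin k → ℕ, (∀ i, ℓ i ≤ N ^ E) →
      |∑ p ∈ tl g (WW N) (N ^ E), ((rA g p (al ℓ p) (X p ω) : ℝ) - mA g p (al ℓ p)) / p| ≤ ε := by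
  classical
  have hP := h.prob
  obtain ⟨F, hF⟩ : ∃ F : ℕ, F = (B + 2) * (k * (D + 1)) + (E + 1) * k := ⟨_, rfl⟩
  obtain ⟨K, hK⟩ : ∃ K : ℝ, K = (k : ℝ) * D + k := ⟨_, rfl⟩
  obtain ⟨T, hT⟩ : ∃ T : ℕ → Finset ((Fin k × Fin (D + 1) → ℤ) × (Fin k → ℕ)), T = fun N : ℕ =>
    (Fintype.piFinset fun _ : Fin k × Fin (D + 1) => Icc (-(N : ℤ) ^ B) ((N : ℤ) ^ B)) ×ˢ
      (Fintype.piFinset fun _ : Fin k => range (N ^ E + 1)) := ⟨_, rfl⟩
  obtain ⟨G, hG⟩ : ∃ G : ℕ → Set Ω, G = fun N => ⋃ q ∈ T N,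
    {ω | ε ≤ |∑ p ∈ tl (pol q.1) (WW N) (N ^ E), ((rA (pol q.1) p (al q.2 p) (X p ω) : ℝ) - mA (pol q.1) p (al q.2 p)) / p|} :=
    ⟨_, rfl⟩
  have hlogT : Tendsto (fun N : ℕ => Real.log N) atTop atTop := Real.tendsto_log_atTop.comp tendsto_natCast_atTop_atTop
  have hbc : ∀ᵐ ω ∂P, ∀ᶠ N in atTop, ω ∉ G N := by
    refine bc (C := 8 * Real.exp (K ^ 2)) ?_
    filter_upwards [eventually_ge_atTop 3, hlogT.eventually_ge_atTop (((F : ℝ) + 2) / ε),
      WW_tendsto.eventually_ge_atTop (max 1 ⌈K ^ 2⌉₊)] with N hN hlog hWN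
    have hN3 : (3 : ℝ) ≤ N := by exact_mod_cast hN
    have hN0 : (0 : ℝ) < N := by linarith
    have hN1 : (1 : ℝ) ≤ N := by linarith
    have hW1 : 1 ≤ WW N := (le_max_left _ _).trans hWN
    have hWK : K ^ 2 ≤ WW N := (Nat.le_ceil _).trans (by exact_mod_cast (le_max_right _ _).trans hWN)
    have hcardI : (#(Icc (-(N : ℤ) ^ B) ((N : ℤ) ^ B)) : ℝ) ≤ (N : ℝ) ^ (B + 2) := by
      rw [Int.card_Icc]
      have h1 : (((N : ℤ) ^ B + 1 - (-(N : ℤ) ^ B)).toNat : ℤ) = 2 * (N : ℤ) ^ B + 1 := by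
        have h0 : (0 : ℤ) ≤ (N : ℤ) ^ B := by positivity
        rw [Int.toNat_of_nonneg (by linarith)]
        ring
      have h2 : ((((N : ℤ) ^ B + 1 - (-(N : ℤ) ^ B)).toNat : ℕ) : ℝ) = 2 * (N : ℝ) ^ B + 1 := by exact_mod_cast h1
      rw [h2]
      have h3 : (1 : ℝ) ≤ (N : ℝ) ^ B := one_le_pow₀ hN1
      calc 2 * (N : ℝ) ^ B + 1 ≤ 3 * (N : ℝ) ^ B := by linarith
        _ ≤ (N : ℝ) * (N : ℝ) ^ B := mul_le_mul_of_nonneg_right hN3 (by positivity)
        _ ≤ (N : ℝ) * ((N : ℝ) * (N : ℝ) ^ B) := by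
            refine mul_le_mul_of_nonneg_left ?_ hN0.le
            exact le_mul_of_one_le_left (by positivity) hN1
        _ = _ := by ring
    have hcardL : ((N ^ E + 1 : ℕ) : ℝ) ≤ (N : ℝ) ^ (E + 1) := by
      push_cast
      have h3 : (1 : ℝ) ≤ (N : ℝ) ^ E := one_le_pow₀ hN1
      rw [pow_succ]
      nlinarith
    have hcard : (#(T N) : ℝ) ≤ (N : ℝ) ^ F := by
      rw [hT]
      simp only
      rw [card_product, Fintype.card_piFinset, Fintype.card_piFinset]
      simp only [prod_const, card_univ, Fintype.card_prod, Fintype.card_fin, card_range]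
      rw [Nat.cast_mul, Nat.cast_pow, Nat.cast_pow, hF, pow_add, pow_mul (N : ℝ) (B + 2), pow_mul (N : ℝ) (E + 1)]
      exact mul_le_mul (pow_le_pow_left₀ (by positivity) hcardI _) (pow_le_pow_left₀ (by positivity) hcardL _)
        (by positivity) (by positivity)
    rw [hG]
    refine (measureReal_biUnion_finset_le _ _).trans ?_
    calc ∑ q ∈ T N, P.real {ω | ε ≤ |∑ p ∈ tl (pol q.1) (WW N) (N ^ E),
            ((rA (pol q.1) p (al q.2 p) (X p ω) : ℝ) - mA (pol q.1) p (al q.2 p)) / p|} ≤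
          ∑ _q ∈ T N, 2 * Real.exp (K ^ 2 - ε * Real.sqrt (WW N)) := by
          refine sum_le_sum fun q _ => ?_
          have := tail_one h (pol_deg q.1) (al q.2) (W := WW N) (M := N ^ E) hW1 (by rw [← hK]; exact hWK) ε
          rw [← hK] at this
          exact this
      _ = #(T N) * (2 * Real.exp (K ^ 2 - ε * Real.sqrt (WW N))) := by rw [sum_const, nsmul_eq_mul]
      _ ≤ (N : ℝ) ^ F * (2 * Real.exp (K ^ 2 - ε * (Real.log N) ^ 2)) := by
          refine mul_le_mul hcard (mul_le_mul_of_nonneg_left (Real.exp_le_exp.2 ?_) (by norm_num)) (by positivity) (by positivity)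
          have := mul_le_mul_of_nonneg_left (sqrt_WW N) hε.le
          linarith
      _ ≤ 2 * Real.exp (K ^ 2) * (N : ℝ) ^ (-2 : ℝ) := by
          have e1 : (N : ℝ) ^ F = Real.exp (F * Real.log N) := by
            rw [mul_comm, Real.exp_mul, Real.exp_log hN0, Real.rpow_natCast]
          have e2 : (N : ℝ) ^ (-2 : ℝ) = Real.exp (-2 * Real.log N) := by
            rw [mul_comm, Real.exp_mul, Real.exp_log hN0]
          rw [e1, e2]
          have e3 : Real.exp (F * Real.log N) * (2 * Real.exp (K ^ 2 - ε * (Real.log N) ^ 2)) =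
              2 * Real.exp (K ^ 2) * Real.exp (F * Real.log N - ε * (Real.log N) ^ 2) := by
            rw [show K ^ 2 - ε * (Real.log N) ^ 2 = K ^ 2 + (- (ε * (Real.log N) ^ 2)) by ring, Real.exp_add,
              show (F : ℝ) * Real.log N - ε * (Real.log N) ^ 2 = F * Real.log N + (-(ε * (Real.log N) ^ 2)) by ring,
              Real.exp_add]
            ring
          rw [e3]
          refine mul_le_mul_of_nonneg_left (Real.exp_le_exp.2 ?_) (by positivity)
          rw [div_le_iff₀ hε] at hlog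
          have hl0 : 0 ≤ Real.log N := Real.log_nonneg hN1
          nlinarith
      _ ≤ 8 * Real.exp (K ^ 2) / ((N : ℝ) + 1) ^ 2 := by
          rw [Real.rpow_neg hN0.le, Real.rpow_two, le_div_iff₀ (by positivity)]
          have h5 : ((N : ℝ) + 1) ^ 2 ≤ 4 * (N : ℝ) ^ 2 := by nlinarith
          calc 2 * Real.exp (K ^ 2) * ((N : ℝ) ^ 2)⁻¹ * ((N : ℝ) + 1) ^ 2 ≤
                2 * Real.exp (K ^ 2) * ((N : ℝ) ^ 2)⁻¹ * (4 * (N : ℝ) ^ 2) :=
                mul_le_mul_of_nonneg_left h5 (by positivity)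
            _ = 8 * Real.exp (K ^ 2) := by
                field_simp
                norm_num
  filter_upwards [hbc] with ω hω
  filter_upwards [hω] with N hN g hD hg ℓ hℓ
  by_contra hcon
  apply hN
  rw [hG]
  simp only [Set.mem_iUnion]
  refine ⟨(fun q => (g q.1).coeff q.2, ℓ), ?_, ?_⟩
  · rw [hT]
    simp only
    rw [mem_product, Fintype.mem_piFinset, Fintype.mem_piFinset]
    exact ⟨fun q => mem_Icc.2 (abs_le.1 (hg q.1 q.2)), fun i => mem_range.2 (Nat.lt_succ_of_le (hℓ i))⟩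
  · simp only [Set.mem_ofPred_eq]
    rw [← pol_surj hD]
    exact (not_le.1 hcon).le

/-- the deterministic part -/
theorem tail_det (k D B : ℕ) {ε : ℝ} (hε : 0 < ε) : ∀ᶠ N : ℕ in atTop, ∀ g : Fin k → ℤ[X], Function.Injective g →
    (∀ i, (g i).natDegree ≤ D) → (∀ i j, |(g i).coeff j| ≤ (N : ℤ) ^ B) → (∀ p : ℕ, p.Prime → WW N < p → NC g p) →
    ∀ α : ℕ → Finset (Fin k), ∀ b : ℕ → ℕ, ∀ M : ℕ,
    |∑ p ∈ tl g (WW N) M, (Real.log (tA g p (α p) (b p)) + ((rA g p (α p) (b p) : ℝ) - mA g p (α p)) / p)| ≤ ε := by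
  classical
  obtain ⟨C1, hC1⟩ : ∃ C1 : ℝ, C1 = (2 * (k * D : ℕ) ^ 2 + 2 * k) + k * (k * k * D : ℕ) := ⟨_, rfl⟩
  have hC1p : 0 ≤ C1 := by rw [hC1]; positivity
  obtain ⟨C2, hC2⟩ : ∃ C2 : ℝ, C2 = k * (k * k * (2 * ((B : ℝ) + 1))) := ⟨_, rfl⟩
  have hC2p : 0 ≤ C2 := by rw [hC2]; positivity
  have hlogT : Tendsto (fun N : ℕ => Real.log N) atTop atTop := Real.tendsto_log_atTop.comp tendsto_natCast_atTop_atTop
  filter_upwards [eventually_ge_atTop 3, hlogT.eventually_ge_atTop (max 1 ((C1 + C2) / ε)),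
    WW_tendsto.eventually_ge_atTop (2 * (k * D) + 1)] with N hN hlog hWD g hinj hD hg hNC α b M
  have hL1 : 1 ≤ Real.log N := (le_max_left _ _).trans hlog
  have hL2 : (C1 + C2) / ε ≤ Real.log N := (le_max_right _ _).trans hlog
  have hWr : (Real.log N) ^ 4 ≤ (WW N : ℝ) := Nat.le_ceil _
  have hW0 : (0 : ℝ) < WW N := lt_of_lt_of_le (by positivity) hWr
  have hW1 : 1 ≤ WW N := by exact_mod_cast (Nat.cast_pos.1 hW0)
  obtain ⟨bad, hbad⟩ : ∃ bad, bad = (tl g (WW N) M).filter fun p => ¬ Function.Injective (rd g p) := ⟨_, rfl⟩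
  have hbc : (bad.card : ℝ) ≤ k * k * (2 * ((B : ℝ) + 1) * Real.log N) := by
    refine bad_count hinj (by omega) hg fun p hp => ?_
    rw [hbad, mem_filter] at hp
    exact ⟨(mem_tl.1 hp.1).2.1, hp.2⟩
  have hterm : ∀ p ∈ tl g (WW N) M,
      |Real.log (tA g p (α p) (b p)) + ((rA g p (α p) (b p) : ℝ) - mA g p (α p)) / p| ≤
      C1 * (1 / (p : ℝ) ^ 2) + (if p ∈ bad then (k : ℝ) / WW N else 0) := by
    intro p hp
    obtain ⟨⟨hWp, _⟩, hpp, hNCp⟩ := mem_tl.1 hp
    have hp0 : (0 : ℝ) < p := by exact_mod_cast hpp.pos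
    have hWpr : (WW N : ℝ) < p := by exact_mod_cast hWp
    have h1 := log_tA hD hpp hNCp (by omega) (α p) (b p)
    have e : Real.log (tA g p (α p) (b p)) + ((rA g p (α p) (b p) : ℝ) - mA g p (α p)) / p =
        (Real.log (tA g p (α p) (b p)) + ((rA g p (α p) (b p) : ℝ) - #(α p)) / p) + (#(α p) - mA g p (α p)) / p := by
      ring
    rw [e]
    refine (abs_add_le _ _).trans ?_
    have hm := mA_le g hpp (α p)
    have hα : (#(α p) : ℝ) ≤ k := by
      have : #(α p) ≤ k := (card_le_univ _).trans (by rw [Fintype.card_fin])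
      exact_mod_cast this
    have h2 : |(#(α p) - mA g p (α p)) / p| ≤ k * (k * k * D : ℕ) * (1 / (p : ℝ) ^ 2) +
        (if p ∈ bad then (k : ℝ) / WW N else 0) := by
      rw [abs_div, abs_of_pos hp0, abs_of_nonneg (by linarith [hm.2])]
      split_ifs with hcase
      · have h3 : (#(α p) - mA g p (α p)) / p ≤ (k : ℝ) / WW N :=
          div_le_div₀ (by positivity) (by linarith [hm.1]) hW0 hWpr.le
        have h4 : (0 : ℝ) ≤ k * (k * k * D : ℕ) * (1 / (p : ℝ) ^ 2) := by positivity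
        linarith
      · have hin : Function.Injective (rd g p) := by
          by_contra hcon
          apply hcase
          rw [hbad, mem_filter]
          exact ⟨hp, hcon⟩
        have h3 := mA_ge hD hpp hin (α p)
        have h4 : (#(α p) - mA g p (α p)) / p ≤ (k * (k * k * D : ℕ) / p) / p :=
          div_le_div_of_nonneg_right (by linarith) hp0.le
        rw [add_zero]
        refine h4.trans_eq ?_
        field_simp
    have h5 : C1 * (1 / (p : ℝ) ^ 2) = (2 * (k * D : ℕ) ^ 2 + 2 * k) * (1 / (p : ℝ) ^ 2) +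
        k * (k * k * D : ℕ) * (1 / (p : ℝ) ^ 2) := by
      rw [hC1]
      ring
    linarith
  refine (abs_sum_le_sum_abs _ _).trans ((sum_le_sum hterm).trans ?_)
  rw [sum_add_distrib, ← mul_sum]
  have h6 : ∑ p ∈ tl g (WW N) M, 1 / (p : ℝ) ^ 2 ≤ 1 / (WW N : ℝ) :=
    sum_inv_sq hW1 _ fun p hp => (mem_tl.1 hp).1.1
  have h7 : ∑ p ∈ tl g (WW N) M, (if p ∈ bad then (k : ℝ) / WW N else 0) ≤
      k * k * (2 * ((B : ℝ) + 1) * Real.log N) * ((k : ℝ) / WW N) := by
    rw [← sum_filter, sum_const, nsmul_eq_mul]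
    refine mul_le_mul_of_nonneg_right (le_trans ?_ hbc) (by positivity)
    exact_mod_cast card_le_card fun p hp => (mem_filter.1 hp).2
  calc _ ≤ C1 * (1 / (WW N : ℝ)) + k * k * (2 * ((B : ℝ) + 1) * Real.log N) * ((k : ℝ) / WW N) :=
        add_le_add (mul_le_mul_of_nonneg_left h6 hC1p) h7
    _ = (C1 + C2 * Real.log N) / WW N := by
        rw [hC2]
        field_simp
    _ ≤ (C1 + C2 * Real.log N) / (Real.log N) ^ 4 := div_le_div_of_nonneg_left (by positivity) (by positivity) hWr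
    _ ≤ ε := by
        rw [div_le_iff₀ (by positivity)]
        have hL0 : 0 < Real.log N := by linarith
        rw [div_le_iff₀ hε] at hL2
        have h8 : C1 + C2 * Real.log N ≤ (C1 + C2) * Real.log N := by nlinarith
        have h9 : (C1 + C2) * Real.log N ≤ (Real.log N * ε) * Real.log N := mul_le_mul_of_nonneg_right hL2 hL0.le
        have h10 : (Real.log N * ε) * Real.log N ≤ ε * (Real.log N) ^ 4 := by
          have : (Real.log N) ^ 2 ≤ (Real.log N) ^ 4 := pow_le_pow_right₀ hL1 (by norm_num)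
          nlinarith
        linarith

end Pool.Agent.L5helper86.UL
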