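import Pool.Agent.L5helper86.UL.Lower

/-! Project UL (helper86): tails of the singular products, exponential moments. -/

set_option autoImplicit false

namespace Pool.Agent.L5helper86.UL

open Finset Polynomial MeasureTheory ProbabilityTheory Filter Topology
open Pool.Agent.L5helper2.BH (pr mem_pr mn)

lemma sum_inv_sq {w : ℕ} (hw : 1 ≤ w) (s : Finset ℕ) (hs : ∀ p ∈ s, w < p) :
    ∑ p ∈ s, 1 / (p : ℝ) ^ 2 ≤ 1 / (w : ℝ) := by
  obtain ⟨M, hM⟩ : ∃ M : ℕ, M = max w (s.sup id) := ⟨_, rfl⟩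
  have hsub : s ⊆ Ioc w M := by
    intro p hp
    rw [mem_Ioc]
    refine ⟨hs p hp, ?_⟩
    rw [hM]
    exact (le_sup (f := id) hp).trans (le_max_right _ _)
  have h1 := sum_Ioc_inv_sq_le_sub (α := ℝ) (k := w) (n := M) (by omega) (by rw [hM]; exact le_max_left _ _)
  calc ∑ p ∈ s, 1 / (p : ℝ) ^ 2 ≤ ∑ p ∈ Ioc w M, 1 / (p : ℝ) ^ 2 :=
        sum_le_sum_of_subset_of_nonneg hsub fun p _ _ => by positivity
    _ = ∑ i ∈ Ioc w M, ((i : ℝ) ^ 2)⁻¹ := by simp only [one_div]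
    _ ≤ (w : ℝ)⁻¹ - (M : ℝ)⁻¹ := h1
    _ ≤ 1 / w := by
        rw [one_div]
        have : (0 : ℝ) ≤ (M : ℝ)⁻¹ := by positivity
        linarith

lemma exp_le_sq {x : ℝ} (hx : |x| ≤ 1) : Real.exp x ≤ 1 + x + x ^ 2 := by
  have h := Real.abs_exp_sub_one_sub_id_le hx
  rw [abs_le] at h
  linarith [h.2]

/-- the exponential bound -/
theorem exp_tail {Ω : Type} [MeasurableSpace Ω] {P : Measure Ω} {X : ℕ → Ω → ℕ} (h : Sys P X) {s : Finset ℕ}
    (hs : ∀ p ∈ s, p.Prime) {φ : ℕ → ℕ → ℝ} {K : ℝ} (hK : 0 ≤ K) (hφ : ∀ p ∈ s, ∀ b, |φ p b| ≤ K)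
    (hmean : ∀ p ∈ s, ∑ b ∈ range p, φ p b = 0) {w : ℕ} (hw : 1 ≤ w) (hKw : K ^ 2 ≤ w) (hsw : ∀ p ∈ s, w < p)
    (ε : ℝ) : P.real {ω | ε ≤ ∑ p ∈ s, φ p (X p ω) / p} ≤ Real.exp (K ^ 2 - ε * Real.sqrt w) := by
  have hP := h.prob
  have hBH : Pool.Agent.L5helper2.BH.Sys P X := ⟨h.prob, h.meas, h.ind, h.unif⟩
  obtain ⟨l, hl⟩ : ∃ l, l = Real.sqrt w := ⟨_, rfl⟩
  have hw0 : (0 : ℝ) < w := by exact_mod_cast hw
  have hl0 : 0 ≤ l := by rw [hl]; exact Real.sqrt_nonneg _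
  have hl2 : l ^ 2 = w := by rw [hl]; exact Real.sq_sqrt hw0.le
  have hKl : K ≤ l := by
    rw [hl]
    exact Real.le_sqrt_of_sq_le hKw
  -- the mean of one factor
  have hone : ∀ p ∈ s, mn p (fun b => Real.exp (l * φ p b / p)) ≤ Real.exp (l ^ 2 * K ^ 2 * (1 / (p : ℝ) ^ 2)) := by
    intro p hp
    have hpw : (w : ℝ) < p := by exact_mod_cast hsw p hp
    have hp0 : (0 : ℝ) < p := by linarith
    have h1 : ∀ b, Real.exp (l * φ p b / p) ≤ 1 + l * φ p b / p + l ^ 2 * K ^ 2 * (1 / (p : ℝ) ^ 2) := by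
      intro b
      have h2 : |l * φ p b / p| ≤ l * K / p := by
        rw [abs_div, abs_mul, abs_of_nonneg hl0, abs_of_pos hp0]
        exact div_le_div_of_nonneg_right (mul_le_mul_of_nonneg_left (hφ p hp b) hl0) hp0.le
      have h3 : l * K / p ≤ 1 := by
        rw [div_le_one hp0]
        calc l * K ≤ l * l := mul_le_mul_of_nonneg_left hKl hl0
          _ = w := by rw [← hl2]; ring
          _ ≤ p := hpw.le
      have h4 := exp_le_sq (h2.trans h3)
      have h5 : (l * φ p b / p) ^ 2 ≤ l ^ 2 * K ^ 2 * (1 / (p : ℝ) ^ 2) := by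
        rw [← sq_abs]
        calc |l * φ p b / p| ^ 2 ≤ (l * K / p) ^ 2 := pow_le_pow_left₀ (abs_nonneg _) h2 2
          _ = _ := by ring
      linarith
    have h6 : mn p (fun b => Real.exp (l * φ p b / p)) ≤ 1 + l ^ 2 * K ^ 2 * (1 / (p : ℝ) ^ 2) := by
      unfold mn
      calc (1 / (p : ℝ)) * ∑ b ∈ range p, Real.exp (l * φ p b / p) ≤
            (1 / (p : ℝ)) * ∑ b ∈ range p, (1 + l * φ p b / p + l ^ 2 * K ^ 2 * (1 / (p : ℝ) ^ 2)) :=
            mul_le_mul_of_nonneg_left (sum_le_sum fun b _ => h1 b) (by positivity)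
        _ = 1 + l ^ 2 * K ^ 2 * (1 / (p : ℝ) ^ 2) := by
            have e1 : ∑ b ∈ range p, l * φ p b / p = 0 := by
              rw [← sum_div, ← mul_sum, hmean p hp]
              simp
            rw [sum_add_distrib, sum_add_distrib, e1, sum_const, sum_const, card_range, nsmul_eq_mul, nsmul_eq_mul]
            field_simp
            ring
    refine h6.trans ?_
    have := Real.add_one_le_exp (l ^ 2 * K ^ 2 * (1 / (p : ℝ) ^ 2))
    linarith
  have hprod : ∫ ω, ∏ p ∈ s, Real.exp (l * φ p (X p ω) / p) ∂P ≤ Real.exp (K ^ 2) := by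
    rw [hBH.int_prod hs (fun p b => Real.exp (l * φ p b / p))]
    calc ∏ p ∈ s, mn p (fun b => Real.exp (l * φ p b / p)) ≤ ∏ p ∈ s, Real.exp (l ^ 2 * K ^ 2 * (1 / (p : ℝ) ^ 2)) := by
          refine prod_le_prod (fun p _ => ?_) hone
          unfold mn
          exact mul_nonneg (by positivity) (sum_nonneg fun b _ => (Real.exp_pos _).le)
      _ = Real.exp (l ^ 2 * K ^ 2 * ∑ p ∈ s, 1 / (p : ℝ) ^ 2) := by rw [← Real.exp_sum, mul_sum]
      _ ≤ Real.exp (K ^ 2) := by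
          apply Real.exp_le_exp.2
          have h7 := sum_inv_sq hw s hsw
          calc l ^ 2 * K ^ 2 * ∑ p ∈ s, 1 / (p : ℝ) ^ 2 ≤ l ^ 2 * K ^ 2 * (1 / w) :=
                mul_le_mul_of_nonneg_left h7 (by positivity)
            _ = K ^ 2 := by
                rw [hl2]
                field_simp
  have hmeas : Measurable (fun ω => ∏ p ∈ s, Real.exp (l * φ p (X p ω) / p)) :=
    hBH.prod_meas s (fun p b => Real.exp (l * φ p b / p))
  have hbound : ∀ ω, |∏ p ∈ s, Real.exp (l * φ p (X p ω) / p)| ≤ ∏ p ∈ s, Real.exp (l * K / p) := by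
    intro ω
    rw [abs_of_nonneg (prod_nonneg fun p _ => (Real.exp_pos _).le)]
    refine prod_le_prod (fun p _ => (Real.exp_pos _).le) fun p hp => ?_
    apply Real.exp_le_exp.2
    have hp0 : (0 : ℝ) < p := by exact_mod_cast (hs p hp).pos
    exact div_le_div_of_nonneg_right (mul_le_mul_of_nonneg_left ((le_abs_self _).trans (hφ p hp _)) hl0) hp0.le
  have hint : Integrable (fun ω => ∏ p ∈ s, Real.exp (l * φ p (X p ω) / p)) P :=
    Integrable.of_bound hmeas.aestronglyMeasurable _ (Eventually.of_forall fun ω => by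
      rw [Real.norm_eq_abs]
      exact hbound ω)
  have hmk := mul_meas_ge_le_integral_of_nonneg (μ := P) (f := fun ω => ∏ p ∈ s, Real.exp (l * φ p (X p ω) / p))
    (Eventually.of_forall fun ω => prod_nonneg fun p _ => (Real.exp_pos _).le) hint (Real.exp (ε * l))
  have hsub : P.real {ω | ε ≤ ∑ p ∈ s, φ p (X p ω) / p} ≤
      P.real {ω | Real.exp (ε * l) ≤ ∏ p ∈ s, Real.exp (l * φ p (X p ω) / p)} := by
    refine measureReal_mono fun ω hω => ?_
    show Real.exp (ε * l) ≤ ∏ p ∈ s, Real.exp (l * φ p (X p ω) / p)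
    rw [← Real.exp_sum]
    apply Real.exp_le_exp.2
    have h8 : ε ≤ ∑ p ∈ s, φ p (X p ω) / p := hω
    calc ε * l ≤ (∑ p ∈ s, φ p (X p ω) / p) * l := mul_le_mul_of_nonneg_right h8 hl0
      _ = _ := by
          rw [sum_mul]
          refine sum_congr rfl fun p _ => ?_
          ring
  refine hsub.trans ?_
  have h9 := hmk.trans hprod
  rw [← hl, Real.exp_sub, le_div_iff₀ (Real.exp_pos _), mul_comm]
  exact h9

end Pool.Agent.L5helper86.UL
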